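import Pool.Agent.Lib.MP_51bb46_lc.B.Defs

/-!
Alternation depth of formulas.
-/

namespace FrC

open Fr56

/-- Depth of a formula when its outermost block of binary connectives should be of type `b` (`true`:
disjunctions, `false`: conjunctions).  Negations are pushed to the variables (a negation changes the
type of the blocks below it), variables and their negations have depth `0`, and a block of the
opposite type counts as one level more. -/
def alt {X : Type} : Fm X → Bool → ℕ
  | .var _, _ => 0
  | .neg f, b => alt f (!b)
  | .or f g, b => max 1 (max (alt f true) (alt g true)) + (if b then 0 else 1)
  | .and f g, b => max 1 (max (alt f false) (alt g false)) + (if b then 1 else 0)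

/-- Depth of a formula: number of alternating blocks of `∧` and `∨` when negations are pushed to the
variables.  Literals have depth `0`, clauses depth at most `1`, CNFs depth at most `2`. -/
def depth {X : Type} (f : Fm X) : ℕ := min (alt f true) (alt f false)

end FrC
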