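import Pool.Agent.Lib.MP_51bb46_lc.C.Inst

/-!
The final theorem.
-/

set_option linter.unusedSectionVars false

namespace FrC

open Finset Fr56
open scoped Classical

/-- exponential growth -/
theorem lin_lt_two_pow (K M : ℕ) (hM : 4 * K + 4 ≤ M) : K * (M + 1) < 2 ^ M := by
  obtain ⟨b, rfl⟩ : ∃ b, M = 2 * K + b := ⟨M - 2 * K, by omega⟩
  have h1 : 2 * K + 1 ≤ 2 ^ (2 * K) := Nat.lt_two_pow_self
  have h2 : b + 1 ≤ 2 ^ b := Nat.lt_two_pow_self
  have h3 : 2 * K + 4 ≤ b := by omega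
  rw [pow_add]
  have h4 : (2 * K + 1) * (b + 1) ≤ 2 ^ (2 * K) * 2 ^ b := Nat.mul_le_mul h1 h2
  refine lt_of_lt_of_le ?_ h4
  nlinarith

/-- **Exponential lower bound for refutations whose lines are formulas of bounded depth over
arbitrary formulas of superlinear size.** -/
theorem final (d : ℕ) : ∃ (w : ℕ) (c : ℝ) (F : ℕ → Fm ℕ), 0 < c ∧
    (∀ n, (F n).Unsat ∧ (F n).IsCNF w ∧ n ≤ (F n).size) ∧
    ∀ R : List Rule, (∀ r ∈ R, r.Sound) → ∀ b : Fm ℕ, b.Unsat →
      ∃ n0, ∀ n ≥ n0, ∀ π : List (Fm ℕ), IsDerivation R (F n) π → b ∈ π →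
        (∀ A ∈ π, ∃ (B : Fm ℕ) (σ : ℕ → Fm ℕ), A = B.subst σ ∧ depth B ≤ d ∧
          ∀ v, ((σ v).size : ℝ) ≤ ((F n).size : ℝ) ^ (1 + 1 / 20 : ℝ)) →
        (2 : ℝ) ^ (((F n).size : ℝ) ^ c) ≤ ((π.map Fm.size).sum : ℕ) := by
  obtain ⟨w, g, n1, hg, hinst⟩ := inst d
  choose F hF using hinst
  have hg' : (0 : ℝ) < g := by exact_mod_cast hg
  refine ⟨w, 1 / (20000 * (g : ℝ)), fun n => F (n + n1 + 10) (by omega), by positivity,
    fun n => ?_, fun R hR b hb => ?_⟩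
  · obtain ⟨h1, h2, h3, _, _⟩ := hF (n + n1 + 10) (by omega)
    exact ⟨h1, h2, le_trans (by omega) h3⟩
  -- size of the rules
  obtain ⟨C, hC, hCb⟩ : ∃ C, (∀ r ∈ R, r.nodes + 1 ≤ C) ∧ b.size + 1 ≤ C := by
    refine ⟨(R.map fun r => r.nodes + 1).sum + (b.size + 1), fun r hr => ?_, by omega⟩
    have := List.single_le_sum (l := R.map fun r => r.nodes + 1) (by simp) _
      (List.mem_map_of_mem hr)
    omega
  refine ⟨C + 4 * (4040 * g) + 10, fun n hn π hπ hbπ hs => ?_⟩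
  by_contra hlt
  push Not at hlt
  obtain ⟨M, hM⟩ : ∃ M, M = n + n1 + 10 := ⟨_, rfl⟩
  have hMn : n1 ≤ M := by omega
  have hFM : F (n + n1 + 10) (by omega) = F M hMn := by subst hM; rfl
  simp only [hFM] at hπ hs hlt
  obtain ⟨_, _, _, hsz, hmain⟩ := hF M hMn
  have hCM : C ≤ 2 ^ M := by
    have : M < 2 ^ M := Nat.lt_two_pow_self
    omega
  have hFsize : ((F M hMn).size : ℝ) ≤ 2 ^ (4040 * (g * (M + 1))) := by exact_mod_cast hsz
  have hF0 : (0 : ℝ) ≤ (F M hMn).size := by positivity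
  have hmain' := hmain R hR (fun r hr => (hC r hr).trans hCM) b hb (hCb.trans hCM) π hπ hbπ ?_
  · -- the total size
    have h1 : ((F M hMn).size : ℝ) ^ (1 / (20000 * (g : ℝ))) ≤ ((2 ^ (M - 1) : ℕ) : ℝ) := by
      calc ((F M hMn).size : ℝ) ^ (1 / (20000 * (g : ℝ)))
          ≤ ((2 : ℝ) ^ (4040 * (g * (M + 1)))) ^ (1 / (20000 * (g : ℝ))) := by gcongr
        _ ≤ ((2 : ℝ) ^ (20000 * (g * (M - 1)))) ^ (1 / (20000 * (g : ℝ))) := by
            have : 4040 * (g * (M + 1)) ≤ 20000 * (g * (M - 1)) := by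
              have : 4040 * (M + 1) ≤ 20000 * (M - 1) := by omega
              calc 4040 * (g * (M + 1)) = g * (4040 * (M + 1)) := by ring
                _ ≤ g * (20000 * (M - 1)) := Nat.mul_le_mul_left _ this
                _ = 20000 * (g * (M - 1)) := by ring
            gcongr
            norm_num
        _ = ((2 ^ (M - 1) : ℕ) : ℝ) := by
            rw [show 20000 * (g * (M - 1)) = (M - 1) * (20000 * g) by ring, pow_mul,
              ← Real.rpow_natCast (((2 : ℝ) ^ (M - 1))) (20000 * g),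
              ← Real.rpow_mul (by positivity)]
            push_cast
            rw [mul_one_div_cancel (by positivity), Real.rpow_one]
    have h2 : (((π.map Fm.size).sum : ℕ) : ℝ) ≤ (2 : ℝ) ^ ((2 ^ (M - 1) : ℕ) : ℝ) := by
      refine hlt.le.trans ?_
      exact Real.rpow_le_rpow_of_exponent_le (by norm_num) h1
    rw [Real.rpow_natCast] at h2
    have h3 : (π.map Fm.size).sum ≤ 2 ^ 2 ^ (M - 1) := by exact_mod_cast h2
    have h4 : 2 ^ M = 2 * 2 ^ (M - 1) := by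
      rw [← pow_succ', show M - 1 + 1 = M by omega]
    have h5 : 1 ≤ 2 ^ (M - 1) := Nat.one_le_two_pow
    have h6 : 2 ^ 2 ^ (M - 1) ≤ 2 ^ (2 ^ M - 1) := Nat.pow_le_pow_right (by norm_num) (by omega)
    have h7 : 4040 * (g * (M + 1)) < 2 ^ M := by
      have := lin_lt_two_pow (4040 * g) M (by omega)
      rwa [mul_assoc] at this
    have h8 : 2 ^ (4040 * (g * (M + 1))) ≤ 2 ^ (2 ^ M - 1) := Nat.pow_le_pow_right (by norm_num) (by omega)
    have h9 : 2 ^ (2 ^ M) = 2 * 2 ^ (2 ^ M - 1) := by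
      rw [← pow_succ', show 2 ^ M - 1 + 1 = 2 ^ M by omega]
    omega
  · intro A hA
    obtain ⟨B, σ, hAB, hB, hσ⟩ := hs A hA
    refine ⟨B, σ, hAB, hB, fun v => (Fm.leaves_le_size _).trans ?_⟩
    have h1 := hσ v
    have h2 : ((F M hMn).size : ℝ) ^ (1 + 1 / 20 : ℝ) ≤ 2 ^ (4280 * (g * (M + 1))) := by
      calc ((F M hMn).size : ℝ) ^ (1 + 1 / 20 : ℝ)
          ≤ ((2 : ℝ) ^ (4040 * (g * (M + 1)))) ^ (1 + 1 / 20 : ℝ) := by gcongr
        _ = 2 ^ (4242 * (g * (M + 1))) := by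
            rw [show 4040 * (g * (M + 1)) = (202 * (g * (M + 1))) * 20 by ring, pow_mul,
              ← Real.rpow_natCast (((2 : ℝ) ^ (202 * (g * (M + 1))))) 20,
              ← Real.rpow_mul (by positivity)]
            have : ((20 : ℕ) : ℝ) * (1 + 1 / 20) = ((21 : ℕ) : ℝ) := by norm_num
            rw [this, Real.rpow_natCast, ← pow_mul,
              show 202 * (g * (M + 1)) * 21 = 4242 * (g * (M + 1)) by ring]
        _ ≤ 2 ^ (4280 * (g * (M + 1))) := by
            gcongr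
            · norm_num
            · norm_num
    exact_mod_cast h1.trans h2

end FrC
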