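import Pool.Agent.Lib.MP_51bb46_lc.C.Gr
import Pool.Agent.Lib.MP_51bb46_lc.B.Sound

/-!
Frames (graphs with a notion of free vertices), local decision trees, valuations, and the
impossibility of a refutation all whose lines are decided by a valuation.
-/

set_option linter.unusedSectionVars false

namespace FrC

open Finset Fr56
open scoped Classical

/-- For every set `U` of vertices there is a set of free vertices, disjoint from `U`, nonempty and
connected outside `U` as long as `U` has at most `m` elements. -/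
structure Frame {V E : Type} [Fintype E] [DecidableEq V] (G : Gph V E) where
  m : ℕ
  Free : Finset V → V → Prop
  anti : ∀ {U U' : Finset V} {t : V}, U ⊆ U' → Free U' t → Free U t
  disj : ∀ {U : Finset V} {t : V}, Free U t → t ∉ U
  ne : ∀ U : Finset V, U.card ≤ m → ∃ t, Free U t
  conn : ∀ (U : Finset V) (t t' : V), U.card ≤ m → Free U t → Free U t' →
    ∃ γ : E → ZMod 2, G.bd γ = pt t + pt t' ∧ ∀ e ∈ G.inc U, γ e = 0

section
variable {V E : Type} [Fintype E] [DecidableEq V] {G : Gph V E} (Fr : Frame G) (v0 : V)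

/-- `(U, y)` is a state: the boundary of `y` consists of `v0` and a free vertex -/
def Frame.Ok (U : Finset V) (y : E → ZMod 2) : Prop :=
  ∃ t, G.bd y = pt v0 + pt t ∧ Fr.Free U t

/-- `Dec Fr v0 Q k U y`: starting at the state `(U, y)` the value (given by `Q`) can be decided by
revealing at most `k` further vertices, adaptively -/
inductive Dec (Q : Bool → Finset V → (E → ZMod 2) → Prop) : ℕ → Finset V → (E → ZMod 2) → Prop
  | leaf {k : ℕ} {U : Finset V} {y : E → ZMod 2} (b : Bool) (h : Q b U y) : Dec Q k U y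
  | node {k n : ℕ} {U : Finset V} {y : E → ZMod 2} (N : Finset V) (hN : N.card ≤ n)
      (h : ∀ y', G.Agree U y y' → Fr.Ok v0 (U ∪ N) y' → Dec Q k (U ∪ N) y') : Dec Q (n + k) U y

/-- A valuation: `Q f b U y` means that the formula `f` has the local value `b` at the state
`(U, y)`.  Only states with at most `cap` revealed vertices are considered. -/
structure Valn (X : Type) (Φ : Set (Fm X)) (cap : ℕ) where
  Q : Fm X → Bool → Finset V → (E → ZMod 2) → Prop
  mono : ∀ f ∈ Φ, ∀ (b : Bool) (U U' : Finset V) (y y' : E → ZMod 2), U ⊆ U' → U'.card ≤ cap →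
    Q f b U y → G.Agree U y y' → Fr.Ok v0 U' y' → Q f b U' y'
  uniq : ∀ f ∈ Φ, ∀ (U : Finset V) (y : E → ZMod 2), U.card ≤ cap → Fr.Ok v0 U y →
    Q f true U y → Q f false U y → False
  neg : ∀ f, f ∈ Φ → f.neg ∈ Φ → ∀ (b b' : Bool) (U : Finset V) (y : E → ZMod 2), U.card ≤ cap →
    Fr.Ok v0 U y → Q f b U y → Q f.neg b' U y → b' = !b
  and : ∀ f g, f ∈ Φ → g ∈ Φ → f.and g ∈ Φ → ∀ (b b' b'' : Bool) (U : Finset V)
    (y : E → ZMod 2), U.card ≤ cap → Fr.Ok v0 U y → Q f b U y → Q g b' U y →
    Q (f.and g) b'' U y → b'' = (b && b')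
  or : ∀ f g, f ∈ Φ → g ∈ Φ → f.or g ∈ Φ → ∀ (b b' b'' : Bool) (U : Finset V)
    (y : E → ZMod 2), U.card ≤ cap → Fr.Ok v0 U y → Q f b U y → Q g b' U y →
    Q (f.or g) b'' U y → b'' = (b || b')

variable {Fr v0}

/-- every formula of the class is decided by revealing at most `k` vertices -/
def Valn.Dcds {X : Type} {Φ : Set (Fm X)} {cap : ℕ} (S : Valn Fr v0 X Φ cap) (k : ℕ) : Prop :=
  ∀ f ∈ Φ, ∀ y, Fr.Ok v0 ∅ y → Dec Fr v0 (S.Q f) k ∅ y

/-- locally true formulas: never decided to be false by at most `w` vertices -/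
def Valn.True' {X : Type} {Φ : Set (Fm X)} {cap : ℕ} (S : Valn Fr v0 X Φ cap) (w : ℕ)
    (f : Fm X) : Prop :=
  ∀ U y, U.card ≤ w → Fr.Ok v0 U y → ¬ S.Q f false U y

end

end FrC
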