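import Pool.Agent.Lib.MP_51bb46_lc.C.TallA

section

section

/-!
The blow-up: lifts, boundary.
-/

set_option linter.unusedSectionVars false

namespace FrC

open Finset Fr56
open scoped Classical

theorem mix_succ {D : ℕ} (i : Fin D) (a b : A D) :
    mix i a b + Pi.single i (a i + b i) = mix (i + 1) a b := by
  funext k
  rw [Pi.add_apply]
  by_cases hk : k = i
  · subst hk
    simp only [mix, lt_irrefl, if_false, Pi.single_eq_same, Nat.lt_succ_self, if_true]
    rw [← add_assoc, CharTwo.add_self_eq_zero, zero_add]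
  · rw [Pi.single_eq_of_ne hk, add_zero]
    have hk' : k.val ≠ i.val := fun h => hk (Fin.ext h)
    simp only [mix]
    exact if_congr (by omega) rfl rfl

theorem telescope_two (T : ℕ → ZMod 2) (n : ℕ) :
    ∑ i ∈ Finset.range n, (T i + T (i + 1)) = T 0 + T n := by
  induction n with
  | zero => rw [Finset.range_zero, Finset.sum_empty, CharTwo.add_self_eq_zero]
  | succ n ih =>
    rw [Finset.sum_range_succ, ih]
    have := CharTwo.add_self_eq_zero (T n)
    linear_combination this

section
variable {V E : Type} [Fintype V] [Fintype E] [DecidableEq V] [DecidableEq E] (G : Gph V E)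
  {D : ℕ}

theorem Pth_add (a : V → A D) (y z : E → ZMod 2) : Pth G a (y + z) = Pth G a y + Pth G a z := by
  funext x
  simp only [Pth, Pi.add_apply]
  split_ifs <;> simp

theorem Pth_zero (a : V → A D) : Pth G a (0 : E → ZMod 2) = 0 := by
  funext x
  simp [Pth]

theorem mix_zero (a b : A D) : mix 0 a b = a := by
  funext k
  simp [mix]

theorem mix_full (a b : A D) : mix D a b = b := by
  funext k
  simp [mix, k.isLt]

theorem hv_zero (e : E) (w : A D) : hv G e 0 w = .cen (G.src e) w := by
  simp [hv]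

theorem hv_mid (e : E) {i : ℕ} (hi : i ≠ 0) (h : i < D) (w : A D) :
    hv G e i w = .mid e ⟨i, h⟩ w := by
  unfold hv
  rw [if_neg hi, dif_pos h]

theorem hv_full (hD : 0 < D) (e : E) (w : A D) : hv G e D w = .cen (G.tgt e) w := by
  unfold hv
  rw [if_neg (by omega), dif_neg (lt_irrefl _)]

/-- boundary of a lift -/
theorem bd_Pth (hD : 0 < D) (a : V → A D) (y : E → ZMod 2) :
    (G.blow D).bd (Pth G a y) = fun h => ∑ v, G.bd y v * pt (ctr a v) h := by
  funext h
  -- the right hand side
  have hR : ∑ v, G.bd y v * pt (ctr a v) h =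
      ∑ e : E, y e * (pt (ctr a (G.src e)) h + pt (ctr a (G.tgt e)) h) := by
    simp only [Gph.bd, Finset.sum_mul]
    rw [Finset.sum_comm]
    refine Finset.sum_congr rfl fun e _ => ?_
    simp only [add_mul, Finset.sum_add_distrib, ite_mul, zero_mul, Finset.sum_ite_eq,
      Finset.mem_univ, if_true]
    ring
  rw [hR]
  unfold Gph.bd
  rw [← Equiv.sum_comp (Xt.equiv E D), Fintype.sum_prod_type]
  refine Finset.sum_congr rfl fun e _ => ?_
  rw [Fintype.sum_prod_type]
  set a1 := a (G.src e) with ha1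
  set a2 := a (G.tgt e) with ha2
  let T : ℕ → ZMod 2 := fun n => if hv G e n (mix n a1 a2) = h then 1 else 0
  have hstep : ∀ i : Fin D, ∑ q : A D × ZMod 2,
      ((if (G.blow D).src (Xt.equiv E D (e, i, q)) = h then
          Pth G a y (Xt.equiv E D (e, i, q)) else 0) +
        (if (G.blow D).tgt (Xt.equiv E D (e, i, q)) = h then
          Pth G a y (Xt.equiv E D (e, i, q)) else 0)) =
      y e * (T i + T (i + 1)) := by
    intro i
    rw [Finset.sum_eq_single (mix i a1 a2, a1 i + a2 i)]
    · have hl : live G a (Xt.equiv E D (e, i, mix i a1 a2, a1 i + a2 i)) := ⟨rfl, rfl⟩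
      have h1 : Pth G a y (Xt.equiv E D (e, i, mix i a1 a2, a1 i + a2 i)) = y e := by
        unfold Pth
        rw [if_pos hl]
        rfl
      have h2 : (G.blow D).src (Xt.equiv E D (e, i, mix i a1 a2, a1 i + a2 i)) =
          hv G e i (mix i a1 a2) := rfl
      have h3 : (G.blow D).tgt (Xt.equiv E D (e, i, mix i a1 a2, a1 i + a2 i)) =
          hv G e (i + 1) (mix (i + 1) a1 a2) := by
        rw [← mix_succ]
        rfl
      rw [h1, h2, h3]
      simp only [T]
      split_ifs <;> ring
    · rintro ⟨w, d⟩ _ hne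
      have hl : ¬ live G a (Xt.equiv E D (e, i, w, d)) := by
        rintro ⟨h1, h2⟩
        apply hne
        exact Prod.ext h1 h2
      have h1 : Pth G a y (Xt.equiv E D (e, i, w, d)) = 0 := by
        unfold Pth
        rw [if_neg hl]
      rw [h1]
      simp
    · intro h'
      exact absurd (Finset.mem_univ _) h'
  rw [Finset.sum_congr rfl fun i _ => hstep i, ← Finset.mul_sum]
  congr 1
  rw [Fin.sum_univ_eq_sum_range (fun i => T i + T (i + 1)) D, telescope_two]
  simp only [T]
  rw [hv_zero, hv_full G hD, mix_zero, mix_full]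
  simp only [pt, ctr, Pi.single_apply]
  congr 1
  · exact if_congr eq_comm rfl rfl
  · exact if_congr eq_comm rfl rfl

theorem bd_Pth_closed (hD : 0 < D) (a : V → A D) (y : E → ZMod 2) (hy : G.bd y = 0) :
    (G.blow D).bd (Pth G a y) = 0 := by
  rw [bd_Pth G hD, hy]
  funext h
  simp

theorem bd_Pth_path (hD : 0 < D) (a : V → A D) (y : E → ZMod 2) (s t : V)
    (hy : G.bd y = pt s + pt t) :
    (G.blow D).bd (Pth G a y) = pt (ctr a s) + pt (ctr a t) := by
  rw [bd_Pth G hD, hy]
  funext h
  simp only [Pi.add_apply, add_mul, Finset.sum_add_distrib, pt, Pi.single_apply, ite_mul, one_mul,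
    zero_mul, Finset.sum_ite_eq', Finset.mem_univ, if_true]

theorem noLoop_blow (hD : 0 < D) (h : G.NoLoop) : (G.blow D).NoLoop := by
  intro x hx
  have h1 : hv G x.e x.i x.w = hv G x.e (x.i + 1) (x.w + Pi.single x.i x.d) := hx
  by_cases hi : (x.i : ℕ) = 0
  · rw [hi, hv_zero] at h1
    by_cases h2 : 0 + 1 < D
    · rw [hv_mid G _ (Nat.succ_ne_zero _) h2] at h1
      cases h1
    · have h3 : 0 + 1 = D := by omega
      rw [h3, hv_full G hD] at h1
      injection h1 with e1 _
      exact h x.e e1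
  · rw [hv_mid G _ hi x.i.isLt] at h1
    by_cases h2 : (x.i : ℕ) + 1 < D
    · rw [hv_mid G _ (Nat.succ_ne_zero _) h2] at h1
      injection h1 with _ e2 _
      have e3 := congrArg Fin.val e2
      simp at e3
    · have h3 : (x.i : ℕ) + 1 = D := by have := x.i.isLt; omega
      rw [h3, hv_full G hD] at h1
      cases h1

/-- liveness of `x` depends only on `a` at the endpoints of the base edge of `x` -/
theorem live_congr {a b : V → A D} {x : Xt E D} (h1 : a (G.src x.e) = b (G.src x.e))
    (h2 : a (G.tgt x.e) = b (G.tgt x.e)) : live G a x ↔ live G b x := by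
  unfold live
  rw [h1, h2]

theorem Tch_congr {a b : V → A D} {W : Finset (HV V E D)} {e : E}
    (h1 : a (G.src e) = b (G.src e)) (h2 : a (G.tgt e) = b (G.tgt e)) :
    Tch G a W e ↔ Tch G b W e := by
  constructor
  · rintro ⟨x, rfl, hx, hx'⟩
    exact ⟨x, rfl, (live_congr G h1 h2).1 hx, hx'⟩
  · rintro ⟨x, rfl, hx, hx'⟩
    exact ⟨x, rfl, (live_congr G h1 h2).2 hx, hx'⟩

/-- the lift of `y` depends only on `a` at the endpoints of the support of `y` -/
theorem Pth_congr {a b : V → A D} {y : E → ZMod 2}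
    (h : ∀ e, y e ≠ 0 → a (G.src e) = b (G.src e) ∧ a (G.tgt e) = b (G.tgt e)) :
    Pth G a y = Pth G b y := by
  funext x
  by_cases hy : y x.e = 0
  · simp [Pth, hy]
  · unfold Pth
    exact if_congr (live_congr G (h _ hy).1 (h _ hy).2) rfl rfl

/-- different translates of a path have no edge in common -/
theorem live_translate (s : V → A D) (j j' : A D) (x : Xt E D)
    (h : live G (fun v => j + s v) x) (h' : live G (fun v => j' + s v) x) : j = j' := by
  have h1 := h.1
  have h2 := h'.1
  rw [h1] at h2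
  funext k
  have h3 := congrFun h2 k
  simp only [mix, Pi.add_apply] at h3
  split_ifs at h3
  · exact add_right_cancel h3
  · exact add_right_cancel h3

/-- a live edge ends in a center only at the chosen center over an endpoint of its base edge, and
the middle vertices are over the same base edge -/
theorem live_ends {a : V → A D} {x : Xt E D} (hx : live G a x) (h : HV V E D)
    (hh : (G.blow D).src x = h ∨ (G.blow D).tgt x = h) :
    (∃ v, h = ctr a v ∧ (G.src x.e = v ∨ G.tgt x.e = v)) ∨ ∃ i w, h = .mid x.e i w := by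
  have hD : 0 < D := lt_of_le_of_lt (Nat.zero_le _) x.i.isLt
  rcases hh with hh | hh
  · change hv G x.e x.i x.w = h at hh
    by_cases hi : (x.i : ℕ) = 0
    · rw [hx.1, hi, hv_zero, mix_zero] at hh
      exact Or.inl ⟨G.src x.e, hh.symm, Or.inl rfl⟩
    · rw [hv_mid G _ hi x.i.isLt] at hh
      exact Or.inr ⟨_, _, hh.symm⟩
  · change hv G x.e (x.i + 1) (x.w + Pi.single x.i x.d) = h at hh
    rw [hx.1, hx.2, mix_succ] at hh
    by_cases h2 : (x.i : ℕ) + 1 < D
    · rw [hv_mid G _ (Nat.succ_ne_zero _) h2] at hh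
      exact Or.inr ⟨_, _, hh.symm⟩
    · have h3 : (x.i : ℕ) + 1 = D := by have := x.i.isLt; omega
      rw [h3, hv_full G hD, mix_full] at hh
      exact Or.inl ⟨G.tgt x.e, hh.symm, Or.inr rfl⟩

/-- the center chosen over an endpoint of `e` is an endpoint of a live edge over `e` -/
theorem exists_live_end (hD : 0 < D) (a : V → A D) (e : E) (v : V)
    (hv : G.src e = v ∨ G.tgt e = v) :
    ∃ x : Xt E D, x.e = e ∧ live G a x ∧
      ((G.blow D).src x = ctr a v ∨ (G.blow D).tgt x = ctr a v) := by
  rcases hv with rfl | rfl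
  · refine ⟨⟨e, ⟨0, hD⟩, mix 0 (a (G.src e)) (a (G.tgt e)),
      a (G.src e) ⟨0, hD⟩ + a (G.tgt e) ⟨0, hD⟩⟩, rfl, ⟨rfl, rfl⟩, Or.inl ?_⟩
    change FrC.hv G e 0 (mix 0 (a (G.src e)) (a (G.tgt e))) = _
    rw [hv_zero, mix_zero]
    rfl
  · have hlt : D - 1 < D := by omega
    refine ⟨⟨e, ⟨D - 1, hlt⟩, mix (D - 1) (a (G.src e)) (a (G.tgt e)),
      a (G.src e) ⟨D - 1, hlt⟩ + a (G.tgt e) ⟨D - 1, hlt⟩⟩, rfl, ⟨rfl, rfl⟩, Or.inr ?_⟩
    change FrC.hv G e (D - 1 + 1) (mix (D - 1) (a (G.src e)) (a (G.tgt e)) +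
      Pi.single ⟨D - 1, hlt⟩ (a (G.src e) ⟨D - 1, hlt⟩ + a (G.tgt e) ⟨D - 1, hlt⟩)) = _
    have h1 := mix_succ (⟨D - 1, hlt⟩ : Fin D) (a (G.src e)) (a (G.tgt e))
    simp only at h1
    rw [h1]
    have h2 : D - 1 + 1 = D := by omega
    rw [h2, hv_full G hD, mix_full]
    rfl

end

end FrC
end

section

/-!
The blow-up: degrees, cardinalities, the vertices below a set of vertices of the blow-up.
-/

set_option linter.unusedSectionVars false

namespace FrC

open Finset Fr56
open scoped Classical

private theorem mem_nbh_iff' {V E : Type} [Fintype V] [DecidableEq V] (G : Gph V E)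
    (S : Finset V) (v : V) :
    v ∈ G.nbh S ↔ v ∈ S ∨ ∃ e, (G.src e = v ∧ G.tgt e ∈ S) ∨ (G.tgt e = v ∧ G.src e ∈ S) := by
  unfold Gph.nbh
  rw [mem_filter]
  exact ⟨fun h => h.2, fun h => ⟨mem_univ _, h⟩⟩

section
variable {V E : Type} [Fintype V] [Fintype E] [DecidableEq V] [DecidableEq E] (G : Gph V E)
  {D : ℕ}

private theorem hvb_bot (e : E) {i : ℕ} (h0 : i = 0) (w : A D) :
    (hv G e i w : HV V E D) = .cen (G.src e) w := by
  unfold hv; rw [if_pos h0]

private theorem hvb_mid (e : E) {i : ℕ} (h0 : i ≠ 0) (h : i < D) (w : A D) :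
    (hv G e i w : HV V E D) = .mid e ⟨i, h⟩ w := by
  unfold hv; rw [if_neg h0, dif_pos h]

private theorem hvb_top (e : E) {i : ℕ} (h0 : i ≠ 0) (h : ¬ i < D) (w : A D) :
    (hv G e i w : HV V E D) = .cen (G.tgt e) w := by
  unfold hv; rw [if_neg h0, dif_neg h]

private theorem mem_star_blow (h : HV V E D) (u : Xt E D) :
    u ∈ (G.blow D).star h ↔ hv G u.e u.i u.w = h ∨
      hv G u.e (u.i + 1) (u.w + Pi.single u.i u.d) = h := by
  simp [Gph.star, Gph.blow]

private theorem card_out_add_in (hl : G.NoLoop) (v : V) :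
    (univ.filter fun e => G.src e = v).card + (univ.filter fun e => G.tgt e = v).card
      = (G.star v).card := by
  unfold Gph.star
  rw [Finset.filter_or, Finset.card_union_of_disjoint]
  rw [Finset.disjoint_left]
  intro e h1 h2
  simp only [mem_filter, mem_univ, true_and] at h1 h2
  exact hl e (h1.trans h2.symm)

theorem deg_blow (hl : G.NoLoop) {Δ : ℕ} (hΔ : 2 ≤ Δ) (h : G.Deg Δ) :
    (G.blow D).Deg (2 * Δ) := by
  intro p
  cases p with
  | cen v w =>
    rcases Nat.eq_zero_or_pos D with hD | hD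
    · subst hD
      have h0 : (G.blow 0).star (HV.cen v w) = ∅ := by
        apply Finset.eq_empty_of_forall_notMem
        intro x _
        exact x.i.elim0
      rw [h0]; simp
    set i0 : Fin D := ⟨0, by omega⟩ with hi0
    set i1 : Fin D := ⟨D - 1, by omega⟩ with hi1
    have hsub : (G.blow D).star (HV.cen v w) ⊆
        ((univ.filter fun e => G.src e = v) ×ˢ (univ : Finset (ZMod 2))).image
          (fun q => (⟨q.1, i0, w, q.2⟩ : Xt E D)) ∪
        ((univ.filter fun e => G.tgt e = v) ×ˢ (univ : Finset (ZMod 2))).image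
          (fun q => (⟨q.1, i1, w - Pi.single i1 q.2, q.2⟩ : Xt E D)) := by
      intro u hu
      rw [mem_star_blow] at hu
      rw [mem_union, mem_image, mem_image]
      rcases hu with hu | hu
      · left
        by_cases c1 : (u.i : ℕ) = 0
        · rw [hvb_bot G _ c1] at hu
          simp only [HV.cen.injEq] at hu
          refine ⟨(u.e, u.d), by simp [hu.1], ?_⟩
          have h5 : i0 = u.i := by apply Fin.ext; simp [hi0, c1]
          ext1
          · rfl
          · exact h5
          · exact hu.2.symm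
          · rfl
        · rw [hvb_mid G _ c1 u.i.2] at hu
          simp at hu
      · right
        by_cases c1 : (u.i : ℕ) + 1 < D
        · rw [hvb_mid G _ (by omega) c1] at hu
          simp at hu
        · rw [hvb_top G _ (by omega) c1] at hu
          simp only [HV.cen.injEq] at hu
          refine ⟨(u.e, u.d), by simp [hu.1], ?_⟩
          have h5 : i1 = u.i := by
            apply Fin.ext
            have := u.i.2
            simp only [hi1]
            omega
          ext1
          · rfl
          · exact h5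
          · simp only [h5, ← hu.2]; simp
          · rfl
    have h1 := card_le_card hsub
    have h2 := (h1.trans (card_union_le _ _)).trans
      (add_le_add (card_image_le) (card_image_le))
    simp only [card_product] at h2
    have h3 : (univ : Finset (ZMod 2)).card = 2 := rfl
    rw [h3] at h2
    have h4 := card_out_add_in G hl v
    have h5 := h v
    omega
  | mid e i w =>
    have hi : i.1 - 1 < D := by omega
    have hsub : (G.blow D).star (HV.mid e i w) ⊆
        (univ : Finset (ZMod 2)).image (fun q => (⟨e, i, w, q⟩ : Xt E D)) ∪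
        (univ : Finset (ZMod 2)).image
          (fun q => (⟨e, ⟨i.1 - 1, hi⟩, w - Pi.single ⟨i.1 - 1, hi⟩ q, q⟩ : Xt E D)) := by
      intro u hu
      rw [mem_star_blow] at hu
      rw [mem_union, mem_image, mem_image]
      rcases hu with hu | hu
      · left
        refine ⟨u.d, mem_univ _, ?_⟩
        by_cases c1 : (u.i : ℕ) = 0
        · rw [hvb_bot G _ c1] at hu
          simp at hu
        · rw [hvb_mid G _ c1 u.i.2] at hu
          simp only [HV.mid.injEq] at hu
          obtain ⟨h1, h2, h3⟩ := hu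
          ext1
          · exact h1.symm
          · exact h2.symm
          · exact h3.symm
          · rfl
      · right
        refine ⟨u.d, mem_univ _, ?_⟩
        by_cases c1 : (u.i : ℕ) + 1 < D
        · rw [hvb_mid G _ (by omega) c1] at hu
          simp only [HV.mid.injEq] at hu
          obtain ⟨h1, h2, h3⟩ := hu
          have h5 : (⟨i.1 - 1, hi⟩ : Fin D) = u.i := by
            apply Fin.ext
            simp only [← h2]
            omega
          ext1
          · exact h1.symm
          · exact h5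
          · simp only [h5, ← h3]; simp
          · rfl
        · rw [hvb_top G _ (by omega) c1] at hu
          simp at hu
    have h1 := card_le_card hsub
    have h2 := (h1.trans (card_union_le _ _)).trans
      (add_le_add (card_image_le) (card_image_le))
    have h3 : (univ : Finset (ZMod 2)).card = 2 := rfl
    rw [h3] at h2
    omega

theorem card_Xt : Fintype.card (Xt E D) = Fintype.card E * (D * (2 ^ D * 2)) := by
  rw [← Fintype.card_congr (Xt.equiv E D)]
  simp only [Fintype.card_prod, Fintype.card_fun, ZMod.card, Fintype.card_fin]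

theorem card_HV : Fintype.card (HV V E D) =
    Fintype.card V * 2 ^ D + Fintype.card E * (D * 2 ^ D) := by
  rw [← Fintype.card_congr (HV.equiv V E D)]
  simp only [Fintype.card_sum, Fintype.card_prod, Fintype.card_fun, ZMod.card, Fintype.card_fin]

/-- the base edges near a vertex of the blow-up -/
private noncomputable def nearE : HV V E D → Finset E
  | .cen v _ => G.star v
  | .mid e _ _ => {e}

theorem card_cov {Δ : ℕ} (hΔ : 1 ≤ Δ) (h : G.Deg Δ) (a : V → A D) (W : Finset (HV V E D)) :
    (cov G a W).card ≤ Δ * W.card := by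
  have hsub : cov G a W ⊆ W.biUnion (nearE G) := by
    intro e he
    unfold cov at he
    rw [mem_filter] at he
    obtain ⟨x, hxe, hx, hW⟩ := he.2
    have key : ∀ p : HV V E D, p ∈ W → ((G.blow D).src x = p ∨ (G.blow D).tgt x = p) →
        e ∈ W.biUnion (nearE G) := by
      intro p hp hxp
      rw [mem_biUnion]
      refine ⟨p, hp, ?_⟩
      rcases live_ends G hx p hxp with ⟨v, hv1, hv2⟩ | ⟨i, w, hm⟩
      · rw [hv1, ← hxe]
        simp only [nearE, ctr, Gph.star, mem_filter, mem_univ, true_and]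
        exact hv2
      · rw [hm, hxe]
        simp [nearE]
    rcases hW with hW | hW
    · exact key _ hW (Or.inl rfl)
    · exact key _ hW (Or.inr rfl)
  refine (card_le_card hsub).trans ?_
  refine (card_biUnion_le_card_mul _ _ Δ ?_).trans (by rw [mul_comm])
  intro p _
  cases p with
  | cen v w => exact h v
  | mid e i w => simpa [nearE] using hΔ

end

section
variable {V E : Type} [Fintype V] [Fintype E] [DecidableEq V] [DecidableEq E] (G : Gph V E)
  {Q D : ℕ}

theorem card_Unc (Y : Finset (HV (TV V Q) (TE V E Q) D)) : (Unc G Q Y).card ≤ 2 * Y.card := by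
  unfold Unc
  refine (card_biUnion_le_card_mul _ _ 2 ?_).trans (by rw [mul_comm])
  intro p _
  cases p with
  | cen v w => simp [plh]
  | mid e i w => exact card_le_two

/-- the edges of the tall graph whose paths touch `W` lie over neighbours of `Unc W` -/
theorem plc_cov_subset (a : TV V Q → A D) (W : Finset (HV (TV V Q) (TE V E Q) D)) :
    plc G Q (cov (G.tall Q) a W) ⊆ G.nbh (Unc G Q W) := by
  intro v hv
  unfold plc at hv
  rw [mem_biUnion] at hv
  obtain ⟨e, he, hve⟩ := hv
  unfold cov at he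
  rw [mem_filter] at he
  obtain ⟨x, hxe, hx, hW⟩ := he.2
  rw [mem_insert, mem_singleton] at hve
  have key : ∀ p : HV (TV V Q) (TE V E Q) D, p ∈ W →
      (((G.tall Q).blow D).src x = p ∨ ((G.tall Q).blow D).tgt x = p) →
      v ∈ G.nbh (Unc G Q W) := by
    intro p hp hxp
    rw [mem_nbh_iff']
    rcases live_ends (G.tall Q) hx p hxp with ⟨u, hu1, hu2⟩ | ⟨i, w, hm⟩
    · have hu : u.1 ∈ Unc G Q W := by
        unfold Unc
        rw [mem_biUnion]
        refine ⟨p, hp, ?_⟩
        rw [hu1]
        simp [ctr, plh]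
      rw [hxe] at hu2
      rcases e with ⟨e0, l⟩ | ⟨v', i⟩
      · have h1 : ((G.tall Q).src (Sum.inl (e0, l))) = (G.src e0, l) := rfl
        have h2 : ((G.tall Q).tgt (Sum.inl (e0, l))) = (G.tgt e0, l) := rfl
        rw [h1, h2] at hu2 hve
        rcases hu2 with hu2 | hu2
        · rw [← hu2] at hu
          rcases hve with hve | hve
          · left; rw [hve]; exact hu
          · right; exact ⟨e0, Or.inr ⟨hve.symm, hu⟩⟩
        · rw [← hu2] at hu
          rcases hve with hve | hve
          · right; exact ⟨e0, Or.inl ⟨hve.symm, hu⟩⟩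
          · left; rw [hve]; exact hu
      · have h1 : ((G.tall Q).src (Sum.inr (v', i))) = (v', i.castSucc) := rfl
        have h2 : ((G.tall Q).tgt (Sum.inr (v', i))) = (v', i.succ) := rfl
        rw [h1, h2] at hu2 hve
        left
        have hv' : v = v' := by rcases hve with hve | hve <;> exact hve
        rw [hv']
        rcases hu2 with hu2 | hu2
        · rw [← hu2] at hu; exact hu
        · rw [← hu2] at hu; exact hu
    · left
      unfold Unc
      rw [mem_biUnion]
      refine ⟨p, hp, ?_⟩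
      rw [hm, hxe]
      simp only [plh, mem_insert, mem_singleton]
      exact hve
  rcases hW with hW | hW
  · exact key _ hW (Or.inl rfl)
  · exact key _ hW (Or.inr rfl)

/-- a lift vanishes at the edges touching `Y` if the chain vanishes near `Unc Y` -/
theorem Pth_eq_zero_of_Unc (a : TV V Q → A D) (z : TE V E Q → ZMod 2)
    (Y : Finset (HV (TV V Q) (TE V E Q) D)) (hz : ∀ x ∈ incT G Q (Unc G Q Y), z x = 0)
    (u : Xt (TE V E Q) D) (hu : u ∈ ((G.tall Q).blow D).inc Y) : Pth (G.tall Q) a z u = 0 := by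
  unfold Pth
  by_cases hx : live (G.tall Q) a u
  · rw [if_pos hx]
    apply hz
    have key : ∀ p : HV (TV V Q) (TE V E Q) D, p ∈ Y →
        (((G.tall Q).blow D).src u = p ∨ ((G.tall Q).blow D).tgt u = p) →
        u.e ∈ incT G Q (Unc G Q Y) := by
      intro p hp hxp
      rcases live_ends (G.tall Q) hx p hxp with ⟨t, hu1, hu2⟩ | ⟨i, w, hm⟩
      · have ht : t.1 ∈ Unc G Q Y := by
          unfold Unc
          rw [mem_biUnion]
          refine ⟨p, hp, ?_⟩
          rw [hu1]
          simp [ctr, plh]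
        rcases hu2 with hu2 | hu2
        · left
          rw [hu2]; exact ht
        · right
          rw [hu2]; exact ht
      · left
        unfold Unc
        rw [mem_biUnion]
        refine ⟨p, hp, ?_⟩
        rw [hm]
        simp [plh]
    rcases hu with hu | hu
    · exact key _ hu (Or.inl rfl)
    · exact key _ hu (Or.inr rfl)
  · rw [if_neg hx]

private theorem exists_bd_fiber_ne (hD : 0 < D) (v : V) (l l' : Fin (Q + 1)) (hll : l ≠ l')
    (w w' : A D) :
    ∃ γ : Xt (TE V E Q) D → ZMod 2, ((G.tall Q).blow D).bd γ =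
        pt (HV.cen (v, l) w) + pt (HV.cen (v, l') w') ∧
      ∀ Y : Finset (HV (TV V Q) (TE V E Q) D), v ∉ Unc G Q Y →
        ∀ u ∈ ((G.tall Q).blow D).inc Y, γ u = 0 := by
  have hne : ((v, l') : TV V Q) ≠ (v, l) := fun h => hll (Prod.mk.inj h).2.symm
  set a : TV V Q → A D := fun u => if u = (v, l) then w else if u = (v, l') then w' else 0 with ha
  set z : TE V E Q → ZMod 2 := col v l + col v l' with hz
  have hbz : (G.tall Q).bd z = pt (v, l) + pt (v, l') := by
    rw [hz, Gph.bd_add, bd_col, bd_col]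
    have h0 := add_self2 (pt ((v, 0) : TV V Q))
    calc pt (v, 0) + pt (v, l) + (pt (v, 0) + pt (v, l'))
        = (pt (v, 0) + pt (v, 0)) + (pt (v, l) + pt (v, l')) := by ring
      _ = pt (v, l) + pt (v, l') := by rw [h0, zero_add]
  refine ⟨Pth (G.tall Q) a z, ?_, ?_⟩
  · rw [bd_Pth_path (G.tall Q) hD a z _ _ hbz]
    have h1 : ctr a (v, l) = (HV.cen (v, l) w : HV (TV V Q) (TE V E Q) D) := by
      simp [ctr, ha]
    have h2 : ctr a (v, l') = (HV.cen (v, l') w' : HV (TV V Q) (TE V E Q) D) := by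
      simp only [ctr, ha, if_neg hne, if_true]
    rw [h1, h2]
  · intro Y hY u hu
    apply Pth_eq_zero_of_Unc G a z Y _ u hu
    intro x hx
    by_contra hcon
    have hsupp : ((G.tall Q).src x).1 = v ∧ ((G.tall Q).tgt x).1 = v := by
      by_cases hc1 : (col v l : TE V E Q → ZMod 2) x = 0
      · by_cases hc2 : (col v l' : TE V E Q → ZMod 2) x = 0
        · exfalso
          apply hcon
          rw [hz, Pi.add_apply, hc1, hc2, add_zero]
        · exact col_supp G _ _ _ hc2
      · exact col_supp G _ _ _ hc1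
    rcases hx with hx | hx
    · rw [hsupp.1] at hx; exact hY hx
    · rw [hsupp.2] at hx; exact hY hx

/-- the centers over the fiber of a vertex are connected by chains over that fiber; in particular by
chains avoiding each set `Y` with that vertex not in `Unc Y` -/
theorem exists_bd_fiber (hQ : 0 < Q) (hD : 0 < D) (v : V) (l l' : Fin (Q + 1)) (w w' : A D) :
    ∃ γ : Xt (TE V E Q) D → ZMod 2, ((G.tall Q).blow D).bd γ =
        pt (HV.cen (v, l) w) + pt (HV.cen (v, l') w') ∧
      ∀ Y : Finset (HV (TV V Q) (TE V E Q) D), v ∉ Unc G Q Y →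
        ∀ u ∈ ((G.tall Q).blow D).inc Y, γ u = 0 := by
  by_cases hll : l = l'
  · subst hll
    obtain ⟨l'', hl''⟩ : ∃ l'' : Fin (Q + 1), l ≠ l'' := by
      by_cases h0 : l = 0
      · refine ⟨Fin.last Q, ?_⟩
        intro h
        rw [h0] at h
        have := congrArg Fin.val h
        simp at this
        omega
      · exact ⟨0, h0⟩
    obtain ⟨γ1, h1, h1'⟩ := exists_bd_fiber_ne G hD v l l'' hl'' w 0
    obtain ⟨γ2, h2, h2'⟩ := exists_bd_fiber_ne G hD v l'' l hl''.symm 0 w'
    refine ⟨γ1 + γ2, ?_, ?_⟩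
    · rw [Gph.bd_add, h1, h2]
      have h0 := add_self2 (pt (HV.cen (v, l'') 0 : HV (TV V Q) (TE V E Q) D))
      calc pt (HV.cen (v, l) w) + pt (HV.cen (v, l'') 0) +
          (pt (HV.cen (v, l'') 0) + pt (HV.cen (v, l) w'))
          = (pt (HV.cen (v, l'') 0) + pt (HV.cen (v, l'') 0)) +
            (pt (HV.cen (v, l) w) + pt (HV.cen (v, l) w')) := by ring
        _ = _ := by rw [h0, zero_add]
    · intro Y hY u hu
      rw [Pi.add_apply, h1' Y hY u hu, h2' Y hY u hu, add_zero]
  · exact exists_bd_fiber_ne G hD v l l' hll w w'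

end

end FrC
end
end

section

/-!
The blow-up: probabilities over the random choice `a` of the centers.
-/

set_option linter.unusedSectionVars false

namespace FrC

open Finset Fr56
open scoped Classical

/-- `pr_indep` for an arbitrary `Fintype` instance on the function type -/
theorem pr_indep' {I A : Type} [Fintype I] [Fintype A] [Nonempty A] [inst : Fintype (I → A)]
    {S T : Set I} (hST : Disjoint S T) {P Q : (I → A) → Prop} (hP : DepOn S P) (hQ : DepOn T Q) :
    pr (fun a => P a ∧ Q a) = pr P * pr Q := by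
  have h := pr_indep hST hP hQ
  have e : inst = Pi.instFintype := Subsingleton.elim _ _
  rw [e]
  exact h

theorem DepOn.mono' {I A : Type} {S S' : Set I} (h : S ⊆ S') {P : (I → A) → Prop}
    (hP : DepOn S P) : DepOn S' P := fun a b hab => hP a b fun i hi => hab i (h hi)

/-- disjoint refinements of an event have total probability at most that of the event -/
theorem sum_pr_le {Ω C : Type} [Fintype Ω] [Fintype C] (P : Ω → Prop) (R : Ω → C → Prop)
    (hRu : ∀ a c c', R a c → R a c' → c = c') :
    ∑ c, pr (fun a => P a ∧ R a c) ≤ pr P := by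
  have h1 : ∀ c, pr (fun a => P a ∧ R a c) =
      ((univ.filter (fun a => P a ∧ R a c)).card : ℝ) / Fintype.card Ω := fun c => pr_eq _
  rw [Finset.sum_congr rfl fun c _ => h1 c, ← Finset.sum_div, pr_eq P]
  apply div_le_div_of_nonneg_right _ (Nat.cast_nonneg _)
  rw [← Nat.cast_sum, Nat.cast_le, ← Finset.card_biUnion]
  · apply Finset.card_le_card
    intro a ha
    obtain ⟨c, _, hc⟩ := Finset.mem_biUnion.1 ha
    rw [Finset.mem_filter] at hc ⊢
    exact ⟨hc.1, hc.2.1⟩
  · intro c _ c' _ hcc
    refine Finset.disjoint_left.2 fun a ha ha' => ?_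
    exact hcc (hRu a c c' (Finset.mem_filter.1 ha).2.2 (Finset.mem_filter.1 ha').2.2)

/-- conditional independence: `Qc (g a)` is decided by coordinates disjoint from those that decide
`P` and `g`, and each `Qc c` is unlikely -/
theorem pr_peel {I A C : Type} [Fintype I] [Fintype A] [Nonempty A] [Fintype C]
    [inst : Fintype (I → A)]
    {S T : Set I} (hST : Disjoint S T) (P : (I → A) → Prop) (R : (I → A) → C → Prop)
    (Qc : C → (I → A) → Prop) (q : ℝ) (hq : 0 ≤ q) (hP : DepOn S P)
    (hR : ∀ c, DepOn S fun a => R a c) (hRu : ∀ a c c', R a c → R a c' → c = c')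
    (hQ : ∀ c, DepOn T (Qc c)) (hQq : ∀ c, (∃ a, R a c) → pr (Qc c) ≤ q) :
    pr (fun a => P a ∧ ∃ c, R a c ∧ Qc c a) ≤ pr P * q := by
  have h1 : pr (fun a => P a ∧ ∃ c, R a c ∧ Qc c a) ≤
      pr (fun a => ∃ c ∈ (univ : Finset C), (P a ∧ R a c) ∧ Qc c a) := by
    apply pr_mono
    rintro a ⟨hPa, c, hc, hQa⟩
    exact ⟨c, Finset.mem_univ _, ⟨hPa, hc⟩, hQa⟩
  have h2 := pr_exists_le (univ : Finset C) (fun c a => (P a ∧ R a c) ∧ Qc c a)
  have h3 : ∀ c ∈ (univ : Finset C), pr (fun a => (P a ∧ R a c) ∧ Qc c a) ≤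
      pr (fun a => P a ∧ R a c) * q := by
    intro c _
    by_cases hc : ∃ a, R a c
    · have hPR : DepOn S (fun a => P a ∧ R a c) := fun a b hab =>
        and_congr (hP a b hab) (hR c a b hab)
      rw [pr_indep' hST hPR (hQ c)]
      exact mul_le_mul_of_nonneg_left (hQq c hc) (pr_nonneg _)
    · have h0 : pr (fun a => (P a ∧ R a c) ∧ Qc c a) = 0 := by
        rw [← pr_false (Ω := I → A)]
        apply pr_congr
        intro a
        constructor
        · rintro ⟨⟨_, h⟩, _⟩
          exact hc ⟨a, h⟩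
        · intro h
          exact h.elim
      rw [h0]
      exact mul_nonneg (pr_nonneg _) hq
  refine h1.trans (h2.trans ((Finset.sum_le_sum h3).trans ?_))
  rw [← Finset.sum_mul]
  exact mul_le_mul_of_nonneg_right (sum_pr_le P R hRu) hq

private theorem pr_inst_P {Ω : Type} (i1 i2 : Fintype Ω) (P : Ω → Prop) :
    @pr Ω i1 P = @pr Ω i2 P := by
  rw [Subsingleton.elim i1 i2]

private theorem mix_mix_P {D : ℕ} (i : ℕ) (b c : A D) : mix i (mix i b c) (mix i c b) = b := by
  funext k
  simp only [mix]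
  split_ifs <;> rfl

private theorem mix_succ_P {D : ℕ} (i : Fin D) (a b : A D) :
    mix i a b + Pi.single i (a i + b i) = mix (i + 1) a b := by
  funext k
  rw [Pi.add_apply]
  by_cases hk : k = i
  · subst hk
    simp only [mix, lt_irrefl, if_false, Pi.single_eq_same, Nat.lt_succ_self, if_true]
    rw [← add_assoc, CharTwo.add_self_eq_zero, zero_add]
  · rw [Pi.single_eq_of_ne hk, add_zero]
    have hk' : k.val ≠ i.val := fun h => hk (Fin.ext h)
    simp only [mix]
    exact if_congr (by omega) rfl rfl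

section
variable {V E : Type} [Fintype V] [Fintype E] [DecidableEq V] [DecidableEq E] (G : Gph V E)
  {D : ℕ}

/-- probability that one center is given -/
theorem pr_center (v : V) (w : A D) :
    pr (fun a : V → A D => a v = w) = 1 / 2 ^ D := by
  have h2 := pr_coord (I := V) (A := A D) v w
  rw [pr_inst_P _ _ _, h2]
  congr 1
  rw [Fintype.card_fun, ZMod.card, Fintype.card_fin]
  push_cast
  rfl

/-- probability of the weakened liveness event -/
theorem pr_weak_live (i : ℕ) (w : A D) (s t : V) (hst : s ≠ t) :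
    pr (fun a : V → A D => w = mix i (a s) (a t)) = 1 / 2 ^ D := by
  let φ : (V → A D) → (V → A D) := fun a v =>
    if v = s then mix i (a s) (a t) else if v = t then mix i (a t) (a s) else a v
  have hφs : ∀ a, φ a s = mix i (a s) (a t) := by
    intro a
    simp only [φ, if_true]
  have hφt : ∀ a, φ a t = mix i (a t) (a s) := by
    intro a
    simp only [φ, if_neg (Ne.symm hst), if_true]
  have hφ : ∀ a, φ (φ a) = a := by
    intro a
    funext v
    by_cases h1 : v = s
    · rw [h1, hφs, hφs, hφt]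
      exact mix_mix_P i (a s) (a t)
    · by_cases h2 : v = t
      · rw [h2, hφt, hφs, hφt]
        exact mix_mix_P i (a t) (a s)
      · have e1 : ∀ b : V → A D, φ b v = b v := by
          intro b
          simp only [φ, if_neg h1, if_neg h2]
        rw [e1, e1]
  have hcard : (univ.filter (fun a : V → A D => w = mix i (a s) (a t))).card =
      (univ.filter (fun a : V → A D => a s = w)).card := by
    apply Finset.card_bij' (fun a _ => φ a) (fun a _ => φ a)
    · intro a ha
      rw [Finset.mem_filter] at ha ⊢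
      refine ⟨Finset.mem_univ _, ?_⟩
      rw [hφs]
      exact ha.2.symm
    · intro a ha
      rw [Finset.mem_filter] at ha ⊢
      refine ⟨Finset.mem_univ _, ?_⟩
      rw [← hφs (φ a), hφ]
      exact ha.2.symm
    · intro a _
      exact hφ a
    · intro a _
      exact hφ a
  have h1 : pr (fun a : V → A D => w = mix i (a s) (a t)) =
      pr (fun a : V → A D => a s = w) := by
    rw [pr_eq (fun a : V → A D => w = mix i (a s) (a t)),
      pr_eq (fun a : V → A D => a s = w), hcard]
  rw [h1, pr_center]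

/-- two edges over vertex-disjoint base edges are both live with probability at most `2^{-2D}` -/
theorem pr_live_live (hl : G.NoLoop) (u u' : Xt E D) (h : G.VDisj u.e u'.e) :
    pr (fun a : V → A D => live G a u ∧ live G a u') ≤ (1 / 2 ^ D) * (1 / 2 ^ D) := by
  have h1 : pr (fun a : V → A D => live G a u ∧ live G a u') ≤
      pr (fun a : V → A D => u.w = mix u.i (a (G.src u.e)) (a (G.tgt u.e)) ∧
        u'.w = mix u'.i (a (G.src u'.e)) (a (G.tgt u'.e))) :=
    pr_mono fun a ha => ⟨ha.1.1, ha.2.1⟩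
  refine h1.trans (le_of_eq ?_)
  have hd : Disjoint ({G.src u.e, G.tgt u.e} : Set V) {G.src u'.e, G.tgt u'.e} := by
    obtain ⟨a1, a2, a3, a4⟩ := h
    rw [Set.disjoint_left]
    intro v hv hv'
    simp only [Set.mem_insert_iff, Set.mem_singleton_iff] at hv hv'
    rcases hv with rfl | rfl <;> rcases hv' with h5 | h5
    · exact a1 h5
    · exact a2 h5
    · exact a3 h5
    · exact a4 h5
  have hdep : ∀ y : Xt E D, DepOn ({G.src y.e, G.tgt y.e} : Set V)
      (fun a : V → A D => y.w = mix y.i (a (G.src y.e)) (a (G.tgt y.e))) := by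
    intro y a b hab
    have e1 := hab (G.src y.e) (by simp)
    have e2 := hab (G.tgt y.e) (by simp)
    simp only [e1, e2]
  rw [pr_indep' hd (hdep u) (hdep u'), pr_weak_live _ _ _ _ (hl u.e),
    pr_weak_live _ _ _ _ (hl u'.e)]

/-- an endpoint of a live edge that is a middle vertex determines the value of a `mix` -/
private theorem mid_of_live {a : V → A D} {x : Xt E D} (hx : live G a x) {e : E} {i : Fin D}
    {w : A D} (hh : (G.blow D).src x = .mid e i w ∨ (G.blow D).tgt x = .mid e i w) :
    x.e = e ∧ w = mix i (a (G.src x.e)) (a (G.tgt x.e)) := by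
  rcases hh with hh | hh
  · change hv G x.e x.i x.w = _ at hh
    unfold hv at hh
    by_cases h1 : (x.i : ℕ) = 0
    · rw [if_pos h1] at hh
      cases hh
    · rw [if_neg h1, dif_pos x.i.isLt] at hh
      injection hh with e1 e2 e3
      refine ⟨e1, ?_⟩
      rw [← e3, ← e2]
      exact hx.1
  · change hv G x.e (x.i + 1) (x.w + Pi.single x.i x.d) = _ at hh
    unfold hv at hh
    rw [if_neg (Nat.succ_ne_zero _)] at hh
    by_cases h1 : (x.i : ℕ) + 1 < D
    · rw [dif_pos h1] at hh
      injection hh with e1 e2 e3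
      refine ⟨e1, ?_⟩
      rw [← e3, ← e2, hx.1, hx.2]
      exact mix_succ_P x.i _ _
    · rw [dif_neg h1] at hh
      cases hh

/-- the path of `e` touches `W` with probability at most `|W| / 2^D` -/
theorem pr_Tch_le (hl : G.NoLoop) (hD : 0 < D) (W : Finset (HV V E D)) (e : E) :
    pr (fun a : V → A D => Tch G a W e) ≤ (W.card : ℝ) / 2 ^ D := by
  have h1 : pr (fun a : V → A D => Tch G a W e) ≤
      pr (fun a : V → A D => ∃ h ∈ W, ∃ x : Xt E D, x.e = e ∧ live G a x ∧
        ((G.blow D).src x = h ∨ (G.blow D).tgt x = h)) := by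
    apply pr_mono
    rintro a ⟨x, hx, hlx, hx'⟩
    rcases hx' with h | h
    · exact ⟨_, h, x, hx, hlx, Or.inl rfl⟩
    · exact ⟨_, h, x, hx, hlx, Or.inr rfl⟩
  refine h1.trans ((pr_exists_le W (fun h (a : V → A D) => ∃ x : Xt E D, x.e = e ∧ live G a x ∧
        ((G.blow D).src x = h ∨ (G.blow D).tgt x = h))).trans ?_)
  have h2 : ∀ h ∈ W, pr (fun a : V → A D => ∃ x : Xt E D, x.e = e ∧ live G a x ∧
        ((G.blow D).src x = h ∨ (G.blow D).tgt x = h)) ≤ 1 / 2 ^ D := by
    intro h _
    cases h with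
    | cen v w =>
      rw [← pr_center v w]
      apply pr_mono
      rintro a ⟨x, _, hlx, hx'⟩
      rcases live_ends G hlx _ hx' with ⟨v', hv', _⟩ | ⟨i, w', hw'⟩
      · simp only [ctr] at hv'
        injection hv' with e1 e2
        subst e1
        exact e2.symm
      · cases hw'
    | mid e' i w =>
      rw [← pr_weak_live (D := D) i w _ _ (hl e)]
      apply pr_mono
      rintro a ⟨x, hxe, hlx, hx'⟩
      have h3 := (mid_of_live G hlx hx').2
      rw [hxe] at h3
      exact h3
  refine (Finset.sum_le_sum h2).trans (le_of_eq ?_)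
  rw [Finset.sum_const, nsmul_eq_mul]
  ring

end

end FrC
end

section

section

/-!
The closing lemma: on a small set of edges of the tall graph every closed chain agrees with a sum of
few elementary closed chains.
-/

set_option linter.unusedSectionVars false

namespace FrC

open Finset Fr56
open scoped Classical

/-- a vector that is a sum of some of the vectors `f i` is a sum of at most `L.card` of them, when
one only looks at the coordinates in `L`; moreover each of the vectors used is nonzero on `L` -/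
theorem exists_small_sum {I X : Type} [DecidableEq I] (T : Finset I) (f : I → X → ZMod 2)
    (L : Finset X) (d : X → ZMod 2) (hd : ∀ x ∈ L, d x = ∑ i ∈ T, f i x) :
    ∃ S ⊆ T, S.card ≤ L.card ∧ (∀ x ∈ L, ∑ i ∈ S, f i x = d x) ∧ ∀ i ∈ S, ∃ x ∈ L, f i x ≠ 0 := by
  classical
  set P : Finset (Finset I) := T.powerset.filter (fun S => ∀ x ∈ L, ∑ i ∈ S, f i x = d x) with hP
  have hPne : P.Nonempty := ⟨T, by
    rw [hP, Finset.mem_filter]
    exact ⟨Finset.mem_powerset_self T, fun x hx => (hd x hx).symm⟩⟩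
  obtain ⟨S, hS, hmin⟩ := Finset.exists_min_image P Finset.card hPne
  rw [hP, Finset.mem_filter, Finset.mem_powerset] at hS
  obtain ⟨hST, hSd⟩ := hS
  have hsmaller : ∀ S' ⊆ S, S'.card < S.card → ¬ ∀ x ∈ L, ∑ i ∈ S', f i x = d x := by
    intro S' hS' hlt hcon
    have := hmin S' (by
      rw [hP, Finset.mem_filter, Finset.mem_powerset]
      exact ⟨hS'.trans hST, hcon⟩)
    omega
  refine ⟨S, hST, ?_, hSd, ?_⟩
  · by_contra hcon
    push Not at hcon
    -- two different subsets with the same restriction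
    have hcard : Fintype.card (L → ZMod 2) < S.powerset.card := by
      rw [Fintype.card_fun, ZMod.card, Fintype.card_coe, Finset.card_powerset]
      exact Nat.pow_lt_pow_right (by norm_num) hcon
    have hcard' : (univ : Finset (L → ZMod 2)).card < S.powerset.card := by
      rw [Finset.card_univ]
      exact hcard
    obtain ⟨S1, hS1, S2, hS2, hne, heq⟩ := Finset.exists_ne_map_eq_of_card_lt_of_maps_to hcard'
      (f := fun S' : Finset I => fun x : L => ∑ i ∈ S', f i x.1) (fun _ _ => Finset.mem_univ _)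
    rw [Finset.mem_powerset] at hS1 hS2
    have h2 : ∀ x ∈ L, ∑ i ∈ symmDiff S1 S2, f i x = 0 := by
      intro x hx
      have h3 : ∑ i ∈ S1, f i x = ∑ i ∈ S2, f i x := congrFun heq ⟨x, hx⟩
      have e1 : ∑ i ∈ S1, f i x = ∑ i ∈ S1 \ S2, f i x + ∑ i ∈ S1 ∩ S2, f i x := by
        rw [← Finset.sum_union (Finset.disjoint_sdiff_inter S1 S2), Finset.sdiff_union_inter]
      have e2 : ∑ i ∈ S2, f i x = ∑ i ∈ S2 \ S1, f i x + ∑ i ∈ S1 ∩ S2, f i x := by
        rw [Finset.inter_comm S1 S2, ← Finset.sum_union (Finset.disjoint_sdiff_inter S2 S1),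
          Finset.sdiff_union_inter]
      have hdis : Disjoint (S1 \ S2) (S2 \ S1) := by
        rw [Finset.disjoint_left]
        intro i hi hi'
        exact (Finset.mem_sdiff.1 hi).2 (Finset.mem_sdiff.1 hi').1
      have e3 : ∑ i ∈ symmDiff S1 S2, f i x = ∑ i ∈ S1 \ S2, f i x + ∑ i ∈ S2 \ S1, f i x := by
        rw [← Finset.sum_union hdis]
        rfl
      rw [e1, e2] at h3
      have h4 : ∑ i ∈ S1 \ S2, f i x = ∑ i ∈ S2 \ S1, f i x := add_right_cancel h3
      rw [e3, h4]
      exact CharTwo.add_self_eq_zero _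
    have hsub : symmDiff S1 S2 ⊆ S := by
      intro i hi
      rcases Finset.mem_symmDiff.1 hi with h | h
      · exact hS1 h.1
      · exact hS2 h.1
    have hne' : (symmDiff S1 S2).Nonempty := by
      rw [Finset.nonempty_iff_ne_empty]
      intro h
      apply hne
      have : symmDiff S1 S2 = ⊥ := h
      exact symmDiff_eq_bot.1 this
    apply hsmaller (S \ symmDiff S1 S2) Finset.sdiff_subset
    · rw [Finset.card_sdiff_of_subset hsub]
      have h5 := Finset.card_pos.2 hne'
      have h6 := Finset.card_le_card hsub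
      omega
    · intro x hx
      rw [← hSd x hx, ← Finset.sum_sdiff hsub, h2 x hx, add_zero]
  · intro i hi
    by_contra hcon
    push Not at hcon
    apply hsmaller (S.erase i) (Finset.erase_subset _ _) (Finset.card_erase_lt_of_mem hi)
    intro x hx
    rw [← hSd x hx, ← Finset.add_sum_erase S (fun i => f i x) hi, hcon x hx, zero_add]

section
variable {V E : Type} [Fintype V] [Fintype E] [DecidableEq V] [DecidableEq E] (G : Gph V E)
  {Q : ℕ}

/-- boundary at a vertex all whose horizontal edges have value `0` -/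
private theorem bd_tall_vert (δ : TE V E Q → ZMod 2) (v : V) (j : Fin (Q + 1))
    (hj : ∀ e, δ (Sum.inl (e, j)) = 0) :
    (G.tall Q).bd δ (v, j) = ∑ i : Fin Q, ((if i.castSucc = j then δ (Sum.inr (v, i)) else 0) +
      (if i.succ = j then δ (Sum.inr (v, i)) else 0)) := by
  unfold Gph.bd
  rw [Fintype.sum_sum_type]
  have h1 : ∑ p : E × Fin (Q + 1), ((if (G.tall Q).src (Sum.inl p) = (v, j) then
      δ (Sum.inl p) else 0) + (if (G.tall Q).tgt (Sum.inl p) = (v, j) then δ (Sum.inl p) else 0)) =
      0 := by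
    apply Finset.sum_eq_zero
    rintro ⟨e, l⟩ _
    simp only [Gph.tall, Prod.mk.injEq]
    have h2 : l = j → δ (Sum.inl (e, l)) = 0 := by
      rintro rfl
      exact hj e
    split_ifs with h3 h4 h4
    · rw [h2 h3.2, add_zero]
    · rw [h2 h3.2, add_zero]
    · rw [h2 h4.2, add_zero]
    · rw [add_zero]
  rw [h1, zero_add, Fintype.sum_prod_type, Finset.sum_eq_single v]
  · apply Finset.sum_congr rfl
    intro i _
    simp only [Gph.tall, Prod.mk.injEq, true_and]
  · intro p _ hp
    apply Finset.sum_eq_zero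
    intro i _
    simp only [Gph.tall, Prod.mk.injEq, hp, false_and, if_false, add_zero]
  · intro h
    exact absurd (Finset.mem_univ v) h

private theorem vert_zero (δ : TE V E Q → ZMod 2) (hδ : (G.tall Q).bd δ = 0) (l' : Fin (Q + 1))
    (hl : ∀ e l, l ≠ l' → δ (Sum.inl (e, l)) = 0) (v : V) (i : Fin Q) :
    δ (Sum.inr (v, i)) = 0 := by
  have hbd : ∀ j, j ≠ l' → ∑ i : Fin Q, ((if i.castSucc = j then δ (Sum.inr (v, i)) else 0) +
      (if i.succ = j then δ (Sum.inr (v, i)) else 0)) = 0 := by
    intro j hj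
    rw [← bd_tall_vert G δ v j (fun e => hl e j hj), hδ]
    rfl
  -- from below
  have hlow : ∀ n : ℕ, ∀ i : Fin Q, i.val = n → i.val < l'.val → δ (Sum.inr (v, i)) = 0 := by
    intro n
    induction n using Nat.strong_induction_on with
    | _ n ih =>
      intro i hi hil
      have h1 := hbd i.castSucc (by
        intro h
        rw [← h] at hil
        simp at hil)
      rw [Finset.sum_add_distrib, Finset.sum_eq_single i, if_pos rfl, Finset.sum_eq_zero,
        add_zero] at h1
      · exact h1
      · intro i' _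
        split_ifs with h2
        · have h3 : i'.val + 1 = i.val := by
            have := congrArg Fin.val h2
            simpa using this
          exact ih i'.val (by omega) i' rfl (by omega)
        · rfl
      · intro i' _ hne
        rw [if_neg]
        intro h2
        exact hne (Fin.castSucc_injective _ h2)
      · intro h
        exact absurd (Finset.mem_univ i) h
  -- from above
  have hhigh : ∀ n : ℕ, ∀ i : Fin Q, Q - i.val = n → l'.val ≤ i.val → δ (Sum.inr (v, i)) = 0 := by
    intro n
    induction n using Nat.strong_induction_on with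
    | _ n ih =>
      intro i hi hil
      have h1 := hbd i.succ (by
        intro h
        rw [← h] at hil
        simp at hil)
      rw [Finset.sum_add_distrib, Finset.sum_eq_zero, zero_add, Finset.sum_eq_single i,
        if_pos rfl] at h1
      · exact h1
      · intro i' _ hne
        rw [if_neg]
        intro h2
        exact hne (Fin.succ_injective _ h2)
      · intro h
        exact absurd (Finset.mem_univ i) h
      · intro i' _
        split_ifs with h2
        · have h3 : i'.val = i.val + 1 := by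
            have := congrArg Fin.val h2
            simpa using this
          have h4 := i'.isLt
          exact ih (Q - i'.val) (by omega) i' rfl (by omega)
        · rfl
  rcases Nat.lt_or_ge i.val l'.val with h | h
  · exact hlow _ i rfl h
  · exact hhigh _ i rfl h

/-- a closed chain is the sum of the elementary closed chains given by its horizontal edges, outside
the horizontal edges of one layer `l'` -/
theorem closed_eq_sum (d : TE V E Q → ZMod 2) (hd : (G.tall Q).bd d = 0) (l' : Fin (Q + 1))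
    (x : TE V E Q) (hx : ∀ e, x ≠ Sum.inl (e, l')) :
    d x = ∑ s ∈ univ.filter (fun s : FI E Q => s.2.2 = l' ∧ d (Sum.inl (s.1, s.2.1)) ≠ 0),
      Fch G s.1 s.2.1 s.2.2 x := by
  classical
  set T : Finset (FI E Q) :=
    univ.filter (fun s : FI E Q => s.2.2 = l' ∧ d (Sum.inl (s.1, s.2.1)) ≠ 0) with hT
  set F : TE V E Q → ZMod 2 := ∑ s ∈ T, Fch G s.1 s.2.1 s.2.2 with hF
  have hFx : ∀ x, F x = ∑ s ∈ T, Fch G s.1 s.2.1 s.2.2 x := fun x => by
    rw [hF, Finset.sum_apply]
  have hbd : (G.tall Q).bd (d + F) = 0 := by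
    rw [Gph.bd_add, hd, hF, Gph.bd_sum, Finset.sum_eq_zero fun s _ => bd_Fch G s.1 s.2.1 s.2.2,
      add_zero]
  have hinl : ∀ e l, l ≠ l' → (d + F) (Sum.inl (e, l)) = 0 := by
    intro e l hl
    rw [Pi.add_apply, hFx]
    have h1 : ∀ s ∈ T, Fch G s.1 s.2.1 s.2.2 (Sum.inl (e, l) : TE V E Q) =
        if s = (e, l, l') then 1 else 0 := by
      rintro ⟨e0, l0, l1⟩ hs
      rw [hT, Finset.mem_filter] at hs
      have hl1 : l1 = l' := hs.2.1
      subst hl1
      simp only [Fch, Pi.add_apply, col, add_zero]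
      rw [Pi.single_apply, Pi.single_apply]
      have h2 : ¬ ((Sum.inl (e, l) : TE V E Q) = Sum.inl (e0, l1)) := by
        intro h
        simp only [Sum.inl.injEq, Prod.mk.injEq] at h
        exact hl h.2
      rw [if_neg h2, add_zero]
      simp only [Sum.inl.injEq, Prod.mk.injEq, and_true]
      congr 1
      apply propext
      constructor
      · rintro ⟨h3, h4⟩
        exact ⟨h3.symm, h4.symm⟩
      · rintro ⟨h3, h4⟩
        exact ⟨h3.symm, h4.symm⟩
    rw [Finset.sum_congr rfl h1, Finset.sum_ite_eq' T (e, l, l') (fun _ => (1 : ZMod 2))]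
    by_cases h2 : d (Sum.inl (e, l)) = 0
    · rw [if_neg, h2, add_zero]
      rw [hT, Finset.mem_filter]
      rintro ⟨_, _, h3⟩
      exact h3 h2
    · rw [if_pos]
      · have h3 : ∀ b : ZMod 2, b ≠ 0 → b + 1 = 0 := by decide
        exact h3 _ h2
      · rw [hT, Finset.mem_filter]
        exact ⟨Finset.mem_univ _, rfl, h2⟩
  have hzero : (d + F) x = 0 := by
    rcases x with ⟨e, l⟩ | ⟨v, i⟩
    · apply hinl
      rintro rfl
      exact hx e rfl
    · exact vert_zero G (d + F) hbd l' hinl v i
  rw [← hFx]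
  rw [Pi.add_apply] at hzero
  have h4 : ∀ b c : ZMod 2, b + c = 0 → b = c := by decide
  exact h4 _ _ hzero

/-- **closing lemma** -/
theorem closing (d : TE V E Q → ZMod 2) (hd : (G.tall Q).bd d = 0) (U : Finset V)
    (hU : ∀ x ∈ incT G Q U, d x = 0) (L : Finset (TE V E Q)) (hL : L.card ≤ Q) :
    ∃ S : Finset (FI E Q), S.card ≤ L.card ∧ (∀ x ∈ L, Fs G S x = d x) ∧
      (∀ s ∈ S, s.1 ∉ G.inc U) ∧ ∀ s ∈ S, G.src s.1 ∈ Nb G Q L ∧ G.tgt s.1 ∈ Nb G Q L := by
  classical
  -- a layer without edges in `L`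
  let lay : TE V E Q → Fin (Q + 1) := fun x => match x with
    | .inl p => p.2
    | .inr _ => 0
  have hex : ∃ l' : Fin (Q + 1), l' ∉ L.image lay := by
    by_contra hcon
    push Not at hcon
    have h1 : (univ : Finset (Fin (Q + 1))) ⊆ L.image lay := fun l _ => hcon l
    have h2 := (Finset.card_le_card h1).trans Finset.card_image_le
    rw [Finset.card_univ, Fintype.card_fin] at h2
    omega
  obtain ⟨l', hl'⟩ := hex
  have hl : ∀ x ∈ L, ∀ e, x ≠ Sum.inl (e, l') := by
    rintro x hx e rfl
    exact hl' (Finset.mem_image.2 ⟨_, hx, rfl⟩)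
  obtain ⟨S, hST, hS1, hS2, hS3⟩ := exists_small_sum
    (univ.filter (fun s : FI E Q => s.2.2 = l' ∧ d (Sum.inl (s.1, s.2.1)) ≠ 0))
    (fun s => Fch G s.1 s.2.1 s.2.2) L d (fun x hx => closed_eq_sum G d hd l' x (hl x hx))
  refine ⟨S, hS1, ?_, ?_, ?_⟩
  · intro x hx
    unfold Fs
    rw [Finset.sum_apply]
    exact hS2 x hx
  · intro s hs hinc
    have h1 := hST hs
    rw [Finset.mem_filter] at h1
    exact h1.2.2 (hU _ ((inl_mem_incT G).2 hinc))
  · intro s hs
    obtain ⟨x, hx, hne⟩ := hS3 s hs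
    have h1 := (Fch_supp G s.1 s.2.1 s.2.2 x hne).1
    have h2 := mem_plc_src G hx
    have h3 : G.src s.1 ∈ plc G Q L ∨ G.tgt s.1 ∈ plc G Q L := by
      rcases h1 with h | h
      · left
        rw [← h]
        exact h2
      · right
        rw [← h]
        exact h2
    rcases h3 with h | h
    · refine ⟨subset_nbh G _ h, ?_⟩
      unfold Nb Gph.nbh
      simp only [Finset.mem_filter, Finset.mem_univ, true_and]
      exact Or.inr ⟨s.1, Or.inr ⟨rfl, h⟩⟩
    · refine ⟨?_, subset_nbh G _ h⟩
      unfold Nb Gph.nbh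
      simp only [Finset.mem_filter, Finset.mem_univ, true_and]
      exact Or.inr ⟨s.1, Or.inl ⟨rfl, h⟩⟩

end

end FrC
end

section

/-!
The sample space of the restrictions.
-/

set_option linter.unusedSectionVars false

namespace FrC

open Finset Fr56
open scoped Classical

/-! ### auxiliary facts -/

theorem pr_equiv_br {Ω Ω' : Type} [Fintype Ω] [Fintype Ω'] (e : Ω ≃ Ω') (P : Ω' → Prop) :
    pr (fun ω => P (e ω)) = pr P := by
  unfold pr
  rw [Fintype.card_congr e]
  congr 2
  rw [← Fintype.card_subtype, ← Fintype.card_subtype]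
  exact Fintype.card_congr (e.subtypeEquiv fun a => Iff.rfl)

theorem card_filter_eq_pr_br {Ω : Type} [Fintype Ω] [Nonempty Ω] (P : Ω → Prop)
    [i : DecidablePred P] :
    ((univ.filter P).card : ℝ) = pr P * Fintype.card Ω := by
  unfold pr
  have h : (0 : ℝ) < Fintype.card Ω := by exact_mod_cast Fintype.card_pos
  rw [Subsingleton.elim i (fun a => Classical.propDecidable (P a))]
  field_simp

theorem pr_inst_br {Ω : Type} (i j : Fintype Ω) (P : Ω → Prop) : @pr Ω i P = @pr Ω j P := by
  rw [Subsingleton.elim i j]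

theorem pr_coord_br {I A : Type} [Fintype I] [DecidableEq I] [Fintype A] [Nonempty A]
    (t : I) (w : A) : pr (fun a : I → A => a t = w) = 1 / Fintype.card A := by
  rw [← pr_coord t w]
  exact pr_inst_br _ _ _

/-- an event fixing one coordinate is independent of an event not looking at it -/
theorem pr_coord_indep_br {I A : Type} [Fintype I] [DecidableEq I] [Fintype A] [Nonempty A]
    (t : I) (w : A) (P : (I → A) → Prop) (hP : DepOn {v | v ≠ t} P) :
    pr (fun a : I → A => a t = w ∧ P a) = 1 / Fintype.card A * pr P := by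
  have h : @pr (I → A) (@Pi.instFintype _ _ (fun a b => Classical.propDecidable (a = b)) _ _)
      (fun a : I → A => a t = w ∧ P a) =
      @pr (I → A) (@Pi.instFintype _ _ (fun a b => Classical.propDecidable (a = b)) _ _)
        (fun a => a t = w) *
      @pr (I → A) (@Pi.instFintype _ _ (fun a b => Classical.propDecidable (a = b)) _ _) P := by
    apply pr_indep (S := ({t} : Set I)) (T := {v | v ≠ t}) _ _ hP
    · rw [Set.disjoint_left]
      intro v hv hv'
      exact hv' hv
    · intro a b hab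
      show a t = w ↔ b t = w
      rw [hab t rfl]
  rw [pr_coord] at h
  rw [pr_inst_br _ _ (fun a : I → A => a t = w ∧ P a), h, pr_inst_br _ _ P]

/-- slicing -/
def sliceEquiv_br {Bt I A : Type} (t : I) (F : Bt → A → Prop) (E : Bt → (I → A) → Prop) :
    {q : {q : Bt × (I → A) // F q.1 (q.2 t)} // E q.1.1 q.1.2} ≃
      Σ w : A, Σ β : {β : Bt // F β w}, {a : I → A // a t = w ∧ E β.1 a} where
  toFun q := ⟨q.1.1.2 t, ⟨q.1.1.1, q.1.2⟩, ⟨q.1.1.2, rfl, q.2⟩⟩
  invFun s := ⟨⟨(s.2.1.1, s.2.2.1), by
    have h1 := s.2.1.2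
    have h2 := s.2.2.2.1
    show F s.2.1.1 (s.2.2.1 t)
    rw [h2]; exact h1⟩, s.2.2.2.2⟩
  left_inv q := rfl
  right_inv s := by
    obtain ⟨w, ⟨β, hβ⟩, ⟨a, ha, hE⟩⟩ := s
    subst ha
    rfl

/-- slicing -/
def slice0Equiv_br {Bt I A : Type} (t : I) (F : Bt → A → Prop) :
    {q : Bt × (I → A) // F q.1 (q.2 t)} ≃
      Σ w : A, {β : Bt // F β w} × {a : I → A // a t = w} where
  toFun q := ⟨q.1.2 t, ⟨q.1.1, q.2⟩, ⟨q.1.2, rfl⟩⟩
  invFun s := ⟨(s.2.1.1, s.2.2.1), by
    have h1 := s.2.1.2
    have h2 := s.2.2.2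
    show F s.2.1.1 (s.2.2.1 t)
    rw [h2]; exact h1⟩
  left_inv q := rfl
  right_inv s := by
    obtain ⟨w, ⟨β, hβ⟩, ⟨a, ha⟩⟩ := s
    subst ha
    rfl

theorem card_slice0_br {Bt I A : Type} [Fintype Bt] [Fintype I] [DecidableEq I] [Fintype A]
    [Nonempty A] (t : I)
    (F : Bt → A → Prop)
    [i1 : Fintype {q : Bt × (I → A) // F q.1 (q.2 t)}] [i2 : ∀ w, Fintype {β : Bt // F β w}]
    (Z : ℕ) (hZ : ∀ w, Fintype.card {β // F β w} = Z) :
    ((Fintype.card {q : Bt × (I → A) // F q.1 (q.2 t)} : ℕ) : ℝ) =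
      ((Fintype.card (I → A) : ℕ) : ℝ) * Z := by
  have h1 : Fintype.card {q : Bt × (I → A) // F q.1 (q.2 t)} =
      ∑ w : A, Z * Fintype.card {a : I → A // a t = w} := by
    rw [Fintype.card_congr (slice0Equiv_br t F), Fintype.card_sigma]
    apply Finset.sum_congr rfl
    intro w _
    rw [Fintype.card_prod, hZ w]
  have h2 : ∀ w : A, ((Fintype.card {a : I → A // a t = w} : ℕ) : ℝ) =
      1 / Fintype.card A * ((Fintype.card (I → A) : ℕ) : ℝ) := by
    intro w
    rw [Fintype.card_subtype, card_filter_eq_pr_br, pr_coord_br]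
  rw [h1]
  push_cast
  have h3 : (0 : ℝ) < Fintype.card A := by exact_mod_cast Fintype.card_pos
  rw [Finset.sum_congr rfl fun w _ => by rw [h2 w], Finset.sum_const, Finset.card_univ,
    nsmul_eq_mul]
  field_simp

theorem card_slice_br {Bt I A : Type} [Fintype Bt] [Fintype I] [DecidableEq I] [Fintype A]
    [Nonempty A] (t : I)
    (F : Bt → A → Prop) (E : Bt → (I → A) → Prop)
    [i1 : Fintype {q : Bt × (I → A) // F q.1 (q.2 t)}] [i2 : ∀ w, Fintype {β : Bt // F β w}] :
    ((Fintype.card {q : {q : Bt × (I → A) // F q.1 (q.2 t)} // E q.1.1 q.1.2} : ℕ) : ℝ) =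
      ∑ w : A, ∑ β : {β : Bt // F β w},
        pr (fun a : I → A => a t = w ∧ E β.1 a) * ((Fintype.card (I → A) : ℕ) : ℝ) := by
  rw [Fintype.card_congr (sliceEquiv_br t F E), Fintype.card_sigma]
  push_cast
  apply Finset.sum_congr rfl
  intro w _
  rw [Fintype.card_sigma]
  push_cast
  apply Finset.sum_congr rfl
  intro β _
  rw [Fintype.card_subtype, card_filter_eq_pr_br]

theorem slice_abs_br {Bt I A : Type} [Fintype Bt] [Fintype I] [DecidableEq I] [Fintype A]
    [Nonempty A] (t : I)
    (F : Bt → A → Prop) (E : Bt → (I → A) → Prop) (Good : Bt → Prop) (q ε : ℝ)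
    [i1 : Fintype {q : Bt × (I → A) // F q.1 (q.2 t)}] [i2 : ∀ w, Fintype {β : Bt // F β w}]
    (hE : ∀ β, DepOn {v | v ≠ t} (E β)) (hgood : ∀ β, Good β → pr (E β) ≤ q) (hq0 : 0 ≤ q)
    (Z : ℕ) (hZ : ∀ w, Fintype.card {β // F β w} = Z) (hZpos : 0 < Z)
    (hbad : ∀ w, pr (fun β : {β // F β w} => ¬ Good β.1) ≤ ε) :
    pr (fun q : {q : Bt × (I → A) // F q.1 (q.2 t)} => E q.1.1 q.1.2) ≤ q + ε := by
  have hcard := card_slice0_br t F Z hZ
  obtain ⟨N, hN⟩ : ∃ N : ℝ, ((Fintype.card (I → A) : ℕ) : ℝ) = N := ⟨_, rfl⟩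
  obtain ⟨nA, hnA⟩ : ∃ N : ℝ, ((Fintype.card A : ℕ) : ℝ) = N := ⟨_, rfl⟩
  have hNpos : 0 < N := by
    rw [← hN]
    exact_mod_cast Fintype.card_pos
  have hnApos : 0 < nA := by
    rw [← hnA]
    exact_mod_cast Fintype.card_pos
  have hZpos' : (0 : ℝ) < Z := by exact_mod_cast hZpos
  rw [hN] at hcard
  have hev : ((Fintype.card {q : {q : Bt × (I → A) // F q.1 (q.2 t)} // E q.1.1 q.1.2} : ℕ) : ℝ) ≤
      N * Z * (q + ε) := by
    rw [card_slice_br t F E]
    have h3 : ∀ w : A, ∀ β : {β : Bt // F β w},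
        pr (fun a : I → A => a t = w ∧ E β.1 a) * ((Fintype.card (I → A) : ℕ) : ℝ) ≤
          N / nA * (q + if ¬ Good β.1 then 1 else 0) := by
      intro w β
      rw [pr_coord_indep_br t w (E β.1) (hE β.1), hnA, hN]
      have h4 : pr (E β.1) ≤ q + if ¬ Good β.1 then 1 else 0 := by
        by_cases hg : Good β.1
        · simp only [hg, not_true_eq_false, if_false, add_zero]
          exact hgood _ hg
        · simp only [hg, not_false_eq_true, if_true]
          have := pr_le_one (E β.1)
          linarith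
      calc 1 / nA * pr (E β.1) * N = N / nA * pr (E β.1) := by ring
        _ ≤ _ := by
          apply mul_le_mul_of_nonneg_left h4
          positivity
    have h5 : ∀ w : A, ∑ β : {β : Bt // F β w},
        pr (fun a : I → A => a t = w ∧ E β.1 a) * ((Fintype.card (I → A) : ℕ) : ℝ) ≤
          N / nA * (Z * (q + ε)) := by
      intro w
      have hne : Nonempty {β : Bt // F β w} := by
        rw [← Fintype.card_pos_iff, hZ w]
        exact hZpos
      calc _ ≤ ∑ β : {β : Bt // F β w},
            N / nA * (q + if ¬ Good β.1 then 1 else 0) := Finset.sum_le_sum fun β _ => h3 w β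
        _ = N / nA * (Z * q + ((univ.filter fun β : {β : Bt // F β w} =>
              ¬ Good β.1).card : ℝ)) := by
          rw [← Finset.mul_sum, Finset.sum_add_distrib, Finset.sum_const, Finset.card_univ,
            nsmul_eq_mul, hZ w, Finset.sum_boole]
        _ ≤ _ := by
          apply mul_le_mul_of_nonneg_left _ (by positivity)
          rw [card_filter_eq_pr_br, hZ w]
          have := mul_le_mul_of_nonneg_right (hbad w) hZpos'.le
          nlinarith
    calc _ ≤ ∑ w : A, N / nA * (Z * (q + ε)) := Finset.sum_le_sum fun w _ => h5 w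
      _ = _ := by
        rw [Finset.sum_const, Finset.card_univ, nsmul_eq_mul, hnA]
        field_simp
  have hpr : pr (fun q : {q : Bt × (I → A) // F q.1 (q.2 t)} => E q.1.1 q.1.2) =
      ((Fintype.card {q : {q : Bt × (I → A) // F q.1 (q.2 t)} // E q.1.1 q.1.2} : ℕ) : ℝ) /
      ((Fintype.card {q : Bt × (I → A) // F q.1 (q.2 t)} : ℕ) : ℝ) := by
    unfold pr
    rw [← Fintype.card_subtype]
  rw [hpr, hcard, div_le_iff₀ (by positivity)]
  calc _ ≤ _ := hev
    _ = _ := by ring

section
variable {V E : Type} [Fintype V] [Fintype E] [DecidableEq V] [DecidableEq E] (G : Gph V E)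
  {D : ℕ}

/-- the sample space: `α` with boundary `h0 + ctr a t` and `a` -/
abbrev Om (h0 : HV V E D) (t : V) :=
  {q : (Xt E D → ZMod 2) × (V → A D) // (G.blow D).bd q.1 = pt h0 + pt (ctr q.2 t)}

/-- adding the lift of a path from `v0` to `t` is a bijection of sample spaces -/
theorem pr_Om_shift (hD : 0 < D) (h0 : HV V E D) (v0 t : V) (y : E → ZMod 2)
    (hy : G.bd y = pt v0 + pt t) (Ev : (Xt E D → ZMod 2) → (V → A D) → Prop) :
    pr (fun q : Om G h0 v0 => Ev (q.1.1 + Pth G q.1.2 y) q.1.2) =
      pr (fun q : Om G h0 t => Ev q.1.1 q.1.2) := by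
  have hb := fun a : V → A D => bd_Pth_path G hD a y v0 t hy
  let e : Om G h0 v0 ≃ Om G h0 t :=
    { toFun := fun q => ⟨(q.1.1 + Pth G q.1.2 y, q.1.2), by
        show (G.blow D).bd (q.1.1 + Pth G q.1.2 y) = pt h0 + pt (ctr q.1.2 t)
        rw [Gph.bd_add, q.2, hb, add_assoc, ← add_assoc (pt (ctr q.1.2 v0)), add_self2, zero_add]⟩
      invFun := fun q => ⟨(q.1.1 + Pth G q.1.2 y, q.1.2), by
        show (G.blow D).bd (q.1.1 + Pth G q.1.2 y) = pt h0 + pt (ctr q.1.2 v0)
        rw [Gph.bd_add, q.2, hb, add_assoc, add_comm (pt (ctr q.1.2 v0)) (pt (ctr q.1.2 t)),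
          ← add_assoc (pt (ctr q.1.2 t)), add_self2, zero_add]⟩
      left_inv := fun q => by
        apply Subtype.ext
        apply Prod.ext
        · show q.1.1 + Pth G q.1.2 y + Pth G q.1.2 y = q.1.1
          rw [add_assoc, add_self2, add_zero]
        · rfl
      right_inv := fun q => by
        apply Subtype.ext
        apply Prod.ext
        · show q.1.1 + Pth G q.1.2 y + Pth G q.1.2 y = q.1.1
          rw [add_assoc, add_self2, add_zero]
        · rfl }
  exact pr_equiv_br e (fun q : Om G h0 t => Ev q.1.1 q.1.2)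

/-- cosets with boundaries `κ + c` and `κ + c'` have the same size if `c + c'` is a boundary -/
theorem card_coset_eq_br (κ c c' : HV V E D → ZMod 2) (x : Xt E D → ZMod 2)
    (hx : (G.blow D).bd x = c + c') :
    Fintype.card (Coset (V := V) G (κ + c)) = Fintype.card (Coset (V := V) G (κ + c')) := by
  apply Fintype.card_congr
  exact
    { toFun := fun β => ⟨β.1 + x, by
        rw [Gph.bd_add, β.2, hx, add_assoc, ← add_assoc c, add_self2, zero_add]⟩
      invFun := fun β => ⟨β.1 + x, by
        rw [Gph.bd_add, β.2, hx, add_assoc, add_comm c c',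
          ← add_assoc c', add_self2, zero_add]⟩
      left_inv := fun β => by
        apply Subtype.ext
        show β.1 + x + x = β.1
        rw [add_assoc, add_self2, add_zero]
      right_inv := fun β => by
        apply Subtype.ext
        show β.1 + x + x = β.1
        rw [add_assoc, add_self2, add_zero] }

/-- an event that does not look at `a t` and is unlikely over `a` for most `β` in each coset is
unlikely over the sample space -/
theorem pr_Om_le (v0 : V) (w0 : A D) (t : V)
    (hconn : ∀ w w' : A D, ∃ x : Xt E D → ZMod 2,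
      (G.blow D).bd x = pt (HV.cen t w) + pt (HV.cen t w'))
    (hne : ∃ (w : A D) (x : Xt E D → ZMod 2),
      (G.blow D).bd x = pt (HV.cen v0 w0) + pt (HV.cen t w))
    (Ev : (Xt E D → ZMod 2) → (V → A D) → Prop) (Good : (Xt E D → ZMod 2) → Prop) (q ε : ℝ)
    (hq0 : 0 ≤ q)
    (hE : ∀ β, DepOn {v | v ≠ t} (Ev β)) (hgood : ∀ β, Good β → pr (Ev β) ≤ q)
    (hbad : ∀ κ, pr (fun β : Coset (V := V) G κ => ¬ Good β.1) ≤ ε) :
    pr (fun q : Om G (HV.cen v0 w0 : HV V E D) t => Ev q.1.1 q.1.2) ≤ q + ε := by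
  obtain ⟨w1, x1, hx1⟩ := hne
  refine slice_abs_br t (fun (β : Xt E D → ZMod 2) (w : A D) =>
    (G.blow D).bd β = pt (HV.cen v0 w0) + pt (HV.cen t w)) Ev Good q ε
    (i2 := fun w => (inferInstance : Fintype (Coset (V := V) G
      (pt (HV.cen v0 w0) + pt (HV.cen t w)))))
    hE hgood hq0
    (Fintype.card (Coset (V := V) G (pt (HV.cen v0 w0) + pt (HV.cen t w1)))) ?_ ?_ ?_
  · intro w
    obtain ⟨x, hx⟩ := hconn w w1
    exact card_coset_eq_br G _ _ _ x hx
  · rw [Fintype.card_pos_iff]
    exact ⟨⟨x1, hx1⟩⟩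
  · intro w
    exact hbad _

/-- An event that, after shifting by the lift of a chain from `v0` to `t`, does not look at `a t`
and is unlikely over `a` for most chains in each coset, is unlikely over the sample space. -/
theorem pr_Om_event (hD : 0 < D) (v0 : V) (w0 : A D) (t : V) (z : E → ZMod 2)
    (hz : G.bd z = pt v0 + pt t)
    (hconn : ∀ w w' : A D, ∃ x : Xt E D → ZMod 2, (G.blow D).bd x = pt (HV.cen t w) + pt (HV.cen t w'))
    (Ev : (Xt E D → ZMod 2) → (V → A D) → Prop) (Good : (Xt E D → ZMod 2) → Prop) (q ε : ℝ)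
    (hq0 : 0 ≤ q) (hE : ∀ β, DepOn {v | v ≠ t} (Ev β)) (hgood : ∀ β, Good β → pr (Ev β) ≤ q)
    (hbad : ∀ κ, pr (fun β : Coset (V := V) G κ => ¬ Good β.1) ≤ ε) :
    pr (fun q : Om G (HV.cen v0 w0 : HV V E D) v0 => Ev (q.1.1 + Pth G q.1.2 z) q.1.2) ≤ q + ε := by
  rw [pr_Om_shift G hD (HV.cen v0 w0) v0 t z hz Ev]
  refine pr_Om_le G v0 w0 t hconn ?_ Ev Good q ε hq0 hE hgood hbad
  refine ⟨w0, Pth G (fun _ => w0) z, ?_⟩
  exact bd_Pth_path G hD (fun _ => w0) z v0 t hz

end

end FrC
end

section

/-!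
The frame of the blow-up of the tall graph.
-/

set_option linter.unusedSectionVars false

namespace FrC

open Finset Fr56
open scoped Classical

section
variable {V E : Type} [Fintype V] [Fintype E] [DecidableEq V] [DecidableEq E] {G : Gph V E}
  (Fr : Frame G) (Q D : ℕ)

/-- the free vertices of the blow-up: those outside `Y` that are joined outside `Y` to a center over
a free vertex of `Unc Y` -/
def bFree (Y : Finset (HV (TV V Q) (TE V E Q) D)) (h : HV (TV V Q) (TE V E Q) D) : Prop :=
  h ∉ Y ∧ ∃ (v : TV V Q) (w : A D), Fr.Free (Unc G Q Y) v.1 ∧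
    ∃ γ : Xt (TE V E Q) D → ZMod 2, ((G.tall Q).blow D).bd γ = pt h + pt (HV.cen v w) ∧
      ∀ u ∈ ((G.tall Q).blow D).inc Y, γ u = 0

theorem bFree_anti {Y Y' : Finset (HV (TV V Q) (TE V E Q) D)} {t : HV (TV V Q) (TE V E Q) D}
    (h : Y ⊆ Y') (ht : bFree Fr Q D Y' t) : bFree Fr Q D Y t := by
  obtain ⟨hn, v, w, hf, γ, hb, h0⟩ := ht
  exact ⟨fun h' => hn (h h'), v, w, Fr.anti (Finset.biUnion_subset_biUnion_of_subset_left _ h) hf,
    γ, hb, fun u hu => h0 u (Gph.inc_mono _ h hu)⟩

theorem bFree_disj {Y : Finset (HV (TV V Q) (TE V E Q) D)} {t : HV (TV V Q) (TE V E Q) D}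
    (ht : bFree Fr Q D Y t) : t ∉ Y := ht.1

theorem bFree_cen {Y : Finset (HV (TV V Q) (TE V E Q) D)} {v : TV V Q} (w : A D)
    (hv : Fr.Free (Unc G Q Y) v.1) : bFree Fr Q D Y (.cen v w) := by
  refine ⟨fun h => ?_, v, w, hv, 0, by rw [Gph.bd_zero, add_self2], fun _ _ => rfl⟩
  refine Fr.disj hv (Finset.mem_biUnion.2 ⟨_, h, ?_⟩)
  simp [plh]

theorem bFree_ne (Y : Finset (HV (TV V Q) (TE V E Q) D)) (hY : Y.card ≤ Fr.m / 2) :
    ∃ t, bFree Fr Q D Y t := by
  obtain ⟨t, ht⟩ := Fr.ne (Unc G Q Y) ((card_Unc G Y).trans (by omega))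
  exact ⟨.cen (t, 0) 0, bFree_cen Fr Q D (v := (t, 0)) 0 ht⟩

theorem bFree_conn (hQ : 0 < Q) (hD : 0 < D) (Y : Finset (HV (TV V Q) (TE V E Q) D))
    (t t' : HV (TV V Q) (TE V E Q) D) (hY : Y.card ≤ Fr.m / 2) (ht : bFree Fr Q D Y t)
    (ht' : bFree Fr Q D Y t') :
    ∃ γ : Xt (TE V E Q) D → ZMod 2, ((G.tall Q).blow D).bd γ = pt t + pt t' ∧
      ∀ u ∈ ((G.tall Q).blow D).inc Y, γ u = 0 := by
  obtain ⟨-, v, w, hf, γ1, hb1, h1⟩ := ht
  obtain ⟨-, v', w', hf', γ2, hb2, h2⟩ := ht'
  obtain ⟨v, l⟩ := v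
  obtain ⟨v', l'⟩ := v'
  dsimp only at hf hf'
  obtain ⟨γ3, hb3, h3⟩ := exists_bd_fiber G (Q := Q) (D := D) hQ hD v l 0 w 0
  obtain ⟨γ4, hb4, h4⟩ := exists_bd_fiber G (Q := Q) (D := D) hQ hD v' l' 0 w' 0
  obtain ⟨γ0, hb0, h0⟩ := Fr.conn (Unc G Q Y) v v' ((card_Unc G Y).trans (by omega)) hf hf'
  have hb5 := bd_Pth_path (G.tall Q) hD (fun _ => (0 : A D)) (iota γ0) (v, 0) (v', 0)
    (bd_iota_path G γ0 v v' hb0)
  have h5 := Pth_eq_zero_of_Unc G (fun _ => (0 : A D)) (iota γ0) Y
    (fun x hx => iota_eq_zero G h0 x hx)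
  refine ⟨γ1 + γ3 + (Pth (G.tall Q) (fun _ => (0 : A D)) (iota γ0) + (γ4 + γ2)), ?_, ?_⟩
  · simp only [Gph.bd_add]
    rw [hb1, hb2, hb3, hb4, hb5]
    simp only [ctr]
    have e1 : ∀ p q r : HV (TV V Q) (TE V E Q) D → ZMod 2, p + q + (q + r) = p + r := by
      intro p q r
      rw [add_assoc, ← add_assoc q q r, add_self2, zero_add]
    have e2 : ∀ p q r : HV (TV V Q) (TE V E Q) D → ZMod 2, p + q + (r + q) = p + r := by
      intro p q r
      rw [add_comm r q, e1]
    rw [e1, add_comm (pt (HV.cen (v', l') w')) (pt (HV.cen (v', 0) 0)), e2, e1, e1]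
  · intro u hu
    simp only [Pi.add_apply]
    rw [h1 u hu, h2 u hu, h3 Y (Fr.disj hf) u hu, h4 Y (Fr.disj hf') u hu, h5 u hu]
    simp

/-- the frame of the blow-up of the tall graph -/
def Frame.blow (hQ : 0 < Q) (hD : 0 < D) : Frame ((G.tall Q).blow D) where
  m := Fr.m / 2
  Free := bFree Fr Q D
  anti := bFree_anti Fr Q D
  disj := bFree_disj Fr Q D
  ne := bFree_ne Fr Q D
  conn := bFree_conn Fr Q D hQ hD

variable {Q D}

/-- **embedding lemma**: the chosen center over a free vertex of `U` is free in the blow-up, if the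
live edges of layer `0` touching `Y` lie over edges touching `U` -/
theorem emb_free (a : TV V Q → A D) (U : Finset V) (Y : Finset (HV (TV V Q) (TE V E Q) D)) (t : V)
    (hD : 0 < D) (hc : U.card + 2 * Y.card ≤ Fr.m) (ht : Fr.Free U t)
    (hcov : ∀ e : E, Tch (G.tall Q) a Y (Sum.inl (e, 0)) → e ∈ G.inc U) :
    bFree Fr Q D Y (ctr a (t, 0)) := by
  have hcard : (U ∪ Unc G Q Y).card ≤ Fr.m :=
    (Finset.card_union_le _ _).trans (le_trans (Nat.add_le_add_left (card_Unc G Y) _) hc)
  obtain ⟨z, hz⟩ := Fr.ne _ hcard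
  have hzU : Fr.Free U z := Fr.anti Finset.subset_union_left hz
  have hzY : Fr.Free (Unc G Q Y) z := Fr.anti Finset.subset_union_right hz
  obtain ⟨γ0, hb0, h0⟩ := Fr.conn U t z (le_trans (by omega) hc) ht hzU
  have hb5 := bd_Pth_path (G.tall Q) hD a (iota γ0) (t, 0) (z, 0) (bd_iota_path G γ0 t z hb0)
  have hkey : ∀ e : E, γ0 e ≠ 0 → ¬ Tch (G.tall Q) a Y (Sum.inl (e, 0)) :=
    fun e he hT => he (h0 e (hcov e hT))
  refine ⟨?_, (z, 0), a (z, 0), hzY, Pth (G.tall Q) a (iota γ0), hb5, fun u hu => ?_⟩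
  · intro hY
    by_cases htz : t = z
    · subst htz
      refine Fr.disj hzY (Finset.mem_biUnion.2 ⟨_, hY, ?_⟩)
      simp [plh, ctr]
    · have hbt : G.bd γ0 t ≠ 0 := by
        rw [hb0]
        simp [pt, Pi.single_apply, htz]
      obtain ⟨e, -, he⟩ := Finset.exists_ne_zero_of_sum_ne_zero hbt
      have he' : (G.src e = t ∨ G.tgt e = t) ∧ γ0 e ≠ 0 := by
        by_cases h1 : G.src e = t
        · refine ⟨Or.inl h1, fun h2 => he ?_⟩
          rw [h2]
          simp
        · by_cases h3 : G.tgt e = t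
          · refine ⟨Or.inr h3, fun h2 => he ?_⟩
            rw [h2]
            simp
          · rw [if_neg h1, if_neg h3] at he
            simp at he
      obtain ⟨x, hx1, hx2, hx3⟩ := exists_live_end (G.tall Q) hD a (Sum.inl (e, 0)) (t, 0) (by
        rcases he'.1 with h1 | h1
        · exact Or.inl (by simp [Gph.tall, h1])
        · exact Or.inr (by simp [Gph.tall, h1]))
      refine hkey e he'.2 ⟨x, hx1, hx2, ?_⟩
      rcases hx3 with h1 | h1
      · exact Or.inl (by rw [h1]; exact hY)
      · exact Or.inr (by rw [h1]; exact hY)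
  · unfold Pth
    by_cases hl : live (G.tall Q) a u
    · rw [if_pos hl]
      rcases hx : u.e with ⟨e, l⟩ | ⟨v, i⟩
      · by_cases hl0 : l = 0
        · subst hl0
          simp only [iota, if_true]
          by_contra hne
          exact hkey e hne ⟨u, hx, hl, hu⟩
        · simp only [iota, if_neg hl0]
      · rfl
    · rw [if_neg hl]

end

end FrC
end
end
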