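import Pool.Agent.Lib.MP_51bb46_lc.B.Prob

/-!
Graphs, the product of a graph with a path (`tall`), and the blow-up (`blow`): every vertex is
replaced by `2^D` centers and every edge by a butterfly network of depth `D`.
-/

set_option linter.unusedSectionVars false

namespace FrC

open Finset Fr56
open scoped Classical

/-- multigraph with vertices `V` and edges `E` -/
structure Gph (V E : Type) where
  src : E → V
  tgt : E → V

/-- indicator of a vertex -/
def pt {V : Type} [DecidableEq V] (v : V) : V → ZMod 2 := Pi.single v 1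

namespace Gph

variable {V E : Type} (G : Gph V E)

/-- edges touching `U` -/
def inc (U : Finset V) : Set E := {e | G.src e ∈ U ∨ G.tgt e ∈ U}

/-- agreement on the edges touching `U` -/
def Agree (U : Finset V) (y y' : E → ZMod 2) : Prop := ∀ e ∈ G.inc U, y e = y' e

/-- vertex-disjoint edges -/
def VDisj (e f : E) : Prop :=
  G.src e ≠ G.src f ∧ G.src e ≠ G.tgt f ∧ G.tgt e ≠ G.src f ∧ G.tgt e ≠ G.tgt f

/-- there are no loops -/
def NoLoop : Prop := ∀ e, G.src e ≠ G.tgt e

/-- the edges at a vertex -/
def star [Fintype E] [DecidableEq V] (v : V) : Finset E := univ.filter fun e => G.src e = v ∨ G.tgt e = v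

/-- all degrees are at most `Δ` -/
def Deg [Fintype E] [DecidableEq V] (Δ : ℕ) : Prop := ∀ v, (G.star v).card ≤ Δ

/-- boundary map -/
def bd [Fintype E] [DecidableEq V] (y : E → ZMod 2) (v : V) : ZMod 2 :=
  ∑ e, ((if G.src e = v then y e else 0) + (if G.tgt e = v then y e else 0))

/-- a set of vertices together with all neighbours -/
noncomputable def nbh [Fintype V] [DecidableEq V] (S : Finset V) : Finset V :=
  univ.filter fun v => v ∈ S ∨ ∃ e, (G.src e = v ∧ G.tgt e ∈ S) ∨ (G.tgt e = v ∧ G.src e ∈ S)

end Gph

/-! ### the tall graph -/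

/-- vertices of the tall graph with `Q + 1` layers -/
abbrev TV (V : Type) (Q : ℕ) := V × Fin (Q + 1)

/-- edges of the tall graph: `inl (e, l)` is the copy of `e` in layer `l`, `inr (v, i)` joins
`(v, i)` and `(v, i + 1)` -/
abbrev TE (V E : Type) (Q : ℕ) := (E × Fin (Q + 1)) ⊕ (V × Fin Q)

/-- product of `G` with a path with `Q + 1` vertices -/
def Gph.tall {V E : Type} (G : Gph V E) (Q : ℕ) : Gph (TV V Q) (TE V E Q) where
  src e := match e with
    | .inl p => (G.src p.1, p.2)
    | .inr p => (p.1, p.2.castSucc)
  tgt e := match e with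
    | .inl p => (G.tgt p.1, p.2)
    | .inr p => (p.1, p.2.succ)

section tall
variable {V E : Type} (G : Gph V E) (Q : ℕ)

/-- a chain of `G`, placed in layer `0` -/
def iota {V E : Type} {Q : ℕ} (y : E → ZMod 2) : TE V E Q → ZMod 2
  | .inl p => if p.2 = 0 then y p.1 else 0
  | .inr _ => 0

/-- edges of the tall graph touching the fibers over `U` -/
def incT (U : Finset V) : Set (TE V E Q) := {e | ((G.tall Q).src e).1 ∈ U ∨ ((G.tall Q).tgt e).1 ∈ U}

/-- the vertices below the endpoints of the edges in `L` -/
def plc [DecidableEq V] (L : Finset (TE V E Q)) : Finset V :=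
  L.biUnion fun e => {((G.tall Q).src e).1, ((G.tall Q).tgt e).1}

/-- `plc L` and all neighbours -/
noncomputable def Nb [Fintype V] [DecidableEq V] (L : Finset (TE V E Q)) : Finset V := G.nbh (plc G Q L)

/-- the vertical path over `v` from layer `0` to layer `l` -/
def col [DecidableEq V] {Q : ℕ} (v : V) (l : Fin (Q + 1)) : TE V E Q → ZMod 2
  | .inl _ => 0
  | .inr p => if p.1 = v ∧ p.2.val < l.val then 1 else 0

/-- elementary closed chain: the copies of `e` in layers `l`, `l'` and the vertical paths between
their endpoints -/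
def Fch [DecidableEq V] [DecidableEq E] {Q : ℕ} (e : E) (l l' : Fin (Q + 1)) : TE V E Q → ZMod 2 :=
  Pi.single (Sum.inl (e, l)) 1 + Pi.single (Sum.inl (e, l')) 1 +
    (col (G.src e) l + col (G.src e) l') + (col (G.tgt e) l + col (G.tgt e) l')

/-- indices of elementary closed chains -/
abbrev FI (E : Type) (Q : ℕ) := E × Fin (Q + 1) × Fin (Q + 1)

/-- sum of elementary closed chains -/
def Fs [DecidableEq V] [DecidableEq E] {Q : ℕ} (S : Finset (FI E Q)) : TE V E Q → ZMod 2 :=
  ∑ s ∈ S, Fch G s.1 s.2.1 s.2.2

end tall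

/-! ### the blow-up -/

/-- bit vectors -/
abbrev A (D : ℕ) := Fin D → ZMod 2

/-- edges of the blow-up: `(e, i, w, d)` is the edge of the butterfly of `e` that joins the vertex
`w` at level `i` and the vertex `w + d δ_i` at level `i + 1` -/
@[ext] structure Xt (E : Type) (D : ℕ) where
  e : E
  i : Fin D
  w : A D
  d : ZMod 2
deriving DecidableEq

/-- vertices of the blow-up: centers and middle vertices (those with level `0` are not used) -/
inductive HV (V E : Type) (D : ℕ)
  | cen (v : V) (w : A D)
  | mid (e : E) (i : Fin D) (w : A D)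
deriving DecidableEq

/-- `Xt` as a product -/
def Xt.equiv (E : Type) (D : ℕ) : E × Fin D × A D × ZMod 2 ≃ Xt E D where
  toFun q := ⟨q.1, q.2.1, q.2.2.1, q.2.2.2⟩
  invFun x := (x.e, x.i, x.w, x.d)
  left_inv _ := rfl
  right_inv _ := rfl

/-- `HV` as a sum -/
def HV.equiv (V E : Type) (D : ℕ) : (V × A D) ⊕ (E × Fin D × A D) ≃ HV V E D where
  toFun q := match q with
    | .inl q => .cen q.1 q.2
    | .inr q => .mid q.1 q.2.1 q.2.2
  invFun h := match h with
    | .cen v w => .inl (v, w)
    | .mid e i w => .inr (e, i, w)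
  left_inv q := by cases q <;> rfl
  right_inv h := by cases h <;> rfl

instance (E : Type) (D : ℕ) [Fintype E] : Fintype (Xt E D) := Fintype.ofEquiv _ (Xt.equiv E D)
instance (V E : Type) (D : ℕ) [Fintype V] [Fintype E] : Fintype (HV V E D) :=
  Fintype.ofEquiv _ (HV.equiv V E D)

section blow
variable {V E : Type} (G : Gph V E)

/-- the vertex in the butterfly of `e` at level `i` (`0 ≤ i ≤ D`) -/
def hv {D : ℕ} (e : E) (i : ℕ) (w : A D) : HV V E D :=
  if i = 0 then .cen (G.src e) w
  else if h : i < D then .mid e ⟨i, h⟩ w else .cen (G.tgt e) w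

/-- the blow-up of a graph -/
def Gph.blow (D : ℕ) : Gph (HV V E D) (Xt E D) where
  src x := hv G x.e x.i x.w
  tgt x := hv G x.e (x.i + 1) (x.w + Pi.single x.i x.d)

/-- first `i` coordinates from `b`, the others from `a` -/
def mix {D : ℕ} (i : ℕ) (a b : A D) : A D := fun k => if k.val < i then b k else a k

/-- the edge `x` of the blow-up lies on the path of its base edge `e` from the center `a (src e)`
over `src e` to the center `a (tgt e)` over `tgt e` -/
def live {D : ℕ} (a : V → A D) (x : Xt E D) : Prop :=
  x.w = mix x.i (a (G.src x.e)) (a (G.tgt x.e)) ∧ x.d = a (G.src x.e) x.i + a (G.tgt x.e) x.i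

/-- the lift of a chain along the paths chosen by `a` -/
noncomputable def Pth {D : ℕ} (a : V → A D) (y : E → ZMod 2) : Xt E D → ZMod 2 :=
  fun x => if live G a x then y x.e else 0

/-- the center chosen by `a` over `v` -/
def ctr {D : ℕ} (a : V → A D) (v : V) : HV V E D := .cen v (a v)

/-- the path of the base edge `e` contains an edge with an endpoint in `W` -/
def Tch {D : ℕ} (a : V → A D) (W : Finset (HV V E D)) (e : E) : Prop :=
  ∃ x : Xt E D, x.e = e ∧ live G a x ∧ x ∈ (G.blow D).inc W

/-- the base edges whose path touches `W` -/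
noncomputable def cov [Fintype E] {D : ℕ} (a : V → A D) (W : Finset (HV V E D)) : Finset E :=
  univ.filter (Tch G a W)

/-- chains of the blow-up with given boundary -/
abbrev Coset [Fintype E] [DecidableEq V] [DecidableEq E] {D : ℕ} (κ : HV V E D → ZMod 2) :=
  {β : Xt E D → ZMod 2 // (G.blow D).bd β = κ}

end blow

section unc
variable {V E : Type} (G : Gph V E) (Q : ℕ) {D : ℕ} [DecidableEq V]

/-- the vertices of `G` below a vertex of the blow-up of the tall graph -/
def plh : HV (TV V Q) (TE V E Q) D → Finset V
  | .cen v _ => {v.1}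
  | .mid e _ _ => {((G.tall Q).src e).1, ((G.tall Q).tgt e).1}

/-- the vertices of `G` below a set of vertices of the blow-up of the tall graph -/
def Unc (Y : Finset (HV (TV V Q) (TE V E Q) D)) : Finset V := Y.biUnion (plh G Q)

end unc

end FrC
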