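import Pool.Agent.Lib.MP_51bb46_lc.C.Ts

/-!
The Tseitin CNF: semantics.
-/

set_option linter.unusedSectionVars false

namespace FrC

open Finset Fr56
open scoped Classical

private theorem disj_vars {V : Type} (d : Fm V) (l : List (Fm V)) (hl : l ≠ []) (v : V) :
    v ∈ (Fm.disj d l).vars ↔ ∃ f ∈ l, v ∈ f.vars := by
  induction l with
  | nil => exact absurd rfl hl
  | cons f l ih =>
    cases l with
    | nil => simp [Fm.disj]
    | cons g l =>
      have h := ih (by simp)
      simp only [Fm.disj, Fm.vars, Set.mem_union]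
      rw [h]
      simp

private theorem disj_eval {V : Type} (d : Fm V) (l : List (Fm V)) (hl : l ≠ []) (x : V → Bool) :
    (Fm.disj d l).eval x = true ↔ ∃ f ∈ l, f.eval x = true := by
  induction l with
  | nil => exact absurd rfl hl
  | cons f l ih =>
    cases l with
    | nil => simp [Fm.disj]
    | cons g l =>
      have h := ih (by simp)
      simp only [Fm.disj, Fm.eval, Bool.or_eq_true]
      rw [h]
      simp

private theorem conj_eval {V : Type} (d : Fm V) (l : List (Fm V)) (hl : l ≠ []) (x : V → Bool) :
    (Fm.conj d l).eval x = true ↔ ∀ f ∈ l, f.eval x = true := by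
  induction l with
  | nil => exact absurd rfl hl
  | cons f l ih =>
    cases l with
    | nil => simp [Fm.conj]
    | cons g l =>
      have h := ih (by simp)
      simp only [Fm.conj, Fm.eval, Bool.and_eq_true]
      rw [h]
      simp

private theorem conj_ind {V : Type} (d F : Fm V) (P : Fm V → Prop) (l : List (Fm V)) (hl : l ≠ [])
    (hs : Fm.conj d l ∈ F.subs) (h1 : ∀ f ∈ l, f ∈ F.subs → P f)
    (h2 : ∀ f g, P f → P g → Fm.and f g ∈ F.subs → P (Fm.and f g)) : P (Fm.conj d l) := by
  induction l with
  | nil => exact absurd rfl hl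
  | cons f l ih =>
    cases l with
    | nil => exact h1 f (by simp) hs
    | cons g l =>
      have hf : f ∈ F.subs := Fm.subs_trans (by
        simp only [Fm.conj, Fm.subs, List.mem_cons, List.mem_append]
        exact Or.inr (Or.inl (Fm.self_mem_subs f))) hs
      have hg : Fm.conj d (g :: l) ∈ F.subs := Fm.subs_trans (by
        simp only [Fm.conj, Fm.subs, List.mem_cons, List.mem_append]
        exact Or.inr (Or.inr (Fm.self_mem_subs _))) hs
      exact h2 _ _ (h1 f (by simp) hf)
        (ih (by simp) hg fun f' hf' => h1 f' (List.mem_cons_of_mem _ hf')) hs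

section
variable {V E : Type} [Fintype V] [Fintype E] [DecidableEq V] [DecidableEq E] (G : Gph V E)

theorem clause_vars (u0 : E) (h : V) (T : Finset E) (hh : (G.star h).Nonempty) :
    ∀ u, u ∈ (clause G u0 h T).vars ↔ u ∈ G.star h := by
  intro u
  unfold clause
  rw [disj_vars]
  · simp only [List.mem_map, Finset.mem_toList]
    constructor
    · rintro ⟨f, ⟨w, hw, rfl⟩, hu⟩
      split_ifs at hu
      · have : u = w := hu
        rw [this]; exact hw
      · have : u = w := hu
        rw [this]; exact hw
    · intro hu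
      refine ⟨_, ⟨u, hu, rfl⟩, ?_⟩
      split_ifs
      · exact rfl
      · exact rfl
  · obtain ⟨w, hw⟩ := hh
    intro hnil
    rw [List.map_eq_nil_iff, Finset.toList_eq_nil] at hnil
    rw [hnil] at hw
    simp at hw

private theorem clause_eval (u0 : E) (h : V) (T : Finset E)
    (hh : (G.star h).Nonempty) (x : E → Bool) :
    (clause G u0 h T).eval x = true ↔ ∃ u ∈ G.star h, ¬ (u ∈ T ↔ x u = true) := by
  unfold clause
  rw [disj_eval]
  · simp only [List.mem_map, Finset.mem_toList]
    constructor
    · rintro ⟨f, ⟨w, hw, rfl⟩, hu⟩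
      refine ⟨w, hw, ?_⟩
      split_ifs at hu with h1
      · simp only [Fm.eval, Bool.not_eq_true'] at hu
        rw [hu]
        simp [h1]
      · simp only [Fm.eval] at hu
        rw [hu]
        simp [h1]
    · rintro ⟨w, hw, hn⟩
      refine ⟨_, ⟨w, hw, rfl⟩, ?_⟩
      split_ifs with h1
      · simp only [Fm.eval, Bool.not_eq_true']
        by_contra hc
        rw [Bool.not_eq_false] at hc
        exact hn (by simp [h1, hc])
      · simp only [Fm.eval]
        by_contra hc
        exact hn (by simp [h1, hc])
  · obtain ⟨w, hw⟩ := hh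
    intro hnil
    rw [List.map_eq_nil_iff, Finset.toList_eq_nil] at hnil
    rw [hnil] at hw
    simp at hw

private theorem bd_eq_star (hl : G.NoLoop) (x : E → ZMod 2) (h : V) :
    G.bd x h = ∑ u ∈ G.star h, x u := by
  unfold Gph.bd Gph.star
  rw [Finset.sum_filter]
  refine Finset.sum_congr rfl fun u _ => ?_
  have := hl u
  by_cases h1 : G.src u = h
  · have h2 : G.tgt u ≠ h := fun h2 => this (h1.trans h2.symm)
    simp [h1, h2]
  · simp [h1]

private theorem zmod2_cases (c : ZMod 2) : c = 0 ∨ c = 1 := by
  revert c; decide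

private theorem bd_eq_card (hl : G.NoLoop) (x : E → ZMod 2) (h : V) :
    G.bd x h = (((G.star h).filter fun u => x u ≠ 0).card : ZMod 2) := by
  rw [bd_eq_star G hl, Finset.card_filter, Nat.cast_sum]
  refine Finset.sum_congr rfl fun u _ => ?_
  rcases zmod2_cases (x u) with hu | hu
  · simp [hu]
  · simp [hu]

/-- the boundary of a chain has an even number of points -/
private theorem sum_bd (x : E → ZMod 2) : ∑ v, G.bd x v = 0 := by
  unfold Gph.bd
  rw [Finset.sum_comm]
  refine Finset.sum_eq_zero fun e _ => ?_
  rw [Finset.sum_add_distrib]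
  simp only [Finset.sum_ite_eq, Finset.mem_univ, if_true]
  exact CharTwo.add_self_eq_zero _

/-- a clause is true under assignments with the right parity at its vertex -/
theorem clause_true (hl : G.NoLoop) (u0 : E) (h0 : V) (p : V × Finset E) (hp : p ∈ clauses G h0)
    (x : E → ZMod 2) (hx : G.bd x p.1 = chg h0 p.1) :
    (clause G u0 p.1 p.2).eval (fun u => tb (x u)) = true := by
  unfold clauses at hp
  rw [Finset.mem_filter] at hp
  obtain ⟨_, hsub, hne, hcard⟩ := hp
  rw [clause_eval G _ _ _ hne]
  by_contra hcon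
  push Not at hcon
  apply hcard
  rw [← hx, bd_eq_card G hl]
  congr 2
  ext u
  rw [Finset.mem_filter]
  constructor
  · intro hu
    refine ⟨hsub hu, ?_⟩
    have := (hcon u (hsub hu)).1 hu
    simpa [tb] using this
  · rintro ⟨hu1, hu2⟩
    exact (hcon u hu1).2 (by simpa [tb] using hu2)

private theorem clauses_ne (h0 : V) (h : (G.star h0).Nonempty) (u0 : E) :
    ((clauses G h0).toList.map fun p => clause G u0 p.1 p.2) ≠ [] := by
  intro hnil
  rw [List.map_eq_nil_iff, Finset.toList_eq_nil] at hnil
  have : ((h0, ∅) : V × Finset E) ∈ clauses G h0 := by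
    unfold clauses
    rw [Finset.mem_filter]
    refine ⟨Finset.mem_univ _, Finset.empty_subset _, h, ?_⟩
    simp [chg]
  rw [hnil] at this
  simp at this

theorem Fts_unsat (hl : G.NoLoop) (u0 : E) (h0 : V) (h : (G.star h0).Nonempty) :
    (Fts G u0 h0).Unsat := by
  intro x
  by_contra hne
  rw [Bool.not_eq_false] at hne
  unfold Fts at hne
  rw [conj_eval _ _ (clauses_ne G h0 h u0)] at hne
  let x' : E → ZMod 2 := fun u => if x u = true then 1 else 0
  have hx' : ∀ u, x' u ≠ 0 ↔ x u = true := by
    intro u
    by_cases hu : x u = true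
    · simp [x', hu]
    · simp [x', hu]
  have key : ∀ h' : V, G.bd x' h' = chg h0 h' := by
    intro h'
    by_cases hs : (G.star h').Nonempty
    · rw [bd_eq_card G hl]
      by_contra hcard
      have hmem : ((h', (G.star h').filter fun u => x' u ≠ 0) : V × Finset E) ∈
          clauses G h0 := by
        unfold clauses
        rw [Finset.mem_filter]
        exact ⟨Finset.mem_univ _, Finset.filter_subset _ _, hs, hcard⟩
      have hev := hne _ (List.mem_map.2 ⟨_, Finset.mem_toList.2 hmem, rfl⟩)
      rw [clause_eval G _ _ _ hs] at hev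
      obtain ⟨u, hu, hn⟩ := hev
      apply hn
      rw [Finset.mem_filter, hx']
      exact ⟨fun hh => hh.2, fun hh => ⟨hu, hh⟩⟩
    · rw [bd_eq_star G hl]
      rw [Finset.not_nonempty_iff_eq_empty] at hs
      rw [hs, Finset.sum_empty]
      have : h' ≠ h0 := by
        rintro rfl
        rw [hs] at h
        simp at h
      simp [chg, this]
  have hsum := sum_bd G x'
  rw [Finset.sum_congr rfl fun h' _ => key h'] at hsum
  simp [chg] at hsum

/-- induction over the conjunctions in the CNF -/
theorem Fts_induction (u0 : E) (h0 : V) (h : (G.star h0).Nonempty) (P : Fm E → Prop)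
    (h1 : ∀ p ∈ clauses G h0, clause G u0 p.1 p.2 ∈ (Fts G u0 h0).subs → P (clause G u0 p.1 p.2))
    (h2 : ∀ f g, P f → P g → Fm.and f g ∈ (Fts G u0 h0).subs → P (Fm.and f g)) :
    P (Fts G u0 h0) := by
  refine conj_ind (.var u0) (Fts G u0 h0) P _ (clauses_ne G h0 h u0) (Fm.self_mem_subs _) ?_ h2
  intro f hf hs
  obtain ⟨p, hp, rfl⟩ := List.mem_map.1 hf
  exact h1 p (Finset.mem_toList.1 hp) hs

end

end FrC
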