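import Pool.Agent.Lib.MP_51bb46_lc.C.Ts

/-!
The Tseitin CNF: shape and size.
-/

set_option linter.unusedSectionVars false

namespace FrC

open Finset Fr56
open scoped Classical

section lists

variable {X : Type}

private theorem leaves_disj_le (d : Fm X) (hd : d.leaves = 1) (l : List (Fm X))
    (hl : ∀ f ∈ l, f.leaves = 1) (n : ℕ) (hn : 1 ≤ n) (hln : l.length ≤ n) :
    (Fm.disj d l).leaves ≤ n := by
  induction l generalizing n with
  | nil => simpa [Fm.disj, hd] using hn
  | cons f l ih =>
    cases l with
    | nil => simpa [Fm.disj, hl f (by simp)] using hn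
    | cons g l =>
      have h1 := ih (fun f hf => hl f (List.mem_cons_of_mem _ hf)) (n - 1)
        (by simp only [List.length_cons] at hln; omega)
        (by simp only [List.length_cons] at hln ⊢; omega)
      have h2 := hl f (by simp)
      simp only [Fm.disj, Fm.leaves, h2]
      simp only [List.length_cons] at hln
      omega

private theorem isClause_disj (d : Fm X) (l : List (Fm X)) (hne : l ≠ [])
    (hl : ∀ f ∈ l, Fm.IsClause 1 f) : Fm.IsClause l.length (Fm.disj d l) := by
  induction l with
  | nil => exact absurd rfl hne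
  | cons f l ih =>
    cases l with
    | nil => simpa [Fm.disj] using hl f (by simp)
    | cons g l =>
      have h1 := ih (by simp) (fun f hf => hl f (List.mem_cons_of_mem _ hf))
      have h2 := Fm.IsClause.or (hl f (by simp)) h1
      have h3 : (f :: g :: l).length = 1 + (g :: l).length := by
        simp only [List.length_cons]; omega
      rw [h3]
      simpa [Fm.disj] using h2

private theorem size_disj_le (d : Fm X) (l : List (Fm X)) (hne : l ≠ [])
    (hl : ∀ f ∈ l, f.size ≤ 2) : (Fm.disj d l).size + 1 ≤ 3 * l.length := by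
  induction l with
  | nil => exact absurd rfl hne
  | cons f l ih =>
    cases l with
    | nil =>
      have := hl f (by simp)
      simp only [Fm.disj, List.length_cons, List.length_nil]; omega
    | cons g l =>
      have h1 := ih (by simp) (fun f hf => hl f (List.mem_cons_of_mem _ hf))
      have h2 := hl f (by simp)
      simp only [Fm.disj, Fm.size, List.length_cons] at h1 ⊢
      omega

private theorem isCNF_conj (k : ℕ) (d : Fm X) (l : List (Fm X)) (hne : l ≠ [])
    (hl : ∀ f ∈ l, Fm.IsCNF k f) : Fm.IsCNF k (Fm.conj d l) := by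
  induction l with
  | nil => exact absurd rfl hne
  | cons f l ih =>
    cases l with
    | nil => simpa [Fm.conj] using hl f (by simp)
    | cons g l =>
      have h1 := ih (by simp) (fun f hf => hl f (List.mem_cons_of_mem _ hf))
      simpa [Fm.conj] using Fm.IsCNF.and (hl f (by simp)) h1

private theorem size_conj_le (s : ℕ) (d : Fm X) (l : List (Fm X)) (hne : l ≠ [])
    (hl : ∀ f ∈ l, f.size ≤ s) : (Fm.conj d l).size + 1 ≤ (s + 1) * l.length := by
  induction l with
  | nil => exact absurd rfl hne
  | cons f l ih =>
    cases l with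
    | nil =>
      have := hl f (by simp)
      simp only [Fm.conj, List.length_cons, List.length_nil]; omega
    | cons g l =>
      have h1 := ih (by simp) (fun f hf => hl f (List.mem_cons_of_mem _ hf))
      have h2 := hl f (by simp)
      simp only [Fm.conj, Fm.size, List.length_cons] at h1 ⊢
      nlinarith

private theorem one_le_size (f : Fm X) : 1 ≤ f.size :=
  (Fm.leaves_pos f).trans (Fm.leaves_le_size f)

private theorem le_size_conj (d : Fm X) (l : List (Fm X)) : l.length ≤ (Fm.conj d l).size := by
  induction l with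
  | nil => simp
  | cons f l ih =>
    cases l with
    | nil => simpa [Fm.conj] using one_le_size f
    | cons g l =>
      simp only [Fm.conj, Fm.size, List.length_cons] at ih ⊢
      omega

end lists

section
variable {V E : Type} [Fintype V] [Fintype E] [DecidableEq V] [DecidableEq E] (G : Gph V E)

theorem leaves_clause {Δ : ℕ} (hΔ : 1 ≤ Δ) (hdeg : G.Deg Δ) (u0 : E) (h : V) (T : Finset E) :
    (clause G u0 h T).leaves ≤ Δ := by
  unfold clause
  apply leaves_disj_le _ rfl
  · intro f hf
    rw [List.mem_map] at hf
    obtain ⟨u, _, rfl⟩ := hf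
    split_ifs <;> rfl
  · exact hΔ
  · rw [List.length_map, length_toList]
    exact hdeg h

private theorem clause_isClause (u0 : E) (h : V) (T : Finset E)
    (hh : (G.star h).Nonempty) : Fm.IsClause (G.star h).card (clause G u0 h T) := by
  have h1 : ((G.star h).toList.map fun u => if u ∈ T then Fm.neg (.var u) else Fm.var u) ≠ [] := by
    intro h0
    rw [List.map_eq_nil_iff, Finset.toList_eq_nil] at h0
    exact hh.ne_empty h0
  have h2 := isClause_disj (.var u0) _ h1 (by
    intro f hf
    rw [List.mem_map] at hf
    obtain ⟨u, _, rfl⟩ := hf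
    split_ifs
    · exact Fm.IsClause.neg u
    · exact Fm.IsClause.pos u)
  rw [List.length_map, length_toList] at h2
  exact h2

private theorem clause_size {Δ : ℕ} (hdeg : G.Deg Δ) (u0 : E) (h : V) (T : Finset E)
    (hh : (G.star h).Nonempty) : (clause G u0 h T).size ≤ 3 * Δ := by
  have h1 : ((G.star h).toList.map fun u => if u ∈ T then Fm.neg (.var u) else Fm.var u) ≠ [] := by
    intro h0
    rw [List.map_eq_nil_iff, Finset.toList_eq_nil] at h0
    exact hh.ne_empty h0
  have h2 := size_disj_le (.var u0) _ h1 (by
    intro f hf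
    rw [List.mem_map] at hf
    obtain ⟨u, _, rfl⟩ := hf
    split_ifs
    · simp [Fm.size]
    · simp [Fm.size])
  rw [List.length_map, length_toList] at h2
  have h3 := hdeg h
  unfold clause
  omega

private theorem clauses_ne (h0 : V) (h : (G.star h0).Nonempty) :
    (h0, (∅ : Finset E)) ∈ clauses G h0 := by
  rw [clauses, mem_filter]
  refine ⟨mem_univ _, empty_subset _, h, ?_⟩
  simp [chg]

private theorem clauses_list_ne (u0 : E) (h0 : V) (h : (G.star h0).Nonempty) :
    ((clauses G h0).toList.map fun p => clause G u0 p.1 p.2) ≠ [] := by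
  intro h1
  rw [List.map_eq_nil_iff, Finset.toList_eq_nil] at h1
  have := clauses_ne G h0 h
  rw [h1] at this
  simp at this

theorem Fts_cnf {Δ : ℕ} (hdeg : G.Deg Δ) (u0 : E) (h0 : V) (h : (G.star h0).Nonempty) :
    (Fts G u0 h0).IsCNF Δ := by
  unfold Fts
  apply isCNF_conj _ _ _ (clauses_list_ne G u0 h0 h)
  intro f hf
  rw [List.mem_map] at hf
  obtain ⟨p, hp, rfl⟩ := hf
  rw [mem_toList] at hp
  unfold clauses at hp
  simp only [mem_filter, mem_univ, true_and] at hp
  exact Fm.IsCNF.clause (hdeg p.1) (clause_isClause G u0 p.1 p.2 hp.2.1)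

private theorem card_clauses {Δ : ℕ} (hdeg : G.Deg Δ) (h0 : V) :
    (clauses G h0).card ≤ Fintype.card V * 2 ^ Δ := by
  have h1 : (clauses G h0) ⊆ (univ : Finset V).biUnion
      (fun h => (G.star h).powerset.image (fun T => (h, T))) := by
    intro p hp
    unfold clauses at hp
    simp only [mem_filter, mem_univ, true_and] at hp
    simp only [mem_biUnion, mem_univ, true_and, mem_image, mem_powerset]
    exact ⟨p.1, p.2, hp.1, rfl⟩
  refine (card_le_card h1).trans ?_
  refine (card_biUnion_le_card_mul _ _ (2 ^ Δ) ?_).trans (by rw [card_univ])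
  intro h _
  refine card_image_le.trans ?_
  rw [card_powerset]
  exact Nat.pow_le_pow_right (by norm_num) (hdeg h)

theorem Fts_size {Δ : ℕ} (hΔ : 1 ≤ Δ) (hdeg : G.Deg Δ) (u0 : E) (h0 : V)
    (h : (G.star h0).Nonempty) :
    (Fts G u0 h0).size ≤ Fintype.card V * (2 ^ Δ * (3 * Δ + 1)) := by
  have _ := hΔ
  have h1 := size_conj_le (3 * Δ) (.var u0) _ (clauses_list_ne G u0 h0 h) (by
    intro f hf
    rw [List.mem_map] at hf
    obtain ⟨p, hp, rfl⟩ := hf
    rw [mem_toList] at hp
    unfold clauses at hp
    simp only [mem_filter, mem_univ, true_and] at hp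
    exact clause_size G hdeg u0 p.1 p.2 hp.2.1)
  rw [List.length_map, length_toList] at h1
  have h2 := card_clauses G hdeg h0
  have h3 : (Fts G u0 h0).size ≤ (3 * Δ + 1) * (Fintype.card V * 2 ^ Δ) := by
    refine le_trans ?_ (Nat.mul_le_mul_left _ h2)
    unfold Fts
    omega
  refine h3.trans (le_of_eq ?_)
  ring

theorem le_Fts_size (u0 : E) (h0 : V) :
    (univ.filter fun h => (G.star h).Nonempty).card ≤ (Fts G u0 h0).size := by
  have h1 := le_size_conj (.var u0) ((clauses G h0).toList.map fun p => clause G u0 p.1 p.2)
  rw [List.length_map, length_toList] at h1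
  refine le_trans ?_ h1
  refine card_le_card_of_injOn (fun h => (h,
    if hh : (G.star h).Nonempty ∧ chg h0 h = 0 then ({hh.1.choose} : Finset E) else ∅)) ?_ ?_
  · intro h hh
    simp only [coe_filter, mem_univ, true_and, Set.mem_ofPred_eq] at hh
    simp only [clauses, coe_filter, mem_univ, true_and, Set.mem_ofPred_eq]
    refine ⟨?_, hh, ?_⟩
    · split_ifs with hc
      · simpa using hc.1.choose_spec
      · simp
    · split_ifs with hc
      · rw [card_singleton, hc.2]; simp
      · have : ¬ chg h0 h = 0 := fun h' => hc ⟨hh, h'⟩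
        simpa using fun h => this h.symm
  · intro h _ h' _ hhh
    simp only [Prod.mk.injEq] at hhh
    exact hhh.1

end

end FrC
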