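import Pool.Agent.Lib.MP_51bb46_lc.C.Loc
import Pool.Agent.Lib.MP_51bb46_lc.B.PiecesB
import Pool.Agent.Lib.MP_51bb46_lc.C.TsA
import Pool.Agent.Lib.MP_51bb46_lc.C.TsB
import Pool.Agent.Lib.MP_51bb46_lc.B.SensB
import Pool.Agent.Lib.MP_51bb46_lc.B.Sens

section

/-!
Local semantics: quietness and values persist.
-/

set_option linter.unusedSectionVars false

namespace FrC

open Finset Fr56
open scoped Classical

section
variable {V E : Type} [Fintype V] [Fintype E] [DecidableEq V] [DecidableEq E]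
  {G : Gph V E} (Fr : Frame G) (v0 : V) {Q D : ℕ} (α : Xt (TE V E Q) D → ZMod 2)
  (a : TV V Q → A D)

/-- the restricted fragment depends only on its live edges -/
theorem ev_congr_live (R : Fm (Xt (TE V E Q) D ⊕ Bool)) (z z' : TE V E Q → ZMod 2)
    (h : ∀ e ∈ Live G a R, z e = z' e) (ζ : Bool → Bool) :
    ev (α + Pth (G.tall Q) a z) ζ R = ev (α + Pth (G.tall Q) a z') ζ R := by
  unfold ev
  apply Fm.eval_congr
  intro v hv
  cases v with
  | inr b => rfl
  | inl u =>
    simp only [Sum.elim_inl, Pi.add_apply, Pth]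
    by_cases hl : live (G.tall Q) a u
    · rw [if_pos hl, if_pos hl, h u.e ⟨u, hv, rfl, hl⟩]
    · rw [if_neg hl, if_neg hl]

theorem locA_mem_Lam {U : Finset V} {R : Fm (Xt (TE V E Q) D ⊕ Bool)} {e : TE V E Q} :
    e ∈ Lam G a U R ↔ e ∈ Live G a R ∧ e ∉ incT G Q U := by
  simp only [Lam, Finset.mem_filter, Finset.mem_univ, true_and]

theorem locA_Lam_anti {U U' : Finset V} (h : U ⊆ U') (R : Fm (Xt (TE V E Q) D ⊕ Bool)) :
    Lam G a U' R ⊆ Lam G a U R := by
  intro e he
  rw [locA_mem_Lam] at he ⊢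
  exact ⟨he.1, fun h3 => he.2 (incT_mono G h h3)⟩

/-- pairwise intersecting edges are few -/
theorem card_Lam {Δ : ℕ} (hdeg : G.Deg Δ) (U : Finset V) (R : Fm (Xt (TE V E Q) D ⊕ Bool))
    (h : ∀ e ∈ Lam G a U R, ∀ f ∈ Lam G a U R, ¬ (G.tall Q).VDisj e f) :
    (Lam G a U R).card ≤ 2 * (Δ + 2) := by
  rcases Finset.eq_empty_or_nonempty (Lam G a U R) with h0 | ⟨e0, he0⟩
  · rw [h0, Finset.card_empty]
    exact Nat.zero_le _
  · have hsub : Lam G a U R ⊆
        (G.tall Q).star ((G.tall Q).src e0) ∪ (G.tall Q).star ((G.tall Q).tgt e0) := by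
      intro f hf
      have hn := h e0 he0 f hf
      rw [Finset.mem_union, mem_star', mem_star']
      by_contra hcon
      push Not at hcon
      exact hn ⟨fun h => hcon.1.1 h.symm, fun h => hcon.1.2 h.symm, fun h => hcon.2.1 h.symm,
        fun h => hcon.2.2 h.symm⟩
    have hd := deg_tall G (Q := Q) hdeg
    have c1 := Finset.card_le_card hsub
    have c2 := Finset.card_union_le ((G.tall Q).star ((G.tall Q).src e0))
      ((G.tall Q).star ((G.tall Q).tgt e0))
    have c3 := hd ((G.tall Q).src e0)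
    have c4 := hd ((G.tall Q).tgt e0)
    omega

theorem locA_card_plc {Δ : ℕ} (hdeg : G.Deg Δ) (U : Finset V)
    (R : Fm (Xt (TE V E Q) D ⊕ Bool))
    (h : ∀ e ∈ Lam G a U R, ∀ f ∈ Lam G a U R, ¬ (G.tall Q).VDisj e f) :
    (plc G Q (Lam G a U R)).card ≤ 4 * (Δ + 2) := by
  have c1 := card_plc G (Lam G a U R)
  have c2 := card_Lam a hdeg U R h
  omega

/-- moving the violated vertex of a chain of the tall graph -/
theorem locA_move (Fr : Frame G) (v0 : V) {S S' : Finset V} (hS : S ⊆ S') (hc : S'.card ≤ Fr.m)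
    (z : TE V E Q → ZMod 2) (t : V) (hz : (G.tall Q).bd z = pt (v0, 0) + pt (t, 0))
    (ht : Fr.Free S t) :
    ∃ (z' : TE V E Q → ZMod 2) (t' : V), (G.tall Q).bd z' = pt (v0, 0) + pt (t', 0) ∧
      Fr.Free S' t' ∧ ∀ e ∈ incT G Q S, z' e = z e := by
  obtain ⟨t', ht'⟩ := Fr.ne S' hc
  have hcS : S.card ≤ Fr.m := (Finset.card_le_card hS).trans hc
  obtain ⟨γ, hγ, hγ0⟩ := Fr.conn S t t' hcS ht (Fr.anti hS ht')
  refine ⟨z + iota γ, t', ?_, ht', ?_⟩
  · rw [Gph.bd_add, hz, bd_iota_path G γ t t' hγ]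
    calc (pt (v0, 0) + pt (t, 0) + (pt (t, 0) + pt (t', 0)) : TV V Q → ZMod 2)
        = pt (v0, 0) + (pt (t, 0) + pt (t, 0)) + pt (t', 0) := by
          rw [add_assoc, add_assoc, add_assoc]
      _ = pt (v0, 0) + pt (t', 0) := by rw [add_self2, add_zero]
  · intro e he
    rw [Pi.add_apply, iota_eq_zero G hγ0 e he, add_zero]

/-- fragments with few live edges have a common test chain -/
theorem exists_common_test {Δ : ℕ} (hdeg : G.Deg Δ) (Rs : List (Fm (Xt (TE V E Q) D ⊕ Bool)))
    (hlen : Rs.length ≤ 4) (U : Finset V) (y : E → ZMod 2)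
    (hcard : U.card + 16 * (Δ + 2) ≤ Fr.m) (hok : Fr.Ok v0 U y)
    (h1 : ∀ R ∈ Rs, ∀ e ∈ Lam G a U R, ∀ f ∈ Lam G a U R, ¬ (G.tall Q).VDisj e f) :
    ∃ z, ∀ R ∈ Rs, Test Fr v0 a U y R z := by
  set N : Finset V := Rs.toFinset.biUnion fun R => plc G Q (Lam G a U R) with hN
  have hc : N.card ≤ Rs.toFinset.card * (4 * (Δ + 2)) := by
    apply Finset.card_biUnion_le_card_mul
    intro R hR
    exact locA_card_plc a hdeg U R (h1 R (List.mem_toFinset.1 hR))
  have hc2 : Rs.toFinset.card ≤ 4 := (List.toFinset_card_le Rs).trans hlen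
  have hc3 : Rs.toFinset.card * (4 * (Δ + 2)) ≤ 4 * (4 * (Δ + 2)) := Nat.mul_le_mul_right _ hc2
  have hS' : (U ∪ N).card ≤ Fr.m := by
    have := Finset.card_union_le U N
    omega
  obtain ⟨t, ht, hf⟩ := hok
  obtain ⟨z, t', hz, ht', hag⟩ := locA_move Fr v0 (Finset.subset_union_left (s₁ := U) (s₂ := N))
    hS' (iota y : TE V E Q → ZMod 2) t (bd_iota_path G y v0 t ht) hf
  refine ⟨z, fun R hR => ⟨hag, t', hz, Fr.anti ?_ ht'⟩⟩
  intro p hp
  rw [Finset.mem_union] at hp ⊢
  rcases hp with hp | hp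
  · exact Or.inl hp
  · right
    rw [hN, Finset.mem_biUnion]
    exact ⟨R, List.mem_toFinset.2 hR, hp⟩

/-- for a quiet fragment the local value is the value at any test chain -/
theorem cval_eq (R : Fm (Xt (TE V E Q) D ⊕ Bool)) (U : Finset V) (y : E → ZMod 2)
    (z : TE V E Q → ZMod 2) (hq : QuietR Fr v0 α a R U y) (ht : Test Fr v0 a U y R z)
    (ζ : Bool → Bool) : cval Fr v0 α a U y R ζ = ev (α + Pth (G.tall Q) a z) ζ R := by
  unfold cval
  by_cases h : ev (α + Pth (G.tall Q) a z) ζ R = true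
  · rw [h]
    exact decide_eq_true ⟨z, ht, h⟩
  · rw [Bool.not_eq_true] at h
    rw [h]
    apply decide_eq_false
    rintro ⟨y'', ht'', h''⟩
    rw [hq.2 y'' z ht'' ht ζ, h] at h''
    exact Bool.noConfusion h''

theorem locA_union_sub {A B C : Finset V} (h : A ⊆ B) : A ∪ C ⊆ B ∪ C := by
  intro p hp
  rw [Finset.mem_union] at hp ⊢
  exact hp.imp (fun h' => h h') id

theorem locA_sub_union {A B C : Finset V} (h : A ⊆ B) : C ∪ A ⊆ C ∪ B := by
  intro p hp
  rw [Finset.mem_union] at hp ⊢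
  exact hp.imp id (fun h' => h h')

/-- quietness and local values of a fragment persist -/
theorem quietR_mono {Δ : ℕ} (hdeg : G.Deg Δ) (R : Fm (Xt (TE V E Q) D ⊕ Bool))
    (U U' : Finset V) (y y' : E → ZMod 2) (hU : U ⊆ U')
    (hcard : U'.card + 16 * (Δ + 2) ≤ Fr.m) (hq : QuietR Fr v0 α a R U y)
    (hag : G.Agree U y y') (hok : Fr.Ok v0 U' y') :
    QuietR Fr v0 α a R U' y' ∧ cval Fr v0 α a U' y' R = cval Fr v0 α a U y R := by
  obtain ⟨hstar, hq2⟩ := hq
  have hstar' : ∀ e ∈ Lam G a U' R, ∀ f ∈ Lam G a U' R, ¬ (G.tall Q).VDisj e f :=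
    fun e he f hf => hstar e (locA_Lam_anti a hU R he) f (locA_Lam_anti a hU R hf)
  -- transfer of tests
  have key : ∀ z1, Test Fr v0 a U' y' R z1 → ∃ z2, Test Fr v0 a U y R z2 ∧
      ∀ ζ, ev (α + Pth (G.tall Q) a z1) ζ R = ev (α + Pth (G.tall Q) a z2) ζ R := by
    rintro z1 ⟨h1, t1, h2, h3⟩
    have hsub : U' ∪ plc G Q (Lam G a U' R) ⊆ U' ∪ plc G Q (Lam G a U R) :=
      locA_sub_union (plc_mono G (locA_Lam_anti a hU R))
    have hcS : (U' ∪ plc G Q (Lam G a U R)).card ≤ Fr.m := by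
      have c1 := Finset.card_union_le U' (plc G Q (Lam G a U R))
      have c2 := locA_card_plc a hdeg U R hstar
      omega
    obtain ⟨z2, t2, hz2, ht2, hag2⟩ := locA_move Fr v0 hsub hcS z1 t1 h2 h3
    refine ⟨z2, ⟨?_, t2, hz2, Fr.anti (locA_union_sub hU) ht2⟩, ?_⟩
    · intro e he
      have he' : e ∈ incT G Q U' := incT_mono G hU he
      rw [hag2 e (incT_mono G Finset.subset_union_left he'), h1 e he',
        iota_agree G hag.symm e he]
    · intro ζ
      apply ev_congr_live
      intro e he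
      symm
      apply hag2
      by_cases hi : e ∈ incT G Q U'
      · exact incT_mono G Finset.subset_union_left hi
      · exact incT_mono G Finset.subset_union_right
          (mem_incT_plc G ((locA_mem_Lam a).2 ⟨he, hi⟩))
  refine ⟨⟨hstar', ?_⟩, ?_⟩
  · intro z1 z2 h1 h2 ζ
    obtain ⟨w1, hw1, he1⟩ := key z1 h1
    obtain ⟨w2, hw2, he2⟩ := key z2 h2
    rw [he1, he2]
    exact hq2 w1 w2 hw1 hw2 ζ
  · -- a test at `(U', y')` exists
    obtain ⟨z1, hz1⟩ := exists_common_test Fr v0 a hdeg [R] (by simp) U' y' hcard hok (by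
      intro R' hR'
      rw [List.mem_singleton] at hR'
      subst hR'
      exact hstar')
    have hz1 := hz1 R (List.mem_singleton.2 rfl)
    obtain ⟨w1, hw1, he1⟩ := key z1 hz1
    funext ζ
    unfold cval
    rw [decide_eq_decide]
    constructor
    · rintro ⟨z2, hz2, hv⟩
      obtain ⟨w2, hw2, he2⟩ := key z2 hz2
      exact ⟨w2, hw2, by rw [← he2, hv]⟩
    · rintro ⟨w2, hw2, hv⟩
      refine ⟨z1, hz1, ?_⟩
      rw [he1, hq2 w1 w2 hw1 hw2, hv]

theorem qQ_mono {Δ : ℕ} (hdeg : G.Deg Δ) (l : ℕ) (f : Fm (Xt (TE V E Q) D)) (b : Bool)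
    (U U' : Finset V) (y y' : E → ZMod 2) (hU : U ⊆ U')
    (hcard : U'.card + 16 * (Δ + 2) ≤ Fr.m) (hq : qQ Fr v0 α a l f b U y)
    (hag : G.Agree U y y') (hok : Fr.Ok v0 U' y') : qQ Fr v0 α a l f b U' y' := by
  obtain ⟨hq, hv⟩ := hq
  refine ⟨fun R hR =>
    (quietR_mono Fr v0 α a hdeg R U U' y y' hU hcard (hq R hR) hag hok).1, ?_⟩
  rw [← hv]
  unfold val
  apply fval_congr
  intro R hR
  exact (quietR_mono Fr v0 α a hdeg R U U' y y' hU hcard (hq R hR) hag hok).2

end

end FrC
end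

section

/-!
Local semantics: chains and decision trees.
-/

set_option linter.unusedSectionVars false

namespace FrC

open Finset Fr56
open scoped Classical

section
variable {V E : Type} [Fintype V] [Fintype E] [DecidableEq V] [DecidableEq E]
  {G : Gph V E} (Fr : Frame G) (v0 : V) {Q D : ℕ} {Δ : ℕ} {α : Xt (TE V E Q) D → ZMod 2}
  {a : TV V Q → A D}

theorem StepM.subset {R : Fm (Xt (TE V E Q) D ⊕ Bool)} {U U' : Finset V}
    (h : StepM G a R U U') : U ⊆ U' := by
  obtain ⟨e, _, f, _, _, _, _, rfl⟩ := h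
  exact Finset.subset_union_left

theorem StepS.subset {β : Xt (TE V E Q) D → ZMod 2} {R : Fm (Xt (TE V E Q) D ⊕ Bool)}
    {U U' : Finset V} (h : StepS G Δ a β R U U') : U ⊆ U' := by
  obtain ⟨L, S, ζ, _, _, _, _, rfl, _⟩ := h
  exact Finset.subset_union_left

private theorem four_le_cs : 4 * (Δ + 2) ≤ cs Δ := by
  unfold cs
  nlinarith

private theorem StepM.card_le {R : Fm (Xt (TE V E Q) D ⊕ Bool)} {U U' : Finset V}
    (h : StepM G a R U U') : U'.card ≤ U.card + cs Δ := by
  obtain ⟨e, _, f, _, _, _, _, rfl⟩ := h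
  have h1 := Finset.card_union_le U (plc G Q {e, f})
  have h2 := card_plc G ({e, f} : Finset (TE V E Q))
  have h3 : ({e, f} : Finset (TE V E Q)).card ≤ 2 := Finset.card_le_two
  have h4 := four_le_cs (Δ := Δ)
  omega

private theorem card_Nb_cs (hdeg : G.Deg Δ) (L : Finset (TE V E Q)) (hL : L.card ≤ 2 * (Δ + 2)) :
    (Nb G Q L).card ≤ cs Δ := by
  refine (card_Nb G hdeg L).trans ?_
  unfold cs
  calc 2 * (1 + Δ) * L.card ≤ 2 * (1 + Δ) * (2 * (Δ + 2)) := Nat.mul_le_mul_left _ hL
    _ = 4 * (1 + Δ) * (Δ + 2) := by ring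

private theorem StepS.card_le (hdeg : G.Deg Δ) {β : Xt (TE V E Q) D → ZMod 2}
    {R : Fm (Xt (TE V E Q) D ⊕ Bool)} {U U' : Finset V} (h : StepS G Δ a β R U U') :
    U'.card ≤ U.card + cs Δ := by
  obtain ⟨L, S, ζ, hL, _, _, _, rfl, _⟩ := h
  have h1 := Finset.card_union_le U (Nb G Q L)
  have h2 := card_Nb_cs hdeg L hL
  omega

theorem LChain.subset {Rs : Finset (Fm (Xt (TE V E Q) D ⊕ Bool))} {y : E → ZMod 2} {k : ℕ}
    {U W : Finset V} (h : LChain G Δ a Rs α y k U W) : U ⊆ W := by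
  induction k generalizing U with
  | zero =>
    have h' : U = W := h
    exact h'.subset
  | succ k ih =>
    obtain ⟨R, _, U', hs, hc⟩ := h
    refine Finset.Subset.trans ?_ (ih hc)
    rcases hs with hs | ⟨hs, _⟩
    · exact hs.subset
    · exact hs.subset

theorem LChain.card (hdeg : G.Deg Δ) {Rs : Finset (Fm (Xt (TE V E Q) D ⊕ Bool))}
    {y : E → ZMod 2} {k : ℕ} {U W : Finset V} (h : LChain G Δ a Rs α y k U W) :
    W.card ≤ U.card + k * cs Δ := by
  induction k generalizing U with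
  | zero =>
    have h' : U = W := h
    rw [h']
    omega
  | succ k ih =>
    obtain ⟨R, _, U', hs, hc⟩ := h
    have h1 := ih hc
    have h2 : U'.card ≤ U.card + cs Δ := by
      rcases hs with hs | ⟨hs, _⟩
      · exact hs.card_le
      · exact hs.card_le hdeg
    have h3 : (k + 1) * cs Δ = k * cs Δ + cs Δ := by ring
    omega

/-- a chain depends only on the base chain near its final set -/
theorem LChain.congr {Rs : Finset (Fm (Xt (TE V E Q) D ⊕ Bool))} {y y' : E → ZMod 2} {k : ℕ}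
    {U W : Finset V} (h : LChain G Δ a Rs α y k U W) (hy : G.Agree W y y') :
    LChain G Δ a Rs α y' k U W := by
  induction k generalizing U with
  | zero => exact h
  | succ k ih =>
    obtain ⟨R, hR, U', hs, hc⟩ := h
    refine ⟨R, hR, U', ?_, ih hc⟩
    rcases hs with hs | ⟨hs, hl⟩
    · exact Or.inl hs
    · refine Or.inr ⟨?_, hl⟩
      have hUW : U' ⊆ W := hc.subset
      have hlive : ∀ e ∈ Live G a R, (iota y : TE V E Q → ZMod 2) e = iota y' e := fun e he =>
        iota_agree G hy e (incT_mono G hUW (hl he))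
      obtain ⟨L, S, ζ, h1, h2, h3, h4, h5, h6⟩ := hs
      refine ⟨L, S, ζ, h1, h2, h3, h4, h5, ?_⟩
      rw [add_assoc, ← Pth_add] at h6 ⊢
      rw [← ev_congr_live α a R (iota y) (iota y') hlive ζ,
        ← ev_congr_live α a R (iota y + Fs G S) (iota y' + Fs G S) (fun e he => by
          rw [Pi.add_apply, Pi.add_apply, hlive e he]) ζ]
      exact h6

theorem LChain.toChain {Rs : Finset (Fm (Xt (TE V E Q) D ⊕ Bool))} {y : E → ZMod 2} {k : ℕ}
    {U W : Finset V} (h : LChain G Δ a Rs α y k U W) :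
    Chain G Δ a Rs (α + Pth (G.tall Q) a (iota y)) k U W := by
  induction k generalizing U with
  | zero => exact h
  | succ k ih =>
    obtain ⟨R, hR, U', hs, hc⟩ := h
    refine ⟨R, hR, U', ?_, ih hc⟩
    rcases hs with hs | ⟨hs, _⟩
    · exact Or.inl hs
    · exact Or.inr hs

theorem LChain.snoc {Rs : Finset (Fm (Xt (TE V E Q) D ⊕ Bool))} {y : E → ZMod 2} {k : ℕ}
    {U W W' : Finset V} (h : LChain G Δ a Rs α y k U W)
    {R : Fm (Xt (TE V E Q) D ⊕ Bool)} (hR : R ∈ Rs)
    (hs : StepM G a R W W' ∨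
      (StepS G Δ a (α + Pth (G.tall Q) a (iota y)) R W W' ∧ Live G a R ⊆ incT G Q W')) :
    LChain G Δ a Rs α y (k + 1) U W' := by
  induction k generalizing U with
  | zero =>
    have h' : U = W := h
    subst h'
    exact ⟨R, hR, W', hs, rfl⟩
  | succ k ih =>
    obtain ⟨R', hR', U', hs', hc⟩ := h
    exact ⟨R', hR', U', hs', ih hc⟩

/-- **S-lemma**: a fragment with pairwise intersecting live edges that is not constant on its test
chains is sensitive to a sum of few elementary closed chains -/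
theorem exists_stepS (hdeg : G.Deg Δ) (hQ : 2 * (Δ + 2) ≤ Q)
    (R : Fm (Xt (TE V E Q) D ⊕ Bool)) (U : Finset V) (y : E → ZMod 2)
    (hcard : U.card + cs Δ ≤ Fr.m)
    (h1 : ∀ e ∈ Lam G a U R, ∀ f ∈ Lam G a U R, ¬ (G.tall Q).VDisj e f)
    (h2 : ¬ QuietR Fr v0 α a R U y) (y' : E → ZMod 2) (hag : G.Agree U y y')
    (hok : Fr.Ok v0 (U ∪ Nb G Q (Lam G a U R)) y') :
    StepS G Δ a (α + Pth (G.tall Q) a (iota y')) R U (U ∪ Nb G Q (Lam G a U R)) ∧
      Live G a R ⊆ incT G Q (U ∪ Nb G Q (Lam G a U R)) := by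
  have hΛ : (Lam G a U R).card ≤ 2 * (Δ + 2) := card_Lam a hdeg U R h1
  have hmem : ∀ e ∈ Live G a R, e ∉ incT G Q U → e ∈ Lam G a U R := fun e he hi => by
    unfold Lam
    rw [Finset.mem_filter]
    exact ⟨Finset.mem_univ _, he, hi⟩
  refine ⟨?_, ?_⟩
  · -- two test chains with different values
    obtain ⟨z1, z2, ζ, ht1, ht2, hne⟩ : ∃ z1 z2 ζ, Test Fr v0 a U y R z1 ∧
        Test Fr v0 a U y R z2 ∧
        ev (α + Pth (G.tall Q) a z1) ζ R ≠ ev (α + Pth (G.tall Q) a z2) ζ R := by
      by_contra hcon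
      push Not at hcon
      exact h2 ⟨h1, fun z1 z2 ht1 ht2 ζ => hcon z1 z2 ζ ht1 ht2⟩
    obtain ⟨z, ht, hne⟩ : ∃ z, Test Fr v0 a U y R z ∧
        ev (α + Pth (G.tall Q) a (iota y')) ζ R ≠ ev (α + Pth (G.tall Q) a z) ζ R := by
      by_cases h3 : ev (α + Pth (G.tall Q) a (iota y')) ζ R = ev (α + Pth (G.tall Q) a z1) ζ R
      · exact ⟨z2, ht2, by rw [h3]; exact hne⟩
      · exact ⟨z1, ht1, h3⟩
    obtain ⟨t', hbd', hft'⟩ := hok
    obtain ⟨hzU, t, hbd, hft⟩ := ht
    have hsub : U ∪ plc G Q (Lam G a U R) ⊆ U ∪ Nb G Q (Lam G a U R) :=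
      Finset.union_subset_union_right (plc_subset_Nb G _)
    have hc : (U ∪ plc G Q (Lam G a U R)).card ≤ Fr.m := by
      have e1 := Finset.card_union_le U (plc G Q (Lam G a U R))
      have e2 := card_plc G (Lam G a U R)
      have e3 := four_le_cs (Δ := Δ)
      omega
    obtain ⟨γ, hγb, hγ⟩ := Fr.conn (U ∪ plc G Q (Lam G a U R)) t t' hc hft (Fr.anti hsub hft')
    obtain ⟨d, hd⟩ : ∃ d : TE V E Q → ZMod 2, d = z + iota y' + iota γ := ⟨_, rfl⟩
    have two : ∀ u : ZMod 2, u + u = 0 := CharTwo.add_self_eq_zero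
    have hbd0 : (G.tall Q).bd d = 0 := by
      rw [hd, Gph.bd_add, Gph.bd_add, hbd, bd_iota_path G y' v0 t' hbd',
        bd_iota_path G γ t t' hγb]
      funext v
      simp only [Pi.add_apply, Pi.zero_apply]
      have e1 := two (pt (v0, (0 : Fin (Q + 1))) v)
      have e2 := two (pt (t, (0 : Fin (Q + 1))) v)
      have e3 := two (pt (t', (0 : Fin (Q + 1))) v)
      linear_combination e1 + e2 + e3
    have hγU : ∀ x ∈ incT G Q U, (iota γ : TE V E Q → ZMod 2) x = 0 := fun x hx =>
      iota_eq_zero G hγ x (incT_mono G Finset.subset_union_left hx)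
    have hγL : ∀ x ∈ Lam G a U R, (iota γ : TE V E Q → ZMod 2) x = 0 := fun x hx =>
      iota_eq_zero G hγ x (incT_mono G Finset.subset_union_right (mem_incT_plc G hx))
    have hyy : ∀ x ∈ incT G Q U, z x = iota y' x := fun x hx =>
      (hzU x hx).trans (iota_agree G hag x hx)
    have hdU : ∀ x ∈ incT G Q U, d x = 0 := by
      intro x hx
      rw [hd, Pi.add_apply, Pi.add_apply, hyy x hx, hγU x hx, two, add_zero]
    obtain ⟨S, hS1, hS2, hS3, hS4⟩ := closing G d hbd0 U hdU (Lam G a U R) (hΛ.trans hQ)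
    refine ⟨Lam G a U R, S, ζ, hΛ, hS1.trans hΛ, hS3, hS4, rfl, ?_⟩
    have hfin : ∀ e ∈ Live G a R, (iota y' + Fs G S : TE V E Q → ZMod 2) e = z e := by
      intro e he
      rw [Pi.add_apply]
      by_cases hi : e ∈ incT G Q U
      · rw [Fs_eq_zero G S U hS3 e hi, add_zero, hyy e hi]
      · have heL := hmem e he hi
        rw [hS2 e heL, hd, Pi.add_apply, Pi.add_apply, hγL e heL, add_zero, add_comm (z e),
          ← add_assoc, two, zero_add]
    rw [add_assoc, ← Pth_add, ev_congr_live α a R (iota y' + Fs G S) z hfin ζ]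
    exact hne
  · intro e he
    by_cases hi : e ∈ incT G Q U
    · exact incT_mono G Finset.subset_union_left hi
    · exact incT_mono G ((plc_subset_Nb G _).trans Finset.subset_union_right)
        (mem_incT_plc G (hmem e he hi))

/-- **decision trees from the absence of long chains** -/
theorem dec_of_noChain (hdeg : G.Deg Δ) (hQ : 2 * (Δ + 2) ≤ Q) (l k : ℕ)
    (f : Fm (Xt (TE V E Q) D)) (hno : NoChain Fr v0 Δ α a l k f)
    (hm : (k + 1) * cs Δ ≤ Fr.m) (y : E → ZMod 2) (hok : Fr.Ok v0 ∅ y) :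
    Dec Fr v0 (qQ Fr v0 α a l f) (k * cs Δ) ∅ y := by
  have key : ∀ (j i : ℕ) (U : Finset V) (y : E → ZMod 2), i + j = k →
      LChain G Δ a (frags l f).toFinset α y i ∅ U → Fr.Ok v0 U y →
      Dec Fr v0 (qQ Fr v0 α a l f) (j * cs Δ) U y := by
    intro j
    induction j with
    | zero =>
      intro i U y hij hch hok
      rw [Nat.add_zero] at hij
      rw [hij] at hch
      exact absurd hch (hno U y hok)
    | succ j ih =>
      intro i U y hij hch hok
      by_cases hq : Quiet Fr v0 α a l f U y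
      · exact Dec.leaf (val Fr v0 α a l f U y) ⟨hq, rfl⟩
      unfold Quiet at hq
      push Not at hq
      obtain ⟨R, hR, hnR⟩ := hq
      have hR' : R ∈ (frags l f).toFinset := List.mem_toFinset.mpr hR
      have hk : (j + 1) * cs Δ = cs Δ + j * cs Δ := by ring
      rw [hk]
      by_cases h1 : ∀ e ∈ Lam G a U R, ∀ f ∈ Lam G a U R, ¬ (G.tall Q).VDisj e f
      · refine Dec.node (Nb G Q (Lam G a U R)) (card_Nb_cs hdeg _ (card_Lam a hdeg U R h1)) ?_
        intro y' hag hok'
        have hcU : U.card ≤ i * cs Δ := by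
          have := hch.card hdeg
          rw [Finset.card_empty, Nat.zero_add] at this
          exact this
        have hc : U.card + cs Δ ≤ Fr.m := by
          have e1 : i * cs Δ + cs Δ = (i + 1) * cs Δ := by ring
          have e2 : (i + 1) * cs Δ ≤ (k + 1) * cs Δ := Nat.mul_le_mul_right _ (by omega)
          omega
        obtain ⟨hs, hl⟩ := exists_stepS Fr v0 hdeg hQ R U y hc h1 hnR y' hag hok'
        exact ih (i + 1) _ y' (by omega) ((hch.congr hag).snoc hR' (Or.inr ⟨hs, hl⟩)) hok'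
      · push Not at h1
        obtain ⟨e, he, f', hf, hef⟩ := h1
        unfold Lam at he hf
        rw [Finset.mem_filter] at he hf
        have hs : StepM G a R U (U ∪ plc G Q {e, f'}) :=
          ⟨e, he.2.1, f', hf.2.1, hef, he.2.2, hf.2.2, rfl⟩
        refine Dec.node (plc G Q {e, f'}) ?_ ?_
        · have h2 := card_plc G ({e, f'} : Finset (TE V E Q))
          have h3 : ({e, f'} : Finset (TE V E Q)).card ≤ 2 := Finset.card_le_two
          have h4 := four_le_cs (Δ := Δ)
          omega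
        · intro y' hag hok'
          exact ih (i + 1) _ y' (by omega) ((hch.congr hag).snoc hR' (Or.inl hs)) hok'
  exact key k 0 ∅ y (by omega) rfl hok

end

end FrC
end

section

section

/-!
Probability of long chains for a fixed assignment.
-/

set_option linter.unusedSectionVars false

namespace FrC

open Finset Fr56
open scoped Classical

section
variable {V E : Type} [Fintype V] [Fintype E] [DecidableEq V] [DecidableEq E]
  (G : Gph V E) {Q D : ℕ} (Δ : ℕ)

/-- total probability weight of M-steps by `R` -/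
noncomputable def mWt (R : Fm (Xt (TE V E Q) D ⊕ Bool)) : ℝ :=
  ∑ e : TE V E Q, ∑ f : TE V E Q,
    if (G.tall Q).VDisj e f then pr (fun a : TV V Q → A D => e ∈ Live G a R ∧ f ∈ Live G a R)
    else 0

/-- index set of the closed chains used in S-steps, with the values of the holes -/
abbrev SI (E : Type) (Q : ℕ) := Finset (FI E Q) × (Bool → Bool)

/-- the small ones -/
noncomputable def sI (E : Type) [Fintype E] (Q Δ : ℕ) : Finset (SI E Q) :=
  univ.filter fun c => c.1.card ≤ 2 * (Δ + 2)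

/-- the edge sets used in S-steps -/
noncomputable def lI (V E : Type) [Fintype V] [Fintype E] (Q Δ : ℕ) : Finset (Finset (TE V E Q)) :=
  univ.filter fun L => L.card ≤ 2 * (Δ + 2)

/-- total probability weight of S-steps by `R` at `β` -/
noncomputable def sWt (β : Xt (TE V E Q) D → ZMod 2) (R : Fm (Xt (TE V E Q) D ⊕ Bool)) : ℝ :=
  (lI V E Q Δ).card * ∑ c ∈ sI E Q Δ,
    pr (fun a : TV V Q → A D => ev β c.2 R ≠ ev (β + Pth (G.tall Q) a (Fs G c.1)) c.2 R)

theorem mWt_nonneg (R : Fm (Xt (TE V E Q) D ⊕ Bool)) : 0 ≤ mWt G R := by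
  unfold mWt
  refine Finset.sum_nonneg fun e _ => Finset.sum_nonneg fun f _ => ?_
  split_ifs
  · exact pr_nonneg _
  · exact le_rfl

theorem sWt_nonneg (β : Xt (TE V E Q) D → ZMod 2) (R : Fm (Xt (TE V E Q) D ⊕ Bool)) :
    0 ≤ sWt G Δ β R := by
  unfold sWt
  exact mul_nonneg (Nat.cast_nonneg _) (Finset.sum_nonneg fun _ _ => pr_nonneg _)

variable {G} {Δ}

/-- liveness of a base edge depends only on its two endpoints -/
theorem mem_Live_congr {a b : TV V Q → A D} {R : Fm (Xt (TE V E Q) D ⊕ Bool)} {e : TE V E Q}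
    (h1 : a ((G.tall Q).src e) = b ((G.tall Q).src e))
    (h2 : a ((G.tall Q).tgt e) = b ((G.tall Q).tgt e)) :
    e ∈ Live G a R ↔ e ∈ Live G b R := by
  constructor
  · rintro ⟨u, hu, rfl, hl⟩
    exact ⟨u, hu, rfl, (live_congr (G.tall Q) h1 h2).1 hl⟩
  · rintro ⟨u, hu, rfl, hl⟩
    exact ⟨u, hu, rfl, (live_congr (G.tall Q) h1 h2).2 hl⟩

/-- the lift of a sum of elementary closed chains depends only on `a` over its base edges -/
theorem Pth_Fs_congr {a b : TV V Q → A D} {S : Finset (FI E Q)}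
    (h : ∀ v : TV V Q, (∃ s ∈ S, v.1 = G.src s.1 ∨ v.1 = G.tgt s.1) → a v = b v) :
    Pth (G.tall Q) a (Fs G S) = Pth (G.tall Q) b (Fs G S) := by
  refine Pth_congr (G.tall Q) fun e he => ?_
  obtain ⟨s, hs, h1, h2⟩ := Fs_supp G S e he
  exact ⟨h _ ⟨s, hs, h1⟩, h _ ⟨s, hs, h2⟩⟩

theorem Chain.subset_A {Rs : Finset (Fm (Xt (TE V E Q) D ⊕ Bool))} {a : TV V Q → A D}
    {β : Xt (TE V E Q) D → ZMod 2} {k : ℕ} {U W : Finset V} (h : Chain G Δ a Rs β k U W) :
    U ⊆ W := by
  induction k generalizing U with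
  | zero =>
    have h' : U = W := h
    rw [h']
  | succ k ih =>
    obtain ⟨R, _, U', hs, hc⟩ := h
    have h1 : U ⊆ U' := by
      rcases hs with hs | hs
      · exact hs.subset
      · exact hs.subset
    exact h1.trans (ih hc)

theorem StepM.congr_compl {a b : TV V Q → A D} {R : Fm (Xt (TE V E Q) D ⊕ Bool)}
    {U U' : Finset V} (hab : ∀ v : TV V Q, v.1 ∉ U → a v = b v) (h : StepM G a R U U') :
    StepM G b R U U' := by
  obtain ⟨e, he, f, hf, hd, heU, hfU, hU'⟩ := h
  have he' := heU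
  have hf' := hfU
  simp only [incT, Set.mem_ofPred_eq, not_or] at he' hf'
  exact ⟨e, (mem_Live_congr (hab _ he'.1) (hab _ he'.2)).1 he, f,
    (mem_Live_congr (hab _ hf'.1) (hab _ hf'.2)).1 hf, hd, heU, hfU, hU'⟩

theorem StepS.congr_compl {a b : TV V Q → A D} {β : Xt (TE V E Q) D → ZMod 2}
    {R : Fm (Xt (TE V E Q) D ⊕ Bool)} {U U' : Finset V}
    (hab : ∀ v : TV V Q, v.1 ∉ U → a v = b v) (h : StepS G Δ a β R U U') :
    StepS G Δ b β R U U' := by
  obtain ⟨L, S, ζ, hL, hS, hSU, hSL, hU', hev⟩ := h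
  refine ⟨L, S, ζ, hL, hS, hSU, hSL, hU', ?_⟩
  rwa [← Pth_Fs_congr (G := G) (a := a) (b := b) (S := S)]
  rintro v ⟨s, hs, hv⟩
  have h1 := hSU s hs
  simp only [Gph.inc, Set.mem_ofPred_eq, not_or] at h1
  rcases hv with hv | hv
  · exact hab v (by rw [hv]; exact h1.1)
  · exact hab v (by rw [hv]; exact h1.2)

theorem Chain.congr_compl {Rs : Finset (Fm (Xt (TE V E Q) D ⊕ Bool))} {a b : TV V Q → A D}
    {β : Xt (TE V E Q) D → ZMod 2} {k : ℕ} {U W : Finset V}
    (hab : ∀ v : TV V Q, v.1 ∉ U → a v = b v) (h : Chain G Δ a Rs β k U W) :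
    Chain G Δ b Rs β k U W := by
  induction k generalizing U with
  | zero => exact h
  | succ k ih =>
    obtain ⟨R, hR, U', hs, hc⟩ := h
    have h1 : U ⊆ U' := by
      rcases hs with hs | hs
      · exact hs.subset
      · exact hs.subset
    refine ⟨R, hR, U', ?_, ih (fun v hv => hab v fun h => hv (h1 h)) hc⟩
    rcases hs with hs | hs
    · exact Or.inl (hs.congr_compl hab)
    · exact Or.inr (hs.congr_compl hab)

theorem StepM.congr_mem {a b : TV V Q → A D} {R : Fm (Xt (TE V E Q) D ⊕ Bool)}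
    {U U' : Finset V} (hab : ∀ v : TV V Q, v.1 ∈ U' → a v = b v) (h : StepM G a R U U') :
    StepM G b R U U' := by
  obtain ⟨e, he, f, hf, hd, heU, hfU, rfl⟩ := h
  have me : e ∈ ({e, f} : Finset (TE V E Q)) := Finset.mem_insert_self _ _
  have mf : f ∈ ({e, f} : Finset (TE V E Q)) :=
    Finset.mem_insert_of_mem (Finset.mem_singleton_self _)
  exact ⟨e, (mem_Live_congr (hab _ (Finset.mem_union_right _ (mem_plc_src G me)))
      (hab _ (Finset.mem_union_right _ (mem_plc_tgt G me)))).1 he, f,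
    (mem_Live_congr (hab _ (Finset.mem_union_right _ (mem_plc_src G mf)))
      (hab _ (Finset.mem_union_right _ (mem_plc_tgt G mf)))).1 hf,
    hd, heU, hfU, rfl⟩

theorem StepS.congr_mem {a b : TV V Q → A D} {β : Xt (TE V E Q) D → ZMod 2}
    {R : Fm (Xt (TE V E Q) D ⊕ Bool)} {U U' : Finset V}
    (hab : ∀ v : TV V Q, v.1 ∈ U' → a v = b v) (h : StepS G Δ a β R U U') :
    StepS G Δ b β R U U' := by
  obtain ⟨L, S, ζ, hL, hS, hSU, hSL, rfl, hev⟩ := h
  refine ⟨L, S, ζ, hL, hS, hSU, hSL, rfl, ?_⟩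
  rwa [← Pth_Fs_congr (G := G) (a := a) (b := b) (S := S)]
  rintro v ⟨s, hs, hv⟩
  rcases hv with hv | hv
  · exact hab v (by rw [hv]; exact Finset.mem_union_right _ (hSL s hs).1)
  · exact hab v (by rw [hv]; exact Finset.mem_union_right _ (hSL s hs).2)

theorem Chain.congr_mem {Rs : Finset (Fm (Xt (TE V E Q) D ⊕ Bool))} {a b : TV V Q → A D}
    {β : Xt (TE V E Q) D → ZMod 2} {k : ℕ} {U W : Finset V}
    (hab : ∀ v : TV V Q, v.1 ∈ W → a v = b v) (h : Chain G Δ a Rs β k U W) :
    Chain G Δ b Rs β k U W := by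
  induction k generalizing U with
  | zero => exact h
  | succ k ih =>
    obtain ⟨R, hR, U', hs, hc⟩ := h
    have h1 : U' ⊆ W := hc.subset_A
    refine ⟨R, hR, U', ?_, ih hc⟩
    rcases hs with hs | hs
    · exact Or.inl (hs.congr_mem fun v hv => hab v (h1 hv))
    · exact Or.inr (hs.congr_mem fun v hv => hab v (h1 hv))

variable (G) (Δ)

/-- a chain to `W` depends only on `a` over `W` -/
theorem Chain.depOn (Rs : Finset (Fm (Xt (TE V E Q) D ⊕ Bool))) (β : Xt (TE V E Q) D → ZMod 2)
    (k : ℕ) (U W : Finset V) :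
    DepOn {v : TV V Q | v.1 ∈ W} (fun a : TV V Q → A D => Chain G Δ a Rs β k U W) := by
  intro a b hab
  exact ⟨fun h => h.congr_mem hab, fun h => h.congr_mem fun v hv => (hab v hv).symm⟩

/-- a chain from `U` depends only on `a` outside `U` -/
theorem Chain.depOn_compl (Rs : Finset (Fm (Xt (TE V E Q) D ⊕ Bool)))
    (β : Xt (TE V E Q) D → ZMod 2) (k : ℕ) (U W : Finset V) :
    DepOn {v : TV V Q | v.1 ∉ U} (fun a : TV V Q → A D => Chain G Δ a Rs β k U W) := by
  intro a b hab
  exact ⟨fun h => h.congr_compl hab, fun h => h.congr_compl fun v hv => (hab v hv).symm⟩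

/-- one M-step followed by a chain: a single term of the union bound -/
theorem pr_stepM_term (Rs : Finset (Fm (Xt (TE V E Q) D ⊕ Bool))) (β : Xt (TE V E Q) D → ZMod 2)
    (c : ℝ) (hc : 0 ≤ c) (k : ℕ) (W : Finset V)
    (ih : ∀ U, pr (fun a : TV V Q → A D => Chain G Δ a Rs β k U W) ≤ c)
    (R : Fm (Xt (TE V E Q) D ⊕ Bool)) (U : Finset V) (e f : TE V E Q) :
    pr (fun a : TV V Q → A D => ((G.tall Q).VDisj e f ∧ e ∉ incT G Q U ∧ f ∉ incT G Q U) ∧
      (e ∈ Live G a R ∧ f ∈ Live G a R) ∧ Chain G Δ a Rs β k (U ∪ plc G Q {e, f}) W) ≤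
    (if (G.tall Q).VDisj e f then
      pr (fun a : TV V Q → A D => e ∈ Live G a R ∧ f ∈ Live G a R) else 0) * c := by
  have me : e ∈ ({e, f} : Finset (TE V E Q)) := Finset.mem_insert_self _ _
  have mf : f ∈ ({e, f} : Finset (TE V E Q)) :=
    Finset.mem_insert_of_mem (Finset.mem_singleton_self _)
  by_cases hP : (G.tall Q).VDisj e f ∧ e ∉ incT G Q U ∧ f ∉ incT G Q U
  · rw [if_pos hP.1]
    have hS : pr (fun a : TV V Q → A D => (e ∈ Live G a R ∧ f ∈ Live G a R) ∧
        Chain G Δ a Rs β k (U ∪ plc G Q {e, f}) W) =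
        pr (fun a : TV V Q → A D => e ∈ Live G a R ∧ f ∈ Live G a R) *
          pr (fun a : TV V Q → A D => Chain G Δ a Rs β k (U ∪ plc G Q {e, f}) W) := by
      refine pr_indep' (S := {v : TV V Q | v.1 ∈ U ∪ plc G Q {e, f}})
        (T := {v : TV V Q | v.1 ∉ U ∪ plc G Q {e, f}}) ?_ ?_ (Chain.depOn_compl G Δ Rs β k _ W)
      · rw [Set.disjoint_left]
        intro v hv hv'
        exact hv' hv
      · intro a b hab
        exact and_congr
          (mem_Live_congr (hab _ (Finset.mem_union_right _ (mem_plc_src G me)))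
            (hab _ (Finset.mem_union_right _ (mem_plc_tgt G me))))
          (mem_Live_congr (hab _ (Finset.mem_union_right _ (mem_plc_src G mf)))
            (hab _ (Finset.mem_union_right _ (mem_plc_tgt G mf))))
    refine (pr_mono (Q := fun a : TV V Q → A D => (e ∈ Live G a R ∧ f ∈ Live G a R) ∧
      Chain G Δ a Rs β k (U ∪ plc G Q {e, f}) W) fun a h => h.2).trans ?_
    rw [hS]
    exact mul_le_mul_of_nonneg_left (ih _) (pr_nonneg _)
  · have h0 : pr (fun a : TV V Q → A D =>
          ((G.tall Q).VDisj e f ∧ e ∉ incT G Q U ∧ f ∉ incT G Q U) ∧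
          (e ∈ Live G a R ∧ f ∈ Live G a R) ∧ Chain G Δ a Rs β k (U ∪ plc G Q {e, f}) W) = 0 := by
      rw [← pr_false (Ω := TV V Q → A D)]
      exact pr_congr fun a => ⟨fun h => hP h.1, fun h => h.elim⟩
    rw [h0]
    refine mul_nonneg ?_ hc
    split_ifs
    · exact pr_nonneg _
    · exact le_rfl

/-- one M-step followed by a chain -/
theorem pr_stepM_le (Rs : Finset (Fm (Xt (TE V E Q) D ⊕ Bool))) (β : Xt (TE V E Q) D → ZMod 2)
    (c : ℝ) (hc : 0 ≤ c) (k : ℕ) (W : Finset V)
    (ih : ∀ U, pr (fun a : TV V Q → A D => Chain G Δ a Rs β k U W) ≤ c)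
    (R : Fm (Xt (TE V E Q) D ⊕ Bool)) (U : Finset V) :
    pr (fun a : TV V Q → A D => ∃ U', StepM G a R U U' ∧ Chain G Δ a Rs β k U' W) ≤
      mWt G R * c := by
  have h1 : pr (fun a : TV V Q → A D => ∃ U', StepM G a R U U' ∧ Chain G Δ a Rs β k U' W) ≤
      pr (fun a : TV V Q → A D => ∃ q ∈ (univ : Finset (TE V E Q × TE V E Q)),
        ((G.tall Q).VDisj q.1 q.2 ∧ q.1 ∉ incT G Q U ∧ q.2 ∉ incT G Q U) ∧
          (q.1 ∈ Live G a R ∧ q.2 ∈ Live G a R) ∧
          Chain G Δ a Rs β k (U ∪ plc G Q {q.1, q.2}) W) := by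
    apply pr_mono
    rintro a ⟨U', ⟨e, he, f, hf, hd, heU, hfU, rfl⟩, hch⟩
    exact ⟨(e, f), Finset.mem_univ _, ⟨hd, heU, hfU⟩, ⟨he, hf⟩, hch⟩
  refine h1.trans ((pr_exists_le _ _).trans ?_)
  refine (Finset.sum_le_sum fun q _ => pr_stepM_term G Δ Rs β c hc k W ih R U q.1 q.2).trans ?_
  rw [← Finset.sum_mul, Fintype.sum_prod_type]
  exact le_rfl

/-- one S-step followed by a chain: a single term of the union bound -/
theorem pr_stepS_term (Rs : Finset (Fm (Xt (TE V E Q) D ⊕ Bool))) (β : Xt (TE V E Q) D → ZMod 2)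
    (c : ℝ) (hc : 0 ≤ c) (k : ℕ) (W : Finset V)
    (ih : ∀ U, pr (fun a : TV V Q → A D => Chain G Δ a Rs β k U W) ≤ c)
    (R : Fm (Xt (TE V E Q) D ⊕ Bool)) (U : Finset V) (L : Finset (TE V E Q))
    (S : Finset (FI E Q)) (z : Bool → Bool) :
    pr (fun a : TV V Q → A D => (∀ s ∈ S, G.src s.1 ∈ Nb G Q L ∧ G.tgt s.1 ∈ Nb G Q L) ∧
          ev β z R ≠ ev (β + Pth (G.tall Q) a (Fs G S)) z R ∧
          Chain G Δ a Rs β k (U ∪ Nb G Q L) W) ≤
      pr (fun a : TV V Q → A D => ev β z R ≠ ev (β + Pth (G.tall Q) a (Fs G S)) z R) * c := by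
  by_cases hP : ∀ s ∈ S, G.src s.1 ∈ Nb G Q L ∧ G.tgt s.1 ∈ Nb G Q L
  · have hS : pr (fun a : TV V Q → A D => ev β z R ≠ ev (β + Pth (G.tall Q) a (Fs G S)) z R ∧
        Chain G Δ a Rs β k (U ∪ Nb G Q L) W) =
        pr (fun a : TV V Q → A D => ev β z R ≠ ev (β + Pth (G.tall Q) a (Fs G S)) z R) *
          pr (fun a : TV V Q → A D => Chain G Δ a Rs β k (U ∪ Nb G Q L) W) := by
      refine pr_indep' (S := {v : TV V Q | v.1 ∈ U ∪ Nb G Q L})
        (T := {v : TV V Q | v.1 ∉ U ∪ Nb G Q L}) ?_ ?_ (Chain.depOn_compl G Δ Rs β k _ W)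
      · rw [Set.disjoint_left]
        intro v hv hv'
        exact hv' hv
      · intro a b hab
        have h2 : Pth (G.tall Q) a (Fs G S) = Pth (G.tall Q) b (Fs G S) := by
          apply Pth_Fs_congr
          rintro v ⟨s, hs, hv⟩
          rcases hv with hv | hv
          · refine hab v ?_
            show v.1 ∈ U ∪ Nb G Q L
            rw [hv]; exact Finset.mem_union_right _ (hP s hs).1
          · refine hab v ?_
            show v.1 ∈ U ∪ Nb G Q L
            rw [hv]; exact Finset.mem_union_right _ (hP s hs).2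
        show (ev β z R ≠ ev (β + Pth (G.tall Q) a (Fs G S)) z R) ↔
          (ev β z R ≠ ev (β + Pth (G.tall Q) b (Fs G S)) z R)
        rw [h2]
    refine (pr_mono (Q := fun a : TV V Q → A D =>
      ev β z R ≠ ev (β + Pth (G.tall Q) a (Fs G S)) z R ∧
      Chain G Δ a Rs β k (U ∪ Nb G Q L) W) fun a h => h.2).trans ?_
    rw [hS]
    exact mul_le_mul_of_nonneg_left (ih _) (pr_nonneg _)
  · have h0 : pr (fun a : TV V Q → A D =>
          (∀ s ∈ S, G.src s.1 ∈ Nb G Q L ∧ G.tgt s.1 ∈ Nb G Q L) ∧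
          ev β z R ≠ ev (β + Pth (G.tall Q) a (Fs G S)) z R ∧
          Chain G Δ a Rs β k (U ∪ Nb G Q L) W) = 0 := by
      rw [← pr_false (Ω := TV V Q → A D)]
      exact pr_congr fun a => ⟨fun h => hP h.1, fun h => h.elim⟩
    rw [h0]
    exact mul_nonneg (pr_nonneg _) hc

/-- one S-step followed by a chain -/
theorem pr_stepS_le (Rs : Finset (Fm (Xt (TE V E Q) D ⊕ Bool))) (β : Xt (TE V E Q) D → ZMod 2)
    (c : ℝ) (hc : 0 ≤ c) (k : ℕ) (W : Finset V)
    (ih : ∀ U, pr (fun a : TV V Q → A D => Chain G Δ a Rs β k U W) ≤ c)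
    (R : Fm (Xt (TE V E Q) D ⊕ Bool)) (U : Finset V) :
    pr (fun a : TV V Q → A D => ∃ U', StepS G Δ a β R U U' ∧ Chain G Δ a Rs β k U' W) ≤
      sWt G Δ β R * c := by
  have h1 : pr (fun a : TV V Q → A D => ∃ U', StepS G Δ a β R U U' ∧ Chain G Δ a Rs β k U' W) ≤
      pr (fun a : TV V Q → A D =>
        ∃ q ∈ (lI V E Q Δ) ×ˢ (sI E Q Δ),
        (∀ s ∈ q.2.1, G.src s.1 ∈ Nb G Q q.1 ∧ G.tgt s.1 ∈ Nb G Q q.1) ∧
          ev β q.2.2 R ≠ ev (β + Pth (G.tall Q) a (Fs G q.2.1)) q.2.2 R ∧
          Chain G Δ a Rs β k (U ∪ Nb G Q q.1) W) := by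
    apply pr_mono
    rintro a ⟨U', ⟨L, S, z, hL, hS, _, hSL, rfl, hev⟩, hch⟩
    refine ⟨(L, (S, z)), ?_, hSL, hev, hch⟩
    rw [Finset.mem_product]
    exact ⟨Finset.mem_filter.2 ⟨Finset.mem_univ _, hL⟩,
      Finset.mem_filter.2 ⟨Finset.mem_univ _, hS⟩⟩
  refine h1.trans ((pr_exists_le _ _).trans ?_)
  refine (Finset.sum_le_sum fun q _ =>
    pr_stepS_term G Δ Rs β c hc k W ih R U q.1 q.2.1 q.2.2).trans ?_
  rw [← Finset.sum_mul]
  refine le_of_eq (congrArg (· * c) ?_)
  rw [Finset.sum_product]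
  unfold sWt
  show (∑ _x ∈ lI V E Q Δ, ∑ y ∈ sI E Q Δ, pr (fun a : TV V Q → A D =>
    ev β y.2 R ≠ ev (β + Pth (G.tall Q) a (Fs G y.1)) y.2 R)) = _
  rw [Finset.sum_const, nsmul_eq_mul]

/-- long chains are unlikely -/
theorem pr_chain_le (Rs : Finset (Fm (Xt (TE V E Q) D ⊕ Bool))) (β : Xt (TE V E Q) D → ZMod 2)
    (η : ℝ) (hη : ∑ R ∈ Rs, (mWt G R + sWt G Δ β R) ≤ η) (k : ℕ) (U W : Finset V) :
    pr (fun a : TV V Q → A D => Chain G Δ a Rs β k U W) ≤ η ^ k := by
  have hη0 : 0 ≤ η := le_trans (Finset.sum_nonneg fun R _ =>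
    add_nonneg (mWt_nonneg G R) (sWt_nonneg G Δ β R)) hη
  induction k generalizing U with
  | zero => rw [pow_zero]; exact pr_le_one _
  | succ k ih =>
    have hc : 0 ≤ η ^ k := pow_nonneg hη0 k
    have h1 : pr (fun a : TV V Q → A D => Chain G Δ a Rs β (k + 1) U W) ≤
        pr (fun a : TV V Q → A D => ∃ R ∈ Rs,
          (∃ U', StepM G a R U U' ∧ Chain G Δ a Rs β k U' W) ∨
          (∃ U', StepS G Δ a β R U U' ∧ Chain G Δ a Rs β k U' W)) := by
      apply pr_mono
      rintro a ⟨R, hR, U', hs | hs, hch⟩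
      · exact ⟨R, hR, Or.inl ⟨U', hs, hch⟩⟩
      · exact ⟨R, hR, Or.inr ⟨U', hs, hch⟩⟩
    refine h1.trans ((pr_exists_le _ _).trans ?_)
    calc ∑ R ∈ Rs, pr (fun a : TV V Q → A D =>
          (∃ U', StepM G a R U U' ∧ Chain G Δ a Rs β k U' W) ∨
          (∃ U', StepS G Δ a β R U U' ∧ Chain G Δ a Rs β k U' W))
        ≤ ∑ R ∈ Rs, (mWt G R + sWt G Δ β R) * η ^ k := by
          refine Finset.sum_le_sum fun R _ => ?_
          refine (pr_or_le _ _).trans ?_
          rw [add_mul]
          exact add_le_add (pr_stepM_le G Δ Rs β _ hc k W ih R U)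
            (pr_stepS_le G Δ Rs β _ hc k W ih R U)
      _ = (∑ R ∈ Rs, (mWt G R + sWt G Δ β R)) * η ^ k := by rw [Finset.sum_mul]
      _ ≤ η * η ^ k := mul_le_mul_of_nonneg_right hη hc
      _ = η ^ (k + 1) := by rw [pow_succ]; ring

end

end FrC
end

section

/-!
Local semantics: values respect the connectives; the clauses are locally true.
-/

set_option linter.unusedSectionVars false

namespace FrC

open Finset Fr56
open scoped Classical

private theorem locb_mem_vars_map {V W : Type} (σ : V → W) (f : Fm V) (v : V) (hv : v ∈ f.vars) :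
    σ v ∈ (f.map σ).vars := by
  induction f with
  | var w =>
    simp only [Fm.vars, Set.mem_singleton_iff] at hv
    subst hv
    simp [Fm.map, Fm.vars]
  | neg f ih => exact ih hv
  | and f g ihf ihg =>
    rcases hv with hv | hv
    · exact Or.inl (ihf hv)
    · exact Or.inr (ihg hv)
  | or f g ihf ihg =>
    rcases hv with hv | hv
    · exact Or.inl (ihf hv)
    · exact Or.inr (ihg hv)

private theorem locb_inl_mem_vars_lab {X : Type} (b : Bool) (f : Fm (Option X)) (x : X)
    (hx : some x ∈ f.vars) : Sum.inl x ∈ (lab b f).vars := by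
  induction f with
  | var w =>
    simp only [Fm.vars, Set.mem_singleton_iff] at hx
    subst hx
    simp [lab, Fm.map, Fm.vars]
  | neg f ih => exact ih hx
  | and f g ihf ihg =>
    rcases hx with hx | hx
    · exact Or.inl (ihf hx)
    · exact Or.inr (ihg hx)
  | or f g ihf ihg =>
    rcases hx with hx | hx
    · exact Or.inl (ihf hx)
    · exact Or.inr (ihg hx)

section
variable {V E : Type} [Fintype V] [Fintype E] [DecidableEq V] [DecidableEq E]
  {G : Gph V E} (Fr : Frame G) (v0 : V) {Q D : ℕ} (α : Xt (TE V E Q) D → ZMod 2)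
  (a : TV V Q → A D)

private theorem locb_locAt {R : Fm (Xt (TE V E Q) D ⊕ Bool)} {U : Finset V} {y : E → ZMod 2}
    {z : TE V E Q → ZMod 2} (hq : QuietR Fr v0 α a R U y) (ht : Test Fr v0 a U y R z) :
    LocAt (cval Fr v0 α a U y) (fun v => tb ((α + Pth (G.tall Q) a z) v)) R :=
  fun ζ => cval_eq Fr v0 α a R U y z hq ht ζ

theorem qQ_neg {Δ : ℕ} (hdeg : G.Deg Δ) (l : ℕ) (f : Fm (Xt (TE V E Q) D)) (b b' : Bool)
    (U : Finset V) (y : E → ZMod 2) (hcard : U.card + 16 * (Δ + 2) ≤ Fr.m)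
    (hok : Fr.Ok v0 U y) (hf : qQ Fr v0 α a l f b U y) (hn : qQ Fr v0 α a l f.neg b' U y) :
    b' = !b := by
  obtain ⟨hf, rfl⟩ := hf
  obtain ⟨hn, rfl⟩ := hn
  have q1 := hf (lab false (top l f)) (by simp [frags])
  have q2 := hn (lab false (top l (.neg f))) (by simp [frags])
  obtain ⟨y', hy'⟩ := exists_common_test Fr v0 a hdeg
    [lab false (top l f), lab false (top l (.neg f))] (by simp) U y hcard hok (by
      intro R hR
      simp only [List.mem_cons, List.not_mem_nil, or_false] at hR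
      rcases hR with rfl | rfl
      · exact q1.1
      · exact q2.1)
  exact fval_neg l _ (fun v => tb ((α + Pth (G.tall Q) a y') v)) f
    (locb_locAt Fr v0 α a q1 (hy' _ (by simp))) (locb_locAt Fr v0 α a q2 (hy' _ (by simp)))

theorem qQ_and {Δ : ℕ} (hdeg : G.Deg Δ) (l : ℕ) (f g : Fm (Xt (TE V E Q) D)) (b b' b'' : Bool)
    (U : Finset V) (y : E → ZMod 2) (hcard : U.card + 16 * (Δ + 2) ≤ Fr.m)
    (hok : Fr.Ok v0 U y) (hf : qQ Fr v0 α a l f b U y) (hg : qQ Fr v0 α a l g b' U y)
    (hn : qQ Fr v0 α a l (f.and g) b'' U y) : b'' = (b && b') := by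
  obtain ⟨hf, rfl⟩ := hf
  obtain ⟨hg, rfl⟩ := hg
  obtain ⟨hn, rfl⟩ := hn
  have q1 := hf (lab false (top l f)) (by simp [frags])
  have q2 := hg (lab false (top l g)) (by simp [frags])
  have q3 := hn (lab false (top l (.and f g))) (by simp [frags])
  by_cases hcut : cut l (top l f) (top l g) = true
  · have q4 := hn (Fm.and (lab false (top l f)) (lab true (top l g))) (by
      simp [frags, pcs, hcut])
    obtain ⟨y', hy'⟩ := exists_common_test Fr v0 a hdeg
      [lab false (top l f), lab false (top l g), lab false (top l (.and f g)),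
        Fm.and (lab false (top l f)) (lab true (top l g))] (by simp) U y hcard hok (by
        intro R hR
        simp only [List.mem_cons, List.not_mem_nil, or_false] at hR
        rcases hR with rfl | rfl | rfl | rfl
        · exact q1.1
        · exact q2.1
        · exact q3.1
        · exact q4.1)
    exact fval_and l _ (fun v => tb ((α + Pth (G.tall Q) a y') v)) f g
      (locb_locAt Fr v0 α a q1 (hy' _ (by simp))) (locb_locAt Fr v0 α a q2 (hy' _ (by simp)))
      (locb_locAt Fr v0 α a q3 (hy' _ (by simp)))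
      (fun _ => locb_locAt Fr v0 α a q4 (hy' _ (by simp)))
  · obtain ⟨y', hy'⟩ := exists_common_test Fr v0 a hdeg
      [lab false (top l f), lab false (top l g), lab false (top l (.and f g))]
      (by simp) U y hcard hok (by
        intro R hR
        simp only [List.mem_cons, List.not_mem_nil, or_false] at hR
        rcases hR with rfl | rfl | rfl
        · exact q1.1
        · exact q2.1
        · exact q3.1)
    exact fval_and l _ (fun v => tb ((α + Pth (G.tall Q) a y') v)) f g
      (locb_locAt Fr v0 α a q1 (hy' _ (by simp))) (locb_locAt Fr v0 α a q2 (hy' _ (by simp)))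
      (locb_locAt Fr v0 α a q3 (hy' _ (by simp))) (fun h => absurd h hcut)

theorem qQ_or {Δ : ℕ} (hdeg : G.Deg Δ) (l : ℕ) (f g : Fm (Xt (TE V E Q) D)) (b b' b'' : Bool)
    (U : Finset V) (y : E → ZMod 2) (hcard : U.card + 16 * (Δ + 2) ≤ Fr.m)
    (hok : Fr.Ok v0 U y) (hf : qQ Fr v0 α a l f b U y) (hg : qQ Fr v0 α a l g b' U y)
    (hn : qQ Fr v0 α a l (f.or g) b'' U y) : b'' = (b || b') := by
  obtain ⟨hf, rfl⟩ := hf
  obtain ⟨hg, rfl⟩ := hg
  obtain ⟨hn, rfl⟩ := hn
  have q1 := hf (lab false (top l f)) (by simp [frags])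
  have q2 := hg (lab false (top l g)) (by simp [frags])
  have q3 := hn (lab false (top l (.or f g))) (by simp [frags])
  by_cases hcut : cut l (top l f) (top l g) = true
  · have q4 := hn (Fm.or (lab false (top l f)) (lab true (top l g))) (by
      simp [frags, pcs, hcut])
    obtain ⟨y', hy'⟩ := exists_common_test Fr v0 a hdeg
      [lab false (top l f), lab false (top l g), lab false (top l (.or f g)),
        Fm.or (lab false (top l f)) (lab true (top l g))] (by simp) U y hcard hok (by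
        intro R hR
        simp only [List.mem_cons, List.not_mem_nil, or_false] at hR
        rcases hR with rfl | rfl | rfl | rfl
        · exact q1.1
        · exact q2.1
        · exact q3.1
        · exact q4.1)
    exact fval_or l _ (fun v => tb ((α + Pth (G.tall Q) a y') v)) f g
      (locb_locAt Fr v0 α a q1 (hy' _ (by simp))) (locb_locAt Fr v0 α a q2 (hy' _ (by simp)))
      (locb_locAt Fr v0 α a q3 (hy' _ (by simp)))
      (fun _ => locb_locAt Fr v0 α a q4 (hy' _ (by simp)))
  · obtain ⟨y', hy'⟩ := exists_common_test Fr v0 a hdeg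
      [lab false (top l f), lab false (top l g), lab false (top l (.or f g))]
      (by simp) U y hcard hok (by
        intro R hR
        simp only [List.mem_cons, List.not_mem_nil, or_false] at hR
        rcases hR with rfl | rfl | rfl
        · exact q1.1
        · exact q2.1
        · exact q3.1)
    exact fval_or l _ (fun v => tb ((α + Pth (G.tall Q) a y') v)) f g
      (locb_locAt Fr v0 α a q1 (hy' _ (by simp))) (locb_locAt Fr v0 α a q2 (hy' _ (by simp)))
      (locb_locAt Fr v0 α a q3 (hy' _ (by simp))) (fun h => absurd h hcut)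

/-- the clauses of the Tseitin formula are never decided to be false -/
theorem clause_good {Δ : ℕ} (hdeg : G.Deg Δ) (hl : G.NoLoop) (hQ : 0 < Q) (hD : 0 < D) (l : ℕ)
    (hΔl : 2 * (Δ + 2) < l) (h0 : HV (TV V Q) (TE V E Q) D) (u0 : Xt (TE V E Q) D)
    (hα : ((G.tall Q).blow D).bd α = pt h0 + pt (ctr a (v0, 0)))
    (p : HV (TV V Q) (TE V E Q) D × Finset (Xt (TE V E Q) D))
    (hp : p ∈ clauses ((G.tall Q).blow D) h0) (U : Finset V) (y : E → ZMod 2)
    (hcard : U.card + 16 * (Δ + 2) ≤ Fr.m) (hok : Fr.Ok v0 U y) :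
    ¬ qQ Fr v0 α a l (clause ((G.tall Q).blow D) u0 p.1 p.2) false U y := by
  rintro ⟨hq, hfalse⟩
  have hnl : ((G.tall Q).blow D).NoLoop := noLoop_blow (G.tall Q) hD (noLoop_tall G hl)
  have hdegB : ((G.tall Q).blow D).Deg (2 * (Δ + 2)) :=
    deg_blow (G.tall Q) (noLoop_tall G hl) (by omega) (deg_tall G hdeg)
  have hleaves : (clause ((G.tall Q).blow D) u0 p.1 p.2).leaves < l :=
    lt_of_le_of_lt (leaves_clause ((G.tall Q).blow D) (by omega) hdegB u0 p.1 p.2) hΔl
  have htop := (top_small l _ hleaves).1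
  have q1 := hq (lab false (top l (clause ((G.tall Q).blow D) u0 p.1 p.2))) (by simp [frags])
  obtain ⟨z, hz⟩ := exists_common_test Fr v0 a hdeg
    [lab false (top l (clause ((G.tall Q).blow D) u0 p.1 p.2))] (by simp) U y hcard hok (by
      intro R hR
      simp only [List.mem_cons, List.not_mem_nil, or_false] at hR
      subst hR
      exact q1.1)
  have ht := hz _ (List.mem_singleton.2 rfl)
  have hloc := locb_locAt Fr v0 α a q1 ht
  have hval : val Fr v0 α a l (clause ((G.tall Q).blow D) u0 p.1 p.2) U y =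
      (clause ((G.tall Q).blow D) u0 p.1 p.2).eval
        (fun v => tb ((α + Pth (G.tall Q) a z) v)) :=
    fval_small l _ _ _ hleaves hloc
  have htrue : (clause ((G.tall Q).blow D) u0 p.1 p.2).eval
      (fun v => tb ((α + Pth (G.tall Q) a z) v)) = true := by
    obtain ⟨-, t, hbd, hfree⟩ := ht
    apply clause_true ((G.tall Q).blow D) hnl u0 h0 p hp
    have hx : ((G.tall Q).blow D).bd (α + Pth (G.tall Q) a z) =
        pt h0 + pt (ctr a (t, 0)) := by
      rw [Gph.bd_add, hα, bd_Pth_path (G.tall Q) hD a z (v0, 0) (t, 0) hbd]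
      calc pt h0 + pt (ctr a (v0, 0)) + (pt (ctr a (v0, 0)) + pt (ctr a (t, 0)))
          = pt h0 + (pt (ctr a (v0, 0)) + pt (ctr a (v0, 0))) + pt (ctr a (t, 0)) := by
            rw [add_assoc, add_assoc, add_assoc]
        _ = pt h0 + pt (ctr a (t, 0)) := by rw [add_self2, add_zero]
    rw [hx]
    by_cases hpt' : p.1 = ctr a (t, 0)
    · exfalso
      have hstar : (((G.tall Q).blow D).star p.1).Nonempty := by
        simp only [clauses, Finset.mem_filter] at hp
        exact hp.2.2.1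
      set e : TE V E Q := Sum.inr (t, ⟨0, hQ⟩) with he
      have hsrc : (G.tall Q).src e = (t, 0) := rfl
      have htgt : ((G.tall Q).tgt e).1 = t := rfl
      obtain ⟨u, hu1, hu2, hu3⟩ := exists_live_end (G.tall Q) hD a e (t, 0) (Or.inl hsrc)
      have hustar : u ∈ ((G.tall Q).blow D).star p.1 := by
        rw [mem_star', hpt']
        exact hu3
      have hv1 : u ∈ (clause ((G.tall Q).blow D) u0 p.1 p.2).vars :=
        (clause_vars ((G.tall Q).blow D) u0 p.1 p.2 hstar u).2 hustar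
      have hv2 : Sum.inl u ∈
          (lab false (top l (clause ((G.tall Q).blow D) u0 p.1 p.2))).vars := by
        rw [htop]
        exact locb_inl_mem_vars_lab false _ u (locb_mem_vars_map some _ u hv1)
      have hlive : e ∈ Live G a (lab false (top l (clause ((G.tall Q).blow D) u0 p.1 p.2))) :=
        ⟨u, hv2, hu1, hu2⟩
      have htnot := Fr.disj hfree
      rw [Finset.mem_union, not_or] at htnot
      have hninc : e ∉ incT G Q U := by
        rintro (hin | hin)
        · exact htnot.1 (by rw [hsrc] at hin; exact hin)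
        · exact htnot.1 (by rw [htgt] at hin; exact hin)
      have hmem : e ∈ Lam G a U (lab false (top l (clause ((G.tall Q).blow D) u0 p.1 p.2))) := by
        unfold Lam
        rw [Finset.mem_filter]
        exact ⟨Finset.mem_univ _, hlive, hninc⟩
      apply htnot.2
      have := mem_plc_src G hmem
      rw [hsrc] at this
      exact this
    · simp only [Pi.add_apply, pt, chg, Pi.single_apply, hpt', if_false, add_zero]
  rw [hfalse, htrue] at hval
  exact Bool.noConfusion hval

end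

end FrC
end

section

/-!
The weights of M-steps and S-steps.
-/

set_option linter.unusedSectionVars false

namespace FrC

open Finset Fr56
open scoped Classical

/-- the number of variables of a fragment is at most the number of its variable leaves -/
theorem card_vars_le_cntB {X : Type} [Fintype X] (R : Fm (X ⊕ Bool)) :
    (univ.filter fun u : X => Sum.inl u ∈ R.vars).card ≤ vl2 R := by
  induction R with
  | var v =>
    cases v with
    | inl x =>
      have : (univ.filter fun u : X => (Sum.inl u : X ⊕ Bool) ∈ (Fm.var (Sum.inl x)).vars) ⊆ {x} := by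
        intro u hu
        simp only [Fm.vars, Set.mem_singleton_iff, Sum.inl.injEq, mem_filter, mem_univ,
          true_and] at hu
        simp [hu]
      exact (card_le_card this).trans (by simp [vl2])
    | inr b =>
      have : (univ.filter fun u : X => (Sum.inl u : X ⊕ Bool) ∈ (Fm.var (Sum.inr b)).vars) = ∅ := by
        ext u
        simp [Fm.vars]
      rw [this]
      simp
  | neg f ih => exact ih
  | and f g ihf ihg =>
    have : (univ.filter fun u : X => (Sum.inl u : X ⊕ Bool) ∈ (Fm.and f g).vars) ⊆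
        (univ.filter fun u : X => Sum.inl u ∈ f.vars) ∪
        (univ.filter fun u : X => Sum.inl u ∈ g.vars) := by
      intro u hu
      simpa [Fm.vars] using hu
    refine (card_le_card this).trans ((card_union_le _ _).trans ?_)
    simp only [vl2]
    omega
  | or f g ihf ihg =>
    have : (univ.filter fun u : X => (Sum.inl u : X ⊕ Bool) ∈ (Fm.or f g).vars) ⊆
        (univ.filter fun u : X => Sum.inl u ∈ f.vars) ∪
        (univ.filter fun u : X => Sum.inl u ∈ g.vars) := by
      intro u hu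
      simpa [Fm.vars] using hu
    refine (card_le_card this).trans ((card_union_le _ _).trans ?_)
    simp only [vl2]
    omega

/-- number of small subsets -/
theorem card_small_cntB {α : Type} [Fintype α] (n : ℕ) :
    (univ.filter fun W : Finset α => W.card ≤ n).card ≤ (Fintype.card α + 1) ^ n := by
  induction n with
  | zero =>
    rw [pow_zero, Finset.card_le_one]
    intro a ha b hb
    simp only [mem_filter, mem_univ, true_and, Nat.le_zero, Finset.card_eq_zero] at ha hb
    rw [ha, hb]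
  | succ n ih =>
    have hsub : (univ.filter fun W : Finset α => W.card ≤ n + 1) ⊆
        ((univ.filter fun W : Finset α => W.card ≤ n) ×ˢ (univ : Finset (Option α))).image
          (fun p => match p.2 with | none => p.1 | some x => insert x p.1) := by
      intro W hW
      simp only [mem_filter, mem_univ, true_and] at hW
      simp only [mem_image, mem_product, mem_filter, mem_univ, true_and, and_true, Prod.exists]
      rcases Nat.lt_or_ge n W.card with h | h
      · have hne : W.Nonempty := by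
          rw [← Finset.card_pos]; omega
        obtain ⟨x, hx⟩ := hne
        refine ⟨W.erase x, some x, ?_, ?_⟩
        · rw [Finset.card_erase_of_mem hx]; omega
        · simp only [Finset.insert_erase hx]
      · exact ⟨W, none, h, rfl⟩
    calc _ ≤ _ := Finset.card_le_card hsub
      _ ≤ _ := Finset.card_image_le
      _ = (univ.filter fun W : Finset α => W.card ≤ n).card * (Fintype.card α + 1) := by
        rw [Finset.card_product, Finset.card_univ, Fintype.card_option]
      _ ≤ _ := by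
        rw [pow_succ]
        exact Nat.mul_le_mul_right _ ih

section
variable {V E : Type} [Fintype V] [Fintype E] [DecidableEq V] [DecidableEq E]
  (G : Gph V E) {Q D : ℕ} (Δ : ℕ)

/-- number of codes of S-steps -/
noncomputable def nC (V E : Type) [Fintype V] [Fintype E] (Q Δ : ℕ) : ℝ :=
  (lI V E Q Δ).card * (sI E Q Δ).card

theorem nC_le : nC V E Q Δ ≤ ((Fintype.card (TE V E Q) : ℝ) + 1) ^ (2 * (Δ + 2)) *
    (((Fintype.card (FI E Q) : ℝ) + 1) ^ (2 * (Δ + 2)) * 4) := by
  unfold nC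
  have h1 : ((lI V E Q Δ).card : ℝ) ≤
      ((Fintype.card (TE V E Q) : ℝ) + 1) ^ (2 * (Δ + 2)) := by
    have h := card_small_cntB (α := TE V E Q) (2 * (Δ + 2))
    unfold lI
    exact_mod_cast h
  have h2 : ((sI E Q Δ).card : ℝ) ≤
      ((Fintype.card (FI E Q) : ℝ) + 1) ^ (2 * (Δ + 2)) * 4 := by
    have h := card_small_cntB (α := FI E Q) (2 * (Δ + 2))
    have h3 : sI E Q Δ = (univ.filter fun W : Finset (FI E Q) => W.card ≤ 2 * (Δ + 2)) ×ˢ
        (univ : Finset (Bool → Bool)) := by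
      ext c
      simp [sI]
    have h4 : (sI E Q Δ).card ≤ (Fintype.card (FI E Q) + 1) ^ (2 * (Δ + 2)) * 4 := by
      rw [h3, Finset.card_product]
      have h5 : (univ : Finset (Bool → Bool)).card = 4 := by simp
      rw [h5]
      exact Nat.mul_le_mul_right _ h
    exact_mod_cast h4
  exact mul_le_mul h1 h2 (Nat.cast_nonneg _) (by positivity)

theorem mWt_le (hl : G.NoLoop) (R : Fm (Xt (TE V E Q) D ⊕ Bool)) :
    mWt G R ≤ ((vl2 R : ℝ) / 2 ^ D) ^ 2 := by
  set S : Finset (Xt (TE V E Q) D) := univ.filter fun u => Sum.inl u ∈ R.vars with hS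
  have hcard : (S.card : ℝ) ≤ vl2 R := by exact_mod_cast card_vars_le_cntB R
  have key : ∀ e f : TE V E Q, (if (G.tall Q).VDisj e f then
      pr (fun a : TV V Q → A D => e ∈ Live G a R ∧ f ∈ Live G a R) else 0) ≤
      ∑ u ∈ S, ∑ u' ∈ S, if u.e = e ∧ u'.e = f then (1 / 2 ^ D : ℝ) * (1 / 2 ^ D) else 0 := by
    intro e f
    split_ifs with hef
    · have h1 : pr (fun a : TV V Q → A D => e ∈ Live G a R ∧ f ∈ Live G a R) ≤
          pr (fun a : TV V Q → A D => ∃ q ∈ S ×ˢ S, (q.1.e = e ∧ q.2.e = f) ∧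
            (live (G.tall Q) a q.1 ∧ live (G.tall Q) a q.2)) := by
        apply pr_mono
        rintro a ⟨⟨u, hu, hue, hul⟩, ⟨u', hu', hue', hul'⟩⟩
        refine ⟨(u, u'), ?_, ⟨hue, hue'⟩, hul, hul'⟩
        simp [hS, hu, hu']
      refine h1.trans ((pr_exists_le _ _).trans ?_)
      rw [Finset.sum_product]
      refine Finset.sum_le_sum fun u _ => Finset.sum_le_sum fun u' _ => ?_
      by_cases hc : u.e = e ∧ u'.e = f
      · rw [if_pos hc]
        have hvd : (G.tall Q).VDisj u.e u'.e := by rw [hc.1, hc.2]; exact hef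
        refine (pr_mono ?_).trans (pr_live_live (G.tall Q) (noLoop_tall G hl) u u' hvd)
        rintro a ⟨_, h⟩
        exact h
      · rw [if_neg hc]
        have : pr (fun a : TV V Q → A D => (u.e = e ∧ u'.e = f) ∧
            (live (G.tall Q) a u ∧ live (G.tall Q) a u')) =
            pr (fun _ : TV V Q → A D => False) := pr_congr fun a => by simp [hc]
        have h2 := this
        rw [pr_false] at h2
        exact h2.le
    · exact Finset.sum_nonneg fun u _ => Finset.sum_nonneg fun u' _ => by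
        split_ifs <;> positivity
  have h2 : mWt G R ≤ ∑ e : TE V E Q, ∑ f : TE V E Q, ∑ u ∈ S, ∑ u' ∈ S,
      if u.e = e ∧ u'.e = f then (1 / 2 ^ D : ℝ) * (1 / 2 ^ D) else 0 := by
    unfold mWt
    exact Finset.sum_le_sum fun e _ => Finset.sum_le_sum fun f _ => key e f
  refine h2.trans ?_
  have h3 : ∑ e : TE V E Q, ∑ f : TE V E Q, ∑ u ∈ S, ∑ u' ∈ S,
      (if u.e = e ∧ u'.e = f then (1 / 2 ^ D : ℝ) * (1 / 2 ^ D) else 0) =
      ∑ u ∈ S, ∑ u' ∈ S, ∑ e : TE V E Q, ∑ f : TE V E Q,
      (if u.e = e ∧ u'.e = f then (1 / 2 ^ D : ℝ) * (1 / 2 ^ D) else 0) := by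
    rw [Finset.sum_congr rfl fun e _ => Finset.sum_comm (s := univ) (t := S)]
    rw [Finset.sum_comm (s := univ) (t := S)]
    refine Finset.sum_congr rfl fun u _ => ?_
    rw [Finset.sum_congr rfl fun e _ => Finset.sum_comm (s := univ) (t := S)]
    rw [Finset.sum_comm (s := univ) (t := S)]
  rw [h3]
  have h4 : ∀ u u' : Xt (TE V E Q) D, ∑ e : TE V E Q, ∑ f : TE V E Q,
      (if u.e = e ∧ u'.e = f then (1 / 2 ^ D : ℝ) * (1 / 2 ^ D) else 0) =
      (1 / 2 ^ D : ℝ) * (1 / 2 ^ D) := by
    intro u u'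
    rw [Finset.sum_eq_single u.e]
    · rw [Finset.sum_eq_single u'.e]
      · simp
      · intro f _ hf
        rw [if_neg]
        rintro ⟨_, h⟩
        exact hf h.symm
      · simp
    · intro e _ he
      apply Finset.sum_eq_zero
      intro f _
      rw [if_neg]
      rintro ⟨h, _⟩
      exact he h.symm
    · simp
  simp only [h4, Finset.sum_const, nsmul_eq_mul]
  have h5 : (S.card : ℝ) * (S.card * (1 / 2 ^ D * (1 / 2 ^ D))) = (S.card / 2 ^ D) ^ 2 := by
    field_simp
  rw [h5]
  gcongr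

/-- the translated closed chains -/
noncomputable def mst (s : TV V Q → A D) (S : Finset (FI E Q)) (j : A D) :
    Xt (TE V E Q) D → ZMod 2 := Pth (G.tall Q) (fun v => j + s v) (Fs G S)

/-- the supports of the translated chains are disjoint -/
theorem mst_disj (s : TV V Q → A D) (S : Finset (FI E Q)) (j j' : A D) (x : Xt (TE V E Q) D)
    (h : mst G s S j x ≠ 0) (h' : mst G s S j' x ≠ 0) : j = j' := by
  simp only [mst, Pth, ne_eq, ite_eq_right_iff, Classical.not_imp] at h h'
  obtain ⟨hl, _⟩ := h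
  obtain ⟨hl', _⟩ := h'
  exact live_translate (G.tall Q) s j j' x hl hl'

/-- sum of the chains selected by `y` -/
noncomputable def shf (s : TV V Q → A D) (S : Finset (FI E Q)) (y : A D → Bool) :
    Xt (TE V E Q) D → ZMod 2 := ∑ i, if y i then mst G s S i else 0

theorem bd_mst (hD : 0 < D) (s : TV V Q → A D) (S : Finset (FI E Q)) (j : A D) :
    ((G.tall Q).blow D).bd (mst G s S j) = 0 := bd_Pth_closed (G.tall Q) hD _ _ (bd_Fs G S)

theorem bd_shf (hD : 0 < D) (s : TV V Q → A D) (S : Finset (FI E Q)) (y : A D → Bool) :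
    ((G.tall Q).blow D).bd (shf G s S y) = 0 := by
  unfold shf
  rw [Gph.bd_sum]
  refine Finset.sum_eq_zero fun i _ => ?_
  split_ifs
  · exact bd_mst G hD s S i
  · exact Gph.bd_zero _

theorem shf_flip (s : TV V Q → A D) (S : Finset (FI E Q)) (y : A D → Bool) (i : A D) :
    shf G s S (Fr56.flip i y) = shf G s S y + mst G s S i := by
  unfold shf
  rw [← Finset.add_sum_erase _ _ (Finset.mem_univ i),
    ← Finset.add_sum_erase univ (fun i => if y i then mst G s S i else 0) (Finset.mem_univ i)]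
  have h1 : ∑ x ∈ univ.erase i, (if Fr56.flip i y x = true then mst G s S x else 0) =
      ∑ x ∈ univ.erase i, (if y x = true then mst G s S x else 0) := by
    refine Finset.sum_congr rfl fun x hx => ?_
    have hxi : x ≠ i := Finset.ne_of_mem_erase hx
    simp [Fr56.flip, Function.update_of_ne hxi]
  rw [h1]
  have h2 : Fr56.flip i y i = !(y i) := by simp [Fr56.flip]
  rw [h2]
  cases hy : y i
  · simp only [Bool.not_false, if_true]
    simp
    abel
  · simp only [Bool.not_true, if_true]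
    have := add_self2 (mst G s S i)
    simp only [Bool.false_eq_true, if_false, zero_add]
    calc _ = (mst G s S i + mst G s S i) +
          ∑ x ∈ univ.erase i, (if y x = true then mst G s S x else 0) := by rw [this, zero_add]
      _ = _ := by abel

/-- value of the shift at an edge of the blow-up -/
theorem shf_apply (s : TV V Q → A D) (S : Finset (FI E Q)) (x : Xt (TE V E Q) D) :
    ∃ m : Option (A D), ∀ (y : A D → Bool) (β : Xt (TE V E Q) D → ZMod 2),
      tb ((β + shf G s S y) x) =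
        xor (tb (β x)) (match m with | some i => y i | none => false) := by
  by_cases h : ∃ i, mst G s S i x ≠ 0
  · obtain ⟨i, hi⟩ := h
    refine ⟨some i, fun y β => ?_⟩
    have h1 : shf G s S y x = if y i then 1 else 0 := by
      unfold shf
      rw [Finset.sum_apply, Finset.sum_eq_single i]
      · split_ifs with hy
        · have : ∀ t : ZMod 2, t ≠ 0 → t = 1 := by decide
          exact this _ hi
        · rfl
      · intro i' _ hii'
        split_ifs
        · by_contra hne
          exact hii' (mst_disj G s S i' i x hne hi)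
        · rfl
      · simp
    rw [Pi.add_apply, h1]
    have h2 : ∀ (t : ZMod 2) (b : Bool), tb (t + if b then 1 else 0) = xor (tb t) b := by
      unfold tb
      decide
    exact h2 _ _
  · push Not at h
    refine ⟨none, fun y β => ?_⟩
    have h1 : shf G s S y x = 0 := by
      unfold shf
      rw [Finset.sum_apply]
      apply Finset.sum_eq_zero
      intro i _
      split_ifs
      · exact h i
      · rfl
    rw [Pi.add_apply, h1]
    simp

/-- the number of translated chains that change the value of the fragment -/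
noncomputable def hct (z : Bool → Bool) (R : Fm (Xt (TE V E Q) D ⊕ Bool)) (S : Finset (FI E Q))
    (β : Xt (TE V E Q) D → ZMod 2) (s : TV V Q → A D) : ℕ :=
  (univ.filter fun j : A D => ev β z R ≠ ev (β + mst G s S j) z R).card

/-- `hct` along the shifts is the sensitivity of a small formula -/
theorem hct_eq_sens (z : Bool → Bool) (R : Fm (Xt (TE V E Q) D ⊕ Bool))
    (S : Finset (FI E Q)) (β : Xt (TE V E Q) D → ZMod 2) (s : TV V Q → A D) :
    ∃ g : SF (A D), g.leaves ≤ vl2 R ∧
      ∀ y : A D → Bool, g.sens y = hct G z R S (β + shf G s S y) s := by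
  choose m hm using shf_apply G s S
  obtain ⟨g, hg1, hg2⟩ := exists_sf R (fun x => tb (β x)) z m
  refine ⟨g, hg1, fun y => ?_⟩
  have hev : ∀ y, g.eval y = ev (β + shf G s S y) z R := by
    intro y
    rw [hg2 y]
    unfold ev
    congr 1
    congr 1
    funext x
    rw [hm x y β]
    cases m x <;> rfl
  unfold SF.sens sensf hct
  congr 1
  ext i
  simp only [mem_filter, mem_univ, true_and]
  rw [hev, hev, shf_flip, ← add_assoc]
  exact ne_comm

theorem sum_exp_hct (hD : 0 < D) (κ : HV (TV V Q) (TE V E Q) D → ZMod 2)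
    (R : Fm (Xt (TE V E Q) D ⊕ Bool)) (L : ℕ) (hR : vl2 R ≤ L) (lam T : ℝ)
    (hST : ∀ (I : Type) [Fintype I] [DecidableEq I] (g : SF I), g.leaves ≤ L →
      ∑ y : I → Bool, Real.exp (lam * (g.sens y : ℝ)) ≤
        2 ^ Fintype.card I * Real.exp (lam * T))
    (z : Bool → Bool) (S : Finset (FI E Q)) (s : TV V Q → A D) :
    ∑ β : Coset (G.tall Q) κ, Real.exp (lam * (hct G z R S β.1 s : ℝ)) ≤
      Real.exp (lam * T) * Fintype.card (Coset (G.tall Q) κ) := by
  have hshift : ∀ y : A D → Bool,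
      ∑ β : Coset (G.tall Q) κ, Real.exp (lam * (hct G z R S (β.1 + shf G s S y) s : ℝ)) =
      ∑ β : Coset (G.tall Q) κ, Real.exp (lam * (hct G z R S β.1 s : ℝ)) := by
    intro y
    have hmem : ∀ β : Coset (G.tall Q) κ, ((G.tall Q).blow D).bd (β.1 + shf G s S y) = κ := by
      intro β
      rw [Gph.bd_add, bd_shf G hD, add_zero]
      exact β.2
    have hinv : Function.Involutive
        (fun β : Coset (G.tall Q) κ => (⟨β.1 + shf G s S y, hmem β⟩ : Coset (G.tall Q) κ)) := by
      intro β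
      apply Subtype.ext
      simp only [add_assoc, add_self2, add_zero]
    exact Equiv.sum_comp (Function.Involutive.toPerm _ hinv)
      (fun β : Coset (G.tall Q) κ => Real.exp (lam * (hct G z R S β.1 s : ℝ)))
  have hpos : (0 : ℝ) < 2 ^ Fintype.card (A D) := by positivity
  have h1 : (2 : ℝ) ^ Fintype.card (A D) *
      ∑ β : Coset (G.tall Q) κ, Real.exp (lam * (hct G z R S β.1 s : ℝ)) =
      ∑ β : Coset (G.tall Q) κ, ∑ y : A D → Bool,
        Real.exp (lam * (hct G z R S (β.1 + shf G s S y) s : ℝ)) := by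
    rw [Finset.sum_comm]
    simp only [hshift, Finset.sum_const, nsmul_eq_mul, Finset.card_univ]
    congr 1
    rw [Fintype.card_fun (α := A D) (β := Bool), Fintype.card_bool]
    push_cast
    rfl
  have h2 : ∀ β : Coset (G.tall Q) κ, ∑ y : A D → Bool,
        Real.exp (lam * (hct G z R S (β.1 + shf G s S y) s : ℝ)) ≤
        2 ^ Fintype.card (A D) * Real.exp (lam * T) := by
    intro β
    obtain ⟨g, hg1, hg2⟩ := hct_eq_sens G z R S β.1 s
    have := hST (A D) g (hg1.trans hR)
    simp only [hg2] at this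
    exact this
  have h3 := Finset.sum_le_sum fun (β : Coset (G.tall Q) κ) (_ : β ∈ univ) => h2 β
  rw [← h1] at h3
  simp only [Finset.sum_const, nsmul_eq_mul, Finset.card_univ] at h3
  have h4 : (2 : ℝ) ^ Fintype.card (A D) *
      ∑ β : Coset (G.tall Q) κ, Real.exp (lam * (hct G z R S β.1 s : ℝ)) ≤
      2 ^ Fintype.card (A D) * (Real.exp (lam * T) * Fintype.card (Coset (G.tall Q) κ)) := by
    refine h3.trans (le_of_eq ?_)
    ring
  exact le_of_mul_le_mul_left h4 hpos

theorem avg_hct (β : Xt (TE V E Q) D → ZMod 2) (R : Fm (Xt (TE V E Q) D ⊕ Bool))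
    (S : Finset (FI E Q)) (z : Bool → Bool) :
    (∑ s : TV V Q → A D, (hct G z R S β s : ℝ)) / Fintype.card (TV V Q → A D) =
      2 ^ D * pr (fun a : TV V Q → A D =>
        ev β z R ≠ ev (β + Pth (G.tall Q) a (Fs G S)) z R) := by
  have h1 : ∀ s : TV V Q → A D, (hct G z R S β s : ℝ) =
      ∑ j : A D, if ev β z R ≠ ev (β + Pth (G.tall Q) (fun v => j + s v) (Fs G S)) z R
        then (1 : ℝ) else 0 := by
    intro s
    unfold hct mst
    rw [Finset.sum_boole]
  have h2 : ∀ j : A D, ∑ s : TV V Q → A D,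
      (if ev β z R ≠ ev (β + Pth (G.tall Q) (fun v => j + s v) (Fs G S)) z R
        then (1 : ℝ) else 0) =
      Fintype.card (TV V Q → A D) *
        pr (fun a : TV V Q → A D => ev β z R ≠ ev (β + Pth (G.tall Q) a (Fs G S)) z R) := by
    intro j
    have h3 := Equiv.sum_comp (Equiv.addLeft (fun _ : TV V Q => j))
      (fun a : TV V Q → A D =>
        if ev β z R ≠ ev (β + Pth (G.tall Q) a (Fs G S)) z R then (1 : ℝ) else 0)
    have h4 : ∀ s : TV V Q → A D,
        (Equiv.addLeft (fun _ : TV V Q => j)) s = fun v => j + s v := by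
      intro s
      rfl
    simp only [h4] at h3
    rw [h3, Finset.sum_boole]
    unfold pr
    have hpos : (0 : ℝ) < Fintype.card (TV V Q → A D) := by exact_mod_cast Fintype.card_pos
    field_simp
    congr!
  simp only [h1]
  rw [Finset.sum_comm]
  have hpos : (0 : ℝ) < Fintype.card (TV V Q → A D) := by exact_mod_cast Fintype.card_pos
  rw [div_eq_iff hpos.ne', Finset.sum_congr rfl fun j _ => h2 j]
  rw [Finset.sum_const, Finset.card_univ, nsmul_eq_mul]
  have h6 : (Fintype.card (A D) : ℝ) = 2 ^ D := by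
    rw [Fintype.card_fun, ZMod.card, Fintype.card_fin]
    push_cast
    rfl
  rw [h6]
  ring

/-- the probability of one S-event, for a typical `β` -/
theorem pr_sens_tail (hD : 0 < D) (κ : HV (TV V Q) (TE V E Q) D → ZMod 2)
    (R : Fm (Xt (TE V E Q) D ⊕ Bool)) (L : ℕ) (hR : vl2 R ≤ L) (lam T : ℝ) (hlam : 0 ≤ lam)
    (hT : 0 ≤ T)
    (hST : ∀ (I : Type) [Fintype I] [DecidableEq I] (g : SF I), g.leaves ≤ L →
      ∑ y : I → Bool, Real.exp (lam * (g.sens y : ℝ)) ≤
        2 ^ Fintype.card I * Real.exp (lam * T))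
    (ζ : Bool → Bool) (S : Finset (FI E Q)) :
    pr (fun β : Coset (G.tall Q) κ => 2 * T / 2 ^ D < pr (fun a : TV V Q → A D =>
      ev β.1 ζ R ≠ ev (β.1 + Pth (G.tall Q) a (Fs G S)) ζ R)) ≤ Real.exp (-(lam * T)) := by
  have h1 := jensen_markov (Bt := Coset (G.tall Q) κ) (St := TV V Q → A D)
    (fun β s => (hct G ζ R S β.1 s : ℝ)) lam (2 * T) (Real.exp (lam * T)) hlam
    (Real.exp_pos _).le (sum_exp_hct G hD κ R L hR lam T hST ζ S)
  have h2 : Real.exp (lam * T) * Real.exp (-lam * (2 * T)) = Real.exp (-(lam * T)) := by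
    rw [← Real.exp_add]
    congr 1
    ring
  rw [h2] at h1
  refine le_trans (pr_mono ?_) h1
  intro β hβ
  simp only [avg_hct]
  have h2D : (0 : ℝ) < 2 ^ D := by positivity
  rw [div_lt_iff₀ h2D] at hβ
  linarith [mul_comm (2 ^ D) (pr (fun a : TV V Q → A D =>
      ev β.1 ζ R ≠ ev (β.1 + Pth (G.tall Q) a (Fs G S)) ζ R))]

/-- S-steps are unlikely for a typical `β` -/
theorem sWt_tail (hD : 0 < D) (κ : HV (TV V Q) (TE V E Q) D → ZMod 2)
    (R : Fm (Xt (TE V E Q) D ⊕ Bool)) (L : ℕ) (hR : vl2 R ≤ L) (lam T : ℝ) (hlam : 0 ≤ lam)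
    (hT : 0 ≤ T)
    (hST : ∀ (I : Type) [Fintype I] [DecidableEq I] (g : SF I), g.leaves ≤ L →
      ∑ y : I → Bool, Real.exp (lam * (g.sens y : ℝ)) ≤
        2 ^ Fintype.card I * Real.exp (lam * T)) :
    pr (fun β : Coset (G.tall Q) κ => nC V E Q Δ * (2 * T / 2 ^ D) < sWt G Δ β.1 R) ≤
      (sI E Q Δ).card * Real.exp (-(lam * T)) := by
  have h1 : pr (fun β : Coset (G.tall Q) κ => nC V E Q Δ * (2 * T / 2 ^ D) < sWt G Δ β.1 R) ≤
      pr (fun β : Coset (G.tall Q) κ => ∃ c ∈ sI E Q Δ, 2 * T / 2 ^ D <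
        pr (fun a : TV V Q → A D =>
          ev β.1 c.2 R ≠ ev (β.1 + Pth (G.tall Q) a (Fs G c.1)) c.2 R)) := by
    apply pr_mono
    intro β hβ
    by_contra hcon
    push Not at hcon
    have h2 := Finset.sum_le_sum fun c hc => hcon c hc
    rw [Finset.sum_const, nsmul_eq_mul] at h2
    have h3 := mul_le_mul_of_nonneg_left h2 (Nat.cast_nonneg (α := ℝ) (lI V E Q Δ).card)
    unfold nC sWt at hβ
    rw [mul_assoc] at hβ
    exact absurd hβ (not_lt.2 h3)
  refine h1.trans ((pr_exists_le _ _).trans ?_)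
  refine (Finset.sum_le_sum fun c _ =>
    pr_sens_tail G hD κ R L hR lam T hlam hT hST c.2 c.1).trans ?_
  rw [Finset.sum_const, nsmul_eq_mul]

end

end FrC
end

section

/-!
Existence of a restriction without long chains.
-/

set_option linter.unusedSectionVars false

namespace FrC

open Finset Fr56
open scoped Classical

private theorem DepOn.mono_cc' {I A : Type} {S T : Set I} (h : S ⊆ T) {P : (I → A) → Prop}
    (hP : DepOn S P) : DepOn T P :=
  fun a b hab => hP a b fun i hi => hab i (h hi)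

/-- number of small subsets -/
private theorem card_small_cc' {α : Type} [Fintype α] (n : ℕ) :
    (univ.filter fun W : Finset α => W.card ≤ n).card ≤ (Fintype.card α + 1) ^ n := by
  induction n with
  | zero =>
    rw [pow_zero, Finset.card_le_one]
    intro a ha b hb
    simp only [mem_filter, mem_univ, true_and, Nat.le_zero, Finset.card_eq_zero] at ha hb
    rw [ha, hb]
  | succ n ih =>
    have hsub : (univ.filter fun W : Finset α => W.card ≤ n + 1) ⊆
        ((univ.filter fun W : Finset α => W.card ≤ n) ×ˢ (univ : Finset (Option α))).image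
          (fun p => match p.2 with | none => p.1 | some x => insert x p.1) := by
      intro W hW
      simp only [mem_filter, mem_univ, true_and] at hW
      simp only [mem_image, mem_product, mem_filter, mem_univ, true_and, and_true, Prod.exists]
      rcases Nat.lt_or_ge n W.card with h | h
      · have hne : W.Nonempty := by
          rw [← Finset.card_pos]; omega
        obtain ⟨x, hx⟩ := hne
        refine ⟨W.erase x, some x, ?_, ?_⟩
        · rw [Finset.card_erase_of_mem hx]; omega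
        · simp only [Finset.insert_erase hx]
      · exact ⟨W, none, h, rfl⟩
    calc _ ≤ _ := Finset.card_le_card hsub
      _ ≤ _ := Finset.card_image_le
      _ = (univ.filter fun W : Finset α => W.card ≤ n).card * (Fintype.card α + 1) := by
        rw [Finset.card_product, Finset.card_univ, Fintype.card_option]
      _ ≤ _ := by
        rw [pow_succ]
        exact Nat.mul_le_mul_right _ ih

section
variable {V E : Type} [Fintype V] [Fintype E] [DecidableEq V] [DecidableEq E]
  {G : Gph V E} (Fr : Frame G) (v0 : V) {Q D : ℕ}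

/-- the bound for one fixed pattern -/
theorem pr_pattern (hl : G.NoLoop) (hD : 0 < D) (hQ : 0 < Q) (Δ l k m : ℕ) (hl2 : 2 ≤ l)
    (lam T : ℝ) (hlam : 0 ≤ lam) (hT : 0 ≤ T)
    (hST : ∀ (I : Type) [Fintype I] [DecidableEq I] (g : SF I), g.leaves ≤ 2 * l →
      ∑ y : I → Bool, Real.exp (lam * (g.sens y : ℝ)) ≤
        2 ^ Fintype.card I * Real.exp (lam * T))
    (f : Fm (Xt (TE V E Q) D)) (hf : (pcs l f).length + 1 ≤ m) (w0 : A D) (W : Finset V) (t : V)
    (φ : Finset E) :
    pr (fun q : Om (G.tall Q) (HV.cen (v0, 0) w0 : HV (TV V Q) (TE V E Q) D) (v0, 0) =>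
      ∃ y : E → ZMod 2, (G.bd y = pt v0 + pt t ∧ Fr.Free W t ∧
        (∀ e ∈ G.inc W, (y e ≠ 0 ↔ e ∈ φ))) ∧
        LChain G Δ q.1.2 (frags l f).toFinset q.1.1 y k ∅ W) ≤
      (m * ((2 * l / 2 ^ D) ^ 2 + nC V E Q Δ * (2 * T / 2 ^ D))) ^ k +
        m * ((sI E Q Δ).card * Real.exp (-(lam * T))) := by
  set η : ℝ := m * ((2 * l / 2 ^ D) ^ 2 + nC V E Q Δ * (2 * T / 2 ^ D)) with hη
  have hnC : 0 ≤ nC V E Q Δ := by unfold nC; positivity
  have hη0 : 0 ≤ η := by rw [hη]; positivity
  set Rs := (frags l f).toFinset with hRs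
  have hRm : (Rs.card : ℝ) ≤ m := by
    have h1 : Rs.card ≤ (frags l f).length := List.toFinset_card_le _
    have h2 : (frags l f).length = (pcs l f).length + 1 := by simp [frags]
    exact_mod_cast (by omega : Rs.card ≤ m)
  by_cases hex : ∃ y : E → ZMod 2, G.bd y = pt v0 + pt t ∧ Fr.Free W t ∧
      (∀ e ∈ G.inc W, (y e ≠ 0 ↔ e ∈ φ))
  · obtain ⟨y, hy, hfree, hpat⟩ := hex
    calc _ ≤ pr (fun q : Om (G.tall Q) (HV.cen (v0, 0) w0 : HV (TV V Q) (TE V E Q) D) (v0, 0) =>
          (fun β a => Chain G Δ a Rs β k ∅ W) (q.1.1 + Pth (G.tall Q) q.1.2 (iota y)) q.1.2) := by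
          apply pr_mono
          rintro q ⟨y', ⟨hy', _, hpat'⟩, hch⟩
          have hag : G.Agree W y' y := by
            intro e he
            have h1 := hpat e he
            have h2 := hpat' e he
            have h3 : (y' e ≠ 0 ↔ y e ≠ 0) := h2.trans h1.symm
            revert h3
            generalize y' e = u
            generalize y e = v
            revert u v
            decide
          exact (hch.congr hag).toChain
      _ ≤ η ^ k + m * ((sI E Q Δ).card * Real.exp (-(lam * T))) := by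
          apply pr_Om_event (G.tall Q) hD (v0, 0) w0 (t, 0) (iota y) (bd_iota_path G y v0 t hy)
            ?_ (fun β a => Chain G Δ a Rs β k ∅ W)
            (fun β => ∑ R ∈ Rs, (mWt G R + sWt G Δ β R) ≤ η)
          · exact pow_nonneg hη0 k
          · intro β
            apply DepOn.mono_cc' _ (Chain.depOn G Δ Rs β k ∅ W)
            intro v hv hvt
            have hv' : v.1 ∈ W := hv
            rw [hvt] at hv'
            exact Fr.disj hfree hv'
          · intro β hβ
            exact pr_chain_le G Δ Rs β η hβ k ∅ W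
          · intro κ
            calc _ ≤ pr (fun β : Coset (G.tall Q) κ =>
                  ∃ R ∈ Rs, nC V E Q Δ * (2 * T / 2 ^ D) < sWt G Δ β.1 R) := by
                  apply pr_mono
                  intro β hβ
                  by_contra hcon
                  push Not at hcon
                  apply hβ
                  calc ∑ R ∈ Rs, (mWt G R + sWt G Δ β.1 R) ≤
                        ∑ R ∈ Rs, ((2 * l / 2 ^ D) ^ 2 + nC V E Q Δ * (2 * T / 2 ^ D) : ℝ) := by
                        apply Finset.sum_le_sum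
                        intro R hR
                        apply add_le_add _ (hcon R hR)
                        have h1 := vl2_le l hl2 f R (by
                          rw [hRs] at hR; exact List.mem_toFinset.1 hR)
                        calc mWt G R ≤ ((vl2 R : ℝ) / 2 ^ D) ^ 2 := mWt_le G hl R
                          _ ≤ (2 * l / 2 ^ D) ^ 2 := by
                            have h2 : (vl2 R : ℝ) ≤ 2 * l := by exact_mod_cast h1
                            gcongr
                    _ = Rs.card * ((2 * l / 2 ^ D) ^ 2 + nC V E Q Δ * (2 * T / 2 ^ D) : ℝ) := by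
                        rw [Finset.sum_const, nsmul_eq_mul]
                    _ ≤ η := by
                        rw [hη]
                        apply mul_le_mul_of_nonneg_right hRm
                        positivity
              _ ≤ ∑ R ∈ Rs, pr (fun β : Coset (G.tall Q) κ =>
                    nC V E Q Δ * (2 * T / 2 ^ D) < sWt G Δ β.1 R) :=
                  pr_exists_le Rs _
              _ ≤ ∑ R ∈ Rs, ((sI E Q Δ).card : ℝ) * Real.exp (-(lam * T)) := by
                  apply Finset.sum_le_sum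
                  intro R hR
                  exact sWt_tail G Δ hD κ R (2 * l)
                    (vl2_le l hl2 f R (by rw [hRs] at hR; exact List.mem_toFinset.1 hR))
                    lam T hlam hT hST
              _ = Rs.card * ((sI E Q Δ).card * Real.exp (-(lam * T))) := by
                  rw [Finset.sum_const, nsmul_eq_mul]
              _ ≤ _ := by
                  apply mul_le_mul_of_nonneg_right hRm
                  positivity
          · intro w w'
            obtain ⟨γ, hγ, _⟩ := exists_bd_fiber G hQ hD t 0 0 w w'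
            exact ⟨γ, hγ⟩
  · have h0 : pr (fun q : Om (G.tall Q) (HV.cen (v0, 0) w0 : HV (TV V Q) (TE V E Q) D) (v0, 0) =>
      ∃ y : E → ZMod 2, (G.bd y = pt v0 + pt t ∧ Fr.Free W t ∧
        (∀ e ∈ G.inc W, (y e ≠ 0 ↔ e ∈ φ))) ∧
        LChain G Δ q.1.2 Rs q.1.1 y k ∅ W) = 0 := by
      rw [← pr_false (Ω := Om (G.tall Q) (HV.cen (v0, 0) w0 : HV (TV V Q) (TE V E Q) D) (v0, 0))]
      apply pr_congr
      intro q
      simp only [iff_false]
      rintro ⟨y, hy, _⟩
      exact hex ⟨y, hy⟩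
    rw [h0]
    positivity

/-- **existence of a restriction without long chains** -/
theorem exists_noChain (hl : G.NoLoop) (hD : 0 < D) (hQ : 0 < Q) {Δ : ℕ} (hdeg : G.Deg Δ)
    (l k m : ℕ) (hl2 : 2 ≤ l) (lam T : ℝ) (hlam : 0 ≤ lam) (hT : 0 ≤ T)
    (hST : ∀ (I : Type) [Fintype I] [DecidableEq I] (g : SF I), g.leaves ≤ 2 * l →
      ∑ y : I → Bool, Real.exp (lam * (g.sens y : ℝ)) ≤
        2 ^ Fintype.card I * Real.exp (lam * T))
    (Fs : Finset (Fm (Xt (TE V E Q) D))) (hFs : ∀ f ∈ Fs, (pcs l f).length + 1 ≤ m) (w0 : A D)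
    (hnum : (Fs.card : ℝ) * (((Fintype.card V : ℝ) + 1) ^ (k * cs Δ) *
        2 ^ (Δ * (k * cs Δ)) * Fintype.card V) *
      ((m * ((2 * l / 2 ^ D) ^ 2 + nC V E Q Δ * (2 * T / 2 ^ D))) ^ k +
        m * ((sI E Q Δ).card * Real.exp (-(lam * T)))) < 1) :
    ∃ (α : Xt (TE V E Q) D → ZMod 2) (a : TV V Q → A D),
      ((G.tall Q).blow D).bd α = pt (HV.cen (v0, 0) w0) + pt (ctr a (v0, 0)) ∧
      ∀ f ∈ Fs, NoChain Fr v0 Δ α a l k f := by
  set B : ℝ := (m * ((2 * l / 2 ^ D) ^ 2 + nC V E Q Δ * (2 * T / 2 ^ D))) ^ k +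
        m * ((sI E Q Δ).card * Real.exp (-(lam * T))) with hB
  have hnC : 0 ≤ nC V E Q Δ := by unfold nC; positivity
  have hB0 : 0 ≤ B := by rw [hB]; positivity
  let h0 : HV (TV V Q) (TE V E Q) D := HV.cen (v0, 0) w0
  have hne : Nonempty (Om (G.tall Q) h0 (v0, 0)) := by
    refine ⟨⟨((0 : Xt (TE V E Q) D → ZMod 2), fun _ => w0), ?_⟩⟩
    rw [Gph.bd_zero]
    exact (add_self2 _).symm
  set Ws : Finset (Finset V) := univ.filter fun W : Finset V => W.card ≤ k * cs Δ with hWs
  -- the bad event for (f, W, t, φ)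
  let Bad : Fm (Xt (TE V E Q) D) → Finset V → V → Finset E →
      Om (G.tall Q) h0 (v0, 0) → Prop := fun f W t φ q =>
    ∃ y : E → ZMod 2, (G.bd y = pt v0 + pt t ∧ Fr.Free W t ∧
      (∀ e ∈ G.inc W, (y e ≠ 0 ↔ e ∈ φ))) ∧
      LChain G Δ q.1.2 (frags l f).toFinset q.1.1 y k ∅ W
  let Pow : Finset V → Finset (Finset E) := fun W =>
    (univ.filter (fun e : E => e ∈ G.inc W)).powerset
  have hpr : pr (fun q : Om (G.tall Q) h0 (v0, 0) =>
      ∃ f ∈ Fs, ∃ W ∈ Ws, ∃ t ∈ (univ : Finset V), ∃ φ ∈ Pow W, Bad f W t φ q) < 1 := by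
    refine lt_of_le_of_lt ?_ hnum
    calc _ ≤ ∑ f ∈ Fs, pr (fun q : Om (G.tall Q) h0 (v0, 0) =>
          ∃ W ∈ Ws, ∃ t ∈ (univ : Finset V), ∃ φ ∈ Pow W, Bad f W t φ q) := pr_exists_le Fs _
      _ ≤ ∑ f ∈ Fs, ∑ W ∈ Ws, pr (fun q : Om (G.tall Q) h0 (v0, 0) =>
          ∃ t ∈ (univ : Finset V), ∃ φ ∈ Pow W, Bad f W t φ q) :=
          Finset.sum_le_sum fun f _ => pr_exists_le Ws _
      _ ≤ ∑ f ∈ Fs, ∑ W ∈ Ws, ∑ t : V,
            pr (fun q : Om (G.tall Q) h0 (v0, 0) => ∃ φ ∈ Pow W, Bad f W t φ q) :=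
          Finset.sum_le_sum fun f _ => Finset.sum_le_sum fun W _ => pr_exists_le univ _
      _ ≤ ∑ f ∈ Fs, ∑ W ∈ Ws, ∑ t : V, ∑ φ ∈ Pow W, pr (Bad f W t φ) :=
          Finset.sum_le_sum fun f _ => Finset.sum_le_sum fun W _ => Finset.sum_le_sum fun t _ =>
            pr_exists_le (Pow W) _
      _ ≤ ∑ f ∈ Fs, ∑ W ∈ Ws, ∑ t : V, ∑ φ ∈ Pow W, B :=
          Finset.sum_le_sum fun f hf => Finset.sum_le_sum fun W _ => Finset.sum_le_sum fun t _ =>
            Finset.sum_le_sum fun φ _ =>
              pr_pattern Fr v0 hl hD hQ Δ l k m hl2 lam T hlam hT hST f (hFs f hf) w0 W t φ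
      _ ≤ ∑ f ∈ Fs, ∑ W ∈ Ws, ∑ t : V, (2 : ℝ) ^ (Δ * (k * cs Δ)) * B := by
          apply Finset.sum_le_sum; intro f _
          apply Finset.sum_le_sum; intro W hW
          apply Finset.sum_le_sum; intro t _
          rw [Finset.sum_const, nsmul_eq_mul]
          apply mul_le_mul_of_nonneg_right _ hB0
          have h1 : (Pow W).card = 2 ^ (univ.filter (fun e : E => e ∈ G.inc W)).card :=
            Finset.card_powerset _
          rw [h1]
          have h2 := card_inc_le G hdeg W
          have h3 : W.card ≤ k * cs Δ := (Finset.mem_filter.1 hW).2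
          push_cast
          apply pow_le_pow_right₀ (by norm_num)
          exact h2.trans (Nat.mul_le_mul_left _ h3)
      _ = Fs.card * (Ws.card * ((Fintype.card V : ℝ) * (2 ^ (Δ * (k * cs Δ)) * B))) := by
          simp only [Finset.sum_const, nsmul_eq_mul, Finset.card_univ]
      _ ≤ Fs.card * (((Fintype.card V : ℝ) + 1) ^ (k * cs Δ) *
            ((Fintype.card V : ℝ) * (2 ^ (Δ * (k * cs Δ)) * B))) := by
          apply mul_le_mul_of_nonneg_left _ (by positivity)
          apply mul_le_mul_of_nonneg_right _ (by positivity)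
          have h1 := card_small_cc' (α := V) (k * cs Δ)
          exact_mod_cast h1
      _ = _ := by ring
  obtain ⟨q, hq⟩ := exists_of_pr_lt_one hpr
  refine ⟨q.1.1, q.1.2, q.2, ?_⟩
  intro f hf W y hok hch
  apply hq
  obtain ⟨t, hy, hfree⟩ := hok
  refine ⟨f, hf, W, ?_, t, mem_univ _, univ.filter (fun e : E => e ∈ G.inc W ∧ y e ≠ 0), ?_,
    y, ⟨hy, hfree, ?_⟩, hch⟩
  · rw [hWs, Finset.mem_filter]
    refine ⟨mem_univ _, ?_⟩
    have := hch.card hdeg
    simpa using this
  · rw [Finset.mem_powerset]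
    intro e he
    rw [Finset.mem_filter] at he ⊢
    exact ⟨he.1, he.2.1⟩
  · intro e he
    rw [Finset.mem_filter]
    constructor
    · intro h
      exact ⟨mem_univ _, he, h⟩
    · intro h
      exact h.2.2

end

end FrC
end

section

/-!
The first stage: a valuation for arbitrary small formulas over the edges of the blow-up.
-/

set_option linter.unusedSectionVars false

namespace FrC

open Finset Fr56
open scoped Classical

section
variable {V E : Type} [Fintype V] [Fintype E] [DecidableEq V] [DecidableEq E]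
  {G : Gph V E} (Fr : Frame G) (v0 : V) {Q D : ℕ}

/-- number of pieces of a formula -/
theorem length_pcs_le {X : Type} (l m s : ℕ) (hl : 0 < l) (hm : 2 * s + l ≤ m * l) (f : Fm X)
    (hf : f.leaves ≤ s) : (pcs l f).length + 1 ≤ m := by
  have h1 := length_pcs l f
  have h3 : l * ((pcs l f).length + 1) ≤ l * m := by
    calc l * ((pcs l f).length + 1) = l * (pcs l f).length + l := by ring
      _ ≤ 2 * s + l := by omega
      _ ≤ m * l := hm
      _ = l * m := by ring
  exact Nat.le_of_mul_le_mul_left h3 hl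

/-- **the first stage** -/
theorem stage0 (hl : G.NoLoop) (hD : 0 < D) (h0 : Fr.Free ∅ v0) {Δ : ℕ}
    (hdeg : G.Deg Δ) (hQ : 2 * (Δ + 2) ≤ Q)
    (l k m s cap : ℕ) (hΔl : 2 * (Δ + 2) < l) (hms : 2 * s + l ≤ m * l)
    (lam T : ℝ) (hlam : 0 ≤ lam) (hT : 0 ≤ T)
    (hST : ∀ (I : Type) [Fintype I] [DecidableEq I] (g : SF I), g.leaves ≤ 2 * l →
      ∑ y : I → Bool, Real.exp (lam * (g.sens y : ℝ)) ≤
        2 ^ Fintype.card I * Real.exp (lam * T))
    (u0 : Xt (TE V E Q) D) (w0 : A D)
    (Fs : Finset (Fm (Xt (TE V E Q) D))) (hFs : ∀ f ∈ Fs, f.leaves ≤ s)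
    (hF : ∀ B ∈ (Fts ((G.tall Q).blow D) u0 (HV.cen (v0, 0) w0)).subs, B ∈ Fs)
    (hnum : (Fs.card : ℝ) * (((Fintype.card V : ℝ) + 1) ^ (k * cs Δ) *
        2 ^ (Δ * (k * cs Δ)) * Fintype.card V) *
      ((m * ((2 * l / 2 ^ D) ^ 2 + nC V E Q Δ * (2 * T / 2 ^ D))) ^ k +
        m * ((sI E Q Δ).card * Real.exp (-(lam * T)))) < 1)
    (hcap : cap + 16 * (Δ + 2) ≤ Fr.m) (hm : (k + 1) * cs Δ ≤ Fr.m) (h4 : 4 * (k * cs Δ) ≤ cap) :
    ∃ S : Valn Fr v0 (Xt (TE V E Q) D) {f | f ∈ Fs} cap, S.Dcds (k * cs Δ) ∧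
      S.True' (k * cs Δ) (Fts ((G.tall Q).blow D) u0 (HV.cen (v0, 0) w0)) := by
  have h4c := h4
  have hQ0 : 0 < Q := by omega
  obtain ⟨α, a, hα, hno⟩ := exists_noChain Fr v0 hl hD hQ0 hdeg l k m (by omega) lam T hlam hT hST
    Fs (fun f hf => length_pcs_le l m s (by omega) hms f (hFs f hf)) w0 hnum
  let S : Valn Fr v0 (Xt (TE V E Q) D) {f | f ∈ Fs} cap :=
    { Q := qQ Fr v0 α a l
      mono := fun f _ b U U' y y' hU hc hq hag hok =>
        qQ_mono Fr v0 α a hdeg l f b U U' y y' hU (by omega) hq hag hok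
      uniq := fun f _ U y _ _ h h' => by
        have h1 := h.2.symm.trans h'.2
        exact absurd h1 (by decide)
      neg := fun f _ _ b b' U y hU hok h h' =>
        qQ_neg Fr v0 α a hdeg l f b b' U y (by omega) hok h h'
      and := fun f g _ _ _ b b' b'' U y hU hok h h' h'' =>
        qQ_and Fr v0 α a hdeg l f g b b' b'' U y (by omega) hok h h' h''
      or := fun f g _ _ _ b b' b'' U y hU hok h h' h'' =>
        qQ_or Fr v0 α a hdeg l f g b b' b'' U y (by omega) hok h h' h'' }
  have hSD : S.Dcds (k * cs Δ) := fun f hf y hok =>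
    dec_of_noChain Fr v0 hdeg hQ l k f (hno f hf) hm y hok
  have hstar : (((G.tall Q).blow D).star (HV.cen (v0, 0) w0)).Nonempty := by
    refine ⟨⟨Sum.inr (v0, ⟨0, hQ0⟩), ⟨0, hD⟩, w0, 0⟩, ?_⟩
    unfold Gph.star
    rw [Finset.mem_filter]
    refine ⟨Finset.mem_univ _, Or.inl ?_⟩
    show hv (G.tall Q) (Sum.inr (v0, ⟨0, hQ0⟩)) 0 w0 = _
    unfold hv
    rw [if_pos rfl]
    rfl
  refine ⟨S, hSD, ?_⟩
  refine Fts_induction ((G.tall Q).blow D) u0 (HV.cen (v0, 0) w0) hstar
    (fun H => H ∈ (Fts ((G.tall Q).blow D) u0 (HV.cen (v0, 0) w0)).subs →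
      S.True' (k * cs Δ) H) ?_ ?_ (Fm.self_mem_subs _)
  · intro p hp _ _ U y hU hok h
    exact clause_good Fr v0 α a hdeg hl hQ0 hD l hΔl (HV.cen (v0, 0) w0) u0 hα p hp U y
      (by omega) hok h
  · intro f g hf hg hfg _
    have h1 : f ∈ (Fm.and f g).subs := by
      simp only [Fm.subs, List.mem_cons, List.mem_append]
      exact Or.inr (Or.inl (Fm.self_mem_subs _))
    have h2 : g ∈ (Fm.and f g).subs := by
      simp only [Fm.subs, List.mem_cons, List.mem_append]
      exact Or.inr (Or.inr (Fm.self_mem_subs _))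
    have h3 := Fm.subs_trans h1 hfg
    have h4 := Fm.subs_trans h2 hfg
    exact Valn.and_true S (by omega) h0 (k * cs Δ) hSD h4c f g (hF f h3) (hF g h4) (hF _ hfg)
      (hf h3) (hg h4)

end

end FrC
end
end
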