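import Pool.Agent.Lib.MP_51bb46_lc.C.Towers
import Pool.Agent.Lib.MP_51bb46_lc.C.Stage0
import Pool.Agent.Lib.MP_51bb46_lc.C.TsB
import Pool.Agent.Lib.MP_51bb46_lc.T.NumT
import Pool.Agent.Lib.MP_51bb46_lc.B.SensB
import Pool.Agent.Lib.MP_51bb46_lc.B.Final

/-!
One formula of the family.
-/

set_option linter.unusedSectionVars false

namespace FrC

open Finset Fr56
open scoped Classical

/-- the sensitivity bound with the parameters of the family -/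
theorem hST_N (N : ℕ) (hN : 1 ≤ N) : ∀ (I : Type) [Fintype I] [DecidableEq I] (g : SF I),
    g.leaves ≤ 2 * 2 ^ (3200 * N) →
      ∑ y : I → Bool, Real.exp (ll N * (g.sens y : ℝ)) ≤
        2 ^ Fintype.card I * Real.exp (ll N * TT N) := by
  obtain ⟨n, rfl⟩ : ∃ n, N = n + 1 := ⟨N - 1, by omega⟩
  intro I _ _ g hg
  exact hST_n n I g hg

theorem nat_le_two_pow (n : ℕ) : n ≤ 2 ^ n := Nat.lt_two_pow_self.le

theorem lin_aux (c1 c2 g n : ℕ) (h : 2 * c1 + c2 ≤ g) : c1 * (n + 2) + c2 ≤ g * (n + 1) := by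
  calc c1 * (n + 2) + c2 ≤ (2 * c1 + c2) * (n + 1) := by nlinarith
    _ ≤ g * (n + 1) := Nat.mul_le_mul_right _ h

/-- the numbers: everything is at most `2 ^ N` -/
theorem params (d a A : ℕ) : ∃ g : ℕ, 0 < g ∧ ∀ n VV EE : ℕ, VV ≤ (2 ^ n + 2) ^ a →
    EE ≤ (2 ^ n + 2) ^ a → ∀ N, N = g * (n + 1) →
    let Q := 2 * (d + 2)
    let TEc := EE * (Q + 1) + VV * Q
    let FIc := EE * ((Q + 1) * (Q + 1))
    n ≤ N ∧ 1 ≤ N ∧
    2 ^ (2 ^ n) * ((VV + 1) ^ (2 ^ n * A) * 2 ^ (d * (2 ^ n * A)) * VV) ≤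
      2 ^ (N * 2 ^ n) * 2 ^ N ∧
    (TEc + 1) ^ (2 * (d + 2)) * ((FIc + 1) ^ (2 * (d + 2)) * 4) ≤ 2 ^ N ∧
    (VV * (Q + 1) * 2 ^ (4000 * N) + TEc * (4000 * N * 2 ^ (4000 * N))) *
      (2 ^ (2 * (d + 2)) * (3 * (2 * (d + 2)) + 1)) ≤ 2 ^ (4040 * N) := by
  obtain ⟨Q, hQ⟩ : ∃ Q, Q = 2 * (d + 2) := ⟨_, rfl⟩
  refine ⟨(2 * (a * A) + (A + d * A + 1)) + (2 * a) +
    (2 * (a * Q + a * Q) + ((2 * Q + 2) * Q + ((Q + 1) * (Q + 1) + 1) * Q + 2)) +
    (2 * a + (6 * Q + 20)) + 1, by omega, fun n VV EE hV hE N hN => ?_⟩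
  simp only [← hQ]
  have hP : (2 ^ n + 2) ^ a ≤ 2 ^ (a * (n + 2)) := by
    have h1 : 2 ^ n + 2 ≤ 2 ^ (n + 2) := by
      have := Nat.one_le_two_pow (n := n)
      rw [pow_add]; omega
    calc (2 ^ n + 2) ^ a ≤ (2 ^ (n + 2)) ^ a := Nat.pow_le_pow_left h1 a
      _ = 2 ^ (a * (n + 2)) := by rw [← pow_mul]; ring_nf
  have hV' := hV.trans hP
  have hE' := hE.trans hP
  clear hV hE hP
  set e := a * (n + 2) with he
  have h1e : 1 ≤ 2 ^ e := Nat.one_le_two_pow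
  -- linear facts
  have f1 : 1 + (e + 1) * A + d * A ≤ N := by
    have := lin_aux (a * A) (A + d * A + 1) _ n
      (show 2 * (a * A) + (A + d * A + 1) ≤ (2 * (a * A) + (A + d * A + 1)) + (2 * a) +
    (2 * (a * Q + a * Q) + ((2 * Q + 2) * Q + ((Q + 1) * (Q + 1) + 1) * Q + 2)) +
    (2 * a + (6 * Q + 20)) + 1 by omega)
    rw [← hN] at this
    calc 1 + (e + 1) * A + d * A = a * A * (n + 2) + (A + d * A + 1) := by rw [he]; ring
      _ ≤ N := this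
  have f2 : e ≤ N := by
    have := lin_aux a 0 _ n
      (show 2 * a + 0 ≤ (2 * (a * A) + (A + d * A + 1)) + (2 * a) +
    (2 * (a * Q + a * Q) + ((2 * Q + 2) * Q + ((Q + 1) * (Q + 1) + 1) * Q + 2)) +
    (2 * a + (6 * Q + 20)) + 1 by omega)
    rw [← hN] at this
    simpa [he] using this
  have f3 : (e + (2 * Q + 2)) * Q + ((e + ((Q + 1) * (Q + 1) + 1)) * Q + 2) ≤ N := by
    have := lin_aux (a * Q + a * Q) ((2 * Q + 2) * Q + ((Q + 1) * (Q + 1) + 1) * Q + 2) _ n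
      (show 2 * (a * Q + a * Q) + ((2 * Q + 2) * Q + ((Q + 1) * (Q + 1) + 1) * Q + 2) ≤
      (2 * (a * A) + (A + d * A + 1)) + (2 * a) +
    (2 * (a * Q + a * Q) + ((2 * Q + 2) * Q + ((Q + 1) * (Q + 1) + 1) * Q + 2)) +
    (2 * a + (6 * Q + 20)) + 1 by omega)
    rw [← hN] at this
    calc _ = (a * Q + a * Q) * (n + 2) +
          ((2 * Q + 2) * Q + ((Q + 1) * (Q + 1) + 1) * Q + 2) := by rw [he]; ring
      _ ≤ N := this
  have f4 : e + (6 * Q + 20) ≤ N := by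
    have := lin_aux a (6 * Q + 20) _ n
      (show 2 * a + (6 * Q + 20) ≤ (2 * (a * A) + (A + d * A + 1)) + (2 * a) +
    (2 * (a * Q + a * Q) + ((2 * Q + 2) * Q + ((Q + 1) * (Q + 1) + 1) * Q + 2)) +
    (2 * a + (6 * Q + 20)) + 1 by omega)
    rw [← hN] at this
    simpa [he] using this
  have f5 : n ≤ N := by
    rw [hN]
    calc n ≤ 1 * (n + 1) := by omega
      _ ≤ _ := Nat.mul_le_mul_right _ (by omega)
  clear_value e
  clear hN
  have hTE : EE * (Q + 1) + VV * Q + 1 ≤ 2 ^ (e + (2 * Q + 2)) := by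
    calc EE * (Q + 1) + VV * Q + 1 ≤ 2 ^ e * (Q + 1) + 2 ^ e * Q + 2 ^ e := by gcongr
      _ = 2 ^ e * (2 * Q + 2) := by ring
      _ ≤ 2 ^ e * 2 ^ (2 * Q + 2) := Nat.mul_le_mul_left _ (nat_le_two_pow _)
      _ = _ := (pow_add 2 e _).symm
  have hFI : EE * ((Q + 1) * (Q + 1)) + 1 ≤ 2 ^ (e + ((Q + 1) * (Q + 1) + 1)) := by
    calc EE * ((Q + 1) * (Q + 1)) + 1 ≤ 2 ^ e * ((Q + 1) * (Q + 1)) + 2 ^ e := by gcongr
      _ = 2 ^ e * ((Q + 1) * (Q + 1) + 1) := by ring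
      _ ≤ 2 ^ e * 2 ^ ((Q + 1) * (Q + 1) + 1) := Nat.mul_le_mul_left _ (nat_le_two_pow _)
      _ = _ := (pow_add 2 e _).symm
  refine ⟨f5, by omega, ?_, ?_, ?_⟩
  · have h1 : VV + 1 ≤ 2 ^ (e + 1) := by rw [pow_succ]; omega
    calc 2 ^ (2 ^ n) * ((VV + 1) ^ (2 ^ n * A) * 2 ^ (d * (2 ^ n * A)) * VV)
        ≤ 2 ^ (2 ^ n) * ((2 ^ (e + 1)) ^ (2 ^ n * A) * 2 ^ (d * (2 ^ n * A)) * 2 ^ e) := by gcongr
      _ = 2 ^ ((1 + (e + 1) * A + d * A) * 2 ^ n) * 2 ^ e := by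
          rw [← pow_mul, ← pow_add, ← pow_add, ← pow_add, ← pow_add]
          congr 1; ring
      _ ≤ 2 ^ (N * 2 ^ n) * 2 ^ N := by
          gcongr
          · norm_num
          · norm_num
  · calc (EE * (Q + 1) + VV * Q + 1) ^ Q * ((EE * ((Q + 1) * (Q + 1)) + 1) ^ Q * 4)
        ≤ (2 ^ (e + (2 * Q + 2))) ^ Q * ((2 ^ (e + ((Q + 1) * (Q + 1) + 1))) ^ Q * 2 ^ 2) := by
          gcongr
          norm_num
      _ = 2 ^ ((e + (2 * Q + 2)) * Q + ((e + ((Q + 1) * (Q + 1) + 1)) * Q + 2)) := by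
          rw [← pow_mul, ← pow_mul, ← pow_add, ← pow_add]
      _ ≤ 2 ^ N := Nat.pow_le_pow_right (by norm_num) f3
  · have h1 : VV * (Q + 1) ≤ 2 ^ (e + (2 * Q + 2)) := by
      calc VV * (Q + 1) ≤ 2 ^ e * (2 * Q + 2) := Nat.mul_le_mul hV' (by omega)
        _ ≤ 2 ^ e * 2 ^ (2 * Q + 2) := Nat.mul_le_mul_left _ (nat_le_two_pow _)
        _ = _ := (pow_add 2 e _).symm
    have h2 : EE * (Q + 1) + VV * Q ≤ 2 ^ (e + (2 * Q + 2)) := by omega
    have h3 : 1 + 4000 * N ≤ 2 ^ (12 + N) := by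
      have := nat_le_two_pow N
      have h0 := Nat.one_le_two_pow (n := N)
      rw [pow_add]
      omega
    have h4 : 3 * Q + 1 ≤ 2 ^ (3 * Q + 1) := nat_le_two_pow _
    calc (VV * (Q + 1) * 2 ^ (4000 * N) + (EE * (Q + 1) + VV * Q) * (4000 * N * 2 ^ (4000 * N))) *
      (2 ^ Q * (3 * Q + 1))
        ≤ (2 ^ (e + (2 * Q + 2)) * 2 ^ (4000 * N) + 2 ^ (e + (2 * Q + 2)) *
          (4000 * N * 2 ^ (4000 * N))) * (2 ^ Q * 2 ^ (3 * Q + 1)) := by gcongr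
      _ = (2 ^ (e + (2 * Q + 2)) * 2 ^ (4000 * N)) * (1 + 4000 * N) * (2 ^ Q * 2 ^ (3 * Q + 1)) := by
          ring
      _ ≤ (2 ^ (e + (2 * Q + 2)) * 2 ^ (4000 * N)) * 2 ^ (12 + N) * (2 ^ Q * 2 ^ (3 * Q + 1)) := by
          gcongr
      _ = 2 ^ ((e + (2 * Q + 2)) + 4000 * N + (12 + N) + (Q + (3 * Q + 1))) := by
          rw [← pow_add, ← pow_add, ← pow_add, ← pow_add]
      _ ≤ 2 ^ (4040 * N) := Nat.pow_le_pow_right (by norm_num) (by omega)

section enc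
variable {X : Type} [Fintype X]

/-- numbering of the variables -/
noncomputable def encC (x : X) : ℕ := (Fintype.equivFin X x).val

/-- inverse numbering -/
noncomputable def decC (x0 : X) (k : ℕ) : X :=
  if h : k < Fintype.card X then (Fintype.equivFin X).symm ⟨k, h⟩ else x0

theorem decC_encC (x0 x : X) : decC x0 (encC x) = x := by
  unfold decC encC
  rw [dif_pos (Fin.is_lt _)]
  simp

end enc

theorem mem_star_cen {V E : Type} [Fintype V] [Fintype E] [DecidableEq V] [DecidableEq E]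
    (G : Gph V E) {D : ℕ} (hD : 0 < D) (e : E) (w : A D) :
    (⟨e, ⟨0, hD⟩, w, 0⟩ : Xt E D) ∈ (G.blow D).star (HV.cen (G.src e) w) := by
  unfold Gph.star
  rw [Finset.mem_filter]
  refine ⟨Finset.mem_univ _, Or.inl ?_⟩
  simp [Gph.blow, hv]

/-- there is no refutation of small total size: the case of a fixed restriction -/
theorem no_small {V E : Type} [Fintype V] [Fintype E] [DecidableEq V] [DecidableEq E]
    {G : Gph V E} (Fr : Frame G) (v0 : V) {d k kk cap s Q D : ℕ} (hkill : Kills Fr v0 d kk k)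
    (hs : 1 ≤ s) (hkk : k * kk ≤ cap) (hcap : cap ≤ Fr.m) (F : Fm (Xt (TE V E Q) D))
    (hFs : F.leaves ≤ s)
    (hstage : ∀ Fs : Finset (Fm (Xt (TE V E Q) D)), Fs.card ≤ 2 ^ k → (∀ f ∈ Fs, f.leaves ≤ s) →
      (∀ B ∈ F.subs, B ∈ Fs) → ∃ S : Valn Fr v0 (Xt (TE V E Q) D) {f | f ∈ Fs} cap, S.Dcds kk ∧
        S.True' kk F)
    (R : List Rule) (hR : ∀ r ∈ R, r.Sound) (hRk : ∀ r ∈ R, r.nodes + 1 ≤ k) (b : Fm ℕ)
    (hb : b.Unsat) (hbk : b.size + 1 ≤ k) (τ : ℕ → Xt (TE V E Q) D) (π : List (Fm (Xt (TE V E Q) D)))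
    (hπ : IsDerivation R F π) (hbπ : b.map τ ∈ π)
    (hlev : ∀ A ∈ π, lev s A ≤ d) (htot : F.size + (π.map Fm.size).sum ≤ 2 ^ k) : False := by
  set Fs : Finset (Fm (Xt (TE V E Q) D)) := ((F :: π).flatMap Fm.subs).toFinset with hFsdef
  have hmem : ∀ A, A ∈ Fs ↔ ∃ B ∈ F :: π, A ∈ B.subs := by
    intro A
    rw [hFsdef, List.mem_toFinset, List.mem_flatMap]
  have hcard : Fs.card ≤ 2 ^ k := by
    refine le_trans ((List.toFinset_card_le _).trans ?_) htot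
    rw [List.length_flatMap]
    have : ∀ L : List (Fm (Xt (TE V E Q) D)), (L.map (fun A => (Fm.subs A).length)).sum =
        (L.map Fm.size).sum := by
      intro L
      congr 1
      apply List.map_congr_left
      intro A _
      exact Fm.length_subs A
    rw [this]
    simp
  have hsubs : ∀ f ∈ Fs, ∀ g ∈ f.subs, g ∈ Fs := by
    intro f hf g hg
    rw [hmem] at hf ⊢
    obtain ⟨B, hB, hfB⟩ := hf
    exact ⟨B, hB, Fm.subs_trans hg hfB⟩
  have hFmem : F ∈ Fs := (hmem F).2 ⟨F, by simp, F.self_mem_subs⟩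
  set Fs' := Fs.filter (fun f => f.leaves ≤ s) with hFs'
  have hlevF : ∀ f : Fm (Xt (TE V E Q) D), lev s f ≤ 0 ↔ f.leaves ≤ s := fun f => by
    rw [Nat.le_zero]; exact lev_eq_zero_iff s hs f
  obtain ⟨S, hS1, hS2⟩ := hstage Fs' ((Finset.card_filter_le _ _).trans hcard)
    (fun f hf => (Finset.mem_filter.1 hf).2)
    (fun B hB => by
      refine Finset.mem_filter.2 ⟨hsubs F hFmem B hB, ?_⟩
      rw [← hlevF]
      exact (lev_subs s B F hB).trans ((hlevF F).2 hFs))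
  have hset : {f | f ∈ Fs'} = {f | f ∈ Fs ∧ lev s f ≤ 0} := by
    ext f
    simp only [Set.mem_ofPred_eq, hFs', Finset.mem_filter, hlevF]
  have hS : ∃ S : Valn Fr v0 (Xt (TE V E Q) D) {f | f ∈ Fs ∧ lev s f ≤ 0} cap, S.Dcds kk ∧
      S.True' kk F := by
    rw [← hset]
    exact ⟨S, hS1, hS2⟩
  obtain ⟨S2, hS3, hS4⟩ := hS
  refine hkill (Xt (TE V E Q) D) Fs s 0 cap S2 hs hsubs hcard hkk hcap hS3 R hR hRk F hFmem
    ((hlevF F).2 hFs) hS4 b hb hbk τ π hπ hbπ (fun A hA => ⟨?_, ?_⟩)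
  · exact (hmem A).2 ⟨A, by simp [hA], A.self_mem_subs⟩
  · rw [Nat.zero_add]
    exact hlev A hA

/-- **one formula of the family** -/
theorem inst (d : ℕ) : ∃ w g n0 : ℕ, 0 < g ∧ ∀ n ≥ n0, ∃ F : Fm ℕ, F.Unsat ∧ F.IsCNF w ∧
    n ≤ F.size ∧ F.size ≤ 2 ^ (4040 * (g * (n + 1))) ∧
    ∀ R : List Rule, (∀ r ∈ R, r.Sound) → (∀ r ∈ R, r.nodes + 1 ≤ 2 ^ n) →
    ∀ b : Fm ℕ, b.Unsat → b.size + 1 ≤ 2 ^ n → ∀ π : List (Fm ℕ), IsDerivation R F π → b ∈ π →
    (∀ A ∈ π, ∃ (B : Fm ℕ) (σ : ℕ → Fm ℕ), A = B.subst σ ∧ depth B ≤ d ∧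
      ∀ v, (σ v).leaves ≤ 2 ^ (4280 * (g * (n + 1)))) →
    2 ^ (2 ^ n) < F.size + (π.map Fm.size).sum := by
  set Δ := dg d with hΔ
  have hΔ2 : 2 ≤ Δ := by
    rw [hΔ]; cases d <;> simp [dg]
  obtain ⟨a, k0, htow⟩ := towers d (cs Δ) (5 * cs Δ + 16 * (Δ + 2))
  obtain ⟨g, hg, hpar⟩ := params Δ a (cs Δ)
  obtain ⟨N1, hnumeric⟩ := numericC
  refine ⟨2 * (Δ + 2), g, N1 + k0 + 10 * Δ + 20, hg, fun n hn => ?_⟩
  obtain ⟨N, hN⟩ : ∃ N, N = g * (n + 1) := ⟨_, rfl⟩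
  rw [← hN]
  set k := 2 ^ n with hk
  have hnk : n ≤ k := nat_le_two_pow n
  obtain ⟨V, E, iV, iE, dV, dE, G, Fr, v0, hl, hdeg, h0, hcV, hcE, hBm, hkill⟩ :=
    htow k (by omega)
  obtain ⟨p1, p2, p3, p4, p5⟩ := hpar n (Fintype.card V) (Fintype.card E) hcV hcE N hN
  set Q := 2 * (Δ + 2) with hQdef
  set D := 4000 * N with hD
  have hD0 : 0 < D := by omega
  have hQ0 : 0 < Q := by omega
  -- the tall graph
  have hlt : (G.tall Q).NoLoop := noLoop_tall G hl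
  have hdt : (G.tall Q).Deg (Δ + 2) := deg_tall G hdeg
  have hdb : ((G.tall Q).blow D).Deg (2 * (Δ + 2)) := deg_blow (G.tall Q) hlt (by omega) hdt
  have hlb : ((G.tall Q).blow D).NoLoop := noLoop_blow (G.tall Q) hD0 hlt
  let e0 : TE V E Q := Sum.inr (v0, ⟨0, hQ0⟩)
  have hsrc : (G.tall Q).src e0 = (v0, 0) := rfl
  let u0 : Xt (TE V E Q) D := ⟨e0, ⟨0, hD0⟩, 0, 0⟩
  have hstar : (((G.tall Q).blow D).star (HV.cen (v0, 0) 0)).Nonempty := by
    have := mem_star_cen (G.tall Q) hD0 e0 0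
    rw [hsrc] at this
    exact ⟨_, this⟩
  set F0 := Fts ((G.tall Q).blow D) u0 (HV.cen (v0, 0) 0) with hF0
  have hcardTE : Fintype.card (TE V E Q) = Fintype.card E * (Q + 1) + Fintype.card V * Q := by
    simp [TE]
  have hcardTV : Fintype.card (TV V Q) = Fintype.card V * (Q + 1) := by simp [TV]
  have hcardFI : Fintype.card (FI E Q) = Fintype.card E * ((Q + 1) * (Q + 1)) := by simp [FI]
  have hF0size : F0.size ≤ 2 ^ (4040 * N) := by
    refine (Fts_size ((G.tall Q).blow D) (by omega) hdb u0 _ hstar).trans (le_trans ?_ p5)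
    rw [card_HV, hcardTE, hcardTV]
  have hF0le : n ≤ F0.size := by
    refine le_trans ?_ (le_Fts_size ((G.tall Q).blow D) u0 _)
    have h1 : 2 ^ D ≤ (univ.filter fun h => (((G.tall Q).blow D).star h).Nonempty).card := by
      have h2 : Fintype.card (A D) = 2 ^ D := by simp [A, ZMod.card]
      rw [← h2, ← Finset.card_univ]
      refine Finset.card_le_card_of_injOn (fun w => HV.cen (v0, 0) w) (fun w _ => ?_)
        (fun w _ w' _ h => by simpa using h)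
      have := mem_star_cen (G.tall Q) hD0 e0 w
      rw [hsrc] at this
      simp only [Finset.coe_filter, Finset.mem_univ, true_and, Set.mem_ofPred_eq]
      exact ⟨_, this⟩
    exact (by omega : n ≤ D).trans ((nat_le_two_pow D).trans h1)
  have hdec : (F0.map encC).map (decC u0) = F0 := by
    rw [Fm.map_map]
    exact Fm.map_id' _ (fun v => decC_encC u0 v) _
  refine ⟨F0.map encC, ?_, ?_, ?_, ?_, ?_⟩
  · intro x
    rw [Fm.eval_map]
    exact Fts_unsat ((G.tall Q).blow D) hlb u0 _ hstar _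
  · exact (Fts_cnf ((G.tall Q).blow D) hdb u0 _ hstar).map _
  · rw [Fm.size_map]; exact hF0le
  · rw [Fm.size_map]; exact hF0size
  intro R hR hRk b hb hbk π hπ hbπ hshape
  by_contra hlt'
  push Not at hlt'
  rw [Fm.size_map] at hlt'
  set s := 2 ^ (4280 * N) with hs
  have hs1 : 1 ≤ s := Nat.one_le_two_pow
  have hk1 : 1 ≤ k := Nat.one_le_two_pow
  set A' := cs Δ with hA'
  have hA1 : 1 ≤ A' := by rw [hA', cs]; nlinarith
  have hπ' : IsDerivation R F0 (π.map (Fm.map (decC u0))) := by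
    have := hπ.map (decC u0)
    rwa [hdec] at this
  have hkk : k * (A' * k) ≤ A' * k ^ 2 + 4 * (A' * k) := by
    have : k * (A' * k) = A' * k ^ 2 := by ring
    omega
  have hk2 : k ≤ k ^ 2 := by nlinarith
  have hm1 : A' * k ^ 2 + 4 * (A' * k) + 16 * (Δ + 2) ≤ Fr.m := by
    refine le_trans ?_ hBm
    have h1 : A' * k ≤ A' * k ^ 2 := Nat.mul_le_mul_left _ hk2
    have h2 : 16 * (Δ + 2) * 1 ≤ 16 * (Δ + 2) * k ^ 2 := Nat.mul_le_mul_left _ (by omega)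
    calc A' * k ^ 2 + 4 * (A' * k) + 16 * (Δ + 2)
        ≤ A' * k ^ 2 + 4 * (A' * k ^ 2) + 16 * (Δ + 2) * k ^ 2 := by omega
      _ = (5 * A' + 16 * (Δ + 2)) * k ^ 2 := by ring
  refine no_small Fr v0 (d := d) (k := k) (kk := A' * k)
    (cap := A' * k ^ 2 + 4 * (A' * k)) (s := s) hkill hs1 hkk (by omega) F0 ?_ ?_ R hR hRk b hb
    hbk (decC u0) (π.map (Fm.map (decC u0))) hπ' (List.mem_map_of_mem hbπ) ?_ ?_
  · refine (F0.leaves_le_size.trans hF0size).trans ?_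
    exact Nat.pow_le_pow_right (by norm_num) (by omega)
  · intro Fs hFs1 hFs2 hFs3
    have hmm : 2 * s + 2 ^ (3200 * N) ≤ 2 ^ (1080 * N + 2) * 2 ^ (3200 * N) := by
      have e1 : 2 ^ (1080 * N + 2) * 2 ^ (3200 * N) = 4 * s := by
        rw [hs, ← pow_add, show 1080 * N + 2 + 3200 * N = 4280 * N + 2 by ring, pow_add]
        ring
      have e2 : 2 ^ (3200 * N) ≤ s := Nat.pow_le_pow_right (by norm_num) (by omega)
      omega
    have hcsk : k * cs Δ = A' * k := by rw [hA']; ring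
    have key := stage0 Fr v0 (Q := Q) (D := D) hl hD0 h0 hdeg (by omega) (2 ^ (3200 * N)) k
      (2 ^ (1080 * N + 2)) s (A' * k ^ 2 + 4 * (A' * k)) ?_ hmm (ll N) (TT N)
      (by unfold ll; positivity) (by unfold TT; positivity) ?_ u0 0 Fs hFs2 hFs3 ?_ hm1 ?_ ?_
    · rw [hcsk] at key
      exact key
    · -- threshold
      have h1 : 10 * Δ + 20 ≤ n := by omega
      have h2 : N ≤ 2 ^ N := nat_le_two_pow N
      have h3 : 2 ^ N ≤ 2 ^ (3200 * N) := Nat.pow_le_pow_right (by norm_num) (by omega)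
      omega
    · exact hST_N N p2
    · -- the numerical estimate
      have hk2N : k ≤ 2 ^ N := Nat.pow_le_pow_right (by norm_num) p1
      have hnc := nC_le (V := V) (E := E) (Q := Q) (Δ := Δ)
      have hnc0 : (0 : ℝ) ≤ (sI E Q Δ).card := by positivity
      have hlI : (1 : ℝ) ≤ (lI V E Q Δ).card := by
        have : 0 < (lI V E Q Δ).card := by
          refine Finset.card_pos.2 ⟨∅, ?_⟩
          simp [lI]
        exact_mod_cast this
      have hsi : ((sI E Q Δ).card : ℝ) ≤ nC V E Q Δ := by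
        unfold nC
        nlinarith
      have hnc2 : nC V E Q Δ ≤ 2 ^ N := by
        refine hnc.trans ?_
        rw [hcardTE, hcardFI]
        exact_mod_cast p4
      have hn1 : N1 ≤ N := by omega
      refine hnumeric N hn1 k hk1 hk2N
        ((Fs.card : ℝ) * (((Fintype.card V : ℝ) + 1) ^ (k * cs Δ) *
        2 ^ (Δ * (k * cs Δ)) * Fintype.card V)) (nC V E Q Δ) ((sI E Q Δ).card) (by positivity) ?_
        (le_trans hnc0 hsi) hnc2 hnc0 (hsi.trans hnc2)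
      have h5 : Fs.card * ((Fintype.card V + 1) ^ (k * cs Δ) *
        2 ^ (Δ * (k * cs Δ)) * Fintype.card V) ≤ 2 ^ (N * k) * 2 ^ N := by
        refine le_trans (Nat.mul_le_mul_right _ hFs1) ?_
        exact p3
      exact_mod_cast h5
    · rw [show (k + 1) * cs Δ = A' * k + A' by rw [hA']; ring]
      have h1 : A' * 1 ≤ A' * k := Nat.mul_le_mul_left _ hk1
      omega
    · rw [hcsk]
      omega
  · intro A hA
    obtain ⟨A1, hA1, rfl⟩ := List.mem_map.1 hA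
    obtain ⟨B, σ, rfl, hB, hσ⟩ := hshape A1 hA1
    rw [Fm.map_subst]
    refine (lev_subst s B _ (fun v => ?_)).trans hB
    rw [Fm.leaves_map]
    exact hσ v
  · refine le_trans (le_of_eq ?_) hlt'
    congr 1
    rw [List.map_map]
    congr 1
    apply List.map_congr_left
    intro A _
    exact Fm.size_map _ A

end FrC
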