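import Pool.Agent.Lib.MP_51bb46_lc.S.Reloc

/-!
The Tseitin CNF of a graph.
-/

set_option linter.unusedSectionVars false

namespace FrC

open Finset Fr56
open scoped Classical

/-- truth value of a bit -/
def tb (c : ZMod 2) : Bool := decide (c ≠ 0)

section
variable {V E : Type} [Fintype V] [Fintype E] [DecidableEq V] [DecidableEq E] (G : Gph V E)

/-- charge: `1` at `h0`, `0` elsewhere -/
def chg (h0 h : V) : ZMod 2 := if h = h0 then 1 else 0

/-- the clause that excludes the pattern `T` on the edges at `h` -/
noncomputable def clause (u0 : E) (h : V) (T : Finset E) : Fm E :=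
  Fm.disj (.var u0) ((G.star h).toList.map fun u => if u ∈ T then Fm.neg (.var u) else Fm.var u)

/-- all clauses: patterns of wrong parity at vertices of positive degree -/
noncomputable def clauses (h0 : V) : Finset (V × Finset E) :=
  univ.filter fun p => p.2 ⊆ G.star p.1 ∧ (G.star p.1).Nonempty ∧ (p.2.card : ZMod 2) ≠ chg h0 p.1

/-- the Tseitin CNF of the graph with charge `1` at `h0` -/
noncomputable def Fts (u0 : E) (h0 : V) : Fm E :=
  Fm.conj (.var u0) ((clauses G h0).toList.map fun p => clause G u0 p.1 p.2)

end

end FrC
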