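import Pool.Agent.Lib.MP_51bb46_lc.B.Pieces
import Pool.Agent.Lib.MP_51bb46_lc.C.Ts
import Pool.Agent.Lib.MP_51bb46_lc.C.FrameB

/-!
Local semantics of arbitrary formulas over the edges of the blow-up of the tall graph: definitions.
-/

set_option linter.unusedSectionVars false

namespace FrC

open Finset Fr56
open scoped Classical

section
variable {V E : Type} [Fintype V] [Fintype E] [DecidableEq V] [DecidableEq E]

/-- evaluation of a fragment with hole values `z` at the assignment `x` -/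
def ev {X : Type} (x : X → ZMod 2) (z : Bool → Bool) (R : Fm (X ⊕ Bool)) : Bool :=
  R.eval (Sum.elim (fun u => tb (x u)) z)

section
variable (G : Gph V E) {Q D : ℕ} (a : TV V Q → A D)

/-- edges of the tall graph on which (the restriction of) `R` can depend -/
def Live (R : Fm (Xt (TE V E Q) D ⊕ Bool)) : Set (TE V E Q) :=
  {e | ∃ u : Xt (TE V E Q) D, Sum.inl u ∈ R.vars ∧ u.e = e ∧ live (G.tall Q) a u}

/-- live edges not touching the fibers over `U` -/
noncomputable def Lam (U : Finset V) (R : Fm (Xt (TE V E Q) D ⊕ Bool)) : Finset (TE V E Q) :=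
  univ.filter fun e => e ∈ Live G a R ∧ e ∉ incT G Q U

end

variable {G : Gph V E} (Fr : Frame G) (v0 : V) {Q D : ℕ} (α : Xt (TE V E Q) D → ZMod 2)
  (a : TV V Q → A D)

/-- test chains for the fragment `R` at the state `(U, y)` -/
def Test (U : Finset V) (y : E → ZMod 2) (R : Fm (Xt (TE V E Q) D ⊕ Bool))
    (z : TE V E Q → ZMod 2) : Prop :=
  (∀ e ∈ incT G Q U, z e = iota y e) ∧
    ∃ t, (G.tall Q).bd z = pt (v0, 0) + pt (t, 0) ∧ Fr.Free (U ∪ plc G Q (Lam G a U R)) t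

/-- quietness of a fragment -/
def QuietR (R : Fm (Xt (TE V E Q) D ⊕ Bool)) (U : Finset V) (y : E → ZMod 2) : Prop :=
  (∀ e ∈ Lam G a U R, ∀ f ∈ Lam G a U R, ¬ (G.tall Q).VDisj e f) ∧
  ∀ z1 z2, Test Fr v0 a U y R z1 → Test Fr v0 a U y R z2 → ∀ ζ,
    ev (α + Pth (G.tall Q) a z1) ζ R = ev (α + Pth (G.tall Q) a z2) ζ R

/-- quietness of a formula (`l` is the threshold of the decomposition into fragments) -/
def Quiet (l : ℕ) (f : Fm (Xt (TE V E Q) D)) (U : Finset V) (y : E → ZMod 2) : Prop :=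
  ∀ R ∈ frags l f, QuietR Fr v0 α a R U y

/-- local value of a fragment -/
noncomputable def cval (U : Finset V) (y : E → ZMod 2) (R : Fm (Xt (TE V E Q) D ⊕ Bool))
    (ζ : Bool → Bool) : Bool :=
  decide (∃ z, Test Fr v0 a U y R z ∧ ev (α + Pth (G.tall Q) a z) ζ R = true)

/-- local value of a formula -/
noncomputable def val (l : ℕ) (f : Fm (Xt (TE V E Q) D)) (U : Finset V) (y : E → ZMod 2) : Bool :=
  fval l (cval Fr v0 α a U y) f

/-- the local truth relation -/
def qQ (l : ℕ) (f : Fm (Xt (TE V E Q) D)) (b : Bool) (U : Finset V) (y : E → ZMod 2) : Prop :=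
  Quiet Fr v0 α a l f U y ∧ val Fr v0 α a l f U y = b

end

section
variable {V E : Type} [Fintype V] [Fintype E] [DecidableEq V] [DecidableEq E]
  (G : Gph V E) {Q D : ℕ} (Δ : ℕ) (a : TV V Q → A D)

/-- M-step: two vertex-disjoint live edges are revealed -/
def StepM (R : Fm (Xt (TE V E Q) D ⊕ Bool)) (U U' : Finset V) : Prop :=
  ∃ e ∈ Live G a R, ∃ f ∈ Live G a R, (G.tall Q).VDisj e f ∧ e ∉ incT G Q U ∧ f ∉ incT G Q U ∧
    U' = U ∪ plc G Q {e, f}

/-- S-step: the neighbourhood of a small set `L` of edges is revealed, and the fragment is sensitive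
to a sum of few elementary closed chains over that neighbourhood -/
def StepS (β : Xt (TE V E Q) D → ZMod 2) (R : Fm (Xt (TE V E Q) D ⊕ Bool)) (U U' : Finset V) :
    Prop :=
  ∃ (L : Finset (TE V E Q)) (S : Finset (FI E Q)) (ζ : Bool → Bool), L.card ≤ 2 * (Δ + 2) ∧
    S.card ≤ 2 * (Δ + 2) ∧ (∀ s ∈ S, s.1 ∉ G.inc U) ∧
    (∀ s ∈ S, G.src s.1 ∈ Nb G Q L ∧ G.tgt s.1 ∈ Nb G Q L) ∧ U' = U ∪ Nb G Q L ∧
    ev β ζ R ≠ ev (β + Pth (G.tall Q) a (Fs G S)) ζ R

/-- chain of `k` steps from `U` to `W` -/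
def Chain (Rs : Finset (Fm (Xt (TE V E Q) D ⊕ Bool))) (β : Xt (TE V E Q) D → ZMod 2) :
    ℕ → Finset V → Finset V → Prop
  | 0, U, W => U = W
  | k + 1, U, W => ∃ R ∈ Rs, ∃ U', (StepM G a R U U' ∨ StepS G Δ a β R U U') ∧ Chain Rs β k U' W

/-- chain for the state `y`; in S-steps all live edges become revealed -/
def LChain (Rs : Finset (Fm (Xt (TE V E Q) D ⊕ Bool))) (α : Xt (TE V E Q) D → ZMod 2)
    (y : E → ZMod 2) : ℕ → Finset V → Finset V → Prop
  | 0, U, W => U = W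
  | k + 1, U, W => ∃ R ∈ Rs, ∃ U',
      (StepM G a R U U' ∨
        (StepS G Δ a (α + Pth (G.tall Q) a (iota y)) R U U' ∧ Live G a R ⊆ incT G Q U')) ∧
      LChain Rs α y k U' W

/-- number of vertices revealed in one step -/
def cs (Δ : ℕ) : ℕ := 4 * (1 + Δ) * (Δ + 2)

end

/-- no state supports a chain of length `k` -/
def NoChain {V E : Type} [Fintype V] [Fintype E] [DecidableEq V] [DecidableEq E]
    {G : Gph V E} (Fr : Frame G) (v0 : V) {Q D : ℕ} (Δ : ℕ) (α : Xt (TE V E Q) D → ZMod 2)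
    (a : TV V Q → A D) (l k : ℕ) (f : Fm (Xt (TE V E Q) D)) : Prop :=
  ∀ W y, Fr.Ok v0 W y → ¬ LChain G Δ a (frags l f).toFinset α y k ∅ W

end FrC
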