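import Pool.Agent.Lib.MP_51bb46_lc.C.FrameB

section

section

/-!
The blow-up: all edges of a set of base edges have paths touching a small set of vertices.
-/

set_option linter.unusedSectionVars false

namespace FrC

open Finset Fr56
open scoped Classical

section
variable {V E : Type} [Fintype V] [Fintype E] [DecidableEq V] [DecidableEq E] (G : Gph V E)
  {D : ℕ}

private theorem vdisj_symm_Q {e f : E} (h : G.VDisj e f) : G.VDisj f e :=
  ⟨h.1.symm, h.2.2.1.symm, h.2.1.symm, h.2.2.2.symm⟩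

private theorem exists_matching_aux {Δ : ℕ} (h : G.Deg Δ) (n : ℕ) :
    ∀ L : Finset E, L.card = n →
    ∃ L0 ⊆ L, (∀ e ∈ L0, ∀ f ∈ L0, e ≠ f → G.VDisj e f) ∧ L.card ≤ 2 * Δ * L0.card := by
  induction n using Nat.strong_induction_on with
  | _ n ih =>
    intro L hL
    rcases Finset.eq_empty_or_nonempty L with rfl | ⟨e, he⟩
    · exact ⟨∅, Finset.Subset.refl _, fun e he => absurd he (Finset.notMem_empty e), by simp⟩
    · have heL : e ∉ L.filter (fun f => G.VDisj e f) := by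
        intro h1
        exact (Finset.mem_filter.1 h1).2.1 rfl
      have hlt : (L.filter (fun f => G.VDisj e f)).card < n := by
        rw [← hL]
        apply Finset.card_lt_card
        refine ⟨Finset.filter_subset _ _, fun h1 => heL (h1 he)⟩
      obtain ⟨L0, hs, hd, hc⟩ := ih _ hlt _ rfl
      have heL0 : e ∉ L0 := fun h1 => heL (hs h1)
      refine ⟨insert e L0, ?_, ?_, ?_⟩
      · intro f hf
        rcases Finset.mem_insert.1 hf with rfl | hf
        · exact he
        · exact (Finset.mem_filter.1 (hs hf)).1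
      · intro f hf g hg hfg
        rcases Finset.mem_insert.1 hf with h1 | hf1
        · rcases Finset.mem_insert.1 hg with h2 | hg1
          · exact absurd (h1.trans h2.symm) hfg
          · rw [h1]
            exact (Finset.mem_filter.1 (hs hg1)).2
        · rcases Finset.mem_insert.1 hg with h2 | hg1
          · rw [h2]
            exact vdisj_symm_Q G (Finset.mem_filter.1 (hs hf1)).2
          · exact hd f hf1 g hg1 hfg
      · rw [Finset.card_insert_of_notMem heL0]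
        have h1 : L ⊆ L.filter (fun f => G.VDisj e f) ∪ (G.star (G.src e) ∪ G.star (G.tgt e)) := by
          intro f hf
          by_cases hv : G.VDisj e f
          · exact Finset.mem_union_left _ (Finset.mem_filter.2 ⟨hf, hv⟩)
          · refine Finset.mem_union_right _ ?_
            unfold Gph.VDisj at hv
            simp only [Finset.mem_union, Gph.star, Finset.mem_filter, Finset.mem_univ, true_and]
            by_contra hcon
            push Not at hcon
            exact hv ⟨fun e1 => hcon.1.1 e1.symm, fun e1 => hcon.1.2 e1.symm,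
              fun e1 => hcon.2.1 e1.symm, fun e1 => hcon.2.2 e1.symm⟩
        have h2 := (Finset.card_le_card h1).trans (Finset.card_union_le _ _)
        have h3 := Finset.card_union_le (G.star (G.src e)) (G.star (G.tgt e))
        have h4 := h (G.src e)
        have h5 := h (G.tgt e)
        have h6 : 2 * Δ * (L0.card + 1) = 2 * Δ * L0.card + 2 * Δ := by ring
        omega

/-- a set of edges contains many pairwise vertex-disjoint edges -/
theorem exists_matching {Δ : ℕ} (h : G.Deg Δ) (L : Finset E) :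
    ∃ L0 ⊆ L, (∀ e ∈ L0, ∀ f ∈ L0, e ≠ f → G.VDisj e f) ∧ L.card ≤ 2 * Δ * L0.card :=
  exists_matching_aux G h L.card L rfl

private theorem pr_all_matching (hl : G.NoLoop) (hD : 0 < D) (W : Finset (HV V E D))
    (L0 : Finset E) :
    (∀ e ∈ L0, ∀ f ∈ L0, e ≠ f → G.VDisj e f) →
    pr (fun a : V → A D => ∀ e ∈ L0, Tch G a W e) ≤ ((W.card : ℝ) / 2 ^ D) ^ L0.card := by
  induction L0 using Finset.induction_on with
  | empty =>
    intro _
    simpa using pr_le_one (Ω := V → A D) _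
  | insert e s hes ih =>
    intro hd
    have hs := ih fun f hf g hg => hd f (Finset.mem_insert_of_mem hf) g (Finset.mem_insert_of_mem hg)
    have h1 : pr (fun a : V → A D => ∀ f ∈ insert e s, Tch G a W f) =
        pr (fun a : V → A D => Tch G a W e ∧ ∀ f ∈ s, Tch G a W f) := by
      apply pr_congr
      intro a
      rw [Finset.forall_mem_insert]
    have hdis : Disjoint ({G.src e, G.tgt e} : Set V)
        {v | ∃ f ∈ s, G.src f = v ∨ G.tgt f = v} := by
      rw [Set.disjoint_left]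
      rintro v hv ⟨f, hf, hfv⟩
      have hne : e ≠ f := fun h1 => hes (h1 ▸ hf)
      obtain ⟨a1, a2, a3, a4⟩ := hd e (Finset.mem_insert_self _ _) f
        (Finset.mem_insert_of_mem hf) hne
      simp only [Set.mem_insert_iff, Set.mem_singleton_iff] at hv
      rcases hv with rfl | rfl <;> rcases hfv with h5 | h5
      · exact a1 h5.symm
      · exact a2 h5.symm
      · exact a3 h5.symm
      · exact a4 h5.symm
    have hP : DepOn ({G.src e, G.tgt e} : Set V) (fun a : V → A D => Tch G a W e) := by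
      intro a b hab
      exact Tch_congr G (hab _ (by simp)) (hab _ (by simp))
    have hQ : DepOn {v | ∃ f ∈ s, G.src f = v ∨ G.tgt f = v}
        (fun a : V → A D => ∀ f ∈ s, Tch G a W f) := by
      intro a b hab
      refine forall₂_congr fun f hf => ?_
      exact Tch_congr G (hab _ ⟨f, hf, Or.inl rfl⟩) (hab _ ⟨f, hf, Or.inr rfl⟩)
    rw [h1, pr_indep' hdis hP hQ, Finset.card_insert_of_notMem hes, pow_succ, mul_comm]
    exact mul_le_mul hs (pr_Tch_le G hl hD W e) (pr_nonneg _) (by positivity)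

/-- the paths of all edges in `L` touch `W` with small probability -/
theorem pr_all_Tch_le (hl : G.NoLoop) (hD : 0 < D) {Δ : ℕ} (h : G.Deg Δ) (k : ℕ) (θ : ℝ)
    (hθ0 : 0 ≤ θ) (hθ1 : θ ≤ 1) (hθ : (k : ℝ) ≤ θ ^ (2 * Δ) * 2 ^ D) (W : Finset (HV V E D))
    (hW : W.card ≤ k) (L : Finset E) :
    pr (fun a : V → A D => ∀ e ∈ L, Tch G a W e) ≤ θ ^ L.card := by
  obtain ⟨L0, hs, hd, hc⟩ := exists_matching G h L
  have h1 : pr (fun a : V → A D => ∀ e ∈ L, Tch G a W e) ≤
      pr (fun a : V → A D => ∀ e ∈ L0, Tch G a W e) :=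
    pr_mono fun a ha e he => ha e (hs he)
  have h2 := pr_all_matching G hl hD W L0 hd
  have h3 : (W.card : ℝ) / 2 ^ D ≤ θ ^ (2 * Δ) := by
    rw [div_le_iff₀ (by positivity)]
    exact (Nat.cast_le.2 hW).trans hθ
  have h4 : ((W.card : ℝ) / 2 ^ D) ^ L0.card ≤ (θ ^ (2 * Δ)) ^ L0.card :=
    pow_le_pow_left₀ (by positivity) h3 _
  refine h1.trans (h2.trans (h4.trans ?_))
  rw [← pow_mul]
  exact pow_le_pow_of_le_one hθ0 hθ1 hc

end

end FrC
end

section

/-!
The switching step from the blow-up of the tall graph down to the graph: certificates and the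
process that looks for a possible certificate.
-/

set_option linter.unusedSectionVars false

namespace FrC

open Finset Fr56
open scoped Classical

/-- A certificate: a set of vertices of the blow-up and the values on the edges touching it. -/
abbrev Cert (V E : Type) (Q D : ℕ) :=
  Finset (HV (TV V Q) (TE V E Q) D) × (Xt (TE V E Q) D → ZMod 2)

section
variable {V E : Type} [Fintype V] [Fintype E] [DecidableEq V] [DecidableEq E]

/-- numbering of the certificates -/
noncomputable def idx {Q D : ℕ} (C : Cert V E Q D) : ℕ := (Fintype.equivFin (Cert V E Q D) C).val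

theorem idx_inj {Q D : ℕ} {C C' : Cert V E Q D} (h : idx C = idx C') : C = C' := by
  unfold idx at h
  exact (Fintype.equivFin (Cert V E Q D)).injective (Fin.ext h)

/-- the values of the certificate are those of `x` -/
def Match (G : Gph V E) {Q D : ℕ} (C : Cert V E Q D) (x : Xt (TE V E Q) D → ZMod 2) : Prop :=
  ∀ u ∈ ((G.tall Q).blow D).inc C.1, x u = C.2 u

/-- the set of revealed vertices after `i` steps with the edge sets `Ls` -/
noncomputable def US (G : Gph V E) {Q : ℕ} (Ls : ℕ → Finset (TE V E Q)) (i : ℕ) : Finset V :=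
  (range i).biUnion fun l => Nb G Q (Ls l)

/-- number of live edges found in `n` steps -/
def tot {Q : ℕ} (Ls : ℕ → Finset (TE V E Q)) (n : ℕ) : ℕ := ∑ i ∈ range n, (Ls i).card

variable {G : Gph V E} (Fr : Frame G) (v0 : V) {Q D : ℕ} (α : Xt (TE V E Q) D → ZMod 2)
  (a : TV V Q → A D)

/-- at the state `(U, y)` the certificate may still turn out to be satisfied -/
def Poss (C : Cert V E Q D) (U : Finset V) (y : E → ZMod 2) : Prop :=
  ∃ (z : TE V E Q → ZMod 2) (t : V), (∀ e ∈ incT G Q U, z e = iota y e) ∧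
    (G.tall Q).bd z = pt (v0, 0) + pt (t, 0) ∧
    Fr.Free (U ∪ plc G Q (cov (G.tall Q) a C.1)) t ∧ Match G C (α + Pth (G.tall Q) a z)

/-- one step: `C` is the first possible certificate in `𝒞` at the state `(U, y)`, and `L ≠ ∅` is the
set of the edges of the tall graph not touching `U` whose paths touch `C.1` -/
def Step (𝒞 : Set (Cert V E Q D)) (U : Finset V) (y : E → ZMod 2) (C : Cert V E Q D)
    (L : Finset (TE V E Q)) : Prop :=
  C ∈ 𝒞 ∧ Poss Fr v0 α a C U y ∧ (∀ C' ∈ 𝒞, idx C' < idx C → ¬ Poss Fr v0 α a C' U y) ∧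
    (∀ e, e ∈ L ↔ Tch (G.tall Q) a C.1 e ∧ e ∉ incT G Q U) ∧ L.Nonempty

/-- there is no sequence of steps with at least `R` and less than `R'` edges -/
def NoLong (𝒞 : Set (Cert V E Q D)) (R R' : ℕ) : Prop :=
  ∀ (n : ℕ) (Cs : ℕ → Cert V E Q D) (Ls : ℕ → Finset (TE V E Q)) (y : E → ZMod 2),
    (∀ i < n, Step Fr v0 α a 𝒞 (US G Ls i) y (Cs i) (Ls i)) → Fr.Ok v0 (US G Ls n) y →
    R ≤ tot Ls n → tot Ls n < R' → False

/-- some certificate in `𝒞` is satisfied at the state `(U, y)` -/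
def QC (𝒞 : Set (Cert V E Q D)) (U : Finset V) (y : E → ZMod 2) : Prop :=
  ∃ C ∈ 𝒞, Match G C (α + Pth (G.tall Q) a (iota y)) ∧
    ∀ e : E, Tch (G.tall Q) a C.1 (Sum.inl (e, 0)) → e ∈ G.inc U

/-- no certificate in `𝒞` is possible at the state `(U, y)` -/
def QN (𝒞 : Set (Cert V E Q D)) (U : Finset V) (y : E → ZMod 2) : Prop :=
  ∀ C ∈ 𝒞, ¬ Poss Fr v0 α a C U y

end

section
variable {V E : Type} [Fintype V] [Fintype E] [DecidableEq V] [DecidableEq E] (G : Gph V E)
  {Q D : ℕ}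

/-- `C` is the first certificate in `𝒞` with the property `P` that is matched by `β` -/
def Act (𝒞 : Set (Cert V E Q D)) (P : Cert V E Q D → Prop) (β : Xt (TE V E Q) D → ZMod 2)
    (C : Cert V E Q D) : Prop :=
  C ∈ 𝒞 ∧ P C ∧ Match G C β ∧ ∀ C' ∈ 𝒞, P C' → Match G C' β → idx C ≤ idx C'

/-- the decoding event: after adding the first `i` closed chains to `β`, all edges in `Ls i` have
live paths touching the first matched certificate -/
def Dcd (𝒞 : Set (Cert V E Q D)) (P : Cert V E Q D → Prop) (Ls : ℕ → Finset (TE V E Q))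
    (Ss : ℕ → Finset (FI E Q)) (n : ℕ) (β : Xt (TE V E Q) D → ZMod 2) (a : TV V Q → A D) : Prop :=
  ∀ i < n, ∃ C, Act G 𝒞 P (β + Pth (G.tall Q) a (∑ l ∈ range i, Fs G (Ss l))) C ∧
    ∀ e ∈ Ls i, Tch (G.tall Q) a C.1 e

end

end FrC
end

section

/-!
Certificates: monotonicity and consistency.
-/

set_option linter.unusedSectionVars false

namespace FrC

open Finset Fr56
open scoped Classical

section
variable {V E : Type} [Fintype V] [Fintype E] [DecidableEq V] [DecidableEq E]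
  {G : Gph V E} (Fr : Frame G) (v0 : V) {Q D : ℕ} (α : Xt (TE V E Q) D → ZMod 2)
  (a : TV V Q → A D)

/-- `α + Pth a (iota y)` and `α + Pth a (iota y')` agree near `W` if `y`, `y'` agree near `U` and
`U` covers the live edges at `W` -/
theorem x_agree {U : Finset V} {W : Finset (HV (TV V Q) (TE V E Q) D)} {y y' : E → ZMod 2}
    (hcov : ∀ e : E, Tch (G.tall Q) a W (Sum.inl (e, 0)) → e ∈ G.inc U) (h : G.Agree U y y') :
    ((G.tall Q).blow D).Agree W (α + Pth (G.tall Q) a (iota y)) (α + Pth (G.tall Q) a (iota y')) := by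
  intro u hu
  simp only [Pi.add_apply]
  congr 1
  unfold Pth
  by_cases hl : live (G.tall Q) a u
  · rw [if_pos hl, if_pos hl]
    rcases hx : u.e with ⟨e, l⟩ | ⟨v, i⟩
    · by_cases h0 : l = 0
      · subst h0
        have he : e ∈ G.inc U := hcov e ⟨u, hx, hl, hu⟩
        simp only [iota, if_true]
        exact h e he
      · simp only [iota, if_neg h0]
    · rfl
  · rw [if_neg hl, if_neg hl]

theorem QC_mono {𝒞 : Set (Cert V E Q D)} {U U' : Finset V} {y y' : E → ZMod 2} (hU : U ⊆ U')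
    (h : QC (G := G) α a 𝒞 U y) (hy : G.Agree U y y') : QC (G := G) α a 𝒞 U' y' := by
  obtain ⟨C, hC, hm, hcov⟩ := h
  refine ⟨C, hC, fun u hu => ?_, fun e he => G.inc_mono hU (hcov e he)⟩
  rw [← hm u hu]
  exact (x_agree α a hcov hy u hu).symm

theorem Poss_mono {C : Cert V E Q D} {U U' : Finset V} {y y' : E → ZMod 2} (hU : U ⊆ U')
    (h : Poss Fr v0 α a C U' y') (hy : G.Agree U y y') : Poss Fr v0 α a C U y := by
  obtain ⟨z, t, hz, hb, hf, hm⟩ := h
  refine ⟨z, t, fun e he => ?_, hb, Fr.anti (Finset.union_subset_union hU (Finset.Subset.refl _)) hf,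
    hm⟩
  rw [hz e (incT_mono G hU he)]
  exact (iota_agree G hy e he).symm

theorem QN_mono {𝒞 : Set (Cert V E Q D)} {U U' : Finset V} {y y' : E → ZMod 2} (hU : U ⊆ U')
    (h : QN Fr v0 α a 𝒞 U y) (hy : G.Agree U y y') : QN Fr v0 α a 𝒞 U' y' := by
  intro C hC hp
  exact h C hC (Poss_mono Fr v0 α a hU hp hy)

theorem Step_congr {𝒞 : Set (Cert V E Q D)} {U : Finset V} {y y' : E → ZMod 2}
    {C : Cert V E Q D} {L : Finset (TE V E Q)} (h : Step Fr v0 α a 𝒞 U y C L)
    (hy : G.Agree U y y') : Step Fr v0 α a 𝒞 U y' C L := by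
  obtain ⟨h1, h2, h3, h4⟩ := h
  exact ⟨h1, Poss_mono Fr v0 α a (Finset.Subset.refl U) h2 hy.symm,
    fun C' hC' hi hp => h3 C' hC' hi (Poss_mono Fr v0 α a (Finset.Subset.refl U) hp hy), h4⟩

/-- a satisfied certificate is possible -/
theorem QC_QN {Δ k : ℕ} (hdeg : G.Deg Δ) {𝒞 : Set (Cert V E Q D)} (h𝒞 : ∀ C ∈ 𝒞, C.1.card ≤ k)
    {U : Finset V} {y : E → ZMod 2} (hc : U.card + 2 * (Δ + 2) * k ≤ Fr.m) (hok : Fr.Ok v0 U y)
    (h : QC (G := G) α a 𝒞 U y) (h' : QN Fr v0 α a 𝒞 U y) : False := by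
  obtain ⟨C, hC, hm, hcov⟩ := h
  obtain ⟨ty, hty, hfy⟩ := hok
  have h1 : (cov (G.tall Q) a C.1).card ≤ (Δ + 2) * k :=
    (card_cov (G.tall Q) (by omega) (deg_tall G hdeg) a C.1).trans
      (Nat.mul_le_mul_left _ (h𝒞 C hC))
  have h2 : (U ∪ plc G Q (cov (G.tall Q) a C.1)).card ≤ Fr.m := by
    refine (Finset.card_union_le _ _).trans (le_trans ?_ hc)
    have h3 := card_plc G (cov (G.tall Q) a C.1)
    have h4 : 2 * (cov (G.tall Q) a C.1).card ≤ 2 * ((Δ + 2) * k) := Nat.mul_le_mul_left _ h1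
    rw [mul_assoc]
    omega
  obtain ⟨t, ht⟩ := Fr.ne _ h2
  have htU : Fr.Free U t := Fr.anti Finset.subset_union_left ht
  have hUm : U.card ≤ Fr.m := (Finset.card_le_card Finset.subset_union_left).trans h2
  obtain ⟨γ, hγ, hγ0⟩ := Fr.conn U ty t hUm hfy htU
  have hagree : G.Agree U y (y + γ) := fun e he => by
    rw [Pi.add_apply, hγ0 e he, add_zero]
  have hbd : G.bd (y + γ) = pt v0 + pt t := by
    rw [Gph.bd_add, hty, hγ, add_assoc, ← add_assoc (pt ty), add_self2, zero_add]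
  refine h' C hC ⟨iota (y + γ), t, fun e he => (iota_agree G hagree e he).symm,
    bd_iota_path G _ v0 t hbd, ht, fun u hu => ?_⟩
  rw [← hm u hu]
  exact (x_agree α a hcov hagree u hu).symm

/-- states are mapped to states -/
theorem ok_up {w0 : A D} (hQ : 0 < Q) (hD : 0 < D)
    (hα : ((G.tall Q).blow D).bd α = pt (HV.cen (v0, 0) w0) + pt (ctr a (v0, 0)))
    {U : Finset V} {W : Finset (HV (TV V Q) (TE V E Q) D)} {y : E → ZMod 2}
    (hcov : ∀ e : E, Tch (G.tall Q) a W (Sum.inl (e, 0)) → e ∈ G.inc U)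
    (hc : U.card + 2 * W.card ≤ Fr.m) (hok : Fr.Ok v0 U y) :
    (Fr.blow Q D hQ hD).Ok (HV.cen (v0, 0) w0) W (α + Pth (G.tall Q) a (iota y)) := by
  obtain ⟨t, ht, hf⟩ := hok
  refine ⟨ctr a (t, 0), ?_, emb_free Fr a U W t hD hc hf hcov⟩
  rw [Gph.bd_add, hα, bd_Pth_path _ hD a (iota y) (v0, 0) (t, 0) (bd_iota_path G y v0 t ht),
    add_assoc, ← add_assoc (pt (ctr a (v0, 0))), add_self2, zero_add]

end

end FrC
end
end

section

/-!
Decoding: a long sequence of steps is an unlikely event for a fixed shifted chain.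
-/

set_option linter.unusedSectionVars false

namespace FrC

open Finset Fr56
open scoped Classical

section
variable {V E : Type} [Fintype V] [Fintype E] [DecidableEq V] [DecidableEq E]
  {G : Gph V E} (Fr : Frame G) (v0 : V) {Q D : ℕ} (α : Xt (TE V E Q) D → ZMod 2)
  (a : TV V Q → A D)

theorem US_mono (Ls : ℕ → Finset (TE V E Q)) {i j : ℕ} (h : i ≤ j) : US G Ls i ⊆ US G Ls j := by
  unfold US
  apply Finset.biUnion_subset_biUnion_of_subset_left
  intro l hl
  rw [Finset.mem_range] at hl ⊢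
  omega

theorem card_US {Δ : ℕ} (hdeg : G.Deg Δ) (Ls : ℕ → Finset (TE V E Q)) (n : ℕ) :
    (US G Ls n).card ≤ 2 * (1 + Δ) * tot Ls n := by
  unfold US tot
  rw [Finset.mul_sum]
  refine Finset.card_biUnion_le.trans (Finset.sum_le_sum fun l _ => card_Nb G hdeg _)

/-- the code `(t, Ss)` of a sequence of steps is admissible -/
def Adm (Ls : ℕ → Finset (TE V E Q)) (Ss : ℕ → Finset (FI E Q)) (n : ℕ) (t : V) : Prop :=
  Fr.Free (US G Ls n) t ∧ ∀ i < n, (Ls i).Nonempty ∧ (∀ e ∈ Ls i, e ∉ incT G Q (US G Ls i)) ∧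
    (Ss i).card ≤ (Ls i).card ∧
    (∀ s ∈ Ss i, s.1 ∉ G.inc (US G Ls i)) ∧
    (∀ s ∈ Ss i, G.src s.1 ∈ Nb G Q (Ls i) ∧ G.tgt s.1 ∈ Nb G Q (Ls i))

/-- **decoding lemma** -/
theorem decode {Δ k : ℕ} (hdeg : G.Deg Δ) {𝒞 : Set (Cert V E Q D)}
    (h𝒞 : ∀ C ∈ 𝒞, C.1.card ≤ k) (n : ℕ) (Cs : ℕ → Cert V E Q D)
    (Ls : ℕ → Finset (TE V E Q)) (y : E → ZMod 2)
    (hst : ∀ i < n, Step Fr v0 α a 𝒞 (US G Ls i) y (Cs i) (Ls i))
    (hok : Fr.Ok v0 (US G Ls n) y) (hQ : (Δ + 2) * k ≤ Q)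
    (hm : 2 * (1 + Δ) * (tot Ls n + n * k) ≤ Fr.m) :
    ∃ (t : V) (Ss : ℕ → Finset (FI E Q)), Adm Fr Ls Ss n t ∧
      ∀ yh : E → ZMod 2, G.bd yh = pt v0 + pt t → G.Agree (US G Ls n) y yh →
        Dcd G 𝒞 (fun C => Fr.Free (US G Ls n ∪ G.nbh (Unc G Q C.1)) t) Ls Ss n
          (α + Pth (G.tall Q) a (iota yh + ∑ l ∈ range n, Fs G (Ss l))) a := by
  classical
  set U : Finset V := US G Ls n with hU
  -- (1) the new violated vertex
  set N : Finset V := U ∪ (range n).biUnion (fun i => G.nbh (Unc G Q (Cs i).1)) with hN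
  have hNcard : N.card ≤ Fr.m := by
    have h1 : N.card ≤ U.card + ∑ i ∈ range n, (G.nbh (Unc G Q (Cs i).1)).card :=
      (Finset.card_union_le _ _).trans (Nat.add_le_add_left Finset.card_biUnion_le _)
    have h2 : ∑ i ∈ range n, (G.nbh (Unc G Q (Cs i).1)).card ≤ ∑ _i ∈ range n, (1 + Δ) * (2 * k) := by
      apply Finset.sum_le_sum
      intro i hi
      refine (card_nbh G hdeg _).trans (Nat.mul_le_mul_left _ ?_)
      refine (card_Unc G _).trans (Nat.mul_le_mul_left _ ?_)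
      exact h𝒞 _ (hst i (Finset.mem_range.1 hi)).1
    have h3 : U.card ≤ 2 * (1 + Δ) * tot Ls n := card_US hdeg Ls n
    rw [Finset.sum_const, Finset.card_range, smul_eq_mul] at h2
    calc N.card ≤ 2 * (1 + Δ) * tot Ls n + n * ((1 + Δ) * (2 * k)) := by omega
      _ = 2 * (1 + Δ) * (tot Ls n + n * k) := by ring
      _ ≤ Fr.m := hm
  obtain ⟨t, ht⟩ := Fr.ne N hNcard
  have hUN : U ⊆ N := Finset.subset_union_left
  have hUcard : U.card ≤ Fr.m := (Finset.card_le_card hUN).trans hNcard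
  have hUi : ∀ i ≤ n, US G Ls i ⊆ U := fun i hi => US_mono Ls hi
  -- (2)
  obtain ⟨ty, hy, hty⟩ := hok
  obtain ⟨γ0, hγ0, hγ0'⟩ := Fr.conn U ty t hUcard hty (Fr.anti hUN ht)
  have hy1 : G.bd (y + γ0) = pt v0 + pt t := by
    rw [Gph.bd_add, hy, hγ0]
    have h1 : (pt v0 + pt ty + (pt ty + pt t) : V → ZMod 2) = pt v0 + pt t + (pt ty + pt ty) := by
      abel
    rw [h1, add_self2, add_zero]
  have hiy1 : ∀ e ∈ incT G Q U, (iota (y + γ0) : TE V E Q → ZMod 2) e = iota y e := by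
    intro e he
    rw [iota_add, Pi.add_apply, iota_eq_zero G hγ0' e he, add_zero]
  -- (3)
  have hex : ∀ i, ∃ S : Finset (FI E Q), i < n → S.card ≤ (Ls i).card ∧
      (∀ s ∈ S, s.1 ∉ G.inc (US G Ls i)) ∧
      (∀ s ∈ S, G.src s.1 ∈ Nb G Q (Ls i) ∧ G.tgt s.1 ∈ Nb G Q (Ls i)) ∧
      ∃ z : TE V E Q → ZMod 2, (∀ e ∈ incT G Q (US G Ls i), z e = iota y e) ∧
        Match G (Cs i) (α + Pth (G.tall Q) a z) ∧
        ∀ e ∈ Ls i, Fs G S e = z e + iota (y + γ0) e := by
    intro i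
    by_cases hi : i < n
    · obtain ⟨hC, hP, _, hL, hLne⟩ := hst i hi
      obtain ⟨z, ti, hz1, hz2, hz3, hz4⟩ := hP
      set K : Finset V := US G Ls i ∪ plc G Q (cov (G.tall Q) a (Cs i).1) with hK
      have hKN : K ⊆ N := by
        apply Finset.union_subset
        · exact (hUi i hi.le).trans hUN
        · refine (plc_cov_subset G a _).trans ?_
          intro v hv
          exact Finset.mem_union_right _ (Finset.mem_biUnion.2 ⟨i, Finset.mem_range.2 hi, hv⟩)
      have hKcard : K.card ≤ Fr.m := (Finset.card_le_card hKN).trans hNcard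
      obtain ⟨γ, hγ, hγ'⟩ := Fr.conn K ti t hKcard hz3 (Fr.anti hKN ht)
      have hLcov : Ls i ⊆ cov (G.tall Q) a (Cs i).1 := by
        intro e he
        exact Finset.mem_filter.2 ⟨Finset.mem_univ _, ((hL e).1 he).1⟩
      have hd : (G.tall Q).bd (z + iota (y + γ0) + iota γ) = 0 := by
        rw [Gph.bd_add, Gph.bd_add, hz2, bd_iota_path G _ _ _ hy1, bd_iota_path G _ _ _ hγ]
        have h1 : (pt (v0, 0) + pt (ti, 0) + (pt (v0, 0) + pt (t, 0)) + (pt (ti, 0) + pt (t, 0)) :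
            TV V Q → ZMod 2) = (pt (v0, 0) + pt (v0, 0)) + (pt (ti, 0) + pt (ti, 0)) +
              (pt (t, 0) + pt (t, 0)) := by abel
        rw [h1, add_self2 (pt (v0, 0) : TV V Q → ZMod 2), add_self2 (pt (ti, 0) : TV V Q → ZMod 2),
          add_self2 (pt (t, 0) : TV V Q → ZMod 2), add_zero, add_zero]
      have hd0 : ∀ x ∈ incT G Q (US G Ls i),
          (z + iota (y + γ0) + iota γ : TE V E Q → ZMod 2) x = 0 := by
        intro x hx
        rw [Pi.add_apply, Pi.add_apply, hz1 x hx, hiy1 x (incT_mono G (hUi i hi.le) hx),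
          iota_eq_zero G hγ' x (incT_mono G Finset.subset_union_left hx), add_zero]
        exact CharTwo.add_self_eq_zero _
      have hLQ : (Ls i).card ≤ Q := by
        refine (Finset.card_le_card hLcov).trans ((card_cov (G.tall Q) (by omega)
          (deg_tall G hdeg) a _).trans ?_)
        exact (Nat.mul_le_mul_left _ (h𝒞 _ hC)).trans hQ
      obtain ⟨S, hS1, hS2, hS3, hS4⟩ := closing G _ hd (US G Ls i) hd0 (Ls i) hLQ
      refine ⟨S, fun _ => ⟨hS1, hS3, hS4, z, hz1, hz4, ?_⟩⟩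
      intro e he
      rw [hS2 e he, Pi.add_apply, Pi.add_apply, iota_eq_zero G hγ' e, add_zero]
      exact incT_mono G ((plc_mono G hLcov).trans Finset.subset_union_right) (mem_incT_plc G he)
    · exact ⟨∅, fun h => absurd h hi⟩
  choose Ss hSs using hex
  refine ⟨t, Ss, ⟨Fr.anti hUN ht, ?_⟩, ?_⟩
  · intro i hi
    obtain ⟨h1, h2, h3, _⟩ := hSs i hi
    obtain ⟨_, _, _, hL, hLne⟩ := hst i hi
    exact ⟨hLne, fun e he => ((hL e).1 he).2, h1, h2, h3⟩
  · intro yh hyh hyh' i hi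
    obtain ⟨_, _, _, z, hz1, hz4, hz5⟩ := hSs i hi
    obtain ⟨hC, hP, hmin, hL, hLne⟩ := hst i hi
    -- the chain `x_i`
    set x : TE V E Q → ZMod 2 := iota yh + ∑ l ∈ range n, Fs G (Ss l) +
      ∑ l ∈ range i, Fs G (Ss l) with hx
    have hβ : α + Pth (G.tall Q) a (iota yh + ∑ l ∈ range n, Fs G (Ss l)) +
        Pth (G.tall Q) a (∑ l ∈ range i, Fs G (Ss l)) = α + Pth (G.tall Q) a x := by
      rw [add_assoc, ← Pth_add]
    have hxe : ∀ e, x e = iota yh e + ∑ l ∈ Ico i n, Fs G (Ss l) e := by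
      intro e
      have h1 : ∑ l ∈ range n, Fs G (Ss l) = ∑ l ∈ range i, Fs G (Ss l) +
          ∑ l ∈ Ico i n, Fs G (Ss l) := (Finset.sum_range_add_sum_Ico _ hi.le).symm
      have h2 : x = iota yh + ∑ l ∈ Ico i n, Fs G (Ss l) := by
        rw [hx, h1]
        have h3 : iota yh + (∑ l ∈ range i, Fs G (Ss l) + ∑ l ∈ Ico i n, Fs G (Ss l)) +
            ∑ l ∈ range i, Fs G (Ss l) = iota yh + ∑ l ∈ Ico i n, Fs G (Ss l) +
              (∑ l ∈ range i, Fs G (Ss l) + ∑ l ∈ range i, Fs G (Ss l)) := by abel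
        rw [h3, add_self2, add_zero]
      rw [h2, Pi.add_apply, Finset.sum_apply]
    have hx1 : ∀ e ∈ incT G Q (US G Ls i), x e = iota y e := by
      intro e he
      rw [hxe, Finset.sum_eq_zero, add_zero]
      · exact (iota_agree G hyh' e (incT_mono G (hUi i hi.le) he)).symm
      · intro l hl
        rw [Finset.mem_Ico] at hl
        exact Fs_eq_zero G (Ss l) (US G Ls l) (hSs l hl.2).2.1 e
          (incT_mono G (US_mono Ls hl.1) he)
    have hx2 : ∀ e ∈ Ls i, x e = z e := by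
      intro e he
      have he1 : e ∈ incT G Q (US G Ls (i + 1)) := by
        refine incT_mono G ?_ (mem_incT_plc G he)
        refine (plc_subset_Nb G _).trans ?_
        intro v hv
        exact Finset.mem_biUnion.2 ⟨i, Finset.mem_range.2 (Nat.lt_succ_self i), hv⟩
      have heU : e ∈ incT G Q U := incT_mono G (hUi (i + 1) hi) he1
      rw [hxe, Finset.sum_eq_single_of_mem i (Finset.mem_Ico.2 ⟨le_rfl, hi⟩), hz5 e he,
        hiy1 e heU, ← iota_agree G hyh' e heU]
      · have h1 : iota y e + (z e + iota y e) = z e + (iota y e + iota y e) := by abel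
        rw [h1, CharTwo.add_self_eq_zero, add_zero]
      · intro l hl hne
        rw [Finset.mem_Ico] at hl
        exact Fs_eq_zero G (Ss l) (US G Ls l) (hSs l hl.2).2.1 e
          (incT_mono G (US_mono Ls (by omega : i + 1 ≤ l)) he1)
    refine ⟨Cs i, ⟨hC, ?_, ?_, ?_⟩, fun e he => ((hL e).1 he).1⟩
    · apply Fr.anti _ ht
      apply Finset.union_subset hUN
      intro v hv
      exact Finset.mem_union_right _ (Finset.mem_biUnion.2 ⟨i, Finset.mem_range.2 hi, hv⟩)
    · rw [hβ]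
      intro u hu
      rw [← hz4 u hu, Pi.add_apply, Pi.add_apply]
      congr 1
      unfold Pth
      by_cases hlive : live (G.tall Q) a u
      · rw [if_pos hlive, if_pos hlive]
        by_cases hue : u.e ∈ incT G Q (US G Ls i)
        · rw [hx1 _ hue, hz1 _ hue]
        · exact hx2 _ ((hL u.e).2 ⟨⟨u, rfl, hlive, hu⟩, hue⟩)
      · rw [if_neg hlive, if_neg hlive]
    · intro C' hC' hP' hM'
      rw [hβ] at hM'
      by_contra hcon
      push Not at hcon
      apply hmin C' hC' hcon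
      refine ⟨x, t, hx1, ?_, ?_, hM'⟩
      · rw [hx, Gph.bd_add, Gph.bd_add, bd_iota_path G _ _ _ hyh, Gph.bd_sum, Gph.bd_sum,
          Finset.sum_eq_zero fun l _ => bd_Fs G (Ss l), Finset.sum_eq_zero fun l _ => bd_Fs G (Ss l),
          add_zero, add_zero]
      · apply Fr.anti _ hP'
        apply Finset.union_subset
        · exact (hUi i hi.le).trans Finset.subset_union_left
        · exact (plc_cov_subset G a _).trans Finset.subset_union_right

end

end FrC
end

section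

/-!
The new valuation obtained from a valuation on the blow-up.
-/

set_option linter.unusedSectionVars false

namespace FrC

open Finset Fr56
open scoped Classical

section
variable {X : Type}

/-- the type of a formula with respect to its outermost binary connective: `true` for disjunctions
and negated conjunctions, `false` for conjunctions and negated disjunctions -/
def sgn : Fm X → Bool
  | .var _ => true
  | .neg f => !(sgn f)
  | .or _ _ => true
  | .and _ _ => false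

/-- the signed old formulas from which a new formula is built: `f` has the value `sgn f` iff some
`g` with `(σ, g)` in the list has the value `σ` -/
noncomputable def lst (Φ' : Set (Fm X)) : Fm X → List (Bool × Fm X)
  | .var _ => []
  | .neg f => lst Φ' f
  | .or f g => (if f ∈ Φ' then [(true, f)] else lst Φ' f) ++ (if g ∈ Φ' then [(true, g)] else lst Φ' g)
  | .and f g =>
    (if f ∈ Φ' then [(false, f)] else lst Φ' f) ++ (if g ∈ Φ' then [(false, g)] else lst Φ' g)

/-- `Φ` consists of the old formulas in `Φ'` and of disjunctions (conjunctions) of these, up to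
negations -/
structure NewCls (Φ' Φ : Set (Fm X)) : Prop where
  sub : Φ' ⊆ Φ
  neg_old : ∀ f, f.neg ∈ Φ → (f.neg ∈ Φ' ↔ f ∈ Φ')
  var_old : ∀ x, .var x ∈ Φ → .var x ∈ Φ'
  or_old : ∀ f g, f.or g ∈ Φ' → f ∈ Φ' ∧ g ∈ Φ'
  and_old : ∀ f g, f.and g ∈ Φ' → f ∈ Φ' ∧ g ∈ Φ'
  or_new : ∀ f g, f.or g ∈ Φ → f.or g ∉ Φ' → (f ∈ Φ' ∨ sgn f = true) ∧ (g ∈ Φ' ∨ sgn g = true)
  and_new : ∀ f g, f.and g ∈ Φ → f.and g ∉ Φ' →
    (f ∈ Φ' ∨ sgn f = false) ∧ (g ∈ Φ' ∨ sgn g = false)

end

section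
variable {V E : Type} [Fintype V] [Fintype E] [DecidableEq V] [DecidableEq E]
  {G : Gph V E} {Fr : Frame G} {v0 : V} {Q D : ℕ} {hQ : 0 < Q} {hD : 0 < D} {w0 : A D}
  {X : Type} {Φ' : Set (Fm X)} {cap' : ℕ}
  (S' : Valn (Fr.blow Q D hQ hD) (HV.cen (v0, 0) w0) X Φ' cap')

/-- certificates of size at most `k` for one of the signed formulas in the list -/
def certs (k : ℕ) (L : List (Bool × Fm X)) : Set (Cert V E Q D) :=
  {C | ∃ p ∈ L, C.1.card ≤ k ∧ (Fr.blow Q D hQ hD).Ok (HV.cen (v0, 0) w0) C.1 C.2 ∧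
    S'.Q p.2 p.1 C.1 C.2}

/-- the new valuation -/
def nQ (α : Xt (TE V E Q) D → ZMod 2) (a : TV V Q → A D) (k : ℕ) (f : Fm X) (b : Bool)
    (U : Finset V) (y : E → ZMod 2) : Prop :=
  if f ∈ Φ' then QC (G := G) α a (certs S' k [(b, f)]) U y
  else if b = sgn f then QC (G := G) α a (certs S' k (lst Φ' f)) U y
  else QN Fr v0 α a (certs S' k (lst Φ' f)) U y

theorem certs_card (k : ℕ) (L : List (Bool × Fm X)) : ∀ C ∈ certs S' k L, C.1.card ≤ k := by
  rintro C ⟨p, _, h, _⟩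
  exact h

theorem certs_mono (k : ℕ) {L L' : List (Bool × Fm X)} (h : ∀ p ∈ L, p ∈ L') :
    certs S' k L ⊆ certs S' k L' := by
  rintro C ⟨p, hp, h'⟩
  exact ⟨p, h p hp, h'⟩

variable {α : Xt (TE V E Q) D → ZMod 2} {a : TV V Q → A D}
  (hα : ((G.tall Q).blow D).bd α = pt (HV.cen (v0, 0) w0) + pt (ctr a (v0, 0)))

end

end FrC
end

section

section

/-!
The decision tree of a formula given by certificates.
-/

set_option linter.unusedSectionVars false

namespace FrC

open Finset Fr56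
open scoped Classical

section
variable {V E : Type} [Fintype V] [Fintype E] [DecidableEq V] [DecidableEq E]
  {G : Gph V E} (Fr : Frame G) (v0 : V) {Q D : ℕ} (α : Xt (TE V E Q) D → ZMod 2)
  (a : TV V Q → A D)

private theorem exists_first {𝒞 : Set (Cert V E Q D)} {U : Finset V} {y : E → ZMod 2}
    (hp : ∃ C ∈ 𝒞, Poss Fr v0 α a C U y) :
    ∃ C ∈ 𝒞, Poss Fr v0 α a C U y ∧ ∀ C' ∈ 𝒞, idx C' < idx C → ¬ Poss Fr v0 α a C' U y := by
  have hex : ∃ i, ∃ C ∈ 𝒞, Poss Fr v0 α a C U y ∧ idx C = i := by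
    obtain ⟨C, hC, hP⟩ := hp
    exact ⟨idx C, C, hC, hP, rfl⟩
  obtain ⟨C, hC, hP, hi⟩ := Nat.find_spec hex
  refine ⟨C, hC, hP, fun C' hC' hlt hP' => ?_⟩
  rw [hi] at hlt
  exact Nat.find_min hex hlt ⟨C', hC', hP', rfl⟩

private theorem US_update (Ls : ℕ → Finset (TE V E Q)) (L : Finset (TE V E Q)) {i n : ℕ}
    (h : i ≤ n) : US G (Function.update Ls n L) i = US G Ls i := by
  unfold US
  refine Finset.biUnion_congr rfl fun l hl => ?_
  have : l ≠ n := by
    have := Finset.mem_range.1 hl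
    omega
  rw [Function.update_of_ne this]

private theorem US_update_succ (Ls : ℕ → Finset (TE V E Q)) (L : Finset (TE V E Q)) (n : ℕ) :
    US G (Function.update Ls n L) (n + 1) = US G Ls n ∪ Nb G Q L := by
  have h1 : US G (Function.update Ls n L) (n + 1) =
      Nb G Q (Function.update Ls n L n) ∪ US G (Function.update Ls n L) n := by
    unfold US
    rw [Finset.range_add_one, Finset.biUnion_insert]
  rw [h1, US_update Ls L le_rfl, Function.update_self, Finset.union_comm]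

private theorem tot_update_succ (Ls : ℕ → Finset (TE V E Q)) (L : Finset (TE V E Q)) (n : ℕ) :
    tot (Function.update Ls n L) (n + 1) = tot Ls n + L.card := by
  unfold tot
  rw [Finset.sum_range_succ, Function.update_self]
  congr 1
  refine Finset.sum_congr rfl fun l hl => ?_
  have : l ≠ n := by
    have := Finset.mem_range.1 hl
    omega
  rw [Function.update_of_ne this]

private theorem dec_aux {Δ k R : ℕ} (hdeg : G.Deg Δ) {𝒞 : Set (Cert V E Q D)}
    (h𝒞 : ∀ C ∈ 𝒞, C.1.card ≤ k) (hno : NoLong Fr v0 α a 𝒞 R (R + (Δ + 2) * k))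
    (hm : 2 * (1 + Δ) * (R + (Δ + 2) * k) ≤ Fr.m) (σ : Bool) :
    ∀ (m n : ℕ) (Cs : ℕ → Cert V E Q D) (Ls : ℕ → Finset (TE V E Q)) (y : E → ZMod 2),
      R - tot Ls n ≤ m → (∀ i < n, Step Fr v0 α a 𝒞 (US G Ls i) y (Cs i) (Ls i)) →
      Fr.Ok v0 (US G Ls n) y → tot Ls n < R →
      Dec Fr v0 (fun b U y => if b = σ then QC (G := G) α a 𝒞 U y else QN Fr v0 α a 𝒞 U y)
        (2 * (1 + Δ) * (R - tot Ls n)) (US G Ls n) y := by
  intro m
  induction m with
  | zero =>
    intro n Cs Ls y h0 _ _ hlt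
    omega
  | succ m ih =>
    intro n Cs Ls y hle hst hok hlt
    set U := US G Ls n with hU
    by_cases hp : ∃ C ∈ 𝒞, Poss Fr v0 α a C U y
    swap
    · refine Dec.leaf (!σ) ?_
      have hne : (!σ) ≠ σ := by cases σ <;> simp
      change if (!σ) = σ then QC (G := G) α a 𝒞 U y else QN Fr v0 α a 𝒞 U y
      rw [if_neg hne]
      intro C hC hP
      exact hp ⟨C, hC, hP⟩
    obtain ⟨C, hC, hP, hfirst⟩ := exists_first Fr v0 α a hp
    set L : Finset (TE V E Q) := (cov (G.tall Q) a C.1).filter (fun e => e ∉ incT G Q U) with hL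
    have hmem : ∀ e, e ∈ L ↔ Tch (G.tall Q) a C.1 e ∧ e ∉ incT G Q U := by
      intro e
      rw [hL, Finset.mem_filter, cov, Finset.mem_filter]
      constructor
      · rintro ⟨⟨_, h1⟩, h2⟩
        exact ⟨h1, h2⟩
      · rintro ⟨h1, h2⟩
        exact ⟨⟨Finset.mem_univ _, h1⟩, h2⟩
    rcases Finset.eq_empty_or_nonempty L with hL0 | hLne
    · -- all live edges at the certificate are known
      have hall : ∀ e, Tch (G.tall Q) a C.1 e → e ∈ incT G Q U := by
        intro e he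
        by_contra hcon
        have := (hmem e).2 ⟨he, hcon⟩
        rw [hL0] at this
        exact absurd this (Finset.notMem_empty e)
      refine Dec.leaf σ ?_
      rw [if_pos rfl]
      obtain ⟨z, t, hz, _, _, hmatch⟩ := hP
      refine ⟨C, hC, ?_, ?_⟩
      · intro u hu
        rw [← hmatch u hu]
        simp only [Pi.add_apply, Pth]
        by_cases hlive : live (G.tall Q) a u
        · rw [if_pos hlive, if_pos hlive, hz u.e (hall u.e ⟨u, rfl, hlive, hu⟩)]
        · rw [if_neg hlive, if_neg hlive]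
      · intro e he
        exact (inl_mem_incT G).1 (hall _ he)
    · -- ask for the neighbourhoods of the new live edges
      have hLcard : L.card ≤ (Δ + 2) * k := by
        calc L.card ≤ (cov (G.tall Q) a C.1).card := Finset.card_filter_le _ _
          _ ≤ (Δ + 2) * C.1.card :=
            card_cov (G.tall Q) (by omega) (deg_tall G hdeg) a C.1
          _ ≤ (Δ + 2) * k := Nat.mul_le_mul_left _ (h𝒞 C hC)
      have hLpos : 0 < L.card := Finset.card_pos.2 hLne
      set Cs' := Function.update Cs n C with hCs'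
      set Ls' := Function.update Ls n L with hLs'
      have hUS : US G Ls' (n + 1) = U ∪ Nb G Q L := US_update_succ Ls L n
      have htot : tot Ls' (n + 1) = tot Ls n + L.card := tot_update_succ Ls L n
      -- the steps at a state that agrees with `y` near `U`
      have hsteps : ∀ y' : E → ZMod 2, G.Agree U y y' →
          ∀ i < n + 1, Step Fr v0 α a 𝒞 (US G Ls' i) y' (Cs' i) (Ls' i) := by
        intro y' hyy' i hi
        rcases Nat.lt_or_ge i n with h | h
        · rw [hLs', US_update Ls L h.le, hCs', Function.update_of_ne h.ne,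
            Function.update_of_ne h.ne]
          exact Step_congr Fr v0 α a (hst i h) (hyy'.mono (US_mono Ls h.le))
        · have hin : i = n := by omega
          subst hin
          rw [hLs', US_update Ls L le_rfl, hCs', Function.update_self, Function.update_self]
          exact Step_congr Fr v0 α a ⟨hC, hP, hfirst, hmem, hLne⟩ hyy'
      -- the number of edges stays small
      have hcardU : (U ∪ Nb G Q L).card ≤ 2 * (1 + Δ) * tot Ls' (n + 1) := by
        rw [← hUS]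
        exact card_US hdeg Ls' (n + 1)
      have htot' : tot Ls' (n + 1) < R := by
        by_contra hcon
        push Not at hcon
        have hlt' : tot Ls' (n + 1) < R + (Δ + 2) * k := by
          rw [htot]; omega
        have hUm : (U ∪ Nb G Q L).card ≤ Fr.m :=
          hcardU.trans ((Nat.mul_le_mul_left _ hlt'.le).trans hm)
        obtain ⟨y', hyy', hok'⟩ := Fr.move Finset.subset_union_left hUm hok
        rw [← hUS] at hok'
        exact hno (n + 1) Cs' Ls' y' (hsteps y' hyy') hok' hcon hlt'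
      have hbud : 2 * (1 + Δ) * (R - tot Ls n) =
          2 * (1 + Δ) * L.card + 2 * (1 + Δ) * (R - tot Ls' (n + 1)) := by
        rw [← Nat.mul_add, htot]
        congr 1
        omega
      rw [hbud]
      refine Dec.node (Nb G Q L) (card_Nb G hdeg L) fun y' hyy' hok' => ?_
      rw [← hUS] at hok' ⊢
      exact ih (n + 1) Cs' Ls' y' (by omega) (hsteps y' hyy') hok' htot'

/-- the decision tree that looks for the first possible certificate -/
theorem dec_of_noLong {Δ k R : ℕ} (hdeg : G.Deg Δ) {𝒞 : Set (Cert V E Q D)}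
    (h𝒞 : ∀ C ∈ 𝒞, C.1.card ≤ k) (hno : NoLong Fr v0 α a 𝒞 R (R + (Δ + 2) * k)) (hR : 0 < R)
    (hm : 2 * (1 + Δ) * (R + (Δ + 2) * k) ≤ Fr.m)
    (σ : Bool) (y : E → ZMod 2) (hok : Fr.Ok v0 ∅ y) :
    Dec Fr v0 (fun b U y => if b = σ then QC (G := G) α a 𝒞 U y else QN Fr v0 α a 𝒞 U y)
      (2 * (1 + Δ) * R) ∅ y := by
  set Ls : ℕ → Finset (TE V E Q) := fun _ => ∅ with hLs
  have hU0 : US G Ls 0 = ∅ := by simp [US]
  have ht0 : tot Ls 0 = 0 := by simp [tot]
  have h := dec_aux Fr v0 α a hdeg h𝒞 hno hm σ R 0 (fun _ => (∅, 0)) Ls y (by omega)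
    (fun i hi => absurd hi (Nat.not_lt_zero i)) (by rw [hU0]; exact hok) (by omega)
  rw [hU0, ht0, Nat.sub_zero] at h
  exact h

end

end FrC
end

section

/-!
The new valuation: laws.
-/

set_option linter.unusedSectionVars false

namespace FrC

open Finset Fr56
open scoped Classical

section
variable {V E : Type} [Fintype V] [Fintype E] [DecidableEq V] [DecidableEq E]
  {G : Gph V E} {Fr : Frame G} {v0 : V} {Q D : ℕ} {hQ : 0 < Q} {hD : 0 < D} {w0 : A D}
  {X : Type} {Φ' : Set (Fm X)} {cap' : ℕ}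
  (S' : Valn (Fr.blow Q D hQ hD) (HV.cen (v0, 0) w0) X Φ' cap')
  {α : Xt (TE V E Q) D → ZMod 2} {a : TV V Q → A D}

variable (hα : ((G.tall Q).blow D).bd α = pt (HV.cen (v0, 0) w0) + pt (ctr a (v0, 0)))

omit [Fintype V] in
private theorem tch_union {W1 W2 : Finset (HV (TV V Q) (TE V E Q) D)} {e : TE V E Q}
    (h : Tch (G.tall Q) a (W1 ∪ W2) e) : Tch (G.tall Q) a W1 e ∨ Tch (G.tall Q) a W2 e := by
  obtain ⟨x, hx, hl, hi⟩ := h
  rcases hi with hi | hi
  · rcases Finset.mem_union.1 hi with hi | hi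
    · exact Or.inl ⟨x, hx, hl, Or.inl hi⟩
    · exact Or.inr ⟨x, hx, hl, Or.inl hi⟩
  · rcases Finset.mem_union.1 hi with hi | hi
    · exact Or.inl ⟨x, hx, hl, Or.inr hi⟩
    · exact Or.inr ⟨x, hx, hl, Or.inr hi⟩

private theorem cov_union {W1 W2 : Finset (HV (TV V Q) (TE V E Q) D)} {U : Finset V}
    (h1 : ∀ e : E, Tch (G.tall Q) a W1 (Sum.inl (e, 0)) → e ∈ G.inc U)
    (h2 : ∀ e : E, Tch (G.tall Q) a W2 (Sum.inl (e, 0)) → e ∈ G.inc U) :
    ∀ e : E, Tch (G.tall Q) a (W1 ∪ W2) (Sum.inl (e, 0)) → e ∈ G.inc U := by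
  intro e he
  rcases tch_union he with h | h
  · exact h1 e h
  · exact h2 e h

private theorem QC_append {k : ℕ} {L L' : List (Bool × Fm X)} {U : Finset V} {y : E → ZMod 2} :
    QC (G := G) α a (certs S' k (L ++ L')) U y ↔
      QC (G := G) α a (certs S' k L) U y ∨ QC (G := G) α a (certs S' k L') U y := by
  constructor
  · rintro ⟨C, ⟨p, hp, h⟩, hC⟩
    rcases List.mem_append.1 hp with hp | hp
    · exact Or.inl ⟨C, ⟨p, hp, h⟩, hC⟩
    · exact Or.inr ⟨C, ⟨p, hp, h⟩, hC⟩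
  · rintro (⟨C, ⟨p, hp, h⟩, hC⟩ | ⟨C, ⟨p, hp, h⟩, hC⟩)
    · exact ⟨C, ⟨p, List.mem_append_left _ hp, h⟩, hC⟩
    · exact ⟨C, ⟨p, List.mem_append_right _ hp, h⟩, hC⟩

private theorem nQ_old {k : ℕ} {f : Fm X} (hf : f ∈ Φ') {b : Bool} {U : Finset V}
    {y : E → ZMod 2} :
    nQ S' α a k f b U y ↔ QC (G := G) α a (certs S' k [(b, f)]) U y := by
  unfold nQ
  rw [if_pos hf]

private theorem nQ_sgn {k : ℕ} {f : Fm X} (hf : f ∉ Φ') {b : Bool} (hb : b = sgn f)
    {U : Finset V} {y : E → ZMod 2} :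
    nQ S' α a k f b U y ↔ QC (G := G) α a (certs S' k (lst Φ' f)) U y := by
  unfold nQ
  rw [if_neg hf, if_pos hb]

private theorem nQ_nsgn {k : ℕ} {f : Fm X} (hf : f ∉ Φ') {b : Bool} (hb : b ≠ sgn f)
    {U : Finset V} {y : E → ZMod 2} :
    nQ S' α a k f b U y ↔ QN Fr v0 α a (certs S' k (lst Φ' f)) U y := by
  unfold nQ
  rw [if_neg hf, if_neg hb]

private theorem nQ_part {k : ℕ} {f : Fm X} {σ : Bool} (h : f ∈ Φ' ∨ sgn f = σ)
    {U : Finset V} {y : E → ZMod 2} :
    nQ S' α a k f σ U y ↔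
      QC (G := G) α a (certs S' k (if f ∈ Φ' then [(σ, f)] else lst Φ' f)) U y := by
  by_cases hf : f ∈ Φ'
  · rw [if_pos hf, nQ_old S' hf]
  · rw [if_neg hf, nQ_sgn S' hf (h.resolve_left hf).symm]

private theorem num_aux {u Δ k m : ℕ} (hc : u + (2 * Δ + 10) * k ≤ m) :
    u + 2 * (Δ + 2) * k ≤ m := by
  have : 2 * (Δ + 2) * k ≤ (2 * Δ + 10) * k := Nat.mul_le_mul_right _ (by omega)
  omega

private theorem num_aux' {u Δ k m : ℕ} (hc : u + (2 * Δ + 10) * k ≤ m) :
    u + 10 * k ≤ m := by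
  have : 10 * k ≤ (2 * Δ + 10) * k := Nat.mul_le_mul_right _ (by omega)
  omega

include hα in
/-- a satisfied certificate for an old formula gives its value in the blow-up -/
theorem old_down {k : ℕ} (hk : k ≤ cap') {f : Fm X} (hf : f ∈ Φ') {b : Bool} {U : Finset V}
    {y : E → ZMod 2} (hc : U.card + 2 * k ≤ Fr.m) (hok : Fr.Ok v0 U y)
    (h : QC (G := G) α a (certs S' k [(b, f)]) U y) :
    ∃ W : Finset (HV (TV V Q) (TE V E Q) D), W.card ≤ k ∧
      (Fr.blow Q D hQ hD).Ok (HV.cen (v0, 0) w0) W (α + Pth (G.tall Q) a (iota y)) ∧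
      S'.Q f b W (α + Pth (G.tall Q) a (iota y)) ∧
      ∀ e : E, Tch (G.tall Q) a W (Sum.inl (e, 0)) → e ∈ G.inc U := by
  obtain ⟨⟨W, p⟩, ⟨q, hq, hWk, hWok, hWQ⟩, hm, hcov⟩ := h
  simp only [List.mem_singleton] at hq
  subst hq
  dsimp only at hWk hWok hWQ hcov
  have hok' : (Fr.blow Q D hQ hD).Ok (HV.cen (v0, 0) w0) W (α + Pth (G.tall Q) a (iota y)) :=
    ok_up Fr v0 α a hQ hD hα hcov (by omega) hok
  refine ⟨W, hWk, hok', ?_, hcov⟩
  exact S'.mono f hf b W W p _ (Finset.Subset.refl _) (hWk.trans hk) hWQ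
    (fun e he => (hm e he).symm) hok'

include hα in
/-- a value in the blow-up gives a satisfied certificate -/
theorem old_up {k : ℕ} {L : List (Bool × Fm X)} {f : Fm X} {b : Bool}
    (hbf : (b, f) ∈ L) {U : Finset V} {y : E → ZMod 2} {W : Finset (HV (TV V Q) (TE V E Q) D)}
    (hW : W.card ≤ k) (hc : U.card + 2 * k ≤ Fr.m) (hok : Fr.Ok v0 U y)
    (h : S'.Q f b W (α + Pth (G.tall Q) a (iota y)))
    (hcov : ∀ e : E, Tch (G.tall Q) a W (Sum.inl (e, 0)) → e ∈ G.inc U) :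
    QC (G := G) α a (certs S' k L) U y := by
  have hok' : (Fr.blow Q D hQ hD).Ok (HV.cen (v0, 0) w0) W (α + Pth (G.tall Q) a (iota y)) :=
    ok_up Fr v0 α a hQ hD hα hcov (by omega) hok
  exact ⟨(W, α + Pth (G.tall Q) a (iota y)), ⟨(b, f), hbf, hW, hok', h⟩, fun _ _ => rfl, hcov⟩

theorem nQ_mono {k : ℕ} (f : Fm X) (b : Bool) (U U' : Finset V) (y y' : E → ZMod 2)
    (hU : U ⊆ U') (h : nQ S' α a k f b U y) (hy : G.Agree U y y') : nQ S' α a k f b U' y' := by
  unfold nQ at h ⊢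
  split_ifs at h ⊢ with h1 h2
  · exact QC_mono α a hU h hy
  · exact QC_mono α a hU h hy
  · exact QN_mono Fr v0 α a hU h hy

include hα in
private theorem two_old {k : ℕ} (hk : 3 * k ≤ cap') {f g : Fm X} (hf : f ∈ Φ') (hg : g ∈ Φ')
    {b b' : Bool} {U : Finset V} {y : E → ZMod 2} (hc : U.card + 10 * k ≤ Fr.m)
    (hok : Fr.Ok v0 U y) (h : nQ S' α a k f b U y) (h' : nQ S' α a k g b' U y) :
    ∃ W : Finset (HV (TV V Q) (TE V E Q) D), W.card ≤ 2 * k ∧
      (Fr.blow Q D hQ hD).Ok (HV.cen (v0, 0) w0) W (α + Pth (G.tall Q) a (iota y)) ∧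
      S'.Q f b W (α + Pth (G.tall Q) a (iota y)) ∧ S'.Q g b' W (α + Pth (G.tall Q) a (iota y)) ∧
      ∀ e : E, Tch (G.tall Q) a W (Sum.inl (e, 0)) → e ∈ G.inc U := by
  obtain ⟨W1, hW1, ok1, q1, c1⟩ := old_down S' hα (by omega) hf (by omega) hok
    ((nQ_old S' hf).1 h)
  obtain ⟨W2, hW2, ok2, q2, c2⟩ := old_down S' hα (by omega) hg (by omega) hok
    ((nQ_old S' hg).1 h')
  have hcard : (W1 ∪ W2).card ≤ 2 * k := (Finset.card_union_le _ _).trans (by omega)
  have hcov := cov_union c1 c2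
  have ok3 : (Fr.blow Q D hQ hD).Ok (HV.cen (v0, 0) w0) (W1 ∪ W2)
      (α + Pth (G.tall Q) a (iota y)) := ok_up Fr v0 α a hQ hD hα hcov (by omega) hok
  refine ⟨W1 ∪ W2, hcard, ok3, ?_, ?_, hcov⟩
  · exact S'.mono f hf b W1 _ _ _ Finset.subset_union_left (by omega) q1
      (fun _ _ => rfl) ok3
  · exact S'.mono g hg b' W2 _ _ _ Finset.subset_union_right (by omega) q2
      (fun _ _ => rfl) ok3

include hα in
private theorem three_old {k : ℕ} (hk : 3 * k ≤ cap') {f g p : Fm X} (hf : f ∈ Φ') (hg : g ∈ Φ')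
    (hp : p ∈ Φ')
    {b b' b'' : Bool} {U : Finset V} {y : E → ZMod 2} (hc : U.card + 10 * k ≤ Fr.m)
    (hok : Fr.Ok v0 U y) (h : nQ S' α a k f b U y) (h' : nQ S' α a k g b' U y)
    (h'' : nQ S' α a k p b'' U y) :
    ∃ W : Finset (HV (TV V Q) (TE V E Q) D), W.card ≤ 3 * k ∧
      (Fr.blow Q D hQ hD).Ok (HV.cen (v0, 0) w0) W (α + Pth (G.tall Q) a (iota y)) ∧
      S'.Q f b W (α + Pth (G.tall Q) a (iota y)) ∧ S'.Q g b' W (α + Pth (G.tall Q) a (iota y)) ∧
      S'.Q p b'' W (α + Pth (G.tall Q) a (iota y)) := by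
  obtain ⟨W1, hW1, ok1, q1, q1', c1⟩ := two_old S' hα hk hf hg hc hok h h'
  obtain ⟨W2, hW2, ok2, q2, c2⟩ := old_down S' hα (by omega) hp (by omega) hok
    ((nQ_old S' hp).1 h'')
  have hcard : (W1 ∪ W2).card ≤ 3 * k := (Finset.card_union_le _ _).trans (by omega)
  have hcov := cov_union c1 c2
  have ok3 : (Fr.blow Q D hQ hD).Ok (HV.cen (v0, 0) w0) (W1 ∪ W2)
      (α + Pth (G.tall Q) a (iota y)) := ok_up Fr v0 α a hQ hD hα hcov (by omega) hok
  refine ⟨W1 ∪ W2, hcard, ok3, ?_, ?_, ?_⟩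
  · exact S'.mono f hf b W1 _ _ _ Finset.subset_union_left (by omega) q1
      (fun _ _ => rfl) ok3
  · exact S'.mono g hg b' W1 _ _ _ Finset.subset_union_left (by omega) q1'
      (fun _ _ => rfl) ok3
  · exact S'.mono p hp b'' W2 _ _ _ Finset.subset_union_right (by omega) q2
      (fun _ _ => rfl) ok3

private theorem QC_QN' {Δ k : ℕ} (hdeg : G.Deg Δ) {L : List (Bool × Fm X)}
    {U : Finset V} {y : E → ZMod 2} (hc : U.card + (2 * Δ + 10) * k ≤ Fr.m) (hok : Fr.Ok v0 U y)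
    (h : QC (G := G) α a (certs S' k L) U y) (h' : QN Fr v0 α a (certs S' k L) U y) : False :=
  QC_QN Fr v0 α a hdeg (certs_card S' k L) (num_aux hc) hok h h'

include hα in
theorem nQ_uniq {Δ k : ℕ} (hdeg : G.Deg Δ) (hk : 3 * k ≤ cap') (f : Fm X) (U : Finset V)
    (y : E → ZMod 2) (hc : U.card + (2 * Δ + 10) * k ≤ Fr.m) (hok : Fr.Ok v0 U y)
    (h : nQ S' α a k f true U y) (h' : nQ S' α a k f false U y) : False := by
  by_cases hf : f ∈ Φ'
  · obtain ⟨W, hW, ok1, q1, q2, -⟩ := two_old S' hα hk hf hf (num_aux' hc) hok h h'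
    exact S'.uniq f hf W _ (by omega) ok1 q1 q2
  · rcases hs : sgn f with _ | _
    · exact QC_QN' S' hdeg hc hok ((nQ_sgn S' hf hs.symm).1 h')
        ((nQ_nsgn S' hf (by rw [hs]; decide)).1 h)
    · exact QC_QN' S' hdeg hc hok ((nQ_sgn S' hf hs.symm).1 h)
        ((nQ_nsgn S' hf (by rw [hs]; decide)).1 h')

include hα in
private theorem nQ_eq {Δ k : ℕ} (hdeg : G.Deg Δ) (hk : 3 * k ≤ cap') {f : Fm X} {U : Finset V}
    {y : E → ZMod 2} (hc : U.card + (2 * Δ + 10) * k ≤ Fr.m) (hok : Fr.Ok v0 U y) {b b' : Bool}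
    (h : nQ S' α a k f b U y) (h' : nQ S' α a k f b' U y) : b = b' := by
  rcases b with _ | _ <;> rcases b' with _ | _
  · rfl
  · exact (nQ_uniq S' hα hdeg hk f U y hc hok h' h).elim
  · exact (nQ_uniq S' hα hdeg hk f U y hc hok h h').elim
  · rfl

include hα in
theorem nQ_neg {Φ : Set (Fm X)} (hΦ : NewCls Φ' Φ) {Δ k : ℕ} (hdeg : G.Deg Δ)
    (hk : 3 * k ≤ cap') (f : Fm X) (hf' : f.neg ∈ Φ) (b b' : Bool) (U : Finset V)
    (y : E → ZMod 2) (hc : U.card + (2 * Δ + 10) * k ≤ Fr.m) (hok : Fr.Ok v0 U y)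
    (h : nQ S' α a k f b U y) (h' : nQ S' α a k f.neg b' U y) : b' = !b := by
  by_cases hf : f ∈ Φ'
  · have hn : f.neg ∈ Φ' := (hΦ.neg_old f hf').2 hf
    obtain ⟨W, hW, ok1, q1, q2, -⟩ := two_old S' hα hk hf hn (num_aux' hc) hok h h'
    exact S'.neg f hf hn b b' W _ (by omega) ok1 q1 q2
  · have hn : f.neg ∉ Φ' := fun h => hf ((hΦ.neg_old f hf').1 h)
    have hs : sgn f.neg = !(sgn f) := rfl
    have hl : lst Φ' f.neg = lst Φ' f := rfl
    by_cases hb : b = sgn f
    · have h1 := (nQ_sgn S' hf hb).1 h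
      by_cases hb' : b' = sgn f.neg
      · rw [hb', hs, hb]
      · have h2 := (nQ_nsgn S' hn hb').1 h'
        rw [hl] at h2
        exact (QC_QN' S' hdeg hc hok h1 h2).elim
    · have h1 := (nQ_nsgn S' hf hb).1 h
      by_cases hb' : b' = sgn f.neg
      · have h2 := (nQ_sgn S' hn hb').1 h'
        rw [hl] at h2
        exact (QC_QN' S' hdeg hc hok h2 h1).elim
      · rw [hs] at hb'
        revert hb hb'
        cases b <;> cases b' <;> cases sgn f <;> decide

include hα in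
private theorem nQ_new {Δ k : ℕ} (hdeg : G.Deg Δ) (hk : 3 * k ≤ cap') (σ : Bool) {f g p : Fm X}
    (hp : p ∉ Φ') (hs : sgn p = σ)
    (hl : lst Φ' p = (if f ∈ Φ' then [(σ, f)] else lst Φ' f) ++
      (if g ∈ Φ' then [(σ, g)] else lst Φ' g))
    (hf : f ∈ Φ' ∨ sgn f = σ) (hg : g ∈ Φ' ∨ sgn g = σ) {b b' b'' : Bool} {U : Finset V}
    {y : E → ZMod 2} (hc : U.card + (2 * Δ + 10) * k ≤ Fr.m) (hok : Fr.Ok v0 U y)
    (h : nQ S' α a k f b U y) (h' : nQ S' α a k g b' U y)
    (h'' : nQ S' α a k p b'' U y) : (b'' = σ ∧ (b = σ ∨ b' = σ)) ∨ (b'' ≠ σ ∧ b ≠ σ ∧ b' ≠ σ) := by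
  by_cases hb : b'' = σ
  · left
    refine ⟨hb, ?_⟩
    have h1 := (nQ_sgn S' hp (hb.trans hs.symm)).1 h''
    rw [hl, QC_append, ← nQ_part S' hf, ← nQ_part S' hg] at h1
    rcases h1 with h1 | h1
    · exact Or.inl (nQ_eq S' hα hdeg hk hc hok h h1)
    · exact Or.inr (nQ_eq S' hα hdeg hk hc hok h' h1)
  · right
    have h1 := (nQ_nsgn S' hp (by rw [hs]; exact hb)).1 h''
    refine ⟨hb, ?_, ?_⟩
    · rintro rfl
      refine QC_QN' S' hdeg hc hok ?_ h1
      rw [hl, QC_append]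
      exact Or.inl ((nQ_part S' hf).1 h)
    · rintro rfl
      refine QC_QN' S' hdeg hc hok ?_ h1
      rw [hl, QC_append]
      exact Or.inr ((nQ_part S' hg).1 h')

include hα in
theorem nQ_and {Φ : Set (Fm X)} (hΦ : NewCls Φ' Φ) {Δ k : ℕ} (hdeg : G.Deg Δ)
    (hk : 3 * k ≤ cap') (f g : Fm X) (hfg : f.and g ∈ Φ) (b b' b'' : Bool) (U : Finset V)
    (y : E → ZMod 2) (hc : U.card + (2 * Δ + 10) * k ≤ Fr.m) (hok : Fr.Ok v0 U y)
    (h : nQ S' α a k f b U y) (h' : nQ S' α a k g b' U y)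
    (h'' : nQ S' α a k (f.and g) b'' U y) : b'' = (b && b') := by
  by_cases ho : f.and g ∈ Φ'
  · obtain ⟨hf, hg⟩ := hΦ.and_old f g ho
    obtain ⟨W, hW, ok1, q1, q2, q3⟩ := three_old S' hα hk hf hg ho (num_aux' hc) hok h h' h''
    exact S'.and f g hf hg ho b b' b'' W _ (by omega) ok1 q1 q2 q3
  · obtain ⟨hf, hg⟩ := hΦ.and_new f g hfg ho
    have key := nQ_new S' hα hdeg hk false ho rfl rfl hf hg hc hok h h' h''
    revert key
    cases b <;> cases b' <;> cases b'' <;> decide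

include hα in
theorem nQ_or {Φ : Set (Fm X)} (hΦ : NewCls Φ' Φ) {Δ k : ℕ} (hdeg : G.Deg Δ)
    (hk : 3 * k ≤ cap') (f g : Fm X) (hfg : f.or g ∈ Φ) (b b' b'' : Bool) (U : Finset V)
    (y : E → ZMod 2) (hc : U.card + (2 * Δ + 10) * k ≤ Fr.m) (hok : Fr.Ok v0 U y)
    (h : nQ S' α a k f b U y) (h' : nQ S' α a k g b' U y)
    (h'' : nQ S' α a k (f.or g) b'' U y) : b'' = (b || b') := by
  by_cases ho : f.or g ∈ Φ'
  · obtain ⟨hf, hg⟩ := hΦ.or_old f g ho
    obtain ⟨W, hW, ok1, q1, q2, q3⟩ := three_old S' hα hk hf hg ho (num_aux' hc) hok h h' h''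
    exact S'.or f g hf hg ho b b' b'' W _ (by omega) ok1 q1 q2 q3
  · obtain ⟨hf, hg⟩ := hΦ.or_new f g hfg ho
    have key := nQ_new S' hα hdeg hk true ho rfl rfl hf hg hc hok h h' h''
    revert key
    cases b <;> cases b' <;> cases b'' <;> decide

end

end FrC
end

section

/-!
The new valuation: decision trees; the logic of the switching step.
-/

set_option linter.unusedSectionVars false

namespace FrC

open Finset Fr56
open scoped Classical

section
variable {V E : Type} [Fintype V] [Fintype E] [DecidableEq V] [DecidableEq E]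
  {G : Gph V E} {Fr : Frame G} {v0 : V} {Q D : ℕ} {hQ : 0 < Q} {hD : 0 < D} {w0 : A D}
  {X : Type} {Φ' : Set (Fm X)} {cap' : ℕ}
  (S' : Valn (Fr.blow Q D hQ hD) (HV.cen (v0, 0) w0) X Φ' cap')
  {α : Xt (TE V E Q) D → ZMod 2} {a : TV V Q → A D}

variable (hα : ((G.tall Q).blow D).bd α = pt (HV.cen (v0, 0) w0) + pt (ctr a (v0, 0)))

include hα in
/-- decision trees of the blow-up give decision trees of the graph -/
theorem dec_old_aux {Δ k : ℕ} (hdeg : G.Deg Δ) (f : Fm X) (hf : f ∈ Φ') {n : ℕ}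
    {W : Finset (HV (TV V Q) (TE V E Q) D)} {x : Xt (TE V E Q) D → ZMod 2}
    (hdec : Dec (Fr.blow Q D hQ hD) (HV.cen (v0, 0) w0) (S'.Q f) n W x) :
    ∀ (U : Finset V) (y : E → ZMod 2), x = α + Pth (G.tall Q) a (iota y) →
      (∀ e : E, Tch (G.tall Q) a W (Sum.inl (e, 0)) → e ∈ G.inc U) → Fr.Ok v0 U y →
      W.card + n ≤ k → U.card + 2 * (Δ + 2) * n + 2 * k ≤ Fr.m →
      Dec Fr v0 (nQ S' α a k f) (2 * (Δ + 2) * n) U y := by
  induction hdec with
  | leaf b h =>
    intro U y hx hcov hok hWk hc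
    refine Dec.leaf b ?_
    unfold nQ
    rw [if_pos hf]
    rw [hx] at h
    exact old_up S' hα (List.mem_singleton.2 rfl) (by omega) (by omega) hok h hcov
  | @node m n W x N hN h ih =>
    intro U y hx hcov hok hWk hc
    have e1 : 2 * (Δ + 2) * (n + m) = 2 * (Δ + 2) * n + 2 * (Δ + 2) * m := by ring
    rw [e1] at hc ⊢
    have hN2 : (plc G Q (cov (G.tall Q) a N)).card ≤ 2 * (Δ + 2) * n := by
      have h1 := card_plc G (cov (G.tall Q) a N)
      have h2 := card_cov (G.tall Q) (Δ := Δ + 2) (by omega) (deg_tall G hdeg) a N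
      calc (plc G Q (cov (G.tall Q) a N)).card ≤ 2 * (cov (G.tall Q) a N).card := h1
        _ ≤ 2 * ((Δ + 2) * N.card) := Nat.mul_le_mul_left 2 h2
        _ ≤ 2 * ((Δ + 2) * n) := Nat.mul_le_mul_left 2 (Nat.mul_le_mul_left _ hN)
        _ = 2 * (Δ + 2) * n := by ring
    refine Dec.node (plc G Q (cov (G.tall Q) a N)) hN2 ?_
    intro y' hag hok'
    have hcov' : ∀ e : E, Tch (G.tall Q) a (W ∪ N) (Sum.inl (e, 0)) →
        e ∈ G.inc (U ∪ plc G Q (cov (G.tall Q) a N)) := by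
      rintro e ⟨u, hue, hul, hui⟩
      have hui' : u ∈ ((G.tall Q).blow D).inc W ∨ u ∈ ((G.tall Q).blow D).inc N := by
        rcases hui with h1 | h1
        · rcases Finset.mem_union.1 h1 with h2 | h2
          · exact Or.inl (Or.inl h2)
          · exact Or.inr (Or.inl h2)
        · rcases Finset.mem_union.1 h1 with h2 | h2
          · exact Or.inl (Or.inr h2)
          · exact Or.inr (Or.inr h2)
      rcases hui' with h1 | h1
      · exact G.inc_mono Finset.subset_union_left (hcov e ⟨u, hue, hul, h1⟩)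
      · have h2 : (Sum.inl (e, 0) : TE V E Q) ∈ cov (G.tall Q) a N := by
          unfold cov
          rw [Finset.mem_filter]
          exact ⟨Finset.mem_univ _, u, hue, hul, h1⟩
        exact G.inc_mono Finset.subset_union_right
          ((inl_mem_incT G).1 (mem_incT_plc G h2))
    have hcW : (W ∪ N).card ≤ W.card + N.card := Finset.card_union_le _ _
    have hcU := Finset.card_union_le U (plc G Q (cov (G.tall Q) a N))
    refine ih (α + Pth (G.tall Q) a (iota y')) ?_ ?_ _ y' rfl hcov' hok' (by omega) (by omega)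
    · rw [hx]
      exact x_agree α a hcov hag
    · exact ok_up Fr v0 α a hQ hD hα hcov' (by omega) hok'

include hα in
/-- old formulas are decided by decision trees -/
theorem dec_old {Δ k : ℕ} (hdeg : G.Deg Δ) (f : Fm X) (hf : f ∈ Φ')
    (hD' : ∀ x, (Fr.blow Q D hQ hD).Ok (HV.cen (v0, 0) w0) ∅ x →
      Dec (Fr.blow Q D hQ hD) (HV.cen (v0, 0) w0) (S'.Q f) k ∅ x)
    (hc : 2 * (Δ + 2) * k + 2 * k ≤ Fr.m) (y : E → ZMod 2) (hok : Fr.Ok v0 ∅ y) :
    Dec Fr v0 (nQ S' α a k f) (2 * (Δ + 2) * k) ∅ y := by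
  have hcov : ∀ e : E, Tch (G.tall Q) a ∅ (Sum.inl (e, 0)) → e ∈ G.inc ∅ := by
    rintro e ⟨u, _, _, hui⟩
    rcases hui with h1 | h1
    · exact absurd h1 (Finset.notMem_empty _)
    · exact absurd h1 (Finset.notMem_empty _)
  refine dec_old_aux S' hα hdeg f hf
    (hD' _ (ok_up Fr v0 α a hQ hD hα hcov ?_ hok)) ∅ y rfl hcov hok ?_ ?_
  · rw [Finset.card_empty, Finset.card_empty]; exact Nat.zero_le _
  · rw [Finset.card_empty, Nat.zero_add]
  · rw [Finset.card_empty]; omega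

/-- **logic of the switching step** -/
theorem switch_logic {Φ : Set (Fm X)} (hΦ : NewCls Φ' Φ) {Δ k R K cap : ℕ} (hdeg : G.Deg Δ)
    (hk : 3 * k ≤ cap') (hR : 0 < R) (hm : 2 * (1 + Δ) * (R + (Δ + 2) * k) ≤ Fr.m)
    (hα : ((G.tall Q).blow D).bd α = pt (HV.cen (v0, 0) w0) + pt (ctr a (v0, 0)))
    (hno : ∀ f ∈ Φ, f ∉ Φ' → NoLong Fr v0 α a (certs S' k (lst Φ' f)) R (R + (Δ + 2) * k))
    (hD' : S'.Dcds k) (hK1 : 2 * (1 + Δ) * R ≤ K) (hK2 : 2 * (Δ + 2) * k ≤ K)
    (hcap : cap + (2 * Δ + 10) * k ≤ Fr.m) :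
    ∃ S : Valn Fr v0 X Φ cap, S.Dcds K ∧
      ∀ f ∈ Φ', ∀ w, w + 2 * k ≤ Fr.m → S'.True' k f → S.True' w f := by
  let S : Valn Fr v0 X Φ cap :=
    { Q := nQ S' α a k
      mono := fun f _ b U U' y y' hU _ h hy _ => nQ_mono S' f b U U' y y' hU h hy
      uniq := fun f _ U y hU hok h h' => nQ_uniq S' hα hdeg hk f U y (by omega) hok h h'
      neg := fun f _ hf' b b' U y hU hok h h' =>
        nQ_neg S' hα hΦ hdeg hk f hf' b b' U y (by omega) hok h h'
      and := fun f g _ _ hfg b b' b'' U y hU hok h h' h'' =>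
        nQ_and S' hα hΦ hdeg hk f g hfg b b' b'' U y (by omega) hok h h' h''
      or := fun f g _ _ hfg b b' b'' U y hU hok h h' h'' =>
        nQ_or S' hα hΦ hdeg hk f g hfg b b' b'' U y (by omega) hok h h' h'' }
  refine ⟨S, ?_, ?_⟩
  · intro f hf y hok
    by_cases hf' : f ∈ Φ'
    · refine Dec.mono (dec_old S' hα hdeg f hf' (fun x hx => hD' f hf' x hx) ?_ y hok) hK2
      have : (2 * Δ + 10) * k = 2 * (Δ + 2) * k + 6 * k := by ring
      omega
    · have h1 := dec_of_noLong Fr v0 α a hdeg (certs_card S' k (lst Φ' f)) (hno f hf hf') hR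
        hm (sgn f) y hok
      refine Dec.mono ?_ hK1
      have e : (S.Q f) = fun b U y => if b = sgn f then QC (G := G) α a (certs S' k (lst Φ' f)) U y
          else QN Fr v0 α a (certs S' k (lst Φ' f)) U y := by
        funext b U y
        show nQ S' α a k f b U y = _
        unfold nQ
        rw [if_neg hf']
      rw [e]
      exact h1
  · intro f hf w hw hT U y hU hok h
    have h' : nQ S' α a k f false U y := h
    unfold nQ at h'
    rw [if_pos hf] at h'
    obtain ⟨W, hW, hokW, hQW, _⟩ := old_down S' hα (by omega) hf (by omega) hok h'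
    exact hT W _ hW hokW hQW

end

end FrC
end
end

section

section

/-!
The decoding event is unlikely.
-/

set_option linter.unusedSectionVars false

namespace FrC

open Finset Fr56
open scoped Classical

section
variable {V E : Type} [Fintype V] [Fintype E] [DecidableEq V] [DecidableEq E]
  {G : Gph V E} {Q D : ℕ}

private theorem Nb_subset_US (Ls : ℕ → Finset (TE V E Q)) {l n : ℕ} (h : l < n) :
    Nb G Q (Ls l) ⊆ US G Ls n := by
  intro v hv
  unfold US
  exact Finset.mem_biUnion.2 ⟨l, Finset.mem_range.2 h, hv⟩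

/-- the lift of the sum of the first `i` closed chains depends only on `a` over `US Ls n` -/
private theorem Pth_sum_congr (Ls : ℕ → Finset (TE V E Q)) (Ss : ℕ → Finset (FI E Q)) {i n : ℕ}
    (hin : i ≤ n)
    (hS : ∀ i < n, ∀ s ∈ Ss i, G.src s.1 ∈ Nb G Q (Ls i) ∧ G.tgt s.1 ∈ Nb G Q (Ls i))
    {a b : TV V Q → A D} (hab : ∀ v ∈ {v : TV V Q | v.1 ∈ US G Ls n}, a v = b v) :
    Pth (G.tall Q) a (∑ l ∈ range i, Fs G (Ss l)) =
      Pth (G.tall Q) b (∑ l ∈ range i, Fs G (Ss l)) := by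
  apply Pth_congr
  intro e he
  have h1 : ∃ l ∈ range i, Fs G (Ss l) e ≠ 0 := by
    by_contra hcon
    push Not at hcon
    apply he
    rw [Finset.sum_apply]
    exact Finset.sum_eq_zero hcon
  obtain ⟨l, hl, hle⟩ := h1
  have hln : l < n := lt_of_lt_of_le (Finset.mem_range.1 hl) hin
  obtain ⟨s, hs, hsrc, htgt⟩ := Fs_supp G (Ss l) e hle
  have hN := hS l hln s hs
  have hsub := Nb_subset_US (G := G) Ls hln
  constructor
  · apply hab
    change ((G.tall Q).src e).1 ∈ US G Ls n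
    rcases hsrc with h | h
    · rw [h]; exact hsub hN.1
    · rw [h]; exact hsub hN.2
  · apply hab
    change ((G.tall Q).tgt e).1 ∈ US G Ls n
    rcases htgt with h | h
    · rw [h]; exact hsub hN.1
    · rw [h]; exact hsub hN.2

/-- the decoding event depends only on the choices over `US Ls n` -/
theorem Dcd_depOn (𝒞 : Set (Cert V E Q D)) (P : Cert V E Q D → Prop)
    (Ls : ℕ → Finset (TE V E Q)) (Ss : ℕ → Finset (FI E Q)) (n : ℕ)
    (hS : ∀ i < n, ∀ s ∈ Ss i, G.src s.1 ∈ Nb G Q (Ls i) ∧ G.tgt s.1 ∈ Nb G Q (Ls i))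
    (β : Xt (TE V E Q) D → ZMod 2) :
    DepOn {v : TV V Q | v.1 ∈ US G Ls n} (fun a : TV V Q → A D => Dcd G 𝒞 P Ls Ss n β a) := by
  intro a b hab
  unfold Dcd
  refine forall_congr' fun i => forall_congr' fun hi => exists_congr fun C => ?_
  rw [Pth_sum_congr Ls Ss hi.le hS hab]
  refine and_congr Iff.rfl (forall_congr' fun e => forall_congr' fun he => ?_)
  have hsub := (plc_subset_Nb G (Ls i)).trans (Nb_subset_US (G := G) Ls hi)
  exact Tch_congr (G.tall Q) (hab _ (hsub (mem_plc_src G he))) (hab _ (hsub (mem_plc_tgt G he)))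

/-- the decoding event is unlikely -/
theorem pr_Dcd_le (hl : G.NoLoop) (hD : 0 < D) {Δ : ℕ} (hdeg : G.Deg Δ) (k : ℕ) (θ : ℝ)
    (hθ0 : 0 ≤ θ) (hθ1 : θ ≤ 1) (hθ : (k : ℝ) ≤ θ ^ (2 * (Δ + 2)) * 2 ^ D)
    {𝒞 : Set (Cert V E Q D)} (h𝒞 : ∀ C ∈ 𝒞, C.1.card ≤ k) (P : Cert V E Q D → Prop)
    (Ls : ℕ → Finset (TE V E Q)) (Ss : ℕ → Finset (FI E Q)) (n : ℕ)
    (hL : ∀ i < n, ∀ e ∈ Ls i, e ∉ incT G Q (US G Ls i))
    (hS : ∀ i < n, ∀ s ∈ Ss i, G.src s.1 ∈ Nb G Q (Ls i) ∧ G.tgt s.1 ∈ Nb G Q (Ls i))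
    (β : Xt (TE V E Q) D → ZMod 2) :
    pr (fun a : TV V Q → A D => Dcd G 𝒞 P Ls Ss n β a) ≤ θ ^ tot Ls n := by
  induction n with
  | zero =>
    have : tot Ls 0 = 0 := by simp [tot]
    rw [this, pow_zero]
    exact pr_le_one _
  | succ n ih =>
    have ih' := ih (fun i hi => hL i (by omega)) (fun i hi => hS i (by omega))
    have htot : tot Ls (n + 1) = tot Ls n + (Ls n).card := by
      unfold tot
      rw [Finset.sum_range_succ]
    have hSn : ∀ i < n, ∀ s ∈ Ss i, G.src s.1 ∈ Nb G Q (Ls i) ∧ G.tgt s.1 ∈ Nb G Q (Ls i) :=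
      fun i hi => hS i (by omega)
    have hdis : Disjoint {v : TV V Q | v.1 ∈ US G Ls n} {v : TV V Q | v.1 ∉ US G Ls n} := by
      rw [Set.disjoint_left]
      intro v hv hv'
      exact hv' hv
    have hpeel := pr_peel (C := Cert V E Q D) hdis
      (fun a : TV V Q → A D => Dcd G 𝒞 P Ls Ss n β a)
      (fun a C => Act G 𝒞 P (β + Pth (G.tall Q) a (∑ l ∈ range n, Fs G (Ss l))) C)
      (fun C a => ∀ e ∈ Ls n, Tch (G.tall Q) a C.1 e) (θ ^ (Ls n).card) (pow_nonneg hθ0 _)
      (Dcd_depOn 𝒞 P Ls Ss n hSn β)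
      (by
        intro C a b hab
        simp only
        rw [Pth_sum_congr Ls Ss le_rfl hSn hab])
      (by
        intro a C C' h h'
        apply idx_inj
        exact le_antisymm (h.2.2.2 C' h'.1 h'.2.1 h'.2.2.1) (h'.2.2.2 C h.1 h.2.1 h.2.2.1))
      (by
        intro C a b hab
        simp only
        refine forall_congr' fun e => forall_congr' fun he => ?_
        have hne := hL n (by omega) e he
        refine Tch_congr (G.tall Q) (hab _ fun h => hne (Or.inl h)) (hab _ fun h => hne (Or.inr h)))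
      (by
        rintro C ⟨a, ha⟩
        exact pr_all_Tch_le (G.tall Q) (noLoop_tall G hl) hD (deg_tall G hdeg) k θ hθ0 hθ1 hθ C.1
          (h𝒞 C ha.1) (Ls n))
    have hmono : pr (fun a : TV V Q → A D => Dcd G 𝒞 P Ls Ss (n + 1) β a) ≤
        pr (fun a : TV V Q → A D => Dcd G 𝒞 P Ls Ss n β a ∧
          ∃ C : Cert V E Q D, Act G 𝒞 P (β + Pth (G.tall Q) a (∑ l ∈ range n, Fs G (Ss l))) C ∧
            ∀ e ∈ Ls n, Tch (G.tall Q) a C.1 e) := by
      apply pr_mono
      intro a ha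
      exact ⟨fun i hi => ha i (by omega), ha n (by omega)⟩
    rw [htot, pow_add]
    exact hmono.trans (hpeel.trans (mul_le_mul_of_nonneg_right ih' (pow_nonneg hθ0 _)))

end

end FrC
end

section

/-!
The probability of a fixed code.
-/

set_option linter.unusedSectionVars false

namespace FrC

open Finset Fr56
open scoped Classical

section
variable {V E : Type} [Fintype V] [Fintype E] [DecidableEq V] [DecidableEq E]
  {G : Gph V E} (Fr : Frame G) (v0 : V) {Q D : ℕ}

private theorem card_small_c2 {α : Type} [Fintype α] (n : ℕ) :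
    (univ.filter fun W : Finset α => W.card ≤ n).card ≤ (Fintype.card α + 1) ^ n := by
  induction n with
  | zero =>
    rw [pow_zero, Finset.card_le_one]
    intro a ha b hb
    simp only [mem_filter, mem_univ, true_and, Nat.le_zero, Finset.card_eq_zero] at ha hb
    rw [ha, hb]
  | succ n ih =>
    have hsub : (univ.filter fun W : Finset α => W.card ≤ n + 1) ⊆
        ((univ.filter fun W : Finset α => W.card ≤ n) ×ˢ (univ : Finset (Option α))).image
          (fun p => match p.2 with | none => p.1 | some x => insert x p.1) := by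
      intro W hW
      simp only [mem_filter, mem_univ, true_and] at hW
      simp only [mem_image, mem_product, mem_filter, mem_univ, true_and, and_true, Prod.exists]
      rcases Nat.lt_or_ge n W.card with h | h
      · have hne : W.Nonempty := by
          rw [← Finset.card_pos]; omega
        obtain ⟨x, hx⟩ := hne
        refine ⟨W.erase x, some x, ?_, ?_⟩
        · rw [Finset.card_erase_of_mem hx]; omega
        · simp only [Finset.insert_erase hx]
      · exact ⟨W, none, h, rfl⟩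
    calc _ ≤ _ := Finset.card_le_card hsub
      _ ≤ _ := Finset.card_image_le
      _ = (univ.filter fun W : Finset α => W.card ≤ n).card * (Fintype.card α + 1) := by
        rw [Finset.card_product, Finset.card_univ, Fintype.card_option]
      _ ≤ _ := by
        rw [pow_succ]
        exact Nat.mul_le_mul_right _ ih

/-- sum over the codes of one step -/
theorem sum_codes_le {I J : Type} [Fintype I] [Fintype J] (x : ℝ) (hx0 : 0 ≤ x)
    (hx : (Fintype.card I : ℝ) * ((Fintype.card J : ℝ) + 1) * x ≤ 1 / 3) :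
    ∑ c ∈ (univ : Finset (Finset I × Finset J)).filter
      (fun c => c.1.Nonempty ∧ c.2.card ≤ c.1.card), x ^ c.1.card ≤ 1 / 2 := by
  set y : ℝ := ((Fintype.card J : ℝ) + 1) * x with hy
  have hy0 : 0 ≤ y := by positivity
  have h1 : ∑ c ∈ (univ : Finset (Finset I × Finset J)).filter
      (fun c => c.1.Nonempty ∧ c.2.card ≤ c.1.card), x ^ c.1.card ≤
      ∑ L : Finset I, (if L = ∅ then 0 else y ^ L.card) := by
    rw [Finset.sum_filter, Fintype.sum_prod_type]
    refine Finset.sum_le_sum fun L _ => ?_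
    rcases Finset.eq_empty_or_nonempty L with hL | hL
    · rw [if_pos hL]
      subst hL
      simp
    · rw [if_neg hL.ne_empty]
      have e1 : ∑ S : Finset J, (if ((L, S) : Finset I × Finset J).1.Nonempty ∧
          ((L, S) : Finset I × Finset J).2.card ≤ ((L, S) : Finset I × Finset J).1.card
          then x ^ ((L, S) : Finset I × Finset J).1.card else 0) =
          ((univ.filter fun S : Finset J => S.card ≤ L.card).card : ℝ) * x ^ L.card := by
        rw [← nsmul_eq_mul, ← Finset.sum_const, Finset.sum_filter]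
        refine Finset.sum_congr rfl fun S _ => ?_
        by_cases hS : S.card ≤ L.card
        · rw [if_pos ⟨hL, hS⟩, if_pos hS]
        · rw [if_neg (fun h => hS h.2), if_neg hS]
      rw [e1, hy, mul_pow]
      refine mul_le_mul_of_nonneg_right ?_ (pow_nonneg hx0 _)
      have := card_small_c2 (α := J) L.card
      exact_mod_cast this
  have h2 : ∑ L : Finset I, (if L = ∅ then 0 else y ^ L.card) =
      (∑ L : Finset I, y ^ L.card) - 1 := by
    have e1 : ∀ L : Finset I, (if L = ∅ then 0 else y ^ L.card) =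
        y ^ L.card - (if L = ∅ then 1 else 0) := by
      intro L
      by_cases hL : L = ∅
      · simp [hL]
      · simp [hL]
    rw [Finset.sum_congr rfl fun L _ => e1 L, Finset.sum_sub_distrib]
    simp
  have h3 : ∑ L : Finset I, y ^ L.card = (y + 1) ^ Fintype.card I := by
    have := Fintype.sum_pow_mul_eq_add_pow I y (1 : ℝ)
    rw [← this]
    refine Finset.sum_congr rfl fun L _ => ?_
    rw [one_pow, mul_one]
  have h4 : (y + 1) ^ Fintype.card I ≤ 3 / 2 := by
    have e1 : (y + 1) ^ Fintype.card I ≤ Real.exp y ^ Fintype.card I :=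
      pow_le_pow_left₀ (by positivity) (Real.add_one_le_exp y) _
    have e2 : Real.exp y ^ Fintype.card I = Real.exp (Fintype.card I * y) := by
      rw [Real.exp_nat_mul]
    have e3 : (Fintype.card I : ℝ) * y ≤ 1 / 3 := by
      rw [hy, ← mul_assoc]; exact hx
    have e4 : Real.exp (1 / 3) ≤ 3 / 2 := by
      have e5 : Real.exp (1 / 3) ^ 3 ≤ (3 / 2 : ℝ) ^ 3 := by
        rw [← Real.exp_nat_mul]
        have e6 : ((3 : ℕ) : ℝ) * (1 / 3) = 1 := by norm_num
        rw [e6]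
        have := Real.exp_one_lt_d9
        norm_num at this ⊢
        linarith
      exact le_of_pow_le_pow_left₀ (by norm_num) (by norm_num) e5
    calc (y + 1) ^ Fintype.card I ≤ Real.exp (Fintype.card I * y) := by rw [← e2]; exact e1
      _ ≤ Real.exp (1 / 3) := Real.exp_le_exp.2 e3
      _ ≤ 3 / 2 := e4
  rw [h2, h3] at h1
  linarith

/-- the probability that a fixed code occurs -/
theorem pr_code_le (hl : G.NoLoop) (hD : 0 < D) (hQ0 : 0 < Q) {Δ : ℕ} (hdeg : G.Deg Δ) (k : ℕ)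
    (θ : ℝ) (hθ0 : 0 ≤ θ) (hθ1 : θ ≤ 1) (hθ : (k : ℝ) ≤ θ ^ (2 * (Δ + 2)) * 2 ^ D)
    {𝒞 : Set (Cert V E Q D)} (h𝒞 : ∀ C ∈ 𝒞, C.1.card ≤ k) (w0 : A D)
    (Ls : ℕ → Finset (TE V E Q)) (Ss : ℕ → Finset (FI E Q)) (n : ℕ) (t : V)
    (hm : 2 * (1 + Δ) * tot Ls n ≤ Fr.m) :
    pr (fun q : Om (G.tall Q) (HV.cen (v0, 0) w0 : HV (TV V Q) (TE V E Q) D) (v0, 0) =>
      ∃ y : E → ZMod 2, Fr.Ok v0 (US G Ls n) y ∧ Adm Fr Ls Ss n t ∧
        ∀ yh : E → ZMod 2, G.bd yh = pt v0 + pt t → G.Agree (US G Ls n) y yh →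
        Dcd G 𝒞 (fun C => Fr.Free (US G Ls n ∪ G.nbh (Unc G Q C.1)) t) Ls Ss n
          (q.1.1 + Pth (G.tall Q) q.1.2 (iota yh + ∑ l ∈ range n, Fs G (Ss l))) q.1.2) ≤
      (2 ^ (2 * Δ * (1 + Δ)) * θ) ^ tot Ls n := by
  have hR0 : (0 : ℝ) ≤ (2 ^ (2 * Δ * (1 + Δ)) * θ) ^ tot Ls n := by positivity
  by_cases hA : Adm Fr Ls Ss n t
  swap
  · refine le_trans (pr_mono (Q := fun _ => False) fun q hq => ?_) (by rw [pr_false]; exact hR0)
    obtain ⟨y, _, h, _⟩ := hq
    exact hA h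
  set W := US G Ls n with hW
  have hWcard : W.card ≤ 2 * (1 + Δ) * tot Ls n := card_US hdeg Ls n
  have htW : t ∉ W := Fr.disj hA.1
  set I : Finset E := univ.filter fun e => e ∈ G.inc W with hI
  -- the event for a given pattern
  set Ev : Finset E → Om (G.tall Q) (HV.cen (v0, 0) w0 : HV (TV V Q) (TE V E Q) D) (v0, 0) → Prop :=
    fun φ q => ∃ y : E → ZMod 2, Fr.Ok v0 W y ∧ (∀ e ∈ G.inc W, (y e ≠ 0 ↔ e ∈ φ)) ∧
        ∀ yh : E → ZMod 2, G.bd yh = pt v0 + pt t → G.Agree W y yh →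
        Dcd G 𝒞 (fun C => Fr.Free (W ∪ G.nbh (Unc G Q C.1)) t) Ls Ss n
          (q.1.1 + Pth (G.tall Q) q.1.2 (iota yh + ∑ l ∈ range n, Fs G (Ss l))) q.1.2 with hEv
  have hcover : pr (fun q : Om (G.tall Q) (HV.cen (v0, 0) w0 : HV (TV V Q) (TE V E Q) D) (v0, 0) =>
      ∃ y : E → ZMod 2, Fr.Ok v0 W y ∧ Adm Fr Ls Ss n t ∧
        ∀ yh : E → ZMod 2, G.bd yh = pt v0 + pt t → G.Agree W y yh →
        Dcd G 𝒞 (fun C => Fr.Free (W ∪ G.nbh (Unc G Q C.1)) t) Ls Ss n
          (q.1.1 + Pth (G.tall Q) q.1.2 (iota yh + ∑ l ∈ range n, Fs G (Ss l))) q.1.2) ≤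
      pr (fun q => ∃ φ ∈ I.powerset, Ev φ q) := by
    apply pr_mono
    rintro q ⟨y, hok, _, hy⟩
    refine ⟨univ.filter fun e => e ∈ G.inc W ∧ y e ≠ 0, ?_, y, hok, ?_, hy⟩
    · rw [Finset.mem_powerset]
      intro e he
      rw [Finset.mem_filter] at he
      rw [hI, Finset.mem_filter]
      exact ⟨Finset.mem_univ _, he.2.1⟩
    · intro e he
      rw [Finset.mem_filter]
      constructor
      · intro h
        exact ⟨Finset.mem_univ _, he, h⟩
      · intro h
        exact h.2.2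
  -- each pattern is unlikely
  have hone : ∀ φ : Finset E, pr (Ev φ) ≤ θ ^ tot Ls n := by
    intro φ
    have hθn : (0 : ℝ) ≤ θ ^ tot Ls n := pow_nonneg hθ0 _
    by_cases hex : ∃ yh : E → ZMod 2, G.bd yh = pt v0 + pt t ∧ ∀ e ∈ G.inc W, (yh e ≠ 0 ↔ e ∈ φ)
    swap
    · refine le_trans (pr_mono (Q := fun _ => False) fun q hq => ?_)
        (by rw [pr_false]; exact hθn)
      obtain ⟨y, ⟨s, hs, hsf⟩, hpat, _⟩ := hq
      apply hex
      obtain ⟨γ, hγ, hγ0⟩ := Fr.conn W s t (hWcard.trans hm) hsf hA.1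
      refine ⟨y + γ, ?_, ?_⟩
      · rw [Gph.bd_add, hs, hγ]
        have := add_self2 (pt s : V → ZMod 2)
        calc pt v0 + pt s + (pt s + pt t) = pt v0 + (pt s + pt s) + pt t := by abel
          _ = pt v0 + pt t := by rw [this, add_zero]
      · intro e he
        rw [Pi.add_apply, hγ0 e he, add_zero]
        exact hpat e he
    obtain ⟨yh, hyh, hpat⟩ := hex
    set z : TE V E Q → ZMod 2 := iota yh + ∑ l ∈ range n, Fs G (Ss l) with hz
    have hbz : (G.tall Q).bd z = pt (v0, 0) + pt (t, 0) := by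
      rw [hz, Gph.bd_add, bd_iota_path G yh v0 t hyh, Gph.bd_sum]
      rw [Finset.sum_eq_zero fun l _ => bd_Fs G (Ss l), add_zero]
    set P : Cert V E Q D → Prop := fun C => Fr.Free (W ∪ G.nbh (Unc G Q C.1)) t with hP
    have hmono : pr (Ev φ) ≤
        pr (fun q : Om (G.tall Q) (HV.cen (v0, 0) w0 : HV (TV V Q) (TE V E Q) D) (v0, 0) =>
          Dcd G 𝒞 P Ls Ss n (q.1.1 + Pth (G.tall Q) q.1.2 z) q.1.2) := by
      apply pr_mono
      rintro q ⟨y, _, hy, hall⟩
      refine hall yh hyh fun e he => ?_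
      have h1 := (hy e he).trans (hpat e he).symm
      have h2 : ∀ a b : ZMod 2, (a ≠ 0 ↔ b ≠ 0) → a = b := by decide
      exact h2 _ _ h1
    refine hmono.trans ?_
    have hS : ∀ i < n, ∀ s ∈ Ss i, G.src s.1 ∈ Nb G Q (Ls i) ∧ G.tgt s.1 ∈ Nb G Q (Ls i) :=
      fun i hi => (hA.2 i hi).2.2.2.2
    have hL : ∀ i < n, ∀ e ∈ Ls i, e ∉ incT G Q (US G Ls i) := fun i hi => (hA.2 i hi).2.1
    have hmain := pr_Om_event (G.tall Q) hD (v0, 0) w0 (t, 0) z hbz
      (fun w w' => by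
        obtain ⟨γ, hγ, _⟩ := exists_bd_fiber G hQ0 hD t 0 0 w w'
        exact ⟨γ, hγ⟩)
      (fun β a => Dcd G 𝒞 P Ls Ss n β a) (fun _ => True) (θ ^ tot Ls n) 0 hθn
      (fun β => DepOn.mono' (by
        intro v hv hvt
        apply htW
        have : v.1 ∈ W := hv
        rw [hvt] at this
        exact this) (Dcd_depOn 𝒞 P Ls Ss n hS β))
      (fun β _ => pr_Dcd_le hl hD hdeg k θ hθ0 hθ1 hθ h𝒞 P Ls Ss n hL hS β)
      (fun κ => by
        refine le_trans (pr_mono (Q := fun _ => False) fun β hβ => ?_) (by rw [pr_false])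
        exact hβ trivial)
    rw [add_zero] at hmain
    exact hmain
  refine hcover.trans ((pr_exists_le I.powerset Ev).trans ?_)
  refine (Finset.sum_le_sum fun φ _ => hone φ).trans ?_
  rw [Finset.sum_const, nsmul_eq_mul, Finset.card_powerset, mul_pow]
  refine mul_le_mul_of_nonneg_right ?_ (pow_nonneg hθ0 _)
  rw [← pow_mul]
  push_cast
  apply pow_le_pow_right₀ (by norm_num)
  have h1 := card_inc_le G hdeg W
  calc I.card ≤ Δ * W.card := h1
    _ ≤ Δ * (2 * (1 + Δ) * tot Ls n) := Nat.mul_le_mul_left _ hWcard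
    _ = 2 * Δ * (1 + Δ) * tot Ls n := by ring

end

end FrC
end

section

/-!
Existence of a good restriction for the switching step.
-/

set_option linter.unusedSectionVars false

namespace FrC

open Finset Fr56
open scoped Classical

section
variable {V E : Type} [Fintype V] [Fintype E] [DecidableEq V] [DecidableEq E]
  {G : Gph V E} (Fr : Frame G) (v0 : V) {Q D : ℕ}

/-- the sequence of sets given by a tuple, extended by the empty set -/
private noncomputable def extS {n : ℕ} {I : Type} (c : Fin n → Finset I) (i : ℕ) : Finset I :=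
  if h : i < n then c ⟨i, h⟩ else ∅

private theorem extS_of_lt {n : ℕ} {I : Type} (c : Fin n → Finset I) {i : ℕ} (h : i < n) :
    extS c i = c ⟨i, h⟩ := by
  unfold extS
  rw [dif_pos h]

private theorem US_congr {Ls Ls' : ℕ → Finset (TE V E Q)} {n : ℕ} (h : ∀ i < n, Ls i = Ls' i)
    {i : ℕ} (hi : i ≤ n) : US G Ls i = US G Ls' i := by
  unfold US
  apply Finset.biUnion_congr rfl
  intro l hl
  rw [h l (lt_of_lt_of_le (Finset.mem_range.1 hl) hi)]

private theorem tot_congr {Ls Ls' : ℕ → Finset (TE V E Q)} {n : ℕ} (h : ∀ i < n, Ls i = Ls' i) :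
    tot Ls n = tot Ls' n := by
  unfold tot
  apply Finset.sum_congr rfl
  intro l hl
  rw [h l (Finset.mem_range.1 hl)]

/-- **existence of a restriction without long sequences of steps** -/
theorem exists_noLong (hl : G.NoLoop) (hD : 0 < D) (hQ0 : 0 < Q) {Δ : ℕ} (hdeg : G.Deg Δ)
    (k R R' : ℕ) (θ : ℝ) (hθ0 : 0 ≤ θ) (hθ1 : θ ≤ 1)
    (hθ : (k : ℝ) ≤ θ ^ (2 * (Δ + 2)) * 2 ^ D) (w0 : A D)
    (𝒮 : Finset (Set (Cert V E Q D))) (h𝒮 : ∀ 𝒞 ∈ 𝒮, ∀ C ∈ 𝒞, C.1.card ≤ k)
    (hQ : (Δ + 2) * k ≤ Q) (hm : 2 * (1 + Δ) * (R' + R' * k) ≤ Fr.m)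
    (hX : (Fintype.card (TE V E Q) : ℝ) * ((Fintype.card (FI E Q) : ℝ) + 1) *
      (2 * (2 ^ (2 * Δ * (1 + Δ)) * θ)) ≤ 1 / 3)
    (hcard : 𝒮.card * (2 * Fintype.card V) < 2 ^ R) :
    ∃ (α : Xt (TE V E Q) D → ZMod 2) (a : TV V Q → A D),
      ((G.tall Q).blow D).bd α = pt (HV.cen (v0, 0) w0) + pt (ctr a (v0, 0)) ∧
      ∀ 𝒞 ∈ 𝒮, NoLong Fr v0 α a 𝒞 R R' := by
  classical
  let h0 : HV (TV V Q) (TE V E Q) D := HV.cen (v0, 0) w0
  have hne : Nonempty (Om (G.tall Q) h0 (v0, 0)) := by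
    refine ⟨⟨((0 : Xt (TE V E Q) D → ZMod 2), fun _ => w0), ?_⟩⟩
    rw [Gph.bd_zero]
    exact (add_self2 _).symm
  -- the codes
  let codes : Finset (Finset (TE V E Q) × Finset (FI E Q)) :=
    (univ : Finset (Finset (TE V E Q) × Finset (FI E Q))).filter
      (fun c => c.1.Nonempty ∧ c.2.card ≤ c.1.card)
  let LsOf : ∀ {n : ℕ}, (Fin n → Finset (TE V E Q) × Finset (FI E Q)) → ℕ → Finset (TE V E Q) :=
    fun {n} c => extS (fun i => (c i).1)
  let SsOf : ∀ {n : ℕ}, (Fin n → Finset (TE V E Q) × Finset (FI E Q)) → ℕ → Finset (FI E Q) :=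
    fun {n} c => extS (fun i => (c i).2)
  let Cn : ∀ n : ℕ, Finset (Fin n → Finset (TE V E Q) × Finset (FI E Q)) := fun n =>
    (Fintype.piFinset (fun _ : Fin n => codes)).filter
      (fun c => R ≤ tot (LsOf c) n ∧ tot (LsOf c) n < R')
  let Ev : Set (Cert V E Q D) → ∀ n : ℕ, (Fin n → Finset (TE V E Q) × Finset (FI E Q)) → V →
      Om (G.tall Q) h0 (v0, 0) → Prop := fun 𝒞 n c t q =>
      ∃ y : E → ZMod 2, Fr.Ok v0 (US G (LsOf c) n) y ∧ Adm Fr (LsOf c) (SsOf c) n t ∧
        ∀ yh : E → ZMod 2, G.bd yh = pt v0 + pt t → G.Agree (US G (LsOf c) n) y yh →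
        Dcd G 𝒞 (fun C => Fr.Free (US G (LsOf c) n ∪ G.nbh (Unc G Q C.1)) t) (LsOf c) (SsOf c) n
          (q.1.1 + Pth (G.tall Q) q.1.2 (iota yh + ∑ l ∈ range n, Fs G (SsOf c l))) q.1.2
  -- bad events are covered
  have hcover : ∀ q : Om (G.tall Q) h0 (v0, 0), (∃ 𝒞 ∈ 𝒮, ¬ NoLong Fr v0 q.1.1 q.1.2 𝒞 R R') →
      ∃ 𝒞 ∈ 𝒮, ∃ n ∈ range R', ∃ c ∈ Cn n, ∃ t ∈ (univ : Finset V), Ev 𝒞 n c t q := by
    rintro q ⟨𝒞, h𝒞, hlong⟩
    unfold NoLong at hlong
    push Not at hlong
    obtain ⟨n, Cs, Ls, y, hst, hok, hR, hR', -⟩ := hlong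
    have hLne : ∀ i < n, (Ls i).Nonempty := fun i hi => (hst i hi).2.2.2.2
    have hn : n ≤ tot Ls n := by
      unfold tot
      calc n = ∑ _i ∈ range n, 1 := by simp
        _ ≤ ∑ i ∈ range n, (Ls i).card := Finset.sum_le_sum fun i hi =>
          Finset.card_pos.2 (hLne i (Finset.mem_range.1 hi))
    -- truncation
    set Ls' : ℕ → Finset (TE V E Q) := fun i => if i < n then Ls i else ∅ with hLs'
    have hag : ∀ i < n, Ls' i = Ls i := fun i hi => by rw [hLs']; dsimp only; rw [if_pos hi]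
    have htot : tot Ls' n = tot Ls n := tot_congr hag
    have hst' : ∀ i < n, Step Fr v0 q.1.1 q.1.2 𝒞 (US G Ls' i) y (Cs i) (Ls' i) := by
      intro i hi
      rw [US_congr hag hi.le, hag i hi]
      exact hst i hi
    have hok' : Fr.Ok v0 (US G Ls' n) y := by
      rw [US_congr hag le_rfl]
      exact hok
    have hm' : 2 * (1 + Δ) * (tot Ls' n + n * k) ≤ Fr.m := by
      refine le_trans (Nat.mul_le_mul_left _ ?_) hm
      rw [htot]
      have h1 : n * k ≤ R' * k := Nat.mul_le_mul_right k (by omega)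
      omega
    obtain ⟨t, Ss, hAdm, hD'⟩ := decode Fr v0 q.1.1 q.1.2 hdeg (h𝒮 𝒞 h𝒞) n Cs Ls' y hst' hok' hQ
      hm'
    let c : Fin n → Finset (TE V E Q) × Finset (FI E Q) := fun i => (Ls i.1, Ss i.1)
    have hLsOf : LsOf c = Ls' := by
      funext i
      simp only [LsOf, extS, hLs', c]
      by_cases hi : i < n
      · rw [dif_pos hi, if_pos hi]
      · rw [dif_neg hi, if_neg hi]
    have hSsOf : ∀ i < n, SsOf c i = Ss i := by
      intro i hi
      simp only [SsOf, extS, c]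
      rw [dif_pos hi]
    refine ⟨𝒞, h𝒞, n, Finset.mem_range.2 (by omega), c, ?_, t, Finset.mem_univ _, y, ?_, ?_, ?_⟩
    · rw [Finset.mem_filter, Fintype.mem_piFinset]
      refine ⟨fun i => ?_, ?_⟩
      · rw [Finset.mem_filter]
        refine ⟨Finset.mem_univ _, hLne i.1 i.2, ?_⟩
        have := (hAdm.2 i.1 i.2).2.2.1
        rw [hag i.1 i.2] at this
        exact this
      · rw [hLsOf, htot]
        exact ⟨hR, hR'⟩
    · rw [hLsOf]
      exact hok'
    · rw [hLsOf]
      refine ⟨hAdm.1, fun i hi => ?_⟩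
      rw [hSsOf i hi]
      exact hAdm.2 i hi
    · intro yh hyh hyh'
      rw [hLsOf] at hyh' ⊢
      have h1 := hD' yh hyh hyh'
      have e1 : ∑ l ∈ range n, Fs G (SsOf c l) = ∑ l ∈ range n, Fs G (Ss l) :=
        Finset.sum_congr rfl fun l hl => by rw [hSsOf l (Finset.mem_range.1 hl)]
      rw [e1]
      intro i hi
      obtain ⟨C, hC1, hC2⟩ := h1 i hi
      have e2 : ∑ l ∈ range i, Fs G (SsOf c l) = ∑ l ∈ range i, Fs G (Ss l) :=
        Finset.sum_congr rfl fun l hl => by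
          rw [hSsOf l (lt_trans (Finset.mem_range.1 hl) hi)]
      refine ⟨C, ?_, hC2⟩
      rw [e2]
      exact hC1
  -- probability
  set x : ℝ := 2 ^ (2 * Δ * (1 + Δ)) * θ with hx
  have hx0 : 0 ≤ x := by positivity
  have hEv : ∀ 𝒞 ∈ 𝒮, ∀ n, ∀ c ∈ Cn n, ∀ t : V, pr (Ev 𝒞 n c t) ≤
      (1 / 2) ^ R * ∏ i : Fin n, (2 * x) ^ (c i).1.card := by
    intro 𝒞 h𝒞 n c hc t
    rw [Finset.mem_filter] at hc
    have hmc : 2 * (1 + Δ) * tot (LsOf c) n ≤ Fr.m := by
      refine le_trans (Nat.mul_le_mul_left _ ?_) hm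
      have := hc.2.2
      omega
    have h1 := pr_code_le Fr v0 hl hD hQ0 hdeg k θ hθ0 hθ1 hθ (h𝒮 𝒞 h𝒞) w0 (LsOf c) (SsOf c) n t
      hmc
    refine le_trans h1 ?_
    have e1 : ∏ i : Fin n, (2 * x) ^ (c i).1.card = (2 * x) ^ tot (LsOf c) n := by
      rw [Finset.prod_pow_eq_pow_sum]
      congr 1
      unfold tot
      rw [Finset.sum_range]
      apply Finset.sum_congr rfl
      intro i _
      simp only [LsOf]
      rw [extS_of_lt _ i.2]
    rw [e1, mul_pow 2 x, ← mul_assoc]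
    have h2 : (1 : ℝ) ≤ (1 / 2) ^ R * 2 ^ tot (LsOf c) n := by
      obtain ⟨d, hd⟩ := Nat.exists_eq_add_of_le hc.2.1
      rw [hd, pow_add, ← mul_assoc, ← mul_pow]
      norm_num
      exact one_le_pow₀ (by norm_num)
    calc x ^ tot (LsOf c) n = 1 * x ^ tot (LsOf c) n := (one_mul _).symm
      _ ≤ _ := mul_le_mul_of_nonneg_right h2 (by positivity)
  have hsumc : ∀ n : ℕ, ∑ c ∈ Cn n, ∏ i : Fin n, (2 * x) ^ (c i).1.card ≤ (1 / 2 : ℝ) ^ n := by
    intro n
    calc ∑ c ∈ Cn n, ∏ i : Fin n, (2 * x) ^ (c i).1.card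
        ≤ ∑ c ∈ Fintype.piFinset (fun _ : Fin n => codes), ∏ i : Fin n,
            (2 * x) ^ (c i).1.card :=
          Finset.sum_le_sum_of_subset_of_nonneg (Finset.filter_subset _ _)
            (fun c _ _ => Finset.prod_nonneg fun i _ => by positivity)
      _ = ∏ _i : Fin n, ∑ c ∈ codes, (2 * x) ^ c.1.card :=
          (Finset.prod_univ_sum (fun _ : Fin n => codes) (fun _ c => (2 * x) ^ c.1.card)).symm
      _ ≤ ∏ _i : Fin n, (1 / 2 : ℝ) := by
          apply Finset.prod_le_prod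
          · intro i _
            exact Finset.sum_nonneg fun c _ => by positivity
          · intro i _
            exact sum_codes_le (2 * x) (by positivity) hX
      _ = (1 / 2) ^ n := by simp
  have hfinal : pr (fun q : Om (G.tall Q) h0 (v0, 0) =>
      ∃ 𝒞 ∈ 𝒮, ¬ NoLong Fr v0 q.1.1 q.1.2 𝒞 R R') < 1 := by
    calc pr (fun q : Om (G.tall Q) h0 (v0, 0) =>
        ∃ 𝒞 ∈ 𝒮, ¬ NoLong Fr v0 q.1.1 q.1.2 𝒞 R R')
        ≤ pr (fun q => ∃ 𝒞 ∈ 𝒮, ∃ n ∈ range R', ∃ c ∈ Cn n, ∃ t ∈ (univ : Finset V),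
            Ev 𝒞 n c t q) := pr_mono hcover
      _ ≤ ∑ 𝒞 ∈ 𝒮, pr (fun q => ∃ n ∈ range R', ∃ c ∈ Cn n, ∃ t ∈ (univ : Finset V),
            Ev 𝒞 n c t q) := pr_exists_le _ _
      _ ≤ ∑ 𝒞 ∈ 𝒮, ∑ n ∈ range R', (Fintype.card V : ℝ) * (1 / 2) ^ R * (1 / 2) ^ n := by
          apply Finset.sum_le_sum
          intro 𝒞 h𝒞
          refine (pr_exists_le _ _).trans (Finset.sum_le_sum fun n _ => ?_)
          calc pr (fun q => ∃ c ∈ Cn n, ∃ t ∈ (univ : Finset V), Ev 𝒞 n c t q)
              ≤ ∑ c ∈ Cn n, pr (fun q => ∃ t ∈ (univ : Finset V), Ev 𝒞 n c t q) :=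
                pr_exists_le _ _
            _ ≤ ∑ c ∈ Cn n, ∑ t ∈ (univ : Finset V), pr (Ev 𝒞 n c t) :=
                Finset.sum_le_sum fun c _ => pr_exists_le _ _
            _ ≤ ∑ c ∈ Cn n, ∑ _t ∈ (univ : Finset V),
                  (1 / 2) ^ R * ∏ i : Fin n, (2 * x) ^ (c i).1.card :=
                Finset.sum_le_sum fun c hc => Finset.sum_le_sum fun t _ => hEv 𝒞 h𝒞 n c hc t
            _ = (Fintype.card V : ℝ) * (1 / 2) ^ R *
                  ∑ c ∈ Cn n, ∏ i : Fin n, (2 * x) ^ (c i).1.card := by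
                rw [Finset.mul_sum]
                apply Finset.sum_congr rfl
                intro c _
                rw [Finset.sum_const, Finset.card_univ, nsmul_eq_mul]
                ring
            _ ≤ _ := mul_le_mul_of_nonneg_left (hsumc n) (by positivity)
      _ = (𝒮.card : ℝ) * ((Fintype.card V : ℝ) * (1 / 2) ^ R) *
            ∑ n ∈ range R', (1 / 2 : ℝ) ^ n := by
          rw [Finset.sum_const, nsmul_eq_mul, ← Finset.mul_sum]
          ring
      _ ≤ (𝒮.card : ℝ) * ((Fintype.card V : ℝ) * (1 / 2) ^ R) * 2 := by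
          apply mul_le_mul_of_nonneg_left _ (by positivity)
          have h7 : (∑ j ∈ range R', ((1 : ℝ) / 2) ^ j) * (1 - 1 / 2) = 1 - (1 / 2) ^ R' :=
            geom_sum_mul_neg (1 / 2 : ℝ) R'
          have h8 : (0 : ℝ) ≤ (1 / 2) ^ R' := by positivity
          linarith
      _ < 1 := by
          have h9 : ((𝒮.card * (2 * Fintype.card V) : ℕ) : ℝ) < 2 ^ R := by exact_mod_cast hcard
          push_cast at h9
          have h10 : (0 : ℝ) < (1 / 2) ^ R := by positivity
          calc (𝒮.card : ℝ) * ((Fintype.card V : ℝ) * (1 / 2) ^ R) * 2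
              = (𝒮.card : ℝ) * (2 * Fintype.card V) * (1 / 2) ^ R := by ring
            _ < 2 ^ R * (1 / 2) ^ R := mul_lt_mul_of_pos_right h9 h10
            _ = 1 := by rw [← mul_pow]; norm_num
  obtain ⟨q, hq⟩ := exists_of_pr_lt_one hfinal
  refine ⟨q.1.1, q.1.2, q.2, ?_⟩
  intro 𝒞 h𝒞
  by_contra hcon
  exact hq ⟨𝒞, h𝒞, hcon⟩

end

end FrC
end
end
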