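import Pool.Agent.Lib.MP_51bb46_lc.S.Reloc

section

/-!
The tall graph: degrees, cardinalities, neighbourhoods.
-/

set_option linter.unusedSectionVars false

namespace FrC

open Finset Fr56
open scoped Classical

theorem mem_nbh' {V E : Type} [Fintype V] [DecidableEq V] (G : Gph V E) (S : Finset V) (v : V) :
    v ∈ G.nbh S ↔
      (v ∈ S ∨ ∃ e, (G.src e = v ∧ G.tgt e ∈ S) ∨ (G.tgt e = v ∧ G.src e ∈ S)) := by
  simp only [Gph.nbh, Finset.mem_filter, Finset.mem_univ, true_and]

section
variable {V E : Type} [Fintype V] [Fintype E] [DecidableEq V] [DecidableEq E] (G : Gph V E)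
  {Q : ℕ}

theorem noLoop_tall (h : G.NoLoop) : (G.tall Q).NoLoop := by
  intro e
  rcases e with p | p
  · intro hp
    exact h p.1 (Prod.ext_iff.1 hp).1
  · intro hp
    have h2 : p.2.castSucc = p.2.succ := (Prod.ext_iff.1 hp).2
    exact Fin.castSucc_lt_succ.ne h2

theorem mem_star' {W F : Type} [Fintype F] [DecidableEq W] (H : Gph W F) (v : W) (e : F) :
    e ∈ H.star v ↔ H.src e = v ∨ H.tgt e = v := by
  simp [Gph.star]

theorem deg_tall {Δ : ℕ} (h : G.Deg Δ) : (G.tall Q).Deg (Δ + 2) := by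
  rintro ⟨v, l⟩
  set A1 : Finset (TE V E Q) := (G.star v).image fun e => Sum.inl (e, l) with hA1
  set A2 : Finset (TE V E Q) := (univ.filter fun i : Fin Q => i.castSucc = l).image
    fun i => Sum.inr (v, i) with hA2
  set A3 : Finset (TE V E Q) := (univ.filter fun i : Fin Q => i.succ = l).image
    fun i => Sum.inr (v, i) with hA3
  have hsub : (G.tall Q).star (v, l) ⊆ A1 ∪ (A2 ∪ A3) := by
    intro e he
    rw [mem_star'] at he
    rw [Finset.mem_union, Finset.mem_union]
    rcases e with ⟨e, j⟩ | ⟨u, i⟩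
    · left
      rw [hA1, Finset.mem_image]
      refine ⟨e, ?_, ?_⟩
      · rw [mem_star']
        rcases he with he | he
        · exact Or.inl (Prod.ext_iff.1 he).1
        · exact Or.inr (Prod.ext_iff.1 he).1
      · rcases he with he | he
        · have : j = l := (Prod.ext_iff.1 he).2
          rw [this]
        · have : j = l := (Prod.ext_iff.1 he).2
          rw [this]
    · right
      rcases he with he | he
      · left
        have h1 : u = v := (Prod.ext_iff.1 he).1
        have h2 : i.castSucc = l := (Prod.ext_iff.1 he).2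
        rw [hA2, Finset.mem_image]
        exact ⟨i, by rw [Finset.mem_filter]; exact ⟨Finset.mem_univ _, h2⟩, by rw [h1]⟩
      · right
        have h1 : u = v := (Prod.ext_iff.1 he).1
        have h2 : i.succ = l := (Prod.ext_iff.1 he).2
        rw [hA3, Finset.mem_image]
        exact ⟨i, by rw [Finset.mem_filter]; exact ⟨Finset.mem_univ _, h2⟩, by rw [h1]⟩
  have c1 : A1.card ≤ Δ := Finset.card_image_le.trans (h v)
  have c2 : A2.card ≤ 1 := by
    refine Finset.card_image_le.trans (Finset.card_le_one.2 ?_)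
    intro a ha b hb
    rw [Finset.mem_filter] at ha hb
    exact Fin.castSucc_injective Q (ha.2.trans hb.2.symm)
  have c3 : A3.card ≤ 1 := by
    refine Finset.card_image_le.trans (Finset.card_le_one.2 ?_)
    intro a ha b hb
    rw [Finset.mem_filter] at ha hb
    exact Fin.succ_injective Q (ha.2.trans hb.2.symm)
  have c4 := Finset.card_le_card hsub
  have c5 := Finset.card_union_le A1 (A2 ∪ A3)
  have c6 := Finset.card_union_le A2 A3
  omega

theorem card_TV : Fintype.card (TV V Q) = Fintype.card V * (Q + 1) := by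
  simp

theorem card_TE : Fintype.card (TE V E Q) = Fintype.card E * (Q + 1) + Fintype.card V * Q := by
  simp

theorem card_plc (L : Finset (TE V E Q)) : (plc G Q L).card ≤ 2 * L.card := by
  rw [Nat.mul_comm]
  exact Finset.card_biUnion_le_card_mul _ _ _ fun _ _ => Finset.card_le_two

theorem card_nbh {Δ : ℕ} (h : G.Deg Δ) (S : Finset V) : (G.nbh S).card ≤ (1 + Δ) * S.card := by
  set N : Finset V := S.biUnion fun v =>
    (G.star v).image fun e => if G.src e = v then G.tgt e else G.src e with hN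
  have hsub : G.nbh S ⊆ S ∪ N := by
    intro v hv
    rw [mem_nbh'] at hv
    rw [Finset.mem_union]
    rcases hv with hv | ⟨e, he⟩
    · exact Or.inl hv
    · right
      rcases he with ⟨h1, h2⟩ | ⟨h1, h2⟩
      · rw [hN, Finset.mem_biUnion]
        refine ⟨G.tgt e, h2, ?_⟩
        rw [Finset.mem_image]
        refine ⟨e, by rw [mem_star']; exact Or.inr rfl, ?_⟩
        by_cases hs : G.src e = G.tgt e
        · rw [if_pos hs, ← hs, h1]
        · rw [if_neg hs, h1]
      · rw [hN, Finset.mem_biUnion]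
        refine ⟨G.src e, h2, ?_⟩
        rw [Finset.mem_image]
        exact ⟨e, by rw [mem_star']; exact Or.inl rfl, by rw [if_pos rfl, h1]⟩
  have c1 : N.card ≤ S.card * Δ :=
    Finset.card_biUnion_le_card_mul _ _ _ fun v _ => Finset.card_image_le.trans (h v)
  calc (G.nbh S).card ≤ (S ∪ N).card := Finset.card_le_card hsub
    _ ≤ S.card + N.card := Finset.card_union_le _ _
    _ ≤ S.card + S.card * Δ := by omega
    _ = (1 + Δ) * S.card := by ring

theorem card_Nb {Δ : ℕ} (h : G.Deg Δ) (L : Finset (TE V E Q)) :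
    (Nb G Q L).card ≤ 2 * (1 + Δ) * L.card := by
  calc (Nb G Q L).card ≤ (1 + Δ) * (plc G Q L).card := card_nbh G h _
    _ ≤ (1 + Δ) * (2 * L.card) := Nat.mul_le_mul_left _ (card_plc G L)
    _ = 2 * (1 + Δ) * L.card := by ring

theorem card_inc_le {Δ : ℕ} (h : G.Deg Δ) (U : Finset V) :
    (univ.filter fun e => e ∈ G.inc U).card ≤ Δ * U.card := by
  have hsub : (univ.filter fun e => e ∈ G.inc U) ⊆ U.biUnion G.star := by
    intro e he
    rw [Finset.mem_filter] at he
    rw [Finset.mem_biUnion]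
    rcases he.2 with he | he
    · exact ⟨G.src e, he, by rw [mem_star']; exact Or.inl rfl⟩
    · exact ⟨G.tgt e, he, by rw [mem_star']; exact Or.inr rfl⟩
  refine (Finset.card_le_card hsub).trans ?_
  rw [Nat.mul_comm]
  exact Finset.card_biUnion_le_card_mul _ _ _ fun v _ => h v

theorem subset_nbh (S : Finset V) : S ⊆ G.nbh S := by
  intro v hv
  rw [mem_nbh']
  exact Or.inl hv

theorem plc_subset_Nb (L : Finset (TE V E Q)) : plc G Q L ⊆ Nb G Q L := subset_nbh G _

theorem nbh_mono {S S' : Finset V} (h : S ⊆ S') : G.nbh S ⊆ G.nbh S' := by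
  intro v hv
  rw [mem_nbh'] at hv ⊢
  rcases hv with hv | ⟨e, he⟩
  · exact Or.inl (h hv)
  · refine Or.inr ⟨e, ?_⟩
    rcases he with ⟨h1, h2⟩ | ⟨h1, h2⟩
    · exact Or.inl ⟨h1, h h2⟩
    · exact Or.inr ⟨h1, h h2⟩

theorem plc_mono {L L' : Finset (TE V E Q)} (h : L ⊆ L') : plc G Q L ⊆ plc G Q L' :=
  Finset.biUnion_subset_biUnion_of_subset_left _ h

theorem mem_plc_src {L : Finset (TE V E Q)} {x : TE V E Q} (h : x ∈ L) :
    ((G.tall Q).src x).1 ∈ plc G Q L := by
  rw [plc, Finset.mem_biUnion]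
  exact ⟨x, h, Finset.mem_insert_self _ _⟩

theorem mem_plc_tgt {L : Finset (TE V E Q)} {x : TE V E Q} (h : x ∈ L) :
    ((G.tall Q).tgt x).1 ∈ plc G Q L := by
  rw [plc, Finset.mem_biUnion]
  exact ⟨x, h, Finset.mem_insert_of_mem (Finset.mem_singleton_self _)⟩

/-- edges in `L` touch the fibers over `plc L` -/
theorem mem_incT_plc {L : Finset (TE V E Q)} {x : TE V E Q} (h : x ∈ L) :
    x ∈ incT G Q (plc G Q L) := Or.inl (mem_plc_src G h)

theorem incT_mono {U U' : Finset V} (h : U ⊆ U') : incT G Q U ⊆ incT G Q U' := by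
  rintro x (hx | hx)
  · exact Or.inl (h hx)
  · exact Or.inr (h hx)

/-- the edge `(e, l)` of the tall graph touches the fibers over `U` iff `e` touches `U` -/
theorem inl_mem_incT {U : Finset V} {e : E} {l : Fin (Q + 1)} :
    (Sum.inl (e, l) : TE V E Q) ∈ incT G Q U ↔ e ∈ G.inc U := Iff.rfl

/-- `iota y` and `iota y'` agree near `U` if `y` and `y'` do -/
theorem iota_agree {U : Finset V} {y y' : E → ZMod 2} (h : G.Agree U y y') (x : TE V E Q)
    (hx : x ∈ incT G Q U) : iota y x = iota y' x := by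
  rcases x with p | p
  · have h1 : y p.1 = y' p.1 := h p.1 hx
    show (if p.2 = 0 then y p.1 else 0) = if p.2 = 0 then y' p.1 else 0
    rw [h1]
  · rfl

/-- `iota γ` vanishes near `U` if `γ` does -/
theorem iota_eq_zero {U : Finset V} {γ : E → ZMod 2} (h : ∀ e ∈ G.inc U, γ e = 0) (x : TE V E Q)
    (hx : x ∈ incT G Q U) : iota γ x = 0 := by
  rcases x with p | p
  · have h1 : γ p.1 = 0 := h p.1 hx
    show (if p.2 = 0 then γ p.1 else 0) = 0
    rw [h1, ite_self]
  · rfl

end

end FrC
end

section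

/-!
The tall graph: boundary of the special chains.
-/

set_option linter.unusedSectionVars false

namespace FrC

open Finset Fr56
open scoped Classical

section
variable {V E : Type} [Fintype V] [Fintype E] [DecidableEq V] [DecidableEq E] (G : Gph V E)
  {Q : ℕ}

theorem iota_add (y z : E → ZMod 2) :
    (iota (y + z) : TE V E Q → ZMod 2) = iota y + iota z := by
  funext x
  rcases x with x | x
  · simp only [iota, Pi.add_apply]
    split_ifs <;> simp
  · simp [iota]

theorem bd_iota (y : E → ZMod 2) (p : TV V Q) :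
    (G.tall Q).bd (iota y) p = if p.2 = 0 then G.bd y p.1 else 0 := by
  obtain ⟨v, j⟩ := p
  unfold Gph.bd
  rw [Fintype.sum_sum_type]
  have h2 : (∑ x : V × Fin Q,
      ((if (G.tall Q).src (Sum.inr x) = (v, j) then iota y (Sum.inr x : TE V E Q) else 0) +
      (if (G.tall Q).tgt (Sum.inr x) = (v, j) then iota y (Sum.inr x : TE V E Q) else 0))) = 0 := by
    refine Finset.sum_eq_zero fun x _ => ?_
    simp [iota]
  rw [h2, add_zero, Fintype.sum_prod_type]
  simp only [Gph.tall, iota, Prod.mk.injEq]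
  by_cases hj : j = 0
  · subst hj
    rw [if_pos rfl]
    refine Finset.sum_congr rfl fun e _ => ?_
    rw [Finset.sum_eq_single (0 : Fin (Q + 1))]
    · simp
    · intro b _ hb
      simp [hb]
    · simp
  · rw [if_neg hj]
    refine Finset.sum_eq_zero fun e _ => Finset.sum_eq_zero fun b _ => ?_
    by_cases hb : b = 0
    · subst hb
      simp [Ne.symm hj]
    · simp [hb]

theorem bd_iota_path (y : E → ZMod 2) (s t : V) (h : G.bd y = pt s + pt t) :
    (G.tall Q).bd (iota y) = pt (s, 0) + pt (t, 0) := by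
  funext p
  obtain ⟨v, j⟩ := p
  rw [bd_iota, h]
  simp only [pt, Pi.add_apply, Pi.single_apply, Prod.mk.injEq]
  by_cases hj : j = 0 <;> simp [hj]

/-- the boundary of a single edge -/
theorem Gph.bd_single {V E : Type} [Fintype E] [DecidableEq V] [DecidableEq E] (G : Gph V E)
    (e : E) : G.bd (Pi.single e 1) = pt (G.src e) + pt (G.tgt e) := by
  funext v
  simp only [Gph.bd, pt, Pi.add_apply, Pi.single_apply]
  rw [Finset.sum_eq_single e]
  · simp [eq_comm]
  · intro b _ hb
    simp [hb]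
  · simp

/-- one step of a vertical path -/
theorem col_succ (v : V) (l : ℕ) (h : l < Q) :
    (col v (⟨l + 1, by omega⟩ : Fin (Q + 1)) : TE V E Q → ZMod 2) =
      col v (⟨l, by omega⟩ : Fin (Q + 1)) + Pi.single (Sum.inr (v, (⟨l, h⟩ : Fin Q))) 1 := by
  funext x
  rcases x with x | ⟨u, i⟩
  · simp [col]
  · simp only [col, Pi.add_apply, Pi.single_apply, Sum.inr.injEq, Prod.mk.injEq, Fin.ext_iff]
    by_cases hu : u = v
    · by_cases h1 : i.val < l
      · have h2 : i.val < l + 1 := by omega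
        have h3 : ¬ i.val = l := by omega
        simp [hu, h1, h2, h3]
      · by_cases h3 : i.val = l
        · simp [hu, h3]
        · have h2 : ¬ i.val < l + 1 := by omega
          simp [hu, h1, h2, h3]
    · simp [hu]

theorem bd_col_aux (v : V) (l : ℕ) (h : l < Q + 1) :
    (G.tall Q).bd (col v (⟨l, h⟩ : Fin (Q + 1))) = pt (v, 0) + pt (v, ⟨l, h⟩) := by
  induction l with
  | zero =>
    have h0 : (col v (⟨0, h⟩ : Fin (Q + 1)) : TE V E Q → ZMod 2) = 0 := by
      funext x
      rcases x with x | x <;> simp [col]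
    rw [h0, Gph.bd_zero]
    have h1 : (⟨0, h⟩ : Fin (Q + 1)) = 0 := rfl
    rw [h1, add_self2]
  | succ l ih =>
    rw [col_succ v l (by omega), Gph.bd_add, ih (by omega), Gph.bd_single]
    have h1 : (G.tall Q).src (Sum.inr (v, (⟨l, by omega⟩ : Fin Q))) = (v, ⟨l, by omega⟩) := rfl
    have h2 : (G.tall Q).tgt (Sum.inr (v, (⟨l, by omega⟩ : Fin Q))) = (v, ⟨l + 1, by omega⟩) := rfl
    rw [h1, h2, add_assoc, ← add_assoc (pt (v, (⟨l, by omega⟩ : Fin (Q + 1)))), add_self2, zero_add]

theorem bd_col (v : V) (l : Fin (Q + 1)) :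
    (G.tall Q).bd (col v l) = pt (v, 0) + pt (v, l) := bd_col_aux G v l.1 l.2

theorem bd_Fch (e : E) (l l' : Fin (Q + 1)) : (G.tall Q).bd (Fch G e l l') = 0 := by
  unfold Fch
  simp only [Gph.bd_add, Gph.bd_single, bd_col]
  have h1 : ∀ m : Fin (Q + 1), (G.tall Q).src (Sum.inl (e, m)) = (G.src e, m) := fun _ => rfl
  have h2 : ∀ m : Fin (Q + 1), (G.tall Q).tgt (Sum.inl (e, m)) = (G.tgt e, m) := fun _ => rfl
  simp only [h1, h2]
  funext p
  simp only [Pi.add_apply, Pi.zero_apply]
  generalize (pt (G.src e, l) p : ZMod 2) = a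
  generalize (pt (G.tgt e, l) p : ZMod 2) = b
  generalize (pt (G.src e, l') p : ZMod 2) = c
  generalize (pt (G.tgt e, l') p : ZMod 2) = d
  generalize (pt (G.src e, (0 : Fin (Q + 1))) p : ZMod 2) = f
  generalize (pt (G.tgt e, (0 : Fin (Q + 1))) p : ZMod 2) = g
  revert a b c d f g
  decide

theorem bd_Fs (S : Finset (FI E Q)) : (G.tall Q).bd (Fs G S) = 0 := by
  unfold Fs
  rw [Gph.bd_sum]
  exact Finset.sum_eq_zero fun s _ => bd_Fch G _ _ _

/-- the support of a vertical path -/
theorem col_supp (v : V) (l : Fin (Q + 1)) (x : TE V E Q) (h : col v l x ≠ 0) :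
    ((G.tall Q).src x).1 = v ∧ ((G.tall Q).tgt x).1 = v := by
  rcases x with x | ⟨u, i⟩
  · simp [col] at h
  · simp only [col] at h
    split_ifs at h with h1
    · exact ⟨h1.1, h1.1⟩
    · exact absurd rfl h

/-- the support of an elementary closed chain lies over its base edge -/
theorem Fch_supp (e : E) (l l' : Fin (Q + 1)) (x : TE V E Q) (h : Fch G e l l' x ≠ 0) :
    (((G.tall Q).src x).1 = G.src e ∨ ((G.tall Q).src x).1 = G.tgt e) ∧
    (((G.tall Q).tgt x).1 = G.src e ∨ ((G.tall Q).tgt x).1 = G.tgt e) := by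
  by_contra hc
  apply h
  have hs : ∀ m : Fin (Q + 1), (Pi.single (Sum.inl (e, m)) 1 : TE V E Q → ZMod 2) x = 0 := by
    intro m
    rw [Pi.single_apply]
    split_ifs with hx
    · exfalso
      apply hc
      subst hx
      exact ⟨Or.inl rfl, Or.inr rfl⟩
    · rfl
  have hcol1 : ∀ m : Fin (Q + 1), (col (G.src e) m : TE V E Q → ZMod 2) x = 0 := by
    intro m
    by_contra hm
    have := col_supp G _ _ _ hm
    exact hc ⟨Or.inl this.1, Or.inl this.2⟩
  have hcol2 : ∀ m : Fin (Q + 1), (col (G.tgt e) m : TE V E Q → ZMod 2) x = 0 := by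
    intro m
    by_contra hm
    have := col_supp G _ _ _ hm
    exact hc ⟨Or.inr this.1, Or.inr this.2⟩
  simp only [Fch, Pi.add_apply, hs, hcol1, hcol2, add_zero]

/-- the support of a sum of elementary closed chains -/
theorem Fs_supp (S : Finset (FI E Q)) (x : TE V E Q) (h : Fs G S x ≠ 0) :
    ∃ s ∈ S, (((G.tall Q).src x).1 = G.src s.1 ∨ ((G.tall Q).src x).1 = G.tgt s.1) ∧
    (((G.tall Q).tgt x).1 = G.src s.1 ∨ ((G.tall Q).tgt x).1 = G.tgt s.1) := by
  unfold Fs at h
  rw [Finset.sum_apply] at h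
  obtain ⟨s, hs, hx⟩ := Finset.exists_ne_zero_of_sum_ne_zero h
  exact ⟨s, hs, Fch_supp G _ _ _ x hx⟩

/-- sums of elementary closed chains vanish at the edges touching `U` if their base edges do not
touch `U` -/
theorem Fs_eq_zero (S : Finset (FI E Q)) (U : Finset V) (hS : ∀ s ∈ S, s.1 ∉ G.inc U)
    (x : TE V E Q) (hx : x ∈ incT G Q U) : Fs G S x = 0 := by
  by_contra h
  obtain ⟨s, hs, h1, h2⟩ := Fs_supp G S x h
  apply hS s hs
  rcases hx with hx | hx
  · rcases h1 with h1 | h1
    · exact Or.inl (h1 ▸ hx)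
    · exact Or.inr (h1 ▸ hx)
  · rcases h2 with h2 | h2
    · exact Or.inl (h2 ▸ hx)
    · exact Or.inr (h2 ▸ hx)

end

end FrC
end
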