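import Pool.Agent.Lib.MP_51bb46_lc.S.Reloc
import Pool.Agent.Lib.MP_51bb46_lc.C.Switch3
import Pool.Agent.Lib.MP_51bb46_lc.C.Depth

section

/-!
The torus and its frame.
-/

set_option linter.unusedSectionVars false

namespace FrC

open Finset Fr56
open scoped Classical

/-- vertices of the torus -/
abbrev JJ (M : ℕ) := ZMod M × ZMod M

/-- the torus `(Z/M)²`: the edge `(p, true)` joins `p` and `p + (1, 0)`, the edge `(p, false)` joins
`p` and `p + (0, 1)` -/
def torus (M : ℕ) : Gph (JJ M) (JJ M × Bool) where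
  src e := e.1
  tgt e := if e.2 then (e.1.1 + 1, e.1.2) else (e.1.1, e.1.2 + 1)

/-- points whose row or column contains no point of `U` -/
def tFree {M : ℕ} (U : Finset (JJ M)) (p : JJ M) : Prop :=
  (∀ q ∈ U, q.1 ≠ p.1) ∨ (∀ q ∈ U, q.2 ≠ p.2)

section
variable {M : ℕ} [NeZero M]

private theorem torus_bd_single (e : JJ M × Bool) :
    (torus M).bd (Pi.single e 1) = pt ((torus M).src e) + pt ((torus M).tgt e) := by
  funext v
  simp only [Gph.bd, Pi.add_apply, pt]
  rw [Finset.sum_eq_single e]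
  · rw [Pi.single_eq_same, Pi.single_apply, Pi.single_apply]
    congr 1
    · by_cases h : (torus M).src e = v
      · rw [if_pos h, if_pos h.symm]
      · rw [if_neg h, if_neg (fun h' => h h'.symm)]
    · by_cases h : (torus M).tgt e = v
      · rw [if_pos h, if_pos h.symm]
      · rw [if_neg h, if_neg (fun h' => h h'.symm)]
  · intro f _ hf
    rw [Pi.single_eq_of_ne hf]
    simp
  · intro h
    exact absurd (mem_univ e) h

private theorem exists_col (U : Finset (JJ M)) (hU : U.card < M) (g : JJ M → ZMod M) :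
    ∃ x : ZMod M, ∀ q ∈ U, g q ≠ x := by
  have h1 : (U.image g).card < (univ : Finset (ZMod M)).card := by
    rw [Finset.card_univ, ZMod.card]
    exact lt_of_le_of_lt card_image_le hU
  obtain ⟨x, _, hx⟩ := Finset.exists_mem_notMem_of_card_lt_card h1
  exact ⟨x, fun q hq h => hx (mem_image.2 ⟨q, hq, h⟩)⟩

private theorem card_lt_of_le {U : Finset (JJ M)} (hU : U.card ≤ M - 1) : U.card < M := by
  have := NeZero.pos M
  omega

private def Conn (U : Finset (JJ M)) (s t : JJ M) : Prop :=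
  ∃ γ : JJ M × Bool → ZMod 2, (torus M).bd γ = pt s + pt t ∧ ∀ e ∈ (torus M).inc U, γ e = 0

private theorem Conn.refl (U : Finset (JJ M)) (s : JJ M) : Conn U s s :=
  ⟨0, by rw [Gph.bd_zero, add_self2], fun e _ => rfl⟩

private theorem Conn.symm {U : Finset (JJ M)} {s t : JJ M} (h : Conn U s t) : Conn U t s := by
  obtain ⟨γ, h1, h2⟩ := h
  exact ⟨γ, by rw [h1, add_comm], h2⟩

private theorem Conn.trans {U : Finset (JJ M)} {s t r : JJ M} (h : Conn U s t)
    (h' : Conn U t r) : Conn U s r := by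
  obtain ⟨γ, h1, h2⟩ := h
  obtain ⟨γ', h1', h2'⟩ := h'
  refine ⟨γ + γ', ?_, ?_⟩
  · rw [Gph.bd_add, h1, h1']
    calc pt s + pt t + (pt t + pt r) = pt s + (pt t + pt t) + pt r := by abel
      _ = pt s + pt r := by rw [add_self2, add_zero]
  · intro e he
    rw [Pi.add_apply, h2 e he, h2' e he, add_zero]

private theorem Conn.edge {U : Finset (JJ M)} (e : JJ M × Bool) (h1 : (torus M).src e ∉ U)
    (h2 : (torus M).tgt e ∉ U) : Conn U ((torus M).src e) ((torus M).tgt e) := by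
  refine ⟨Pi.single e 1, torus_bd_single e, ?_⟩
  intro f hf
  have hne : f ≠ e := by
    rintro rfl
    rcases hf with hf | hf
    · exact h1 hf
    · exact h2 hf
  exact Pi.single_eq_of_ne hne _

private theorem Conn.col {U : Finset (JJ M)} {x : ZMod M} (hx : ∀ q ∈ U, q.1 ≠ x)
    (y y' : ZMod M) : Conn U (x, y) (x, y') := by
  have key : ∀ n : ℕ, Conn U (x, y) (x, y + n) := by
    intro n
    induction n with
    | zero => simpa using Conn.refl U (x, y)
    | succ n ih =>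
      refine ih.trans ?_
      have h := Conn.edge (U := U) ((x, y + n), false) (fun h => hx _ h rfl)
        (fun h => hx _ h rfl)
      have h2 : (torus M).tgt ((x, y + n), false) = (x, y + (n + 1 : ℕ)) := by
        simp [torus, add_assoc]
      rw [h2] at h
      exact h
  have h := key (y' - y).val
  rw [ZMod.natCast_zmod_val, add_sub_cancel] at h
  exact h

private theorem Conn.row {U : Finset (JJ M)} {y : ZMod M} (hy : ∀ q ∈ U, q.2 ≠ y)
    (x x' : ZMod M) : Conn U (x, y) (x', y) := by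
  have key : ∀ n : ℕ, Conn U (x, y) (x + n, y) := by
    intro n
    induction n with
    | zero => simpa using Conn.refl U (x, y)
    | succ n ih =>
      refine ih.trans ?_
      have h := Conn.edge (U := U) ((x + n, y), true) (fun h => hy _ h rfl)
        (fun h => hy _ h rfl)
      have h2 : (torus M).tgt ((x + n, y), true) = (x + (n + 1 : ℕ), y) := by
        simp [torus, add_assoc]
      rw [h2] at h
      exact h
  have h := key (x' - x).val
  rw [ZMod.natCast_zmod_val, add_sub_cancel] at h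
  exact h

theorem tFree_anti {U U' : Finset (JJ M)} {t : JJ M} (h : U ⊆ U') (ht : tFree U' t) : tFree U t := by
  rcases ht with ht | ht
  · exact Or.inl fun q hq => ht q (h hq)
  · exact Or.inr fun q hq => ht q (h hq)

theorem tFree_disj {U : Finset (JJ M)} {t : JJ M} (ht : tFree U t) : t ∉ U := by
  intro h
  rcases ht with hf | hf
  · exact hf t h rfl
  · exact hf t h rfl

theorem tFree_ne (U : Finset (JJ M)) (hU : U.card ≤ M - 1) : ∃ t, tFree U t := by
  obtain ⟨x, hx⟩ := exists_col U (card_lt_of_le hU) Prod.fst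
  exact ⟨(x, 0), Or.inl hx⟩

theorem tFree_conn (U : Finset (JJ M)) (t t' : JJ M) (hU : U.card ≤ M - 1) (ht : tFree U t)
    (ht' : tFree U t') :
    ∃ γ : JJ M × Bool → ZMod 2, (torus M).bd γ = pt t + pt t' ∧ ∀ e ∈ (torus M).inc U, γ e = 0 := by
  obtain ⟨x0, hx0⟩ := exists_col U (card_lt_of_le hU) Prod.fst
  obtain ⟨y0, hy0⟩ := exists_col U (card_lt_of_le hU) Prod.snd
  have hub : ∀ r : JJ M, tFree U r → Conn U r (x0, y0) := by
    rintro ⟨x, y⟩ (hr | hr)
    · exact (Conn.col hr y y0).trans (Conn.row hy0 x x0)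
    · exact (Conn.row hr x x0).trans (Conn.col hx0 y y0)
  exact (hub t ht).trans (hub t' ht').symm

/-- the frame of the torus -/
def torusFrame (M : ℕ) [NeZero M] : Frame (torus M) where
  m := M - 1
  Free := tFree
  anti := tFree_anti
  disj := tFree_disj
  ne := tFree_ne
  conn := tFree_conn

theorem noLoop_torus (hM : 2 ≤ M) : (torus M).NoLoop := by
  have : Fact (1 < M) := ⟨hM⟩
  rintro ⟨⟨x, y⟩, b⟩ h
  cases b with
  | true =>
    have h1 : x = x + 1 := congrArg Prod.fst h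
    have h2 : (1 : ZMod M) = 0 := by
      have := h1.symm
      rwa [add_eq_left] at this
    exact one_ne_zero h2
  | false =>
    have h1 : y = y + 1 := congrArg Prod.snd h
    have h2 : (1 : ZMod M) = 0 := by
      have := h1.symm
      rwa [add_eq_left] at this
    exact one_ne_zero h2

theorem deg_torus : (torus M).Deg 4 := by
  intro v
  have hsub : (torus M).star v ⊆
      {(v, true), (v, false), ((v.1 - 1, v.2), true), ((v.1, v.2 - 1), false)} := by
    rintro ⟨⟨x, y⟩, b⟩ he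
    obtain ⟨v1, v2⟩ := v
    rw [Gph.star, mem_filter] at he
    rcases he.2 with h | h
    · have h' : ((x, y) : JJ M) = (v1, v2) := h
      cases b <;> simp [h']
    · cases b with
      | true =>
        have h' : ((x + 1, y) : JJ M) = (v1, v2) := h
        rw [Prod.mk.injEq] at h'
        obtain ⟨h1, h2⟩ := h'
        subst h1 h2
        simp
      | false =>
        have h' : ((x, y + 1) : JJ M) = (v1, v2) := h
        rw [Prod.mk.injEq] at h'
        obtain ⟨h1, h2⟩ := h'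
        subst h1 h2
        simp
  exact (card_le_card hsub).trans card_le_four

end

end FrC
end

section

/-!
Alternation depth and rank.
-/

set_option linter.unusedSectionVars false

namespace FrC

open Finset Fr56
open scoped Classical

section
variable {X Y : Type}

/-- alternation depth over subformulas with at most `s` leaves -/
def rk (s : ℕ) : Fm X → Bool → ℕ
  | .var _, _ => 0
  | .neg f, b => rk s f (!b)
  | .or f g, b => if f.leaves + g.leaves ≤ s then 0
      else max 1 (max (rk s f true) (rk s g true)) + (if b then 0 else 1)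
  | .and f g, b => if f.leaves + g.leaves ≤ s then 0
      else max 1 (max (rk s f false) (rk s g false)) + (if b then 1 else 0)

/-- rank of a formula -/
def lev (s : ℕ) (f : Fm X) : ℕ := min (rk s f true) (rk s f false)

theorem rk_small (s : ℕ) (f : Fm X) (hf : f.leaves ≤ s) (b : Bool) : rk s f b = 0 := by
  induction f generalizing b with
  | var v => rfl
  | neg f ih => exact ih hf (!b)
  | and f g _ _ =>
    have h : f.leaves + g.leaves ≤ s := hf
    simp only [rk, if_pos h]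
  | or f g _ _ =>
    have h : f.leaves + g.leaves ≤ s := hf
    simp only [rk, if_pos h]

theorem rank_neg (s : ℕ) (f : Fm X) : lev s f.neg = lev s f := by
  show min (rk s f (!true)) (rk s f (!false)) = min (rk s f true) (rk s f false)
  rw [min_comm]
  rfl

theorem rank_small (s : ℕ) (f : Fm X) (hf : f.leaves ≤ s) : lev s f = 0 := by
  unfold lev
  rw [rk_small s f hf, rk_small s f hf]
  rfl

/-- for `1 ≤ s` the formulas of rank `0` are those with at most `s` leaves -/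
theorem lev_eq_zero_iff (s : ℕ) (hs : 1 ≤ s) (f : Fm X) : lev s f = 0 ↔ f.leaves ≤ s := by
  refine ⟨fun h => ?_, rank_small s f⟩
  by_contra hcon
  push Not at hcon
  have key : ∀ (f : Fm X), s < f.leaves → ∀ b, 1 ≤ rk s f b := by
    intro f
    induction f with
    | var v =>
      intro h b
      have : (1 : ℕ) = (Fm.var v : Fm X).leaves := rfl
      omega
    | neg f ih => intro h b; exact ih h (!b)
    | and f g _ _ =>
      intro h b
      have h' : ¬ f.leaves + g.leaves ≤ s := by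
        have : f.leaves + g.leaves = (f.and g).leaves := rfl
        omega
      simp only [rk, if_neg h']
      omega
    | or f g _ _ =>
      intro h b
      have h' : ¬ f.leaves + g.leaves ≤ s := by
        have : f.leaves + g.leaves = (f.or g).leaves := rfl
        omega
      simp only [rk, if_neg h']
      omega
  have h1 := key f hcon true
  have h2 := key f hcon false
  unfold lev at h
  omega

theorem rank_or (s : ℕ) (f g : Fm X) (h : ¬ f.leaves + g.leaves ≤ s) :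
    lev s (f.or g) = max 1 (max (rk s f true) (rk s g true)) := by
  simp only [lev, rk, if_neg h, if_true, Bool.false_eq_true, if_false]
  omega

theorem rank_and (s : ℕ) (f g : Fm X) (h : ¬ f.leaves + g.leaves ≤ s) :
    lev s (f.and g) = max 1 (max (rk s f false) (rk s g false)) := by
  simp only [lev, rk, if_neg h, if_true, Bool.false_eq_true, if_false]
  omega

theorem rk_sgn (s : ℕ) (f : Fm X) : rk s f (sgn f) = lev s f := by
  induction f with
  | var v => rfl
  | neg f ih =>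
    rw [rank_neg, ← ih]
    show rk s f (!(!(sgn f))) = rk s f (sgn f)
    rw [Bool.not_not]
  | and f g _ _ =>
    show rk s (f.and g) false = lev s (f.and g)
    by_cases h : f.leaves + g.leaves ≤ s
    · rw [rank_small s (f.and g) h, rk_small s (f.and g) h]
    · rw [rank_and s f g h]
      simp only [rk, if_neg h, Bool.false_eq_true, if_false, add_zero]
  | or f g _ _ =>
    show rk s (f.or g) true = lev s (f.or g)
    by_cases h : f.leaves + g.leaves ≤ s
    · rw [rank_small s (f.or g) h, rk_small s (f.or g) h]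
    · rw [rank_or s f g h]
      simp only [rk, if_neg h, if_true, add_zero]

theorem rk_not_sgn (s : ℕ) (f : Fm X) (hf : lev s f ≠ 0) : rk s f (!(sgn f)) = lev s f + 1 := by
  induction f with
  | var v => exact absurd rfl hf
  | neg f ih =>
    rw [rank_neg] at hf ⊢
    show rk s f (!(!(!(sgn f)))) = lev s f + 1
    rw [Bool.not_not]
    exact ih hf
  | and f g _ _ =>
    show rk s (f.and g) true = lev s (f.and g) + 1
    by_cases h : f.leaves + g.leaves ≤ s
    · exact absurd (rank_small s (f.and g) h) hf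
    · rw [rank_and s f g h]
      simp only [rk, if_neg h, if_true]
  | or f g _ _ =>
    show rk s (f.or g) false = lev s (f.or g) + 1
    by_cases h : f.leaves + g.leaves ≤ s
    · exact absurd (rank_small s (f.or g) h) hf
    · rw [rank_or s f g h]
      simp only [rk, if_neg h, Bool.false_eq_true, if_false]

theorem rank_le (s : ℕ) (f : Fm X) (b : Bool) : lev s f ≤ rk s f b := by
  cases b
  · exact min_le_right _ _
  · exact min_le_left _ _

theorem lev_subs (s : ℕ) (f g : Fm X) (h : f ∈ g.subs) : lev s f ≤ lev s g := by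
  induction g with
  | var v =>
    simp only [Fm.subs, List.mem_singleton] at h
    rw [h]
  | neg g ih =>
    simp only [Fm.subs, List.mem_cons] at h
    rcases h with rfl | h
    · exact le_rfl
    · rw [rank_neg]; exact ih h
  | and g h' ih1 ih2 =>
    simp only [Fm.subs, List.mem_cons, List.mem_append] at h
    by_cases hs : g.leaves + h'.leaves ≤ s
    · rcases h with rfl | h | h
      · exact le_rfl
      · have h1 := ih1 h
        rw [rank_small s g (by omega)] at h1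
        omega
      · have h1 := ih2 h
        rw [rank_small s h' (by omega)] at h1
        omega
    · rcases h with rfl | h | h
      · exact le_rfl
      · have h1 := ih1 h
        have h2 := rank_le s g false
        rw [rank_and s g h' hs]
        omega
      · have h1 := ih2 h
        have h2 := rank_le s h' false
        rw [rank_and s g h' hs]
        omega
  | or g h' ih1 ih2 =>
    simp only [Fm.subs, List.mem_cons, List.mem_append] at h
    by_cases hs : g.leaves + h'.leaves ≤ s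
    · rcases h with rfl | h | h
      · exact le_rfl
      · have h1 := ih1 h
        rw [rank_small s g (by omega)] at h1
        omega
      · have h1 := ih2 h
        rw [rank_small s h' (by omega)] at h1
        omega
    · rcases h with rfl | h | h
      · exact le_rfl
      · have h1 := ih1 h
        have h2 := rank_le s g true
        rw [rank_or s g h' hs]
        omega
      · have h1 := ih2 h
        have h2 := rank_le s h' true
        rw [rank_or s g h' hs]
        omega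

/-- the child of a new formula has the type of the formula or is old -/
theorem rank_child (s i : ℕ) (f : Fm X) (b : Bool) (h1 : rk s f b ≤ i + 1) (h2 : ¬ lev s f ≤ i) :
    sgn f = b := by
  by_contra hcon
  have h3 : b = !(sgn f) := by
    cases b <;> cases hs : sgn f <;> simp_all
  have h4 := rk_not_sgn s f (by omega)
  rw [← h3] at h4
  omega

/-- each rank gives a new class over the previous one -/
theorem newCls (s : ℕ) (hs : 1 ≤ s) (Fs : Finset (Fm X)) (hFs : ∀ f ∈ Fs, ∀ g ∈ f.subs, g ∈ Fs)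
    (i : ℕ) : NewCls {f | f ∈ Fs ∧ lev s f ≤ i} {f | f ∈ Fs ∧ lev s f ≤ i + 1} := by
  have mneg : ∀ f : Fm X, f ∈ f.neg.subs := fun f => by
    simp only [Fm.subs, List.mem_cons]; exact Or.inr (Fm.self_mem_subs _)
  have mor1 : ∀ f g : Fm X, f ∈ (f.or g).subs := fun f g => by
    simp only [Fm.subs, List.mem_cons, List.mem_append]
    exact Or.inr (Or.inl (Fm.self_mem_subs _))
  have mor2 : ∀ f g : Fm X, g ∈ (f.or g).subs := fun f g => by
    simp only [Fm.subs, List.mem_cons, List.mem_append]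
    exact Or.inr (Or.inr (Fm.self_mem_subs _))
  have mand1 : ∀ f g : Fm X, f ∈ (f.and g).subs := fun f g => by
    simp only [Fm.subs, List.mem_cons, List.mem_append]
    exact Or.inr (Or.inl (Fm.self_mem_subs _))
  have mand2 : ∀ f g : Fm X, g ∈ (f.and g).subs := fun f g => by
    simp only [Fm.subs, List.mem_cons, List.mem_append]
    exact Or.inr (Or.inr (Fm.self_mem_subs _))
  refine ⟨?_, ?_, ?_, ?_, ?_, ?_, ?_⟩
  · rintro f ⟨h1, h2⟩
    exact ⟨h1, h2.trans (Nat.le_succ i)⟩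
  · rintro f ⟨h1, _⟩
    constructor
    · rintro ⟨_, h2⟩
      refine ⟨hFs _ h1 _ (mneg f), ?_⟩
      rw [← rank_neg]
      exact h2
    · rintro ⟨_, h2⟩
      refine ⟨h1, ?_⟩
      rw [rank_neg]
      exact h2
  · rintro x ⟨h1, _⟩
    exact ⟨h1, Nat.zero_le i⟩
  · rintro f g ⟨h1, h2⟩
    exact ⟨⟨hFs _ h1 _ (mor1 f g), (lev_subs s _ _ (mor1 f g)).trans h2⟩,
      ⟨hFs _ h1 _ (mor2 f g), (lev_subs s _ _ (mor2 f g)).trans h2⟩⟩
  · rintro f g ⟨h1, h2⟩
    exact ⟨⟨hFs _ h1 _ (mand1 f g), (lev_subs s _ _ (mand1 f g)).trans h2⟩,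
      ⟨hFs _ h1 _ (mand2 f g), (lev_subs s _ _ (mand2 f g)).trans h2⟩⟩
  · rintro f g ⟨h1, h2⟩ h3
    have h4 : ¬ lev s (f.or g) ≤ i := fun h => h3 ⟨h1, h⟩
    have h5 : ¬ f.leaves + g.leaves ≤ s := by
      intro h
      have := rank_small s (f.or g) h
      omega
    rw [rank_or s f g h5] at h2 h4
    constructor
    · by_cases hf : lev s f ≤ i
      · exact Or.inl ⟨hFs _ h1 _ (mor1 f g), hf⟩
      · exact Or.inr (rank_child s i f true (by omega) hf)
    · by_cases hg : lev s g ≤ i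
      · exact Or.inl ⟨hFs _ h1 _ (mor2 f g), hg⟩
      · exact Or.inr (rank_child s i g true (by omega) hg)
  · rintro f g ⟨h1, h2⟩ h3
    have h4 : ¬ lev s (f.and g) ≤ i := fun h => h3 ⟨h1, h⟩
    have h5 : ¬ f.leaves + g.leaves ≤ s := by
      intro h
      have := rank_small s (f.and g) h
      omega
    rw [rank_and s f g h5] at h2 h4
    constructor
    · by_cases hf : lev s f ≤ i
      · exact Or.inl ⟨hFs _ h1 _ (mand1 f g), hf⟩
      · exact Or.inr (rank_child s i f false (by omega) hf)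
    · by_cases hg : lev s g ≤ i
      · exact Or.inl ⟨hFs _ h1 _ (mand2 f g), hg⟩
      · exact Or.inr (rank_child s i g false (by omega) hg)

/-- substituting small formulas into a formula of small depth -/
theorem rk_subst (s : ℕ) (B : Fm Y) (σ : Y → Fm X) (hσ : ∀ v, (σ v).leaves ≤ s) (b : Bool) :
    rk s (B.subst σ) b ≤ alt B b := by
  induction B generalizing b with
  | var v =>
    show rk s (σ v) b ≤ _
    rw [rk_small s _ (hσ v)]
    exact Nat.zero_le _
  | neg f ih => exact ih (!b)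
  | and f g ih1 ih2 =>
    show rk s ((f.subst σ).and (g.subst σ)) b ≤ alt (f.and g) b
    have h1 := ih1 false
    have h2 := ih2 false
    simp only [rk, alt]
    split_ifs <;> omega
  | or f g ih1 ih2 =>
    show rk s ((f.subst σ).or (g.subst σ)) b ≤ alt (f.or g) b
    have h1 := ih1 true
    have h2 := ih2 true
    simp only [rk, alt]
    split_ifs <;> omega

theorem lev_subst (s : ℕ) (B : Fm Y) (σ : Y → Fm X) (hσ : ∀ v, (σ v).leaves ≤ s) :
    lev s (B.subst σ) ≤ depth B := by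
  have h1 := rk_subst s B σ hσ true
  have h2 := rk_subst s B σ hσ false
  unfold lev depth
  omega

end

end FrC
end

section

/-!
Iterating the switching step.
-/

set_option linter.unusedSectionVars false

namespace FrC

open Finset Fr56
open scoped Classical

/-- `Kills Fr v0 j kk k`: given a valuation on `Fr` that decides all formulas of rank at most `i0` of a
family of at most `2^k` formulas by revealing `kk` vertices, there is no refutation (by rules of
size less than `k`) whose lines are formulas of the family of rank at most `i0 + j`. -/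
def Kills {V E : Type} [Fintype E] [DecidableEq V] {G : Gph V E} (Fr : Frame G) (v0 : V)
    (j kk k : ℕ) : Prop :=
  ∀ (X : Type) (Fs : Finset (Fm X)) (s i0 cap : ℕ)
    (S : Valn Fr v0 X {f | f ∈ Fs ∧ lev s f ≤ i0} cap),
    1 ≤ s → (∀ f ∈ Fs, ∀ g ∈ f.subs, g ∈ Fs) → Fs.card ≤ 2 ^ k → k * kk ≤ cap → cap ≤ Fr.m →
    S.Dcds kk → ∀ R : List Rule, (∀ r ∈ R, r.Sound) → (∀ r ∈ R, r.nodes + 1 ≤ k) →
    ∀ F ∈ Fs, lev s F ≤ i0 → S.True' kk F → ∀ b : Fm ℕ, b.Unsat → b.size + 1 ≤ k →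
    ∀ (τ : ℕ → X) (π : List (Fm X)), IsDerivation R F π → b.map τ ∈ π →
    (∀ A ∈ π, A ∈ Fs ∧ lev s A ≤ i0 + j) → False

theorem kills_zero {V E : Type} [Fintype E] [DecidableEq V] {G : Gph V E} (Fr : Frame G) (v0 : V)
    (h0 : Fr.Free ∅ v0) (kk k : ℕ) : Kills Fr v0 0 kk k := by
  intro X Fs s i0 cap S _ hcl _ hkk hcapm hD R hR hRC F _ _ hT b hb hbC τ π hπ hlast hall
  exact Valn.no_refutation S hcapm h0 kk k hD hkk R hR hRC F hT b hb hbC τ π hπ hlast
    (fun A hA B hB => ⟨hcl A (hall A hA).1 B hB, (lev_subs s B A hB).trans (hall A hA).2⟩)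

section
variable {V E : Type} [Fintype V] [Fintype E] [DecidableEq V] [DecidableEq E]
  {G : Gph V E} (Fr : Frame G) (v0 : V)

/-- **the switching step** -/
theorem kills_succ {j kk kk' k Q D Δ R : ℕ} (hkill : Kills Fr v0 j kk k) (hl : G.NoLoop)
    (hdeg : G.Deg Δ) (hQ0 : 0 < Q) (hD : 0 < D) (w0 : A D) (hk : 3 ≤ k) (hR : 0 < R)
    (θ : ℝ) (hθ0 : 0 ≤ θ) (hθ1 : θ ≤ 1) (hθ : (kk' : ℝ) ≤ θ ^ (2 * (Δ + 2)) * 2 ^ D)
    (hQ : (Δ + 2) * kk' ≤ Q)
    (hm : 2 * (1 + Δ) * ((R + (Δ + 2) * kk') + (R + (Δ + 2) * kk') * kk') ≤ Fr.m)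
    (hX : (Fintype.card (TE V E Q) : ℝ) * ((Fintype.card (FI E Q) : ℝ) + 1) *
      (2 * (2 ^ (2 * Δ * (1 + Δ)) * θ)) ≤ 1 / 3)
    (hcard : 2 ^ k * (2 * Fintype.card V) < 2 ^ R) (hK1 : 2 * (1 + Δ) * R ≤ kk)
    (hK2 : 2 * (Δ + 2) * kk' ≤ kk) (hcap : k * kk + (2 * Δ + 10) * kk' ≤ Fr.m) :
    Kills (Fr.blow Q D hQ0 hD) (HV.cen (v0, 0) w0) (j + 1) kk' k := by
  intro X Fs s i0 cap' S' hs hcl hFc hkk hcapm hD' R₀ hR₀ hRC F hF hlev hT b hb hbC τ π hπ hlast
    hall
  have h3 : 3 * kk' ≤ cap' := (Nat.mul_le_mul_right kk' hk).trans hkk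
  set 𝒮 : Finset (Set (Cert V E Q D)) :=
    Fs.image (fun f => certs S' kk' (lst {f | f ∈ Fs ∧ lev s f ≤ i0} f)) with h𝒮def
  have h𝒮 : ∀ 𝒞 ∈ 𝒮, ∀ C ∈ 𝒞, C.1.card ≤ kk' := by
    intro 𝒞 h𝒞 C hC
    rw [h𝒮def, Finset.mem_image] at h𝒞
    obtain ⟨f, _, rfl⟩ := h𝒞
    exact certs_card S' kk' _ C hC
  have hc1 : 𝒮.card * (2 * Fintype.card V) < 2 ^ R := by
    refine lt_of_le_of_lt (Nat.mul_le_mul_right _ ?_) hcard
    exact Finset.card_image_le.trans hFc
  obtain ⟨α, a, hα, hno⟩ := exists_noLong Fr v0 hl hD hQ0 hdeg kk' R (R + (Δ + 2) * kk') θ hθ0 hθ1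
    hθ w0 𝒮 h𝒮 hQ hm hX hc1
  obtain ⟨S, hSD, hST⟩ := switch_logic S' (newCls s hs Fs hcl i0) hdeg h3 hR
    (le_trans (Nat.mul_le_mul_left _ (Nat.le_add_right _ _)) hm) hα
    (fun f hf _ => hno _ (by rw [h𝒮def]; exact Finset.mem_image_of_mem _ hf.1)) hD' hK1 hK2 hcap
  have hkk1 : kk ≤ k * kk := Nat.le_mul_of_pos_left kk (by omega)
  have hkk2 : 2 * kk' ≤ (2 * Δ + 10) * kk' := Nat.mul_le_mul_right kk' (by omega)
  refine hkill X Fs s (i0 + 1) (k * kk) S hs hcl hFc le_rfl (by omega) hSD R₀ hR₀ hRC F hF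
    (by omega) (hST F ⟨hF, hlev⟩ kk (by omega) hT) b hb hbC τ π hπ hlast ?_
  intro A hA
  obtain ⟨h1, h2⟩ := hall A hA
  exact ⟨h1, by omega⟩

end

end FrC
end

section

/-!
Graphs for the iterated switching step.
-/

set_option linter.unusedSectionVars false

namespace FrC

open Finset Fr56
open scoped Classical

/-- degrees of the towers -/
def dg : ℕ → ℕ
  | 0 => 4
  | j + 1 => 2 * (dg j + 2)

theorem tw_const (c x : ℕ) (hx : 2 ≤ x) : c ≤ x ^ c :=
  Nat.lt_two_pow_self.le.trans (Nat.pow_le_pow_left hx c)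

theorem tw_mul {u v x a b : ℕ} (hu : u ≤ x ^ a) (hv : v ≤ x ^ b) : u * v ≤ x ^ (a + b) := by
  rw [pow_add]; exact Nat.mul_le_mul hu hv

theorem tw_add {u v x a b : ℕ} (hx : 2 ≤ x) (hu : u ≤ x ^ a) (hv : v ≤ x ^ b) :
    u + v ≤ x ^ (a + b + 1) := by
  have h1 : x ^ a ≤ x ^ (a + b) := Nat.pow_le_pow_right (by omega) (by omega)
  have h2 : x ^ b ≤ x ^ (a + b) := Nat.pow_le_pow_right (by omega) (by omega)
  have h3 : x ^ (a + b) * 2 ≤ x ^ (a + b) * x := Nat.mul_le_mul_left _ hx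
  rw [pow_succ]; omega

theorem tw_pow {u x a : ℕ} (n : ℕ) (hu : u ≤ x ^ a) : u ^ n ≤ x ^ (a * n) := by
  rw [pow_mul]; exact Nat.pow_le_pow_left hu n

theorem tw_mono {u x a b : ℕ} (hx : 2 ≤ x) (hu : u ≤ x ^ a) (hab : a ≤ b) : u ≤ x ^ b :=
  hu.trans (Nat.pow_le_pow_right (by omega) hab)

theorem tw_one {x : ℕ} : 1 ≤ x ^ 0 := by simp

theorem tw_exp (a : ℕ) : ∃ K : ℕ, ∀ k ≥ K, 2 * (k + 2) ^ a < 2 ^ (2 * k) := by
  have h := tendsto_pow_const_div_const_pow_of_one_lt a (r := (2 : ℝ)) (by norm_num)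
  have h2 := h.eventually_lt_const (show (0 : ℝ) < 1 / 8 by norm_num)
  obtain ⟨K, hK⟩ := Filter.eventually_atTop.1 h2
  refine ⟨K + 1, fun k hk => ?_⟩
  have h3 := hK (k + 2) (by omega)
  have h4 : ((k + 2 : ℕ) : ℝ) ^ a < 1 / 8 * 2 ^ (k + 2) := by
    rwa [div_lt_iff₀ (by positivity)] at h3
  have h5 : (2 : ℝ) * ((k + 2 : ℕ) : ℝ) ^ a < 2 ^ k := by
    have : (2 : ℝ) ^ (k + 2) = 4 * 2 ^ k := by rw [pow_add]; ring
    rw [this] at h4
    nlinarith
  have h6 : (2 : ℝ) ^ k ≤ 2 ^ (2 * k) := pow_le_pow_right₀ (by norm_num) (by omega)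
  have h7 : (2 : ℝ) * ((k + 2 : ℕ) : ℝ) ^ a < 2 ^ (2 * k) := h5.trans_le h6
  exact_mod_cast h7

theorem tw_log (x n : ℕ) (hx : 2 ≤ x) :
    x ^ n ≤ 2 ^ (n * (Nat.log 2 x + 1)) ∧ 2 ^ (n * (Nat.log 2 x + 1)) ≤ x ^ (2 * n) := by
  have h1 : x < 2 ^ (Nat.log 2 x + 1) := Nat.lt_pow_succ_log_self (by norm_num) x
  have h2 : 2 ^ (Nat.log 2 x) ≤ x := Nat.pow_log_le_self 2 (by omega)
  rw [mul_comm n, pow_mul, pow_mul]
  refine ⟨Nat.pow_le_pow_left h1.le n, Nat.pow_le_pow_left ?_ n⟩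
  rw [pow_succ, pow_two]
  exact Nat.mul_le_mul h2 hx

theorem card_TE' {V E : Type} [Fintype V] [Fintype E] (Q : ℕ) :
    Fintype.card (TE V E Q) = Fintype.card E * (Q + 1) + Fintype.card V * Q := by
  simp [TE]

theorem card_FI' {E : Type} [Fintype E] (Q : ℕ) :
    Fintype.card (FI E Q) = Fintype.card E * ((Q + 1) * (Q + 1)) := by
  simp [FI]

/-- the polynomial bounds of one step -/
theorem tw_step (a1 A Δ : ℕ) : ∃ a n : ℕ, ∀ k cV cE Q cTE cFI Z D : ℕ,
    cV ≤ (k + 2) ^ a1 → cE ≤ (k + 2) ^ a1 → Q = (Δ + 2) * A * k + 1 →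
    cTE = cE * (Q + 1) + cV * Q → cFI = cE * ((Q + 1) * (Q + 1)) →
    Z = 6 * cTE * (cFI + 1) * 2 ^ (2 * Δ * (1 + Δ)) + 1 → D = (n + 1) * (Nat.log 2 (k + 2) + 1) →
    0 < D ∧ A * k * Z ^ (2 * (Δ + 2)) ≤ 2 ^ D ∧
    cV * (Q + 1) * 2 ^ D + cTE * (D * 2 ^ D) ≤ (k + 2) ^ a ∧
    cTE * (D * (2 ^ D * 2)) ≤ (k + 2) ^ a := by
  obtain ⟨q, hq⟩ : ∃ q, q = (Δ + 2) * A + 1 + 0 + 1 := ⟨_, rfl⟩
  obtain ⟨q2, hq2⟩ : ∃ q2, q2 = q + 0 + 1 := ⟨_, rfl⟩
  obtain ⟨t, ht⟩ : ∃ t, t = (a1 + q2) + (a1 + q) + 1 := ⟨_, rfl⟩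
  obtain ⟨f, hf⟩ : ∃ f, f = a1 + (q2 + q2) := ⟨_, rfl⟩
  obtain ⟨z, hz⟩ : ∃ z, z = (6 + t + (f + 0 + 1)) + 2 * Δ * (1 + Δ) + 0 + 1 := ⟨_, rfl⟩
  obtain ⟨n, hn⟩ : ∃ n, n = (A + 1) + z * (2 * (Δ + 2)) := ⟨_, rfl⟩
  obtain ⟨d, hd⟩ : ∃ d, d = 2 * (n + 1) := ⟨_, rfl⟩
  refine ⟨((a1 + q2 + d) + (t + (d + d)) + 1) + (t + (d + (d + 1))), n,
    fun k cV cE Q cTE cFI Z D hcV hcE hQ hTE hFI hZ hD => ?_⟩
  have hx : 2 ≤ k + 2 := by omega
  have hk : k ≤ (k + 2) ^ 1 := by simp
  have hQ1 : Q ≤ (k + 2) ^ q := by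
    have e1 : (Δ + 2) * A * k ≤ (k + 2) ^ ((Δ + 2) * A + 1) := tw_mul (tw_const _ _ hx) hk
    have e2 : 1 ≤ (k + 2) ^ 0 := tw_one
    have e3 := tw_add hx e1 e2
    rw [hQ, hq]; exact e3
  have hQ2 : Q + 1 ≤ (k + 2) ^ q2 := by rw [hq2]; exact tw_add hx hQ1 tw_one
  have hTE1 : cTE ≤ (k + 2) ^ t := by
    rw [hTE, ht]; exact tw_add hx (tw_mul hcE hQ2) (tw_mul hcV hQ1)
  have hFI1 : cFI ≤ (k + 2) ^ f := by rw [hFI, hf]; exact tw_mul hcE (tw_mul hQ2 hQ2)
  have hZ1 : Z ≤ (k + 2) ^ z := by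
    have e0 : 1 ≤ (k + 2) ^ 0 := tw_one
    have e1 : 6 * cTE ≤ (k + 2) ^ (6 + t) := tw_mul (tw_const 6 _ hx) hTE1
    have e2 : cFI + 1 ≤ (k + 2) ^ (f + 0 + 1) := tw_add hx hFI1 e0
    have e3 : 6 * cTE * (cFI + 1) ≤ (k + 2) ^ (6 + t + (f + 0 + 1)) := tw_mul e1 e2
    have e4 : 2 ^ (2 * Δ * (1 + Δ)) ≤ (k + 2) ^ (2 * Δ * (1 + Δ)) := Nat.pow_le_pow_left hx _
    have e5 := tw_add hx (tw_mul e3 e4) e0
    rw [hZ, hz]
    exact e5
  have hN : A * k * Z ^ (2 * (Δ + 2)) ≤ (k + 2) ^ n := by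
    rw [hn]; exact tw_mul (tw_mul (tw_const A _ hx) hk) (tw_pow (2 * (Δ + 2)) hZ1)
  obtain ⟨hl1, hl2⟩ := tw_log (k + 2) (n + 1) hx
  rw [← hD] at hl1 hl2
  rw [← hd] at hl2
  have hDd : D ≤ (k + 2) ^ d := Nat.lt_two_pow_self.le.trans hl2
  refine ⟨?_, ?_, ?_, ?_⟩
  · rw [hD]; positivity
  · exact (tw_mono hx hN (Nat.le_succ n)).trans hl1
  · exact tw_mono hx (tw_add hx (tw_mul (tw_mul hcV hQ2) hl2) (tw_mul hTE1 (tw_mul hDd hl2)))
      (by omega)
  · have e1 : 2 ≤ (k + 2) ^ 1 := by rw [pow_one]; exact hx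
    exact tw_mono hx (tw_mul hTE1 (tw_mul hDd (tw_mul hl2 e1))) (by omega)

/-- **graphs for the iterated switching step** -/
theorem towers (j : ℕ) : ∀ A B : ℕ, ∃ a k0 : ℕ, ∀ k ≥ k0, ∃ (V E : Type) (_ : Fintype V)
    (_ : Fintype E) (_ : DecidableEq V) (_ : DecidableEq E) (G : Gph V E) (Fr : Frame G) (v0 : V),
    G.NoLoop ∧ G.Deg (dg j) ∧ Fr.Free ∅ v0 ∧ Fintype.card V ≤ (k + 2) ^ a ∧
    Fintype.card E ≤ (k + 2) ^ a ∧ B * k ^ 2 ≤ Fr.m ∧ Kills Fr v0 j (A * k) k := by
  induction j with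
  | zero =>
    intro A B
    refine ⟨(B + 2 + 1 + 1) + (B + 2 + 1 + 1) + 1, 0, fun k _ => ?_⟩
    have hx : 2 ≤ k + 2 := by omega
    have e1 : 2 ≤ (k + 2) ^ 1 := by rw [pow_one]; exact hx
    have e2 : k ^ 2 ≤ (k + 2) ^ 2 := Nat.pow_le_pow_left (by omega) 2
    have e3 : B * k ^ 2 ≤ (k + 2) ^ (B + 2) := tw_mul (tw_const B _ hx) e2
    have hM := tw_add hx e3 e1
    obtain ⟨M, hMd⟩ : ∃ M, M = B * k ^ 2 + 2 := ⟨_, rfl⟩
    rw [← hMd] at hM
    have : NeZero M := ⟨by omega⟩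
    have hfree : tFree (∅ : Finset (JJ M)) ((0, 0) : JJ M) := Or.inl (by simp)
    refine ⟨JJ M, JJ M × Bool, inferInstance, inferInstance, inferInstance, inferInstance,
      torus M, torusFrame M, (0, 0), noLoop_torus (by omega), deg_torus, hfree, ?_, ?_, ?_,
      kills_zero _ _ hfree _ _⟩
    · rw [show Fintype.card (JJ M) = M * M by simp [JJ]]
      exact tw_mono hx (tw_mul hM hM) (by omega)
    · rw [show Fintype.card (JJ M × Bool) = M * M * 2 by simp [JJ]]
      exact tw_mono hx (tw_mul (tw_mul hM hM) e1) (by omega)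
    · show B * k ^ 2 ≤ M - 1
      omega
  | succ j ih =>
    intro A B
    set Δ := dg j with hΔ
    obtain ⟨a1, k01, h1⟩ := ih (6 * (1 + Δ) + 2 * (Δ + 2) * A)
      (2 * B + 2 * (1 + Δ) * ((3 + (Δ + 2) * A) * (1 + A)) +
        (6 * (1 + Δ) + 2 * (Δ + 2) * A) + (2 * Δ + 10) * A)
    obtain ⟨a, n, hstep⟩ := tw_step a1 A Δ
    obtain ⟨K, hK⟩ := tw_exp a1
    refine ⟨a, k01 + K + 3, fun k hk => ?_⟩
    obtain ⟨V, E, iV, iE, dV, dE, G, Fr, v0, hnl, hdeg, hfree, hcV, hcE, hm, hkill⟩ :=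
      h1 k (by omega)
    obtain ⟨Q, hQ⟩ : ∃ Q, Q = (Δ + 2) * A * k + 1 := ⟨_, rfl⟩
    obtain ⟨Z, hZ⟩ : ∃ Z, Z = 6 * Fintype.card (TE V E Q) * (Fintype.card (FI E Q) + 1) *
      2 ^ (2 * Δ * (1 + Δ)) + 1 := ⟨_, rfl⟩
    obtain ⟨D, hD⟩ : ∃ D, D = (n + 1) * (Nat.log 2 (k + 2) + 1) := ⟨_, rfl⟩
    obtain ⟨hD0, hN, hcV', hcE'⟩ := hstep k _ _ Q _ _ Z D hcV hcE hQ (card_TE' Q) (card_FI' Q) hZ hD
    have hQ0 : 0 < Q := by omega
    refine ⟨HV (TV V Q) (TE V E Q) D, Xt (TE V E Q) D, inferInstance, inferInstance,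
      inferInstance, inferInstance, (G.tall Q).blow D, Fr.blow Q D hQ0 hD0, HV.cen (v0, 0) 0,
      noLoop_blow _ hD0 (noLoop_tall G hnl), ?_, ?_, ?_, ?_, ?_, ?_⟩
    · exact deg_blow (G.tall Q) (noLoop_tall G hnl) (by omega) (deg_tall G hdeg)
    · exact bFree_cen Fr Q D 0 (by simpa [Unc] using hfree)
    · rw [card_HV, card_TV]; exact hcV'
    · rw [card_Xt]; exact hcE'
    · have h2 : B * k ^ 2 * 2 ≤ Fr.m := by
        refine le_trans ?_ hm
        have : B * k ^ 2 * 2 = 2 * B * k ^ 2 := by ring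
        rw [this]
        exact Nat.mul_le_mul_right _ (by omega)
      show B * k ^ 2 ≤ Fr.m / 2
      omega
    · have hk3 : 3 ≤ k := by omega
      have hk1 : 1 ≤ k := by omega
      have hkk : k ≤ k ^ 2 := by nlinarith
      have hZ1 : (1 : ℝ) ≤ Z := by
        have : 1 ≤ Z := by omega
        exact_mod_cast this
      have hZ0 : (0 : ℝ) < Z := by linarith
      refine kills_succ Fr v0 (R := 3 * k) hkill hnl hdeg hQ0 hD0 0 hk3 (by omega) (1 / (Z : ℝ))
        (by positivity) ?_ ?_ ?_ ?_ ?_ ?_ ?_ ?_ ?_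
      · rw [div_le_one hZ0]; exact hZ1
      · have h3 : ((A * k : ℕ) : ℝ) * (Z : ℝ) ^ (2 * (Δ + 2)) ≤ 2 ^ D := by exact_mod_cast hN
        rw [one_div, inv_pow, inv_mul_eq_div, le_div_iff₀ (by positivity)]
        exact h3
      · rw [hQ]; rw [← mul_assoc]; omega
      · refine le_trans ?_ hm
        calc 2 * (1 + Δ) * (3 * k + (Δ + 2) * (A * k) + (3 * k + (Δ + 2) * (A * k)) * (A * k))
            = 2 * (1 + Δ) * ((3 + (Δ + 2) * A) * (k + A * k ^ 2)) := by ring
          _ ≤ 2 * (1 + Δ) * ((3 + (Δ + 2) * A) * (k ^ 2 + A * k ^ 2)) := by gcongr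
          _ = 2 * (1 + Δ) * ((3 + (Δ + 2) * A) * (1 + A)) * k ^ 2 := by ring
          _ ≤ _ := Nat.mul_le_mul_right _ (by omega)
      · have hE : (6 : ℝ) * Fintype.card (TE V E Q) * (Fintype.card (FI E Q) + 1) *
            2 ^ (2 * Δ * (1 + Δ)) ≤ Z := by
          have : 6 * Fintype.card (TE V E Q) * (Fintype.card (FI E Q) + 1) *
            2 ^ (2 * Δ * (1 + Δ)) ≤ Z := by omega
          exact_mod_cast this
        calc (Fintype.card (TE V E Q) : ℝ) * ((Fintype.card (FI E Q) : ℝ) + 1) *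
              (2 * (2 ^ (2 * Δ * (1 + Δ)) * (1 / (Z : ℝ))))
            = (6 * Fintype.card (TE V E Q) * (Fintype.card (FI E Q) + 1) *
              2 ^ (2 * Δ * (1 + Δ))) / Z * (1 / 3) := by ring
          _ ≤ 1 * (1 / 3) := by
              gcongr
              rw [div_le_one hZ0]; exact hE
          _ = 1 / 3 := by ring
      · have h4 := hK k (by omega)
        have h5 : 2 * Fintype.card V < 2 ^ (2 * k) := by omega
        calc 2 ^ k * (2 * Fintype.card V) < 2 ^ k * 2 ^ (2 * k) :=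
              (Nat.mul_lt_mul_left (by positivity)).2 h5
          _ = 2 ^ (3 * k) := by rw [← pow_add]; congr 1; ring
      · calc 2 * (1 + Δ) * (3 * k) = 6 * (1 + Δ) * k := by ring
          _ ≤ _ := Nat.mul_le_mul_right _ (by omega)
      · calc 2 * (Δ + 2) * (A * k) = 2 * (Δ + 2) * A * k := by ring
          _ ≤ _ := Nat.mul_le_mul_right _ (by omega)
      · refine le_trans ?_ hm
        calc k * ((6 * (1 + Δ) + 2 * (Δ + 2) * A) * k) + (2 * Δ + 10) * (A * k)
            = (6 * (1 + Δ) + 2 * (Δ + 2) * A) * k ^ 2 + (2 * Δ + 10) * A * k := by ring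
          _ ≤ (6 * (1 + Δ) + 2 * (Δ + 2) * A) * k ^ 2 + (2 * Δ + 10) * A * k ^ 2 := by gcongr
          _ = ((6 * (1 + Δ) + 2 * (Δ + 2) * A) + (2 * Δ + 10) * A) * k ^ 2 := by ring
          _ ≤ _ := Nat.mul_le_mul_right _ (by omega)

end FrC
end
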